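import Pool.Agent.Helper14.IR.Res

/-!
Block IR-R5: the constant coefficients.

Paper proof. `G(0) H(0) = S(0) = N - 1` (`SS_zero`). `const_ge`: `|G(0)| = ∏ |β_i| > 1` (`Enum.eq` at `0`, `root_gt`, `r ≥ 1`), an integer, so `≥ 2`.
`const_le`: `|β_i| ≤ lam` (`root_le`, `lam^(N-1) = 2N-1`, `lam ≥ 1`), so `|G(0)| ≤ lam^r`.
`const_cop`: if a prime divides `G(0)` and `H(0)` it divides `S(0) = N - 1` and `S'(0) = G'(0) H(0) + G(0) H'(0) = N - 2` (`SS_deriv_zero`), so it divides `1`.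
-/

open Polynomial Finset

namespace Pool.Agent.Helper14.IR

private theorem eval_mul_h12 {N : ℕ} {G H : ℤ[X]} (hf : Fac N G H) :
    G.eval 0 * H.eval 0 = (N : ℤ) - 1 := by
  rw [← eval_mul, hf.mul, SS_zero (by have := hf.hN; omega)]

private theorem abs_eval_h12 {N : ℕ} {G : ℤ[X]} {β : Fin G.natDegree → ℂ} (hβ : Enum N G β) :
    (((G.eval 0).natAbs : ℕ) : ℝ) = ∏ i, ‖β i‖ := by
  have h1 : ((G.eval 0 : ℤ) : ℂ) = ∏ i, (0 - β i) := by
    have h2 : (G.map (Int.castRingHom ℂ)).eval 0 = ((G.eval 0 : ℤ) : ℂ) := by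
      have := eval_intCast_map (Int.castRingHom ℂ) G 0
      simpa using this
    rw [← h2, hβ.eq, eval_prod]
    exact Finset.prod_congr rfl fun i _ => by simp
  have h3 : ‖((G.eval 0 : ℤ) : ℂ)‖ = ∏ i, ‖β i‖ := by
    rw [h1, norm_prod]
    exact Finset.prod_congr rfl fun i _ => by simp
  rw [← h3, Complex.norm_intCast, Nat.cast_natAbs, Int.cast_abs]

theorem const_mul {N : ℕ} {G H : ℤ[X]} (hf : Fac N G H) : (G.eval 0).natAbs * (H.eval 0).natAbs = N - 1 := by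
  rw [← Int.natAbs_mul, eval_mul_h12 hf]
  have := hf.hN
  omega

theorem const_ge {N : ℕ} {G H : ℤ[X]} (hf : Fac N G H) : 2 ≤ (G.eval 0).natAbs := by
  obtain ⟨β, hβ⟩ := exists_enum hf
  have h1 := abs_eval_h12 hβ
  have hne : (Finset.univ : Finset (Fin G.natDegree)).Nonempty := ⟨⟨0, hf.dG⟩, Finset.mem_univ _⟩
  have h2 : (∏ _i : Fin G.natDegree, (1 : ℝ)) < ∏ i, ‖β i‖ :=
    Finset.prod_lt_prod_of_nonempty (fun _ _ => one_pos) (fun i _ => root_gt hf.hN (hβ.root i)) hne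
  rw [Finset.prod_const_one, ← h1] at h2
  have h3 : 1 < (G.eval 0).natAbs := by exact_mod_cast h2
  exact h3

theorem const_le {N : ℕ} {G H : ℤ[X]} (hf : Fac N G H) {lam : ℝ} (h1 : 1 ≤ lam) (hl : lam ^ (N - 1) = 2 * N - 1) :
    (((G.eval 0).natAbs : ℕ) : ℝ) ≤ lam ^ G.natDegree := by
  obtain ⟨β, hβ⟩ := exists_enum hf
  have hN := hf.hN
  have h2 : ∀ i, ‖β i‖ ≤ lam := by
    intro i
    have h3 := root_le hN (hβ.root i)
    rw [← hl] at h3
    exact le_of_pow_le_pow_left₀ (by omega) (by linarith) h3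
  rw [abs_eval_h12 hβ]
  calc ∏ i, ‖β i‖ ≤ ∏ _i : Fin G.natDegree, lam :=
        Finset.prod_le_prod (fun i _ => norm_nonneg _) (fun i _ => h2 i)
    _ = lam ^ G.natDegree := by simp

theorem const_cop {N : ℕ} {G H : ℤ[X]} (hf : Fac N G H) : Nat.Coprime (G.eval 0).natAbs (H.eval 0).natAbs := by
  by_contra hc
  obtain ⟨p, hp, h1, h2⟩ := Nat.Prime.not_coprime_iff_dvd.1 hc
  have hN := hf.hN
  have h3 : (p : ℤ) ∣ G.eval 0 := Int.natCast_dvd.2 h1
  have h4 : (p : ℤ) ∣ H.eval 0 := Int.natCast_dvd.2 h2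
  have h5 : (p : ℤ) ∣ (N : ℤ) - 1 := by
    rw [← eval_mul_h12 hf]
    exact h3.mul_right _
  have h6 : (p : ℤ) ∣ (N : ℤ) - 2 := by
    rw [← SS_deriv_zero (by omega : 3 ≤ N), ← hf.mul, derivative_mul, eval_add, eval_mul, eval_mul]
    exact dvd_add (h4.mul_left _) (h3.mul_right _)
  have h7 : (p : ℤ) ∣ 1 := by
    have := dvd_sub h5 h6
    have h8 : (N : ℤ) - 1 - ((N : ℤ) - 2) = 1 := by ring
    rwa [h8] at this
  have h8 : p ∣ 1 := by exact_mod_cast h7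
  exact hp.one_lt.ne' (Nat.dvd_one.1 h8)

end Pool.Agent.Helper14.IR
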