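import Mathlib

/-!
Project IR (MP_2f4170_nt): `1 + 2x + ... + (n+1) x^n` is irreducible over `ℚ` for every `n ≥ 1`. Definitions.
`N = n + 2`, `SS N` is the reversed polynomial, `(X - 1)^2 * SS N = X^N - N X + (N - 1)`.
-/

open Polynomial Finset

namespace Pool.Agent.Helper14.IR

/-- The reversed polynomial `x^(N-2) + 2 x^(N-3) + ... + (N-1)`. -/
noncomputable def SS (N : ℕ) : ℤ[X] :=
  ∑ k ∈ range (N - 1), C ((k : ℤ) + 1) * X ^ (N - 2 - k)

/-- `1 + X + ... + X^(n-1)`. -/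
noncomputable def geom (n : ℕ) : ℤ[X] := ∑ i ∈ range n, X ^ i

/-- The resultant of `G` and `P`. -/
noncomputable def rs (G P : ℤ[X]) : ℤ := resultant G P

/-- A factorization of `SS N` into nonconstant monic integer polynomials. -/
structure Fac (N : ℕ) (G H : ℤ[X]) : Prop where
  hN : 4 ≤ N
  mG : G.Monic
  mH : H.Monic
  mul : G * H = SS N
  dG : 1 ≤ G.natDegree
  dH : 1 ≤ H.natDegree

theorem Fac.symm {N : ℕ} {G H : ℤ[X]} (h : Fac N G H) : Fac N H G :=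
  ⟨h.hN, h.mH, h.mG, by rw [mul_comm]; exact h.mul, h.dH, h.dG⟩

/-- An enumeration of the complex roots of `G` (which are distinct). -/
structure Enum (N : ℕ) (G : ℤ[X]) (β : Fin G.natDegree → ℂ) : Prop where
  inj : Function.Injective β
  eq : G.map (Int.castRingHom ℂ) = ∏ i, (X - C (β i))
  root : ∀ i, aeval (β i) (SS N) = 0

/-- Numerical consequences of a factorization: `lam ^ (N - 1) = 2 N - 1`, `r` is the degree of `G`, `b` the absolute value of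
its constant coefficient, `v p` the exponent of `p` in the resultant of `G` and `H`. -/
structure Num (N r b : ℕ) (lam : ℝ) (v : ℕ → ℕ) : Prop where
  hN : 4 ≤ N
  r1 : 1 ≤ r
  rN : 2 * r ≤ N - 2
  lam1 : 1 ≤ lam
  lamN : lam ^ (N - 1) = 2 * N - 1
  b2 : 2 ≤ b
  bM : b ∣ N - 1
  c2 : 2 ≤ (N - 1) / b
  cop : Nat.Coprime b ((N - 1) / b)
  bl : (b : ℝ) ≤ lam ^ r
  vC : ∀ p T a m : ℕ, p.Prime → (T = N ∨ T = N - 1) → T = p ^ a * m → ¬ p ∣ m → 1 ≤ a →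
    v p ≤ ∑ h ∈ Icc 1 (a - 1), min r (m * p ^ (a - h) - 1)
  v1 : ∀ p T a m h : ℕ, p.Prime → (T = N ∨ T = N - 1) → T = p ^ a * m → ¬ p ∣ m → 1 ≤ h → h + 1 ≤ a →
    (p : ℝ) ^ v p ≤ ((p : ℝ) ^ (h - 1) * (1 + lam ^ (m * p ^ (a - h)))) ^ r
  en : ((N : ℝ) * (N - 1)) ^ r ≤ b * (N * (N - 1) / 2) * r ^ r * lam ^ (r * (r - 1)) *
    ∏ p ∈ (N * (N - 1)).primeFactors, (p : ℝ) ^ v p

end Pool.Agent.Helper14.IR
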