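import Pool.Agent.Helper14.IR.Res

/-!
Block IR-D1: the determinant argument.

Paper proof. Let `β_i` be the roots of `G` (distinct), `r = deg G`. For `k < r` write `s * v_k = G * a_k + H * w_k` (membership in `span {G, H}`,
`Ideal.mem_span_pair`), and replace `w_k` by its remainder modulo the monic polynomial `G` (`modByMonic`), so `deg w_k < r` and
`s(β_i) v_k(β_i) = H(β_i) w_k(β_i)` for all `i`. Let `V = Matrix.vandermonde β` (`V i l = β_i^l`), `det V ≠ 0` (`Matrix.det_vandermonde_ne_zero_iff`).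
Let `T`, `U` be the integer matrices `T l k = (v_k).coeff l`, `U l k = (w_k).coeff l` (`l, k < r`). Then `diag(s(β_i)) * V * T = diag(H(β_i)) * V * U` over `ℂ`
(`(V * T) i k = v_k(β_i)` because `deg v_k ≤ k < r`), so `∏ s(β_i) * det T = ∏ H(β_i) * det U` (cancel `det V`). `T` is upper triangular with diagonal
`d_k` (`(v_k).coeff l = 0` for `l > k`): `det T = ∏ d_k` (`Matrix.det_of_upperTriangular`). By `rs_prod` and injectivity of `ℤ → ℂ`:
`rs G s * ∏ d_k = rs G H * det U` in `ℤ`.
-/

open Polynomial Finset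

namespace Pool.Agent.Helper14.IR

theorem det_div {N : ℕ} {G H : ℤ[X]} (hf : Fac N G H) (s : ℤ[X]) (v : ℕ → ℤ[X]) (d : ℕ → ℤ)
    (hv : ∀ k < G.natDegree, (v k).natDegree ≤ k ∧ (v k).coeff k = d k)
    (hm : ∀ k < G.natDegree, s * v k ∈ Ideal.span {G, H}) :
    rs G H ∣ (∏ k ∈ range G.natDegree, d k) * rs G s := by
  classical
  obtain ⟨β, hβ⟩ := exists_enum hf
  have hG0 : ∀ i, aeval (β i) G = 0 := by
    intro i
    rw [aeval_def, algebraMap_int_eq, ← eval_map, hβ.eq, eval_prod]
    exact Finset.prod_eq_zero (Finset.mem_univ i) (by simp)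
  have hw : ∀ k, k < G.natDegree → ∃ w : ℤ[X], w.natDegree < G.natDegree ∧
      ∀ i, aeval (β i) s * aeval (β i) (v k) = aeval (β i) H * aeval (β i) w := by
    intro k hk
    obtain ⟨a, b, hab⟩ := Ideal.mem_span_pair.1 (hm k hk)
    refine ⟨b %ₘ G, natDegree_modByMonic_lt b hf.mG ?_, fun i => ?_⟩
    · intro h1
      have h2 := hf.dG
      rw [h1, natDegree_one] at h2
      omega
    · have h3 := congrArg (aeval (β i)) hab
      have h4 := congrArg (aeval (β i)) (modByMonic_add_div b G)
      rw [map_add, map_mul, map_mul, map_mul, hG0 i, mul_zero, zero_add] at h3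
      rw [map_add, map_mul, hG0 i, zero_mul, add_zero] at h4
      rw [← h3, ← h4]
      ring
  choose! w hwd hwe using hw
  set V : Matrix (Fin G.natDegree) (Fin G.natDegree) ℂ := Matrix.vandermonde β with hV
  have hV0 : V.det ≠ 0 := Matrix.det_vandermonde_ne_zero_iff.2 hβ.inj
  set T : Matrix (Fin G.natDegree) (Fin G.natDegree) ℤ := Matrix.of fun l k => (v k).coeff l with hT
  set U : Matrix (Fin G.natDegree) (Fin G.natDegree) ℤ := Matrix.of fun l k => (w k).coeff l with hU
  have hmul : ∀ (u : ℕ → ℤ[X]), (∀ k, k < G.natDegree → (u k).natDegree < G.natDegree) →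
      ∀ i k : Fin G.natDegree, (V * (Int.castRingHom ℂ).mapMatrix
        (Matrix.of fun l k : Fin G.natDegree => (u k).coeff l)) i k = aeval (β i) (u k) := by
    intro u hu i k
    rw [aeval_eq_sum_range' (hu k k.2), Matrix.mul_apply,
      ← Fin.sum_univ_eq_sum_range (fun l => (u k).coeff l • β i ^ l) G.natDegree]
    refine Finset.sum_congr rfl fun l _ => ?_
    rw [hV, Matrix.vandermonde_apply, RingHom.mapMatrix_apply, Matrix.map_apply, Matrix.of_apply, zsmul_eq_mul,
      mul_comm, eq_intCast]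
  have hVT := hmul v fun k hk => lt_of_le_of_lt (hv k hk).1 hk
  have hVU := hmul w hwd
  have hmat : Matrix.diagonal (fun i => aeval (β i) s) * (V * (Int.castRingHom ℂ).mapMatrix T) =
      Matrix.diagonal (fun i => aeval (β i) H) * (V * (Int.castRingHom ℂ).mapMatrix U) := by
    ext i k
    rw [Matrix.diagonal_mul, Matrix.diagonal_mul, hT, hU, hVT, hVU]
    exact hwe k k.2 i
  have hdet := congrArg Matrix.det hmat
  rw [Matrix.det_mul, Matrix.det_mul, Matrix.det_mul, Matrix.det_mul, Matrix.det_diagonal, Matrix.det_diagonal,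
    ← RingHom.map_det, ← RingHom.map_det, ← rs_prod hf.mG hβ, ← rs_prod hf.mG hβ] at hdet
  have hTd : T.det = ∏ k ∈ range G.natDegree, d k := by
    rw [Matrix.det_of_isUpperTriangular, ← Fin.prod_univ_eq_prod_range (fun k => d k) G.natDegree]
    · exact Finset.prod_congr rfl fun k _ => (hv k k.2).2
    · intro l k hlk
      exact coeff_eq_zero_of_natDegree_lt (lt_of_le_of_lt (hv k k.2).1 hlk)
  have key : rs G s * T.det = rs G H * U.det := by
    have h1 : ((rs G s * T.det : ℤ) : ℂ) = ((rs G H * U.det : ℤ) : ℂ) := by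
      rw [Int.cast_mul, Int.cast_mul]
      refine mul_left_cancel₀ hV0 ?_
      rw [eq_intCast, eq_intCast] at hdet
      linear_combination hdet
    exact_mod_cast h1
  refine ⟨U.det, ?_⟩
  rw [← hTd, mul_comm, key]

end Pool.Agent.Helper14.IR
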