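import Mathlib

/-!
Block IR-R2: a bound for the Vandermonde determinant (Hadamard).

Paper proof. Let `B_i = β_i / lam`, `|B_i| ≤ 1`. `∏_{i<j} (β_j - β_i) = lam^(r(r-1)/2) ∏_{i<j} (B_j - B_i)`, and `∏_{i<j} (B_j - B_i) = det V`,
`V = Matrix.vandermonde B` (`Matrix.det_vandermonde`). `|det V|^2 = det (V * Vᴴ)`; `A = V * Vᴴ` is positive semidefinite Hermitian
(`Matrix.posSemidef_self_mul_conjTranspose`), `det A = ∏ eigenvalues` (`Matrix.IsHermitian.det_eq_prod_eigenvalues`), `trace A = ∑ eigenvalues`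
(`Matrix.IsHermitian.trace_eq_sum_eigenvalues`), eigenvalues `≥ 0`; by AM-GM (`Real.inner_le_nnorm_mul_nnorm` is not needed;
`Real.geom_mean_le_arith_mean_weighted` with equal weights `1/r`, or `Finset.prod_le_pow_card..`) `∏ x_i ≤ ((∑ x_i)/r)^r`, and
`trace A = ∑_{i,k} |B_i|^(2k) ≤ r^2`. So `|det V|^2 ≤ r^r`. (`r = 0`: both sides are `1`.) The number of pairs `i < j` is `r (r-1)/2`
(`(∑_j j) * 2 = r (r-1)`, `Finset.sum_range_id_mul_two`); maybe easier: `Matrix.vandermonde β = vandermonde B * diagonal (lam^k)`, so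
`det = det V * ∏_k lam^k`.
-/

open Finset
open scoped ComplexOrder

namespace Pool.Agent.Helper14.IR

private theorem amgm2 {r : ℕ} (z : Fin r → ℝ) (hz : ∀ i, 0 ≤ z i) (hs : ∑ i, z i ≤ (r : ℝ) ^ 2) :
    ∏ i, z i ≤ (r : ℝ) ^ r := by
  rcases Nat.eq_zero_or_pos r with h0 | h0
  · subst h0
    simp
  have hr : (0 : ℝ) < r := by exact_mod_cast h0
  have hsum : ∑ i : Fin r, (1 : ℝ) = r := by simp
  have h1 := Real.geom_mean_le_arith_mean (Finset.univ : Finset (Fin r)) (fun _ => (1 : ℝ)) z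
    (fun _ _ => zero_le_one) (by rw [hsum]; exact hr) (fun i _ => hz i)
  simp only [Real.rpow_one, one_mul, hsum] at h1
  have h2 : (∑ i, z i) / r ≤ r := by
    rw [div_le_iff₀ hr]
    calc ∑ i, z i ≤ (r : ℝ) ^ 2 := hs
      _ = r * r := by ring
  have h3 : (∏ i, z i) ^ ((r : ℝ)⁻¹) ≤ r := h1.trans h2
  have hp : 0 ≤ ∏ i, z i := Finset.prod_nonneg fun i _ => hz i
  have h4 : ((∏ i, z i) ^ ((r : ℝ)⁻¹)) ^ r ≤ (r : ℝ) ^ r :=
    pow_le_pow_left₀ (Real.rpow_nonneg hp _) h3 r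
  rwa [← Real.rpow_natCast, ← Real.rpow_mul hp, inv_mul_cancel₀ hr.ne', Real.rpow_one] at h4

private theorem unit2 {r : ℕ} (B : Fin r → ℂ) (h : ∀ i, ‖B i‖ ≤ 1) :
    ‖(Matrix.vandermonde B).det‖ ^ 2 ≤ (r : ℝ) ^ r := by
  obtain ⟨V, hV⟩ : ∃ V, V = Matrix.vandermonde B := ⟨_, rfl⟩
  have hA := Matrix.posSemidef_self_mul_conjTranspose V
  have hH := hA.isHermitian
  have h1 : ((‖V.det‖ ^ 2 : ℝ) : ℂ) = ((∏ i, hH.eigenvalues i : ℝ) : ℂ) := by
    have h2 := hH.det_eq_prod_eigenvalues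
    rw [Matrix.det_mul, Matrix.det_conjTranspose] at h2
    push_cast
    rw [← Complex.mul_conj']
    exact h2
  have h2 : ‖V.det‖ ^ 2 = ∏ i, hH.eigenvalues i := by exact_mod_cast h1
  rw [← hV, h2]
  refine amgm2 _ (fun i => hA.eigenvalues_nonneg i) ?_
  have h3 : ((∑ i, hH.eigenvalues i : ℝ) : ℂ) = ((∑ i, ∑ k, ‖V i k‖ ^ 2 : ℝ) : ℂ) := by
    have h4 := hH.trace_eq_sum_eigenvalues
    push_cast
    refine (h4.symm).trans ?_
    unfold Matrix.trace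
    refine Finset.sum_congr rfl fun i _ => ?_
    rw [Matrix.diag_apply, Matrix.mul_apply]
    refine Finset.sum_congr rfl fun k _ => ?_
    rw [Matrix.conjTranspose_apply, ← Complex.mul_conj']
    rfl
  have h4 : ∑ i, hH.eigenvalues i = ∑ i, ∑ k, ‖V i k‖ ^ 2 := by exact_mod_cast h3
  rw [h4]
  calc ∑ i, ∑ k, ‖V i k‖ ^ 2 ≤ ∑ i : Fin r, ∑ k : Fin r, (1 : ℝ) := by
        refine Finset.sum_le_sum fun i _ => Finset.sum_le_sum fun k _ => ?_
        rw [hV, Matrix.vandermonde_apply, norm_pow]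
        exact pow_le_one₀ (by positivity) (pow_le_one₀ (norm_nonneg _) (h i))
    _ = (r : ℝ) ^ 2 := by
        simp
        ring

theorem vand_le {r : ℕ} (β : Fin r → ℂ) {lam : ℝ} (h0 : 0 < lam) (h : ∀ i, ‖β i‖ ≤ lam) :
    ‖∏ i, ∏ j ∈ Ioi i, (β j - β i)‖ ^ 2 ≤ (r : ℝ) ^ r * lam ^ (r * (r - 1)) := by
  rw [← Matrix.det_vandermonde]
  obtain ⟨B, hB⟩ : ∃ B : Fin r → ℂ, B = fun i => β i / lam := ⟨_, rfl⟩
  have hl : (lam : ℂ) ≠ 0 := by exact_mod_cast h0.ne'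
  have hB1 : ∀ i, ‖B i‖ ≤ 1 := by
    intro i
    rw [hB]
    simp only
    rw [norm_div, Complex.norm_real, Real.norm_eq_abs, abs_of_pos h0, div_le_one h0]
    exact h i
  have h1 : Matrix.vandermonde β = Matrix.vandermonde B * Matrix.diagonal (fun k : Fin r => (lam : ℂ) ^ (k : ℕ)) := by
    ext i k
    rw [Matrix.mul_diagonal, Matrix.vandermonde_apply, Matrix.vandermonde_apply, ← mul_pow, hB]
    congr 1
    field_simp
  have h2 : (Matrix.diagonal (fun k : Fin r => (lam : ℂ) ^ (k : ℕ))).det = (lam : ℂ) ^ (∑ k ∈ range r, k) := by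
    rw [Matrix.det_diagonal, Finset.prod_pow_eq_pow_sum, Fin.sum_univ_eq_sum_range (fun k => k) r]
  rw [h1, Matrix.det_mul, h2, norm_mul, mul_pow, norm_pow, Complex.norm_real, Real.norm_eq_abs,
    abs_of_pos h0, ← pow_mul, Finset.sum_range_id_mul_two]
  exact mul_le_mul_of_nonneg_right (unit2 B hB1) (by positivity)

end Pool.Agent.Helper14.IR
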