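import Pool.Agent.Helper14.IR.Res
import Pool.Agent.Helper14.IR.Had

/-!
Block IR-R4: the product formula and the energy inequality.

Paper proof. Let `β_i` be the roots of `G`, `r` its degree, `M = N - 1`. From `G * H = S`: `S'(β_i) = G'(β_i) H(β_i)`, and by `root_der`
`N M = β_i (β_i - 1) G'(β_i) H(β_i)`; `G'(β_i) = ∏_{j≠i} (β_i - β_j)` (derivative of `∏ (X - C β_j)`). Multiply over `i`:
`|∏ β_i| = |G(0)|`, `|∏ (β_i - 1)| = |G(1)|`, `∏_i ∏_{j≠i} |β_i - β_j| = |∏_i ∏_{j>i} (β_j - β_i)|^2` (pairs), `∏ H(β_i) = rs G H` (`rs_prod`). This is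
`energy_eq`. All factors on the right are nonnegative integers except the last, so with `|G(1)| ≤ N M / 2` (`G(1) H(1) = S(1) = N M / 2` by `SS_one`, both
integers nonzero), and `vand_le` (`|β_i| ≤ lam` because `|β_i|^(N-1) ≤ 2N - 1 = lam^(N-1)`, `root_le`) we get `energy_le`.
`rs_ne_zero`: from `energy_eq`. `rs_dvd`: from `SS_key` and `G * H = SS N` the polynomial `N M` is in the ideal `(G, H)`:
`N M = X (X-1) (G' H + G H') + (..) G H`, so modulo `G` it is `H * (X (X-1) G')`: `(N M)^r = rs G (C (N M)) = rs G H * rs G (..)` (`rs_C`, `rs_congr`, `rs_mul`).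
-/

open Polynomial Finset

namespace Pool.Agent.Helper14.IR

private theorem aeval_eq56 (P : ℤ[X]) (z : ℂ) : aeval z P = (P.map (Int.castRingHom ℂ)).eval z := by
  rw [eval_map, aeval_def]
  rfl

private theorem cast_eval56 (P : ℤ[X]) (k : ℤ) :
    ((P.eval k : ℤ) : ℂ) = (P.map (Int.castRingHom ℂ)).eval (k : ℂ) := by
  rw [eval_map]
  exact (eval₂_at_apply (Int.castRingHom ℂ) k).symm

private theorem root_G56 {N : ℕ} {G : ℤ[X]} {β : Fin G.natDegree → ℂ} (hβ : Enum N G β)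
    (i : Fin G.natDegree) : aeval (β i) G = 0 := by
  rw [aeval_eq56, hβ.eq, eval_prod]
  apply prod_eq_zero (mem_univ i)
  simp

private theorem der_G56 {N : ℕ} {G : ℤ[X]} {β : Fin G.natDegree → ℂ} (hβ : Enum N G β)
    (i : Fin G.natDegree) : aeval (β i) (derivative G) = ∏ j ∈ univ.erase i, (β i - β j) := by
  rw [aeval_eq56, ← derivative_map, hβ.eq, derivative_prod_finset, eval_finsetSum,
    sum_eq_single i]
  · rw [eval_mul, eval_prod]
    simp
  · intro b _ hb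
    rw [eval_mul, eval_prod, prod_eq_zero (mem_erase.2 ⟨Ne.symm hb, mem_univ i⟩), zero_mul]
    simp
  · intro h
    exact absurd (mem_univ i) h

private theorem pairs56 {r : ℕ} (β : Fin r → ℂ) :
    ‖∏ i, ∏ j ∈ univ.erase i, (β i - β j)‖ = ‖∏ i, ∏ j ∈ Ioi i, (β j - β i)‖ ^ 2 := by
  have h1 : ∀ i : Fin r, (univ.erase i : Finset (Fin r)) = Iio i ∪ Ioi i := by
    intro i
    ext j
    simp only [mem_erase, mem_univ, and_true, mem_union, mem_Iio, mem_Ioi]
    exact ne_iff_lt_or_gt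
  have hd : ∀ i : Fin r, Disjoint (Iio i) (Ioi i) := by
    intro i
    rw [Finset.disjoint_left]
    intro j hj hj'
    rw [mem_Iio] at hj
    rw [mem_Ioi] at hj'
    exact lt_asymm hj hj'
  have h2 : (∏ i, ∏ j ∈ univ.erase i, ‖β i - β j‖) =
      (∏ i, ∏ j ∈ Iio i, ‖β i - β j‖) * ∏ i, ∏ j ∈ Ioi i, ‖β i - β j‖ := by
    rw [← prod_mul_distrib]
    apply prod_congr rfl
    intro i _
    rw [h1 i, prod_union (hd i)]
  have h3 : (∏ i, ∏ j ∈ Iio i, ‖β i - β j‖) = ∏ i, ∏ j ∈ Ioi i, ‖β j - β i‖ := by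
    apply prod_comm'
    intro x y
    simp only [mem_univ, true_and, and_true, mem_Iio, mem_Ioi]
  have h4 : (∏ i, ∏ j ∈ Ioi i, ‖β i - β j‖) = ∏ i, ∏ j ∈ Ioi i, ‖β j - β i‖ := by
    apply prod_congr rfl
    intro i _
    apply prod_congr rfl
    intro j _
    exact norm_sub_rev _ _
  simp only [norm_prod]
  rw [h2, h3, h4, sq]

theorem energy_eq {N : ℕ} {G H : ℤ[X]} (hf : Fac N G H) {β : Fin G.natDegree → ℂ} (hβ : Enum N G β) :
    ((N : ℝ) * (N - 1)) ^ G.natDegree = |((G.eval 0 : ℤ) : ℝ)| * |((G.eval 1 : ℤ) : ℝ)| *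
      ‖∏ i, ∏ j ∈ Ioi i, (β j - β i)‖ ^ 2 * |((rs G H : ℤ) : ℝ)| := by
  have hN := hf.hN
  have hN1 : (1 : ℝ) ≤ N := by
    have : (1 : ℕ) ≤ N := by omega
    exact_mod_cast this
  have hpt : ∀ i, (N : ℂ) * (N - 1) = β i * (β i - 1) * (∏ j ∈ univ.erase i, (β i - β j)) *
      aeval (β i) H := by
    intro i
    rw [root_der hN (hβ.root i), ← hf.mul, derivative_mul, map_add, map_mul, map_mul,
      root_G56 hβ i, zero_mul, add_zero, der_G56 hβ i]
    ring
  have h0 : ‖∏ i, β i‖ = |((G.eval 0 : ℤ) : ℝ)| := by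
    have h1 : ((G.eval 0 : ℤ) : ℂ) = ∏ i, (0 - β i) := by
      rw [cast_eval56, hβ.eq, eval_prod]
      simp
    rw [← Complex.norm_intCast, h1, norm_prod, norm_prod]
    apply prod_congr rfl
    intro i _
    rw [zero_sub, norm_neg]
  have h1 : ‖∏ i, (β i - 1)‖ = |((G.eval 1 : ℤ) : ℝ)| := by
    have h1 : ((G.eval 1 : ℤ) : ℂ) = ∏ i, (1 - β i) := by
      rw [cast_eval56, hβ.eq, eval_prod]
      simp
    rw [← Complex.norm_intCast, h1, norm_prod, norm_prod]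
    apply prod_congr rfl
    intro i _
    exact norm_sub_rev _ _
  have h2 : ‖∏ i, aeval (β i) H‖ = |((rs G H : ℤ) : ℝ)| := by
    rw [← rs_prod hf.mG hβ H, Complex.norm_intCast]
  have h3 : ((N : ℂ) * (N - 1)) ^ G.natDegree = (∏ i, β i) * (∏ i, (β i - 1)) *
      (∏ i, ∏ j ∈ univ.erase i, (β i - β j)) * ∏ i, aeval (β i) H := by
    rw [← prod_mul_distrib, ← prod_mul_distrib, ← prod_mul_distrib]
    have h4 : ((N : ℂ) * (N - 1)) ^ G.natDegree =
        ∏ _i : Fin G.natDegree, ((N : ℂ) * (N - 1)) := by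
      rw [prod_const, card_univ, Fintype.card_fin]
    rw [h4]
    apply prod_congr rfl
    intro i _
    exact hpt i
  have h5 : ‖((N : ℂ) * (N - 1)) ^ G.natDegree‖ = ((N : ℝ) * (N - 1)) ^ G.natDegree := by
    rw [norm_pow, norm_mul]
    congr 2
    · exact Complex.norm_natCast N
    · have : ((N : ℂ) - 1) = (((N : ℝ) - 1 : ℝ) : ℂ) := by push_cast; rfl
      rw [this, Complex.norm_real, Real.norm_of_nonneg (by linarith)]
  rw [← h5, h3, norm_mul, norm_mul, norm_mul, h0, h1, h2, pairs56]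

private theorem one_le_abs56 {k : ℤ} (hk : k ≠ 0) : (1 : ℝ) ≤ |(k : ℝ)| := by
  have := Int.one_le_abs hk
  exact_mod_cast this

theorem energy_le {N : ℕ} {G H : ℤ[X]} (hf : Fac N G H) {lam : ℝ} (h1 : 1 ≤ lam) (hl : lam ^ (N - 1) = 2 * N - 1) :
    ((N : ℝ) * (N - 1)) ^ G.natDegree ≤ |((G.eval 0 : ℤ) : ℝ)| * (N * (N - 1) / 2) *
      (G.natDegree : ℝ) ^ G.natDegree * lam ^ (G.natDegree * (G.natDegree - 1)) * |((rs G H : ℤ) : ℝ)| := by
  obtain ⟨β, hβ⟩ := exists_enum hf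
  have hN := hf.hN
  have hb : ∀ i, ‖β i‖ ≤ lam := by
    intro i
    have h2 := root_le hN (hβ.root i)
    rw [← hl] at h2
    exact le_of_pow_le_pow_left₀ (by omega) (by linarith) h2
  have hv := vand_le β (by linarith : 0 < lam) hb
  have hS := SS_one (N := N) (by omega)
  rw [← hf.mul, eval_mul] at hS
  have hSR : 2 * (((G.eval 1 : ℤ) : ℝ) * ((H.eval 1 : ℤ) : ℝ)) = (N : ℝ) * (N - 1) := by
    exact_mod_cast hS
  have hN4 : (4 : ℝ) ≤ N := by exact_mod_cast hN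
  have hH1 : H.eval 1 ≠ 0 := by
    intro h0
    rw [h0] at hSR
    push_cast at hSR
    nlinarith
  have hg : |((G.eval 1 : ℤ) : ℝ)| ≤ (N : ℝ) * (N - 1) / 2 := by
    have h3 := one_le_abs56 hH1
    have h4 : |((G.eval 1 : ℤ) : ℝ)| * |((H.eval 1 : ℤ) : ℝ)| = (N : ℝ) * (N - 1) / 2 := by
      rw [← abs_mul]
      have h5 : ((G.eval 1 : ℤ) : ℝ) * ((H.eval 1 : ℤ) : ℝ) = (N : ℝ) * (N - 1) / 2 := by linarith
      rw [h5, abs_of_nonneg]
      nlinarith
    rw [← h4]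
    exact le_mul_of_one_le_right (abs_nonneg _) h3
  rw [energy_eq hf hβ, mul_assoc (|((G.eval 0 : ℤ) : ℝ)| * (N * (N - 1) / 2))]
  apply mul_le_mul_of_nonneg_right _ (abs_nonneg _)
  apply mul_le_mul _ hv (by positivity)
  · apply mul_nonneg (abs_nonneg _)
    nlinarith
  · exact mul_le_mul_of_nonneg_left hg (abs_nonneg _)

theorem rs_ne_zero {N : ℕ} {G H : ℤ[X]} (hf : Fac N G H) : rs G H ≠ 0 := by
  obtain ⟨β, hβ⟩ := exists_enum hf
  intro h0
  have h1 := energy_eq hf hβ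
  rw [h0, Int.cast_zero, abs_zero, mul_zero] at h1
  have hN4 : (4 : ℝ) ≤ N := by exact_mod_cast hf.hN
  have h2 : 0 < (N : ℝ) * (N - 1) := by nlinarith
  exact (pow_pos h2 _).ne' h1

theorem rs_dvd {N : ℕ} {G H : ℤ[X]} (hf : Fac N G H) : rs G H ∣ ((N : ℤ) * (N - 1)) ^ G.natDegree := by
  obtain ⟨β, hβ⟩ := exists_enum hf
  have hN := hf.hN
  have h1 := SS_key (N := N) (by omega)
  rw [← hf.mul, derivative_mul] at h1
  have h2 : C ((N : ℤ) * (N - 1)) = H * (X * (X - 1) * derivative G) +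
      G * (X * (X - 1) * derivative H + (2 * X - C (N : ℤ) * (X - 1)) * H) := by
    rw [h1]
    ring
  rw [← rs_C hf.mG hβ, h2, rs_congr hf.mG hβ, rs_mul hf.mG hβ]
  exact dvd_mul_right _ _

end Pool.Agent.Helper14.IR
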