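import Pool.Agent.Helper14.IR.Poly

/-!
Block IR-P2: from no factorization of `SS N` to irreducibility of `1 + 2x + ... + (n+1) x^n` over `ℚ`.

Paper proof. Let `n ≥ 1`, `N = n + 2`, `P = ∑_{k ≤ n} (k+1) X^k ∈ ℚ[X]`. Its reverse is `SS N` mapped to `ℚ` (compare coefficients, or
`Polynomial.reverse`/`reflect n`). `n = 1`: degree one (`Polynomial.irreducible_of_degree_eq_one`). `n ≥ 2` (`N ≥ 4`): `SS N` is irreducible over
`ℤ`: it is monic (`Polynomial.Monic.irreducible_iff` or `Polynomial.Monic.irreducible_iff_natDegree'` or similar: a monic polynomial is irreducible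
iff it is not `1` and has no factorization into two monic factors of positive degree), and such a factorization is a `Fac N G H`. By Gauss
(`Polynomial.Monic.irreducible_iff_irreducible_map_fraction_map`) `(SS N).map (Int.castRingHom ℚ)` is irreducible over `ℚ`. If `P = A * B` over `ℚ`
then `reverse P = reverse A * reverse B` (`Polynomial.reverse_mul_of_domain`), one of `reverse A`, `reverse B` is a unit, i.e. constant; as
`P 0 ≠ 0` also `A 0, B 0 ≠ 0`, so `reverse` preserves `natDegree` (`Polynomial.natDegree_reverse..`, `reverse_natDegree`), and `A` or `B` is a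
nonzero constant, a unit.
-/

open Polynomial Finset

namespace Pool.Agent.Helper14.IR

private theorem reflect_sum56 (N : ℕ) (s : Finset ℕ) (f : ℕ → ℚ[X]) :
    reflect N (∑ k ∈ s, f k) = ∑ k ∈ s, reflect N (f k) := by
  classical
  induction s using Finset.induction_on with
  | empty => simp
  | insert a s ha ih => rw [sum_insert ha, sum_insert ha, reflect_add, ih]

private theorem coeff_P56 (n j : ℕ) :
    (∑ k ∈ range (n + 1), C ((k : ℚ) + 1) * X ^ k : ℚ[X]).coeff j =
      if j < n + 1 then (j : ℚ) + 1 else 0 := by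
  rw [finsetSum_coeff]
  simp only [coeff_C_mul, coeff_X_pow]
  by_cases hj : j < n + 1
  · rw [if_pos hj, sum_eq_single j]
    · simp
    · intro b _ hb
      rw [if_neg (Ne.symm hb), mul_zero]
    · intro h
      exact absurd (mem_range.2 hj) h
  · rw [if_neg hj]
    apply sum_eq_zero
    intro b hb
    rw [if_neg, mul_zero]
    intro h
    rw [h] at hj
    exact hj (mem_range.1 hb)

private theorem natDegree_P56 (n : ℕ) :
    (∑ k ∈ range (n + 1), C ((k : ℚ) + 1) * X ^ k : ℚ[X]).natDegree = n := by
  apply le_antisymm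
  · rw [natDegree_le_iff_coeff_eq_zero]
    intro j hj
    rw [coeff_P56, if_neg (by omega)]
  · apply le_natDegree_of_ne_zero
    rw [coeff_P56, if_pos (by omega)]
    positivity

private theorem reverse_P56 (n : ℕ) :
    (∑ k ∈ range (n + 1), C ((k : ℚ) + 1) * X ^ k : ℚ[X]).reverse =
      (SS (n + 2)).map (algebraMap ℤ ℚ) := by
  unfold Polynomial.reverse SS
  rw [natDegree_P56, reflect_sum56, Polynomial.map_sum]
  apply sum_congr rfl
  intro k hk
  have hk' : k ≤ n := by
    have := mem_range.1 hk
    omega
  rw [reflect_C_mul_X_pow, revAt_le hk']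
  simp

theorem irr_of (h : ∀ (N : ℕ) (G H : ℤ[X]), ¬ Fac N G H) (n : ℕ) (hn : 1 ≤ n) :
    Irreducible (∑ k ∈ range (n + 1), C ((k : ℚ) + 1) * X ^ k : ℚ[X]) := by
  have hdeg := natDegree_P56 n
  have hrev := reverse_P56 n
  have hc0 : (∑ k ∈ range (n + 1), C ((k : ℚ) + 1) * X ^ k : ℚ[X]).coeff 0 = 1 := by
    rw [coeff_P56, if_pos (by omega)]
    simp
  generalize (∑ k ∈ range (n + 1), C ((k : ℚ) + 1) * X ^ k : ℚ[X]) = P at hdeg hrev hc0 ⊢
  have hP0 : P ≠ 0 := by
    intro h0
    rw [h0, coeff_zero] at hc0
    exact zero_ne_one hc0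
  rcases Nat.lt_or_ge n 2 with h2 | h2
  · have h1 : n = 1 := by omega
    apply irreducible_of_degree_eq_one
    rw [degree_eq_natDegree hP0, hdeg, h1]
    rfl
  · -- the reversed polynomial
    have hm : (SS (n + 2)).Monic := SS_monic (by omega)
    have hnd : (SS (n + 2)).natDegree = n := by
      rw [SS_natDegree (by omega)]
      rfl
    have hI : Irreducible (SS (n + 2)) := by
      rw [hm.irreducible_iff_natDegree]
      constructor
      · intro h1
        rw [h1, natDegree_one] at hnd
        omega
      · intro f g hf hg hfg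
        by_contra hcon
        push Not at hcon
        exact h (n + 2) f g ⟨by omega, hf, hg, hfg, by omega, by omega⟩
    have hQ : Irreducible P.reverse := by
      rw [hrev]
      exact (hm.irreducible_iff_irreducible_map_fraction_map).1 hI
    have hunit : ∀ A : ℚ[X], A.coeff 0 ≠ 0 → IsUnit A.reverse → IsUnit A := by
      intro A hA hu
      have h3 : A.reverse.natDegree = 0 := natDegree_eq_zero_of_isUnit hu
      rw [reverse_natDegree] at h3
      have h4 : A.natTrailingDegree = 0 := by
        rw [natTrailingDegree_eq_zero]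
        exact Or.inr hA
      have h5 : A.natDegree = 0 := by omega
      rw [eq_C_of_natDegree_eq_zero h5]
      exact isUnit_C.2 (IsUnit.mk0 _ hA)
    refine ⟨?_, ?_⟩
    · intro hu
      have := natDegree_eq_zero_of_isUnit hu
      omega
    · intro A B hAB
      have hc : A.coeff 0 * B.coeff 0 = 1 := by
        rw [← mul_coeff_zero, ← hAB, hc0]
      have hA : A.coeff 0 ≠ 0 := left_ne_zero_of_mul_eq_one hc
      have hB : B.coeff 0 ≠ 0 := right_ne_zero_of_mul_eq_one hc
      have h3 : P.reverse = A.reverse * B.reverse := by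
        rw [hAB, reverse_mul_of_domain]
      rcases hQ.isUnit_or_isUnit h3 with h4 | h4
      · exact Or.inl (hunit A hA h4)
      · exact Or.inr (hunit B hB h4)

end Pool.Agent.Helper14.IR
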