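import Pool.Agent.Helper14.IR.LocDefs

/-!
Block IR-LA: basic facts in a local domain with maximal ideal `(p, Y)`, `p` prime, `p ∤ Y`.

Paper proofs.
* `dvd_of_Y`: `p D = Y E`, `p ∣ Y E`, so `p ∣ E = p E'` and `D = Y E'`.
* `mem_sq`: an element of `𝔪^2` (`𝔪 = span {p, Y}`) is `α p^2 + β p Y + γ Y^2`.
* `not_mem_sq`: if `p κ = α p^2 + β p Y + γ Y^2` then `p (κ - α p - β Y) = γ Y^2`, `κ - α p - β Y` is a unit `κ'` (`κ` unit, `p, Y ∈ 𝔪`), `p ∣ γ Y^2`, so `p ∣ γ = p γ'`,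
  `κ' = γ' Y^2 ∈ 𝔪`: contradiction.
* `ord_ex`, induction on `n`. `n = 0`: `G H = ν + p t` is a unit, so `G`, `H` are units (`e = f = 0`). `n + 1`: `G H ∈ 𝔪`, so `G ∈ 𝔪` or `H ∈ 𝔪`. If `G = a p + b Y`:
  `Y (b H - ν Y^n) ∈ (p)`, so `b H = ν Y^n + p t'`; induction for `(b, H)`; `b = g Y^e + p b'` gives `G = g Y^(e+1) + p (a + Y b')`. Same for `H ∈ 𝔪`.
* `ord_uniq`: if `e < f`: `p ∣ Y^e (g - k Y^(f-e))`, the second factor is a unit, so `p ∣ Y^e`, `p ∣ Y`: contradiction; symmetric.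
* `q_cancel`: induction on `k`: `q D = Y (Y^k A)` gives `Y ∣ (p ε + Y^l) D`, `Y ∣ p (ε D)`, `Y ∣ ε D`, `Y ∣ D = Y D'`, `q D' = Y^k A` (domain, `Y ≠ 0`).
-/

open Finset IsLocalRing

namespace Pool.Agent.Helper14.IR

variable {B : Type*} [CommRing B] [IsDomain B] [IsLocalRing B] {p : ℕ} {Y y μ : B}

theorem LS.p_mem (h : LS p Y y μ) : (p : B) ∈ maximalIdeal B := by
  rw [h.max]; exact Ideal.subset_span (by simp)

theorem LS.Y_mem (h : LS p Y y μ) : Y ∈ maximalIdeal B := by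
  rw [h.max]; exact Ideal.subset_span (by simp)

omit [IsDomain B] in
private theorem unit_add38 {u x : B} (hu : IsUnit u) (hx : x ∈ maximalIdeal B) : IsUnit (u + x) := by
  by_contra hn
  have h1 : u + x ∈ maximalIdeal B := (mem_maximalIdeal _).2 hn
  have h2 : u ∈ maximalIdeal B := by
    have := Ideal.sub_mem _ h1 hx
    rwa [add_sub_cancel_right] at this
  exact (mem_maximalIdeal _).1 h2 hu

private theorem uniq38 (h : LS p Y y μ) {g k t s : B} {e f : ℕ} (hg : IsUnit g) (hef : e < f) :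
    ¬ (g * Y ^ e + p * t = k * Y ^ f + p * s) := by
  intro he
  obtain ⟨j, rfl⟩ : ∃ j, f = e + (j + 1) := ⟨f - e - 1, by omega⟩
  have hu : IsUnit (g + -(k * Y ^ (j + 1))) := by
    refine unit_add38 hg (Submodule.neg_mem _ (Ideal.mul_mem_left _ _ ?_))
    exact Ideal.pow_mem_of_mem _ h.Y_mem _ (by omega)
  have h1 : (p : B) ∣ Y ^ e * (g + -(k * Y ^ (j + 1))) := by
    refine ⟨s - t, ?_⟩
    rw [pow_add] at he
    linear_combination he
  rcases h.pp.dvd_or_dvd h1 with h2 | h2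
  · exact h.nd (h.pp.dvd_of_dvd_pow h2)
  · exact h.pp.not_isUnit (isUnit_of_dvd_unit h2 hu)

theorem dvd_of_Y (h : LS p Y y μ) {D : B} (hd : Y ∣ p * D) : Y ∣ D := by
  obtain ⟨E, hE⟩ := hd
  have h1 : (p : B) ∣ Y * E := ⟨D, hE.symm⟩
  rcases h.pp.dvd_or_dvd h1 with h2 | ⟨E', hE'⟩
  · exact absurd h2 h.nd
  · refine ⟨E', mul_left_cancel₀ h.pp.ne_zero ?_⟩
    rw [hE, hE']
    ring

theorem mem_sq (h : LS p Y y μ) {x : B} (hx : x ∈ maximalIdeal B ^ 2) :
    ∃ α β γ : B, x = α * (p : B) ^ 2 + β * (p * Y) + γ * Y ^ 2 := by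
  rw [h.max, pow_two, Ideal.span_pair_mul_span_pair] at hx
  simp only [Ideal.mem_span_insert, Ideal.mem_span_singleton'] at hx
  obtain ⟨a, _, ⟨b, _, ⟨c, _, ⟨d, rfl⟩, rfl⟩, rfl⟩, rfl⟩ := hx
  exact ⟨a, b + c, d, by ring⟩

theorem not_mem_sq (h : LS p Y y μ) {κ : B} (hκ : IsUnit κ) : (p : B) * κ ∉ maximalIdeal B ^ 2 := by
  intro hx
  obtain ⟨α, β, γ, e⟩ := mem_sq h hx
  have hm : α * p + β * Y ∈ maximalIdeal B :=
    Ideal.add_mem _ (Ideal.mul_mem_left _ _ h.p_mem) (Ideal.mul_mem_left _ _ h.Y_mem)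
  have e2 : (p : B) * (κ - (α * p + β * Y)) = γ * Y ^ 2 := by linear_combination e
  have h1 : (p : B) ∣ γ * Y ^ 2 := ⟨_, e2.symm⟩
  rcases h.pp.dvd_or_dvd h1 with ⟨γ', hγ⟩ | h2
  · have e3 : κ - (α * p + β * Y) = γ' * Y ^ 2 := by
      apply mul_left_cancel₀ h.pp.ne_zero
      rw [e2, hγ]
      ring
    have h3 : κ ∈ maximalIdeal B := by
      have e4 : κ = γ' * Y ^ 2 + (α * p + β * Y) := by linear_combination e3
      rw [e4]
      exact Ideal.add_mem _ (Ideal.mul_mem_left _ _ (Ideal.pow_mem_of_mem _ h.Y_mem 2 (by norm_num))) hm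
    exact (mem_maximalIdeal _).1 h3 hκ
  · exact h.nd (h.pp.dvd_of_dvd_pow h2)

theorem ord_ex (h : LS p Y y μ) {n : ℕ} {G H ν t : B} (hν : IsUnit ν) (he : G * H = ν * Y ^ n + p * t) :
    ∃ (e f : ℕ) (g k G' H' : B), e + f = n ∧ IsUnit g ∧ IsUnit k ∧ G = g * Y ^ e + p * G' ∧
      H = k * Y ^ f + p * H' := by
  induction n generalizing G H t with
  | zero =>
    have hu : IsUnit (G * H) := by
      rw [he, pow_zero, mul_one]
      exact unit_add38 hν (Ideal.mul_mem_right _ _ h.p_mem)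
    obtain ⟨hG, hH⟩ := IsUnit.mul_iff.1 hu
    exact ⟨0, 0, G, H, 0, 0, rfl, hG, hH, by simp, by simp⟩
  | succ n ih =>
    have key : ∀ {G H t : B}, G * H = ν * Y ^ (n + 1) + p * t → G ∈ maximalIdeal B →
        ∃ (e f : ℕ) (g k G' H' : B), e + f = n + 1 ∧ IsUnit g ∧ IsUnit k ∧ G = g * Y ^ e + p * G' ∧
          H = k * Y ^ f + p * H' := by
      intro G H t he hG
      rw [h.max, Ideal.mem_span_pair] at hG
      obtain ⟨a, b, hab⟩ := hG
      have e1 : Y * (b * H - ν * Y ^ n) = p * (t - a * H) := by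
        rw [← hab] at he
        linear_combination he
      have h1 : (p : B) ∣ Y * (b * H - ν * Y ^ n) := ⟨_, e1⟩
      rcases h.pp.dvd_or_dvd h1 with h2 | ⟨t', ht'⟩
      · exact absurd h2 h.nd
      · obtain ⟨e, f, g, k, b', H', hef, hg, hk, hb, hH⟩ := ih (G := b) (H := H) (t := t')
          (by linear_combination ht')
        refine ⟨e + 1, f, g, k, a + b' * Y, H', by omega, hg, hk, ?_, hH⟩
        rw [← hab, hb]
        ring
    have hm : G * H ∈ maximalIdeal B := by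
      rw [he, pow_succ]
      exact Ideal.add_mem _ (Ideal.mul_mem_left _ _ (Ideal.mul_mem_left _ _ h.Y_mem))
        (Ideal.mul_mem_right _ _ h.p_mem)
    rcases (maximalIdeal.isMaximal B).isPrime.mem_or_mem hm with hG | hH
    · exact key he hG
    · obtain ⟨e, f, g, k, G', H', hef, hg, hk, h1, h2⟩ := key (G := H) (H := G) (t := t)
        (by rw [mul_comm]; exact he) hH
      exact ⟨f, e, k, g, H', G', by omega, hk, hg, h2, h1⟩

theorem ord_uniq (h : LS p Y y μ) {g k t s : B} {e f : ℕ} (hg : IsUnit g) (hk : IsUnit k)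
    (he : g * Y ^ e + p * t = k * Y ^ f + p * s) : e = f := by
  rcases lt_trichotomy e f with hlt | heq | hlt
  · exact absurd he (uniq38 h hg hlt)
  · exact heq
  · exact absurd he.symm (uniq38 h hk hlt)

theorem q_cancel (h : LS p Y y μ) {ε q A : B} {l k : ℕ} (hε : IsUnit ε) (hl : 1 ≤ l)
    (hq : q = p * ε + Y ^ l) (hd : q ∣ Y ^ k * A) : q ∣ A := by
  induction k with
  | zero =>
    rwa [pow_zero, one_mul] at hd
  | succ k ih =>
    obtain ⟨D, hD⟩ := hd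
    have hY0 : Y ≠ 0 := by
      rintro rfl
      exact h.nd (dvd_zero _)
    obtain ⟨l, rfl⟩ : ∃ j, l = j + 1 := ⟨l - 1, by omega⟩
    have h1 : Y ∣ p * (ε * D) := by
      refine ⟨Y ^ k * A - Y ^ l * D, ?_⟩
      rw [hq] at hD
      linear_combination -hD
    have h2 : Y ∣ D := (hε.dvd_mul_left).1 (dvd_of_Y h h1)
    obtain ⟨D', rfl⟩ := h2
    apply ih
    refine ⟨D', mul_left_cancel₀ hY0 ?_⟩
    linear_combination hD

end Pool.Agent.Helper14.IR
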