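import Pool.Agent.Helper14.IR.LocQ

/-!
Block IR-LB: base case of the local lemma.

Paper proof. `star_base`. Suppose `G`, `H` are both nonunits, so in `𝔪`.
(i) `y` a unit. Then `μ ∈ 𝔪` (`y μ = Y`), `Db 1 = μ * qq 0`, `qq 0 = p ε + Y^(p-1) ∈ 𝔪` (`qq_eq`, `p - 1 ≥ 1`), so `u Db 1 ∈ 𝔪^2`, `y G H ∈ 𝔪^2`, so `p κ ∈ 𝔪^2`, contradiction (`not_mem_sq`).
(ii) `y` not a unit, `p ≠ 2`: `G = p G₀ + Y G₁`, `H = p H₀ + Y H₁`, so `G H = p^2 G₀ H₀ + Y (..)`, with `G H = p g + Y t`: `Y ∣ p (g - p G₀ H₀)`, so `Y ∣ g - p G₀ H₀`, a unit: contradiction.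
(iii) `y` not a unit, `p = 2`: `μ` a unit, `Db 1 = μ (2 ε + Y)` (`qq_eq`, `2^0 (2-1) = 1`), `Y = y μ`: `y G H = u μ Y + 2 (u μ ε - κ)`, so `y ∣ 2 (..)`, `Y ∣ 2 (..)` (`Y = y μ`, `μ` a unit),
 `Y ∣ u μ ε - κ = Y t`, `y G H = u μ Y + 2 Y t = y (u μ^2 + 2 μ t)`, cancel `y` (`y ≠ 0`, as `Y ≠ 0`): `G H = u μ^2 + 2 μ t` is a unit: contradiction.
-/

open Finset IsLocalRing

namespace Pool.Agent.Helper14.IR

variable {B : Type*} [CommRing B] [IsDomain B] [IsLocalRing B] {p : ℕ} {Y y μ : B}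

theorem star_base (h : LS p Y y μ) {G H u κ : B} (hu : IsUnit u) (hκ : IsUnit κ)
    (he : y * G * H = u * Db p Y μ 1 - p * κ)
    (hX : ¬ IsUnit y → p ≠ 2 → ∃ g t : B, IsUnit g ∧ G * H = p * g + Y * t) : IsUnit G ∨ IsUnit H := by
  by_contra hcon
  rw [not_or] at hcon
  obtain ⟨hG, hH⟩ := hcon
  have hGm : G ∈ maximalIdeal B := (mem_maximalIdeal G).2 hG
  have hHm : H ∈ maximalIdeal B := (mem_maximalIdeal H).2 hH
  have hpm := h.p_mem
  have hYm := h.Y_mem
  have hY0 : Y ≠ 0 := by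
    intro h0
    exact h.nd (h0 ▸ dvd_zero _)
  have hnu : ∀ x : B, x ∈ maximalIdeal B → ¬ IsUnit x := fun x hx => (mem_maximalIdeal x).1 hx
  obtain ⟨ε, hε, hq⟩ := qq_eq h 0
  rw [pow_zero, one_mul] at hq
  have hD : Db p Y μ 1 = μ * qq p Y 0 := by
    unfold Db
    rw [prod_range_one]
  have hp2 : 2 ≤ p := h.pr.two_le
  by_cases hy : IsUnit y
  · -- `y` a unit
    have hμ : μ ∈ maximalIdeal B := by
      have h1 : y * μ ∈ maximalIdeal B := by
        rw [h.fac]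
        exact hYm
      obtain ⟨w, rfl⟩ := hy
      have h2 := Ideal.mul_mem_left (maximalIdeal B) (↑w⁻¹ : B) h1
      rwa [Units.inv_mul_cancel_left] at h2
    have hqm : qq p Y 0 ∈ maximalIdeal B := by
      rw [hq]
      refine Ideal.add_mem _ (Ideal.mul_mem_right _ _ hpm) ?_
      exact Ideal.pow_mem_of_mem _ hYm _ (by omega)
    have h1 : u * Db p Y μ 1 ∈ maximalIdeal B ^ 2 := by
      rw [hD, sq]
      exact Ideal.mul_mem_left _ _ (Ideal.mul_mem_mul hμ hqm)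
    have h2 : y * G * H ∈ maximalIdeal B ^ 2 := by
      rw [mul_assoc, sq]
      exact Ideal.mul_mem_left _ _ (Ideal.mul_mem_mul hGm hHm)
    have h3 : (p : B) * κ = u * Db p Y μ 1 - y * G * H := by
      rw [he]
      ring
    refine not_mem_sq h hκ ?_
    rw [h3]
    exact Ideal.sub_mem _ h1 h2
  · have hμ : IsUnit μ := h.un.resolve_left hy
    by_cases hp : p = 2
    · -- `p = 2`
      subst hp
      have hq' : qq 2 Y 0 = (2 : ℕ) * ε + Y := by
        rw [hq]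
        norm_num
      have hfac := h.fac
      obtain ⟨m, hm⟩ := hμ
      have h1 : y ∣ ((2 : ℕ) : B) * (u * μ * ε - κ) := by
        refine ⟨G * H - u * μ * μ, ?_⟩
        have h2 : y * (G * H) = u * (μ * ((2 : ℕ) * ε + Y)) - (2 : ℕ) * κ := by
          rw [← hq', ← hD, ← he]
          ring
        have h3 : y * (G * H - u * μ * μ) = y * (G * H) - u * μ * (y * μ) := by ring
        rw [h3, h2, hfac]
        ring
      have h2 : Y ∣ ((2 : ℕ) : B) * (u * μ * ε - κ) := by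
        obtain ⟨r, hr⟩ := h1
        refine ⟨(↑m⁻¹ : B) * r, ?_⟩
        rw [hr, ← hfac, ← hm, mul_assoc, Units.mul_inv_cancel_left]
      obtain ⟨t, ht⟩ := dvd_of_Y h h2
      have h3 : y * (G * H) = y * (u * μ ^ 2 + (2 : ℕ) * μ * t) := by
        have h4 : y * (G * H) = u * (μ * ((2 : ℕ) * ε + Y)) - (2 : ℕ) * κ := by
          rw [← hq', ← hD, ← he]
          ring
        have h5 : u * (μ * ((2 : ℕ) * ε + Y)) - (2 : ℕ) * κ = u * μ * Y + (2 : ℕ) * (u * μ * ε - κ) := by ring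
        rw [h4, h5, ht, ← hfac]
        ring
      have hy0 : y ≠ 0 := by
        intro h0
        apply hY0
        rw [← hfac, h0, zero_mul]
      have h4 := mul_left_cancel₀ hy0 h3
      have h5 : u * μ ^ 2 ∈ maximalIdeal B := by
        have h6 : u * μ ^ 2 = G * H - (2 : ℕ) * μ * t := by
          rw [h4]
          ring
        rw [h6]
        refine Ideal.sub_mem _ (Ideal.mul_mem_left _ _ hHm) ?_
        rw [mul_assoc]
        exact Ideal.mul_mem_right _ _ hpm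
      refine hnu _ h5 (hu.mul ?_)
      rw [← hm]
      exact (m ^ 2).isUnit
    · -- `p ≠ 2`
      obtain ⟨g, t, hg, hgt⟩ := hX hy hp
      have hG' := hGm
      have hH' := hHm
      rw [h.max, Ideal.mem_span_pair] at hG' hH'
      obtain ⟨G₀, G₁, hG1⟩ := hG'
      obtain ⟨H₀, H₁, hH1⟩ := hH'
      have h1 : Y ∣ (p : B) * (g - p * G₀ * H₀) := by
        refine ⟨G₀ * p * H₁ + G₁ * H₀ * p + G₁ * Y * H₁ - t, ?_⟩
        have h2 : (p : B) * g = G * H - Y * t := by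
          rw [hgt]
          ring
        have h3 : (p : B) * (g - p * G₀ * H₀) = p * g - p * p * G₀ * H₀ := by ring
        rw [h3, h2, ← hG1, ← hH1]
        ring
      obtain ⟨r, hr⟩ := dvd_of_Y h h1
      refine hnu g ?_ hg
      have h2 : g = p * G₀ * H₀ + Y * r := by
        rw [← hr]
        ring
      rw [h2]
      refine Ideal.add_mem _ ?_ (Ideal.mul_mem_right _ _ hYm)
      rw [mul_assoc]
      exact Ideal.mul_mem_right _ _ hpm

end Pool.Agent.Helper14.IR
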