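import Pool.Agent.Helper14.IR.LocQ

/-!
Block IR-LBb: the exceptional case `p = 2`, `e = f = 2^(a-1)`.

Paper proof. `star_B` (`p = 2`, `y` a unit, `l = 2^(a-1)`). Let `D = (1+Y)^l - 1 = Y^l + 2 t₀` (`D_mod`). `(1+Y)^(2^a) - 1 = D (D + 2)`. Multiply the equation by `y`: with `u' = u y⁻²`, `κ' = κ y⁻¹` (units):
 `G H = u' D (D+2) - 2^a κ'` (use `y_Db`). `G = g D + 2 G₂`, `H = k D + 2 H₂` (`G₂ = G' - g t₀`, ..). So
 `D^2 (g k - u') + 2 D (g H₂ + k G₂ - u') + 4 G₂ H₂ + 2^a κ' = 0`. `2 ∣ D^2 (g k - u')`, `2 ∤ D` (`ord_uniq` or `2 ∤ Y^l`), so `g k - u' = 2 w`; divide by `2`: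
 `D^2 w + D (g H₂ + k G₂ - u') + 2 G₂ H₂ + 2^(a-1) κ' = 0`, so (`a ≥ 2`) `2 ∣ D (D w + g H₂ + k G₂ - u')`, `2 ∣ D w + g H₂ + k G₂ - u'`; as `D, 2 ∈ 𝔪`, `g H₂ + k G₂` is a unit, and so is
 `k G₂ - g H₂ = (g H₂ + k G₂) - 2 g H₂`. `k G - g H = 2 (k G₂ - g H₂)`: `2 ∈ (G, H)`, then `g D = G - 2 G₂ ∈ (G, H)`, `D ∈ (G, H)`, `y Db (a-1) = D`, `Db (a-1) ∈ (G, H)`.
-/

open Finset IsLocalRing

namespace Pool.Agent.Helper14.IR

variable {B : Type*} [CommRing B] [IsDomain B] [IsLocalRing B] {p : ℕ} {Y y μ : B}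

theorem star_B {a : ℕ} (h : LS 2 Y y μ) (ha : 2 ≤ a) (hy : IsUnit y) {G H u κ g k G' H' : B} (hu : IsUnit u) (hκ : IsUnit κ)
    (he : y * G * H = u * Db 2 Y μ a - 2 ^ a * κ) (hg : IsUnit g) (hk : IsUnit k)
    (hG : G = g * Y ^ (2 ^ (a - 1)) + 2 * G') (hH : H = k * Y ^ (2 ^ (a - 1)) + 2 * H') :
    (2 : B) ∈ Ideal.span {G, H} ∧ Db 2 Y μ (a - 1) ∈ Ideal.span {G, H} := by
  obtain ⟨b, rfl⟩ : ∃ b, a = b + 2 := ⟨a - 2, by omega⟩
  have e1 : b + 2 - 1 = b + 1 := rfl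
  rw [e1] at hG hH ⊢
  obtain ⟨t₀, -, ht⟩ := D_mod h (b + 1)
  have hp : Prime (2 : B) := by
    have h1 := h.pp
    rwa [Nat.cast_ofNat] at h1
  have h2m : (2 : B) ∈ maximalIdeal B := by
    have h1 := h.p_mem
    rwa [Nat.cast_ofNat] at h1
  have hnd : ¬ (2 : B) ∣ Y := by
    have h1 := h.nd
    rwa [Nat.cast_ofNat] at h1
  have hYm := h.Y_mem
  rw [Nat.cast_ofNat] at ht
  obtain ⟨D, hD⟩ : ∃ D : B, D = (1 + Y) ^ (2 ^ (b + 1)) - 1 := ⟨_, rfl⟩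
  rw [← hD] at ht
  have hda := y_Db h.fac (p := 2) (b + 2)
  have hdb := y_Db h.fac (p := 2) (b + 1)
  rw [← hD] at hdb
  have hsq : (1 + Y) ^ (2 ^ (b + 2)) - 1 = D * (D + 2) := by
    rw [hD, pow_succ 2 (b + 1), pow_mul]
    ring
  rw [hsq] at hda
  obtain ⟨yi, hyi⟩ := hy.exists_right_inv
  -- `D` is in the maximal ideal and not divisible by `2`
  have hDm : D ∈ maximalIdeal B := by
    rw [ht]
    exact Ideal.add_mem _ (Ideal.pow_mem_of_mem _ hYm _ (by positivity)) (Ideal.mul_mem_right _ _ h2m)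
  have hD2 : ¬ (2 : B) ∣ D := by
    intro h1
    rw [ht] at h1
    have h2 : (2 : B) ∣ Y ^ (2 ^ (b + 1)) := (dvd_add_left (Dvd.intro _ rfl)).1 h1
    exact hnd (hp.dvd_of_dvd_pow h2)
  have h20 : (2 : B) ≠ 0 := hp.ne_zero
  -- the product
  have hGH : G * H = u * yi ^ 2 * (D * (D + 2)) - 2 ^ (b + 2) * (κ * yi) := by
    linear_combination (yi * u * yi) * hda + yi * he + (-(G * H) - yi * u * Db 2 Y μ (b + 2)) * hyi
  obtain ⟨G₂, hG₂⟩ : ∃ G₂ : B, G₂ = G' - g * t₀ := ⟨_, rfl⟩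
  obtain ⟨H₂, hH₂⟩ : ∃ H₂ : B, H₂ = H' - k * t₀ := ⟨_, rfl⟩
  have hG2 : G = g * D + 2 * G₂ := by
    rw [hG, hG₂, ht]
    ring
  have hH2 : H = k * D + 2 * H₂ := by
    rw [hH, hH₂, ht]
    ring
  have hmain : D ^ 2 * (g * k - u * yi ^ 2) = 2 * (-(D * (g * H₂ + k * G₂ - u * yi ^ 2) + 2 * (G₂ * H₂) +
      2 ^ (b + 1) * (κ * yi))) := by
    rw [hG2, hH2] at hGH
    linear_combination hGH
  obtain ⟨w, hw⟩ : (2 : B) ∣ g * k - u * yi ^ 2 := by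
    have h1 : (2 : B) ∣ D ^ 2 * (g * k - u * yi ^ 2) := Dvd.intro _ hmain.symm
    rcases hp.dvd_or_dvd h1 with h2 | h2
    · exact absurd (hp.dvd_of_dvd_pow h2) hD2
    · exact h2
  rw [hw] at hmain
  have hmain2 : D * (D * w + g * H₂ + k * G₂ - u * yi ^ 2) = 2 * (-(G₂ * H₂ + 2 ^ b * (κ * yi))) := by
    apply mul_left_cancel₀ h20
    linear_combination hmain
  obtain ⟨v, hv⟩ : (2 : B) ∣ D * w + g * H₂ + k * G₂ - u * yi ^ 2 := by
    rcases hp.dvd_or_dvd (Dvd.intro _ hmain2.symm) with h2 | h2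
    · exact absurd h2 hD2
    · exact h2
  -- units
  have hyiu : IsUnit yi := IsUnit.of_mul_eq_one_right _ hyi
  have hunit : IsUnit (k * G₂ - g * H₂) := by
    by_contra hn
    have h1 : k * G₂ - g * H₂ ∈ maximalIdeal B := (mem_maximalIdeal _).2 hn
    have h2 : u * yi ^ 2 ∈ maximalIdeal B := by
      have h3 : u * yi ^ 2 = (k * G₂ - g * H₂) + D * w + 2 * (g * H₂ - v) := by
        linear_combination -hv
      rw [h3]
      exact Ideal.add_mem _ (Ideal.add_mem _ h1 (Ideal.mul_mem_right _ _ hDm)) (Ideal.mul_mem_right _ _ h2m)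
    exact (mem_maximalIdeal _).1 h2 (hu.mul (hyiu.pow 2))
  have hGm : G ∈ Ideal.span {G, H} := Ideal.subset_span (by simp)
  have hHm : H ∈ Ideal.span {G, H} := Ideal.subset_span (by simp)
  obtain ⟨ci, hci⟩ := hunit.exists_right_inv
  have h2s : (2 : B) ∈ Ideal.span {G, H} := by
    have h3 : (2 : B) = ci * k * G + -(ci * g) * H := by
      rw [hG2, hH2]
      linear_combination (-2) * hci
    have h4 : ci * k * G + -(ci * g) * H ∈ Ideal.span {G, H} :=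
      Ideal.add_mem _ (Ideal.mul_mem_left _ _ hGm) (Ideal.mul_mem_left _ _ hHm)
    rwa [← h3] at h4
  refine ⟨h2s, ?_⟩
  obtain ⟨gi, hgi⟩ := hg.exists_right_inv
  have hDs : D ∈ Ideal.span {G, H} := by
    have h3 : D = gi * G + -(gi * G₂) * 2 := by
      rw [hG2]
      linear_combination (-D) * hgi
    rw [h3]
    exact Ideal.add_mem _ (Ideal.mul_mem_left _ _ hGm) (Ideal.mul_mem_left _ _ h2s)
  have h5 : Db 2 Y μ (b + 1) = yi * D := by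
    rw [← hdb]
    linear_combination (-(Db 2 Y μ (b + 1))) * hyi
  rw [h5]
  exact Ideal.mul_mem_left _ _ hDs

end Pool.Agent.Helper14.IR
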