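import Pool.Agent.Helper14.IR.LocQ

/-!
Block IR-LBc: `G H` modulo `p`.

Paper proofs. `star_mod0` (`y` a unit, `a ≥ 1`): by `Db_mod` `Db a = μ Y^(p^a - 1) + p t`, and `μ = y⁻¹ Y`, so `G H = y⁻¹ u Db a - p^a y⁻¹ κ = (u y⁻²) Y^(p^a) + p (..)`.
`star_mod1` (`μ` a unit, `Y = y μ`): by `Db_mod` `y G H = u μ Y^(p^a - 1) + p t = u μ^2 y Y^(p^a-2) + p t` (`p^a ≥ 2`), so `y ∣ p t`, and (as `y = Y μ⁻¹`, `dvd_of_Y`) `y ∣ t`; cancel `y` (`y ≠ 0` because `Y ≠ 0`, `p ∤ Y`):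
`G H = (u μ^2) Y^(p^a - 2) + p t'`.
-/

open Finset IsLocalRing

namespace Pool.Agent.Helper14.IR

variable {B : Type*} [CommRing B] [IsDomain B] [IsLocalRing B] {p : ℕ} {Y y μ : B}

theorem star_mod0 (h : LS p Y y μ) {a : ℕ} (ha : 1 ≤ a) (hy : IsUnit y) {G H u κ : B} (hu : IsUnit u)
    (he : y * G * H = u * Db p Y μ a - p ^ a * κ) : ∃ ν t : B, IsUnit ν ∧ G * H = ν * Y ^ (p ^ a) + p * t := by
  obtain ⟨t, ht⟩ := Db_mod h a
  obtain ⟨v, hv⟩ := hy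
  have hvi : (↑v⁻¹ : B) * y = 1 := by rw [← hv]; exact v.inv_mul
  have h1 : G * H = (↑v⁻¹ : B) * (u * Db p Y μ a - p ^ a * κ) := by
    rw [← he, ← mul_assoc, ← mul_assoc, hvi, one_mul]
  have hμ : μ = (↑v⁻¹ : B) * Y := by
    rw [← h.fac, ← mul_assoc, hvi, one_mul]
  have hp : p ^ a = p ^ a - 1 + 1 := (Nat.sub_add_cancel (Nat.one_le_pow _ _ h.pr.pos)).symm
  have hpa : (p : B) ^ a = p * (p : B) ^ (a - 1) := by
    rw [← pow_succ', Nat.sub_add_cancel ha]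
  refine ⟨u * (↑v⁻¹ : B) ^ 2, (↑v⁻¹ : B) * (u * t - (p : B) ^ (a - 1) * κ), hu.mul ((Units.isUnit v⁻¹).pow 2), ?_⟩
  have hY : Y ^ (p ^ a) = Y ^ (p ^ a - 1) * Y := by
    conv_lhs => rw [hp]
    exact pow_succ _ _
  rw [h1, ht, hY, hpa]
  nth_rewrite 1 [hμ]
  ring

theorem star_mod1 (h : LS p Y y μ) {a : ℕ} (ha : 1 ≤ a) (hμ : IsUnit μ) {G H u κ : B} (hu : IsUnit u)
    (he : y * G * H = u * Db p Y μ a - p ^ a * κ) : ∃ ν t : B, IsUnit ν ∧ G * H = ν * Y ^ (p ^ a - 2) + p * t := by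
  obtain ⟨t, ht⟩ := Db_mod h a
  have hp2 : 2 ≤ p ^ a := by
    calc 2 ≤ p := h.pr.two_le
      _ = p ^ 1 := (pow_one p).symm
      _ ≤ p ^ a := Nat.pow_le_pow_right h.pr.pos ha
  have hpa : (p : B) ^ a = p * (p : B) ^ (a - 1) := by
    rw [← pow_succ', Nat.sub_add_cancel ha]
  have hY : Y ^ (p ^ a - 1) = Y ^ (p ^ a - 2) * Y := by
    rw [← pow_succ]
    congr 1
    omega
  have h1 : y * (G * H) = y * (u * μ ^ 2 * Y ^ (p ^ a - 2)) + p * (u * t - (p : B) ^ (a - 1) * κ) := by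
    rw [← mul_assoc, he, ht, hY, hpa]
    nth_rewrite 2 [← h.fac]
    ring
  have h2 : y ∣ (p : B) * (u * t - (p : B) ^ (a - 1) * κ) := by
    have h3 : (p : B) * (u * t - (p : B) ^ (a - 1) * κ) = y * (G * H - u * μ ^ 2 * Y ^ (p ^ a - 2)) := by
      linear_combination -h1
    rw [h3]
    exact dvd_mul_right _ _
  obtain ⟨m, hm⟩ := hμ
  have hy : y = Y * (↑m⁻¹ : B) := by
    rw [← h.fac, ← hm, mul_assoc, m.mul_inv, mul_one]
  have h4 : Y ∣ (p : B) * (u * t - (p : B) ^ (a - 1) * κ) := by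
    obtain ⟨z, hz⟩ := h2
    refine ⟨(↑m⁻¹ : B) * z, ?_⟩
    rw [hz, ← mul_assoc, ← hy]
  have h5 := dvd_of_Y h h4
  have h6 : y ∣ u * t - (p : B) ^ (a - 1) * κ := by
    refine Dvd.dvd.trans ?_ h5
    rw [← h.fac]
    exact dvd_mul_right _ _
  obtain ⟨t', ht'⟩ := h6
  have hy0 : y ≠ 0 := by
    rintro rfl
    apply h.nd
    rw [← h.fac, zero_mul]
    exact dvd_zero _
  refine ⟨u * μ ^ 2, t', hu.mul (hm ▸ m.isUnit.pow 2), ?_⟩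
  · apply mul_left_cancel₀ hy0
    rw [h1, ht']
    ring

end Pool.Agent.Helper14.IR
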