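import Pool.Agent.Helper14.IR.Defs

/-!
Project IR, local part: definitions. `B` is a local domain with maximal ideal `(p, Y)`, `p` prime in `B`, `p ∤ Y`; `y * μ = Y`, one of `y`, `μ` a unit.
(Application: `B` the localization of `ℤ[X]` at a maximal ideal containing `p` and `Y = X^m - 1`, `p ∤ m`, `y = X - 1`, `μ = 1 + X + ... + X^(m-1)`.)
`qq k = ∑_{j<p} (1+Y)^(p^k j)`, `Db k = μ ∏_{j<k} qq j`, so that `y * Db k = (1+Y)^(p^k) - 1`.
-/

open Finset

namespace Pool.Agent.Helper14.IR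

structure LS {B : Type*} [CommRing B] [IsDomain B] [IsLocalRing B] (p : ℕ) (Y y μ : B) : Prop where
  pr : p.Prime
  pp : Prime (p : B)
  max : IsLocalRing.maximalIdeal B = Ideal.span {(p : B), Y}
  nd : ¬ (p : B) ∣ Y
  fac : y * μ = Y
  un : IsUnit y ∨ IsUnit μ

variable {B : Type*} [CommRing B]

def qq (p : ℕ) (Y : B) (k : ℕ) : B := ∑ j ∈ range p, (1 + Y) ^ (p ^ k * j)

def Db (p : ℕ) (Y μ : B) (k : ℕ) : B := μ * ∏ j ∈ range k, qq p Y j

/-- The conclusion of the local lemma. -/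
def KK (p : ℕ) (Y μ : B) (a : ℕ) (G H : B) : Prop :=
  (p : B) ^ (a - 1) ∈ Ideal.span {G, H} ∧
    ∀ k, 1 ≤ k → k + 1 ≤ a → (p : B) ^ (a - 1 - k) * Db p Y μ k ∈ Ideal.span {G, H}

theorem KK_symm {p : ℕ} {Y μ : B} {a : ℕ} {G H : B} (h : KK p Y μ a G H) : KK p Y μ a H G := by
  unfold KK at *
  rwa [Set.pair_comm] at h

theorem KK_unit_left {p : ℕ} {Y μ : B} {a : ℕ} {G H : B} (h : IsUnit G) : KK p Y μ a G H := by
  have h1 : Ideal.span {G, H} = ⊤ :=
    Ideal.eq_top_of_isUnit_mem _ (Ideal.subset_span (by simp)) h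
  unfold KK
  rw [h1]
  exact ⟨trivial, fun _ _ _ => trivial⟩

theorem KK_unit_right {p : ℕ} {Y μ : B} {a : ℕ} {G H : B} (h : IsUnit H) : KK p Y μ a G H :=
  KK_symm (KK_unit_left h)

end Pool.Agent.Helper14.IR
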