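import Pool.Agent.Helper14.IR.LocA

/-!
Block IR-LQ: the elements `qq k` and `Db k`.

Paper proofs. Write `w = 1 + Y`, `c = w^(p^k) - 1`.
* `y_Db`: induction on `k`; `y μ = Y = w - 1`; `(w^(p^k) - 1) * ∑_{j<p} w^(p^k j) = w^(p^(k+1)) - 1` (`mul_geom_sum`, `pow_mul`).
* `D_mod`: `w^(p^k) - 1 = Y^(p^k) + p * t` with `t ∈ (Y)`: binomial theorem, `(1+Y)^(p^k) = 1 + Y^(p^k) + ∑_{0<i<p^k} C(p^k,i) Y^i`, `p ∣ C(p^k, i)`
  (`Nat.Prime.dvd_choose_pow`), every term has `i ≥ 1`.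
* `qq_eq`: `qq k = ∑_{j<p} (1+c)^j = c^(p-1) + p ε'` with `ε' = ∑_{i=1}^{p-1} (C(p,i)/p) c^(i-1) = 1 + c (..)` (from `((1+c)^p - 1) = c * ∑_j (1+c)^j`, or directly:
  `∑_{j<p} (1+c)^j = ∑_{i=1}^p C(p,i) c^(i-1)`; e.g. cancel `c ≠ 0`, or prove the identity in `ℤ[X]`), a unit because `c ∈ 𝔪`. And `c = Y^(p^k) + p t`, `t ∈ (Y)`, so
  `c^(p-1) = Y^(p^k (p-1)) + p t'` with `t' ∈ 𝔪` (for `p = 2`: `t' = t`; in general `(A + p t)^(p-1) = A^(p-1) + p t (..)`, `sub_dvd_pow_sub_pow` or `add_pow`).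
  So `qq k = p (ε' + t') + Y^(p^k (p-1))`.
* `qq_kap`: `(1+c)^j - 1 = c * ∑_{i<j} (1+c)^i`, so `qq k = p + c κ`, `κ = ∑_{j<p} ∑_{i<j} (1+c)^i`; modulo `c` it is `∑_{j<p} j = p (p-1)/2`, for odd `p` a multiple of `p`, so
  `κ ∈ 𝔪`.
* `Db_mod`: product of the `qq j = Y^(p^j (p-1)) + p (..)`, `∑_{j<k} p^j (p-1) = p^k - 1`; induction on `k`.
-/

open Finset IsLocalRing

namespace Pool.Agent.Helper14.IR

variable {B : Type*} [CommRing B] [IsDomain B] [IsLocalRing B] {p : ℕ} {Y y μ : B}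

theorem Db_succ (p : ℕ) (Y μ : B) (k : ℕ) : Db p Y μ (k + 1) = qq p Y k * Db p Y μ k := by
  unfold Db
  rw [prod_range_succ]
  ring

private theorem qq68 {B : Type*} [CommRing B] (p : ℕ) (Y : B) (k : ℕ) :
    qq p Y k = ∑ j ∈ range p, ((1 + Y) ^ (p ^ k)) ^ j := by
  unfold qq
  exact sum_congr rfl fun j _ => pow_mul _ _ _

private theorem qq_mul68 {B : Type*} [CommRing B] (p : ℕ) (Y : B) (k : ℕ) :
    qq p Y k * ((1 + Y) ^ (p ^ k) - 1) = (1 + Y) ^ (p ^ (k + 1)) - 1 := by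
  rw [qq68, geom_sum_mul, ← pow_mul, pow_succ]

theorem y_Db {B : Type*} [CommRing B] {p : ℕ} {Y y μ : B} (h : y * μ = Y) (k : ℕ) :
    y * Db p Y μ k = (1 + Y) ^ (p ^ k) - 1 := by
  induction k with
  | zero =>
    unfold Db
    rw [range_zero, prod_empty, mul_one, h, pow_zero, pow_one, add_sub_cancel_left]
  | succ k ih =>
    have h1 : Db p Y μ (k + 1) = qq p Y k * Db p Y μ k := by
      unfold Db
      rw [prod_range_succ]
      ring
    rw [h1, ← qq_mul68, ← ih]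
    ring

theorem D_mod (h : LS p Y y μ) (k : ℕ) : ∃ t ∈ Ideal.span {Y}, (1 + Y) ^ (p ^ k) - 1 = Y ^ (p ^ k) + p * t := by
  refine ⟨Y * ∑ j ∈ Ioo 0 (p ^ k), (1 : B) ^ (j - 1) * Y ^ (p ^ k - j - 1) * (((p ^ k).choose j / p : ℕ) : B), ?_, ?_⟩
  · rw [Ideal.mem_span_singleton]
    exact dvd_mul_right _ _
  · rw [add_pow_prime_pow_eq h.pr, one_pow]
    generalize (∑ j ∈ Ioo 0 (p ^ k), (1 : B) ^ (j - 1) * Y ^ (p ^ k - j - 1) * (((p ^ k).choose j / p : ℕ) : B)) = Z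
    ring

omit [IsDomain B] in
private theorem unit68 {x : B} (h : x - 1 ∈ maximalIdeal B) : IsUnit x := by
  by_contra h1
  have h2 : x ∈ maximalIdeal B := (mem_maximalIdeal _).2 h1
  have h3 : (1 : B) ∈ maximalIdeal B := by
    have := (maximalIdeal B).sub_mem h2 h
    rwa [sub_sub_cancel] at this
  exact (Ideal.ne_top_iff_one _).1 (maximalIdeal.isMaximal B).ne_top h3

private theorem span_le68 (h : LS p Y y μ) {t : B} (ht : t ∈ Ideal.span {Y}) : t ∈ maximalIdeal B := by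
  rw [Ideal.mem_span_singleton] at ht
  obtain ⟨u, rfl⟩ := ht
  exact Ideal.mul_mem_right _ _ h.Y_mem

private theorem c_mem68 (h : LS p Y y μ) (k : ℕ) : (1 + Y) ^ (p ^ k) - 1 ∈ maximalIdeal B := by
  obtain ⟨t, ht, he⟩ := D_mod h k
  rw [he]
  refine (maximalIdeal B).add_mem ?_ (Ideal.mul_mem_left _ _ (span_le68 h ht))
  exact Ideal.pow_mem_of_mem _ h.Y_mem _ (pow_pos h.pr.pos _)

private theorem c_ne68 (h : LS p Y y μ) (k : ℕ) : (1 + Y) ^ (p ^ k) - 1 ≠ 0 := by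
  obtain ⟨t, ht, he⟩ := D_mod h k
  intro h0
  rw [he] at h0
  have h1 : (p : B) ∣ Y ^ (p ^ k) := by
    rw [eq_neg_of_add_eq_zero_left h0]
    exact (dvd_mul_right _ _).neg_right
  exact h.nd (h.pp.dvd_of_dvd_pow h1)

private theorem bin68 (hp : p.Prime) (c : B) (hc : c ≠ 0) :
    ∑ j ∈ range p, (1 + c) ^ j = c ^ (p - 1) + p * ∑ j ∈ Ioo 0 p, c ^ (j - 1) * ((p.choose j / p : ℕ) : B) := by
  have h1 : (∑ j ∈ range p, (1 + c) ^ j) * c = (1 + c) ^ p - 1 := by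
    have := geom_sum_mul (1 + c) p
    rwa [add_sub_cancel_left] at this
  have h2 : (c + 1) ^ p = c ^ p + 1 ^ p + p * c * 1 * ∑ j ∈ Ioo 0 p, c ^ (j - 1) * 1 ^ (p - j - 1) *
      ((p.choose j / p : ℕ) : B) := by
    have := add_pow_prime_pow_eq hp c 1 1
    rwa [pow_one] at this
  have h3 : ∑ j ∈ Ioo 0 p, c ^ (j - 1) * 1 ^ (p - j - 1) * ((p.choose j / p : ℕ) : B) =
      ∑ j ∈ Ioo 0 p, c ^ (j - 1) * ((p.choose j / p : ℕ) : B) := by
    refine sum_congr rfl fun j hj => ?_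
    rw [one_pow, mul_one]
  have h4 : c ^ p = c ^ (p - 1) * c := by
    rw [← pow_succ, Nat.sub_add_cancel hp.one_le]
  apply mul_right_cancel₀ hc
  rw [h1, add_comm 1 c, h2, h3, h4, one_pow]
  ring

theorem qq_eq (h : LS p Y y μ) (k : ℕ) : ∃ ε : B, IsUnit ε ∧ qq p Y k = p * ε + Y ^ (p ^ k * (p - 1)) := by
  have hcm := c_mem68 h k
  have hcn := c_ne68 h k
  obtain ⟨t, ht, he⟩ := D_mod h k
  have hq : qq p Y k = ∑ j ∈ range p, (1 + ((1 + Y) ^ (p ^ k) - 1)) ^ j := by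
    rw [qq68, add_sub_cancel]
  rw [bin68 h.pr _ hcn] at hq
  obtain ⟨s, hs⟩ := sub_dvd_pow_sub_pow ((1 + Y) ^ (p ^ k) - 1) (Y ^ (p ^ k)) (p - 1)
  have hct : (1 + Y) ^ (p ^ k) - 1 - Y ^ (p ^ k) = p * t := by
    rw [he]
    ring
  rw [hct] at hs
  set c := (1 + Y) ^ (p ^ k) - 1 with hc
  set E := ∑ j ∈ Ioo 0 p, c ^ (j - 1) * ((p.choose j / p : ℕ) : B) with hE
  refine ⟨E + t * s, ?_, ?_⟩
  · apply unit68
    have h1 : E - 1 ∈ maximalIdeal B := by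
      have h2 : Ioo 0 p = insert 1 (Ioo 1 p) := by
        have := h.pr.two_le
        ext j
        simp only [mem_Ioo, mem_insert]
        omega
      rw [hE, h2, sum_insert (by simp), Nat.sub_self, pow_zero, one_mul, Nat.choose_one_right,
        Nat.div_self h.pr.pos, Nat.cast_one, add_sub_cancel_left]
      refine Ideal.sum_mem _ fun j hj => ?_
      rw [mem_Ioo] at hj
      exact Ideal.mul_mem_right _ _ (Ideal.pow_mem_of_mem _ hcm _ (by omega))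
    have h3 : E + t * s - 1 = (E - 1) + t * s := by ring
    rw [h3]
    exact (maximalIdeal B).add_mem h1 (Ideal.mul_mem_right _ _ (span_le68 h ht))
  · have h5 : c ^ (p - 1) = Y ^ (p ^ k * (p - 1)) + p * (t * s) := by
      rw [pow_mul]
      linear_combination hs
    rw [hq, h5]
    ring

theorem qq_kap (h : LS p Y y μ) (k : ℕ) :
    ∃ κ : B, qq p Y k = p + ((1 + Y) ^ (p ^ k) - 1) * κ ∧ (p ≠ 2 → κ ∈ maximalIdeal B) := by
  have hcm := c_mem68 h k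
  rw [qq68]
  set w := (1 + Y) ^ (p ^ k) with hw
  refine ⟨∑ j ∈ range p, ∑ i ∈ range j, w ^ i, ?_, fun hp2 => ?_⟩
  · rw [mul_sum]
    have h1 : (p : B) = ∑ j ∈ range p, (1 : B) := by simp
    rw [h1, ← sum_add_distrib]
    refine sum_congr rfl fun j _ => ?_
    have h2 := geom_sum_mul w j
    linear_combination -h2
  · have h1 : ∀ i, w ^ i - 1 ∈ maximalIdeal B := fun i => by
      have h2 : w - 1 ∣ w ^ i - 1 := by
        have := sub_dvd_pow_sub_pow w 1 i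
        rwa [one_pow] at this
      obtain ⟨u, hu⟩ := h2
      rw [hu]
      exact Ideal.mul_mem_right _ _ hcm
    have h3 : ∑ j ∈ range p, ∑ i ∈ range j, w ^ i =
        ∑ j ∈ range p, ∑ i ∈ range j, (w ^ i - 1) + ((∑ j ∈ range p, j : ℕ) : B) := by
      rw [Nat.cast_sum, ← sum_add_distrib]
      refine sum_congr rfl fun j _ => ?_
      rw [sum_sub_distrib]
      simp
    have h4 : (∑ j ∈ range p, j) = p * ((p - 1) / 2) := by
      rw [sum_range_id, Nat.mul_div_assoc]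
      have := h.pr.eq_two_or_odd
      omega
    rw [h3, h4]
    refine (maximalIdeal B).add_mem (Ideal.sum_mem _ fun j _ => Ideal.sum_mem _ fun i _ => h1 i) ?_
    rw [Nat.cast_mul]
    exact Ideal.mul_mem_right _ _ h.p_mem

theorem Db_mod (h : LS p Y y μ) (k : ℕ) : ∃ t : B, Db p Y μ k = μ * Y ^ (p ^ k - 1) + p * t := by
  induction k with
  | zero =>
    refine ⟨0, ?_⟩
    unfold Db
    simp
  | succ k ih =>
    obtain ⟨t, ht⟩ := ih
    obtain ⟨ε, -, hε⟩ := qq_eq h k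
    have h1 : p ^ (k + 1) - 1 = p ^ k * (p - 1) + (p ^ k - 1) := by
      have h2 : 1 ≤ p ^ k := Nat.one_le_pow _ _ h.pr.pos
      have h3 : p ^ (k + 1) = p ^ k * (p - 1) + p ^ k := by
        have h4 : p = (p - 1) + 1 := by have := h.pr.one_le; omega
        calc p ^ (k + 1) = p ^ k * p := pow_succ _ _
          _ = p ^ k * ((p - 1) + 1) := by rw [← h4]
          _ = p ^ k * (p - 1) + p ^ k := by ring
      omega
    refine ⟨ε * Db p Y μ k + Y ^ (p ^ k * (p - 1)) * t, ?_⟩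
    rw [Db_succ, hε, h1, pow_add]
    nth_rewrite 1 [add_mul]
    linear_combination Y ^ (p ^ k * (p - 1)) * ht

end Pool.Agent.Helper14.IR
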