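import Pool.Agent.Helper14.IR.Poly
import Pool.Agent.Helper14.IR.LocQ

/-!
Block IR-G1: basic facts on the localization of `ℤ[X]` at a prime ideal.

Paper proof. Let `B = Localization.AtPrime P`, `ι = algebraMap ℤ[X] B` (injective, `B` is a domain), `ι s` a unit for `s ∉ P`
(`IsLocalization.map_units`).
`out_of_mem`: `IsLocalization.mem_map_algebraMap_iff` for `M = P.primeCompl` and the ideal `Ideal.span {G, H}` (`Ideal.map_span`): if `ι c ∈ span {ι G, ι H}` then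
`ι c * ι s = ι i` with `i ∈ span {G, H}`, `s ∉ P`, and `ι` is injective.
`int_mem`: an integer `c` with `C c ∈ P` is divisible by `p`: otherwise `1 = u p + v c ∈ P`.
`geom_mod`: modulo `X - 1` the polynomial `geom m` is `m`: `X - 1 ∣ geom m - C m` (`Polynomial.dvd_iff_isRoot`, or `SS_geom`-like).
`Db_geom`: in `ℤ[X]`, `(X-1) * Db p (X^m-1) (geom m) k = (X^m)^(p^k) - 1 = (X-1) * geom (m p^k)` (`y_Db`, `geom_mul`), cancel.
-/

open Polynomial Finset

namespace Pool.Agent.Helper14.IR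

variable {P : Ideal ℤ[X]}

theorem out_of_mem [hP : P.IsPrime] {G H c : ℤ[X]}
    (h : algebraMap ℤ[X] (Localization.AtPrime P) c ∈
      Ideal.span {algebraMap ℤ[X] (Localization.AtPrime P) G, algebraMap ℤ[X] (Localization.AtPrime P) H}) :
    ∃ s : ℤ[X], s ∉ P ∧ s * c ∈ Ideal.span {G, H} := by
  have hsp : Ideal.span {algebraMap ℤ[X] (Localization.AtPrime P) G,
      algebraMap ℤ[X] (Localization.AtPrime P) H} =
      Ideal.map (algebraMap ℤ[X] (Localization.AtPrime P)) (Ideal.span {G, H}) := by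
    rw [Ideal.map_span, Set.image_pair]
  rw [hsp, IsLocalization.mem_map_algebraMap_iff P.primeCompl] at h
  obtain ⟨⟨i, s⟩, hi⟩ := h
  simp only at hi
  rw [← map_mul] at hi
  have hinj : Function.Injective (algebraMap ℤ[X] (Localization.AtPrime P)) :=
    IsLocalization.injective (Localization.AtPrime P) (Ideal.primeCompl_le_nonZeroDivisors P)
  have hcs : c * s.1 = i.1 := hinj hi
  refine ⟨s.1, s.2, ?_⟩
  rw [mul_comm, hcs]
  exact i.2

theorem int_mem [hP : P.IsPrime] {p : ℕ} (hp : p.Prime) (h1 : C (p : ℤ) ∈ P) {c : ℤ} (hc : C c ∈ P) : (p : ℤ) ∣ c := by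
  by_contra hnd
  have hcop : IsCoprime (p : ℤ) c :=
    (Prime.coprime_iff_not_dvd (Nat.prime_iff_prime_int.mp hp)).mpr hnd
  obtain ⟨u, v, huv⟩ := hcop
  apply hP.ne_top
  rw [Ideal.eq_top_iff_one]
  have h2 : (1 : ℤ[X]) = C u * C (p : ℤ) + C v * C c := by
    rw [← C_mul, ← C_mul, ← C_add, huv, C_1]
  rw [h2]
  exact P.add_mem (P.mul_mem_left _ h1) (P.mul_mem_left _ hc)

theorem geom_mod (m : ℕ) : ∃ t : ℤ[X], geom m = C (m : ℤ) + (X - 1) * t := by
  have hr : (geom m - C (m : ℤ)).IsRoot 1 := by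
    simp [IsRoot, geom, eval_finset_sum]
  have hd : (X - C (1 : ℤ)) ∣ geom m - C (m : ℤ) := dvd_iff_isRoot.mpr hr
  obtain ⟨t, ht⟩ := hd
  refine ⟨t, ?_⟩
  rw [C_1] at ht
  linear_combination ht

theorem Db_geom {p m : ℕ} (k : ℕ) : Db p (X ^ m - 1 : ℤ[X]) (geom m) k = geom (m * p ^ k) := by
  have h1 := y_Db (p := p) (Y := (X ^ m - 1 : ℤ[X])) (geom_mul m) k
  have h2 : (1 + (X ^ m - 1 : ℤ[X])) ^ (p ^ k) - 1 = X ^ (m * p ^ k) - 1 := by
    rw [add_sub_cancel, ← pow_mul]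
  rw [h2, ← geom_mul (m * p ^ k)] at h1
  have hX : (X - 1 : ℤ[X]) ≠ 0 := by
    rw [← C_1]
    exact X_sub_C_ne_zero 1
  exact mul_left_cancel₀ hX h1

theorem Db_map {A B : Type*} [CommRing A] [CommRing B] (f : A →+* B) (p : ℕ) (Y μ : A) (k : ℕ) :
    f (Db p Y μ k) = Db p (f Y) (f μ) k := by
  simp [Db, qq, map_prod, map_sum]

end Pool.Agent.Helper14.IR
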