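import Pool.Agent.Helper14.IR.LocG1

/-!
Block IR-G1b: the localization of `ℤ[X]` at a maximal ideal `P` containing `p` and `X^m - 1`, `p ∤ m`, is a local ring as in `LS`.

Paper proof. Let `B = Localization.AtPrime P`, `ι = algebraMap ℤ[X] B` (injective, `B` is a domain), `ι s` a unit for `s ∉ P` (`IsLocalization.map_units`).
`ls_of`: fields of `LS`:
* `pp`: `C p` is prime in `ℤ[X]` (`Polynomial.isPrime_C..`/`Polynomial.prime_C_iff`, `Nat.prime_iff_prime_int`) and a non unit in `B` (as `C p ∈ P`); if `ι p ∣ x y` in `B`, clear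
  denominators (`IsLocalization.mk'` / `IsLocalization.surj`) : `p ∣ s x' y'` with `s ∉ P`, so `p ∤ s` and `p ∣ x'` or `p ∣ y'`. (Or use `IsLocalization.isPrime_of_isPrime_disjoint` for the prime ideal
  `span {C p} ≤ P` together with `Ideal.span_singleton_prime`.)
* `max`: `maximalIdeal B = map ι P` (`IsLocalization.AtPrime.map_eq_maximalIdeal` or `Localization.AtPrime.map_eq_maximalIdeal`), and `span {p, Y} ≤` it. Conversely let `f ∈ P`. Work in
  `k[X]`, `k = ZMod p`, `π : ℤ[X] → k[X]` surjective (`Polynomial.map_surjective`) with kernel `(p)`; `Q = map π P` is an ideal of the principal ideal domain `k[X]`, proper because `P = comap π Q` (`P ⊇ ker π`)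
  is proper and maximal; `Q = (g)`, `g` irreducible or zero, and `X^m - 1 ∈ Q` is nonzero, so `g` is irreducible, `X^m - 1 = g h`. `X^m - 1` is separable over `k` (`Polynomial.separable_X_pow_sub_C` or
  `X_pow_sub_one_separable_iff`, `m ≠ 0` in `k`), so squarefree, so `g ∤ h`. Lift `h` to `Ψ ∈ ℤ[X]`: `Ψ ∉ P` (otherwise `h ∈ Q = (g)`). `π f = g f'`, `π (f Ψ) = f' (X^m - 1)`, so `f Ψ ∈ (p, Y)`, and
  `ι Ψ` is a unit, so `ι f ∈ span {p, Y}`.
* `nd`: if `ι p ∣ ι Y` then `s Y ∈ (p)` in `ℤ[X]` for some `s ∉ P`, `p` prime: `p ∣ s` (no: `s ∉ P`) or `p ∣ X^m - 1` (no: leading coefficient `1`, `m ≥ 1`; e.g. `Polynomial.C_dvd_iff_dvd_coeff`).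
* `fac`: `geom_mul`. `un`: if `X - 1 ∉ P`, `y` is a unit. Otherwise `geom m = m + (X-1) (..)`, and `C m ∉ P` (`int_mem`), so `geom m ∉ P`.
-/

open Polynomial Finset

namespace Pool.Agent.Helper14.IR

variable {P : Ideal ℤ[X]}

private theorem inj23 [hP : P.IsPrime] :
    Function.Injective (algebraMap ℤ[X] (Localization.AtPrime P)) :=
  IsLocalization.injective (Localization.AtPrime P) (Ideal.primeCompl_le_nonZeroDivisors P)

private theorem castp23 [hP : P.IsPrime] (p : ℕ) :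
    ((p : ℕ) : Localization.AtPrime P) = algebraMap ℤ[X] (Localization.AtPrime P) (C (p : ℤ)) := by
  have : (C (p : ℤ) : ℤ[X]) = ((p : ℕ) : ℤ[X]) := by simp
  rw [this, map_natCast]

private theorem primeC23 {p : ℕ} (hp : p.Prime) : Prime (C (p : ℤ) : ℤ[X]) :=
  prime_C_iff.2 (Nat.prime_iff_prime_int.mp hp)

private theorem pp23 [hP : P.IsPrime] {p : ℕ} (hp : p.Prime) (h1 : C (p : ℤ) ∈ P) :
    Prime ((p : ℕ) : Localization.AtPrime P) := by
  have hC := primeC23 hp
  rw [castp23]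
  have hne : algebraMap ℤ[X] (Localization.AtPrime P) (C (p : ℤ)) ≠ 0 := by
    rw [Ne, map_eq_zero_iff _ inj23]
    exact hC.ne_zero
  rw [← Ideal.span_singleton_prime hne]
  have hI : (Ideal.span {(C (p : ℤ) : ℤ[X])}).IsPrime :=
    (Ideal.span_singleton_prime hC.ne_zero).2 hC
  have hdis : Disjoint (P.primeCompl : Set ℤ[X]) (Ideal.span {(C (p : ℤ) : ℤ[X])} : Ideal ℤ[X]) := by
    rw [Set.disjoint_left]
    intro x hx hx'
    apply hx
    have : Ideal.span {(C (p : ℤ) : ℤ[X])} ≤ P := by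
      rw [Ideal.span_le, Set.singleton_subset_iff]
      exact h1
    exact this hx'
  have := IsLocalization.isPrime_of_isPrime_disjoint P.primeCompl (Localization.AtPrime P)
    (Ideal.span {(C (p : ℤ) : ℤ[X])}) hI hdis
  rwa [Ideal.map_span, Set.image_singleton] at this

private theorem red23 {p : ℕ} (f : ℤ[X])
    (h : mapRingHom (Int.castRingHom (ZMod p)) f = 0) : C (p : ℤ) ∣ f := by
  rw [C_dvd_iff_dvd_coeff]
  intro i
  have := congrArg (fun g => coeff g i) h
  simp only [coe_mapRingHom, coeff_map, coeff_zero, eq_intCast] at this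
  exact (ZMod.intCast_zmod_eq_zero_iff_dvd _ p).1 this

private theorem psi23 [hP : P.IsMaximal] {p m : ℕ} (hp : p.Prime) (hm : ¬ p ∣ m)
    (h1 : C (p : ℤ) ∈ P) (h2 : X ^ m - 1 ∈ P) :
    ∃ Ψ : ℤ[X], Ψ ∉ P ∧ ∀ f ∈ P, f * Ψ ∈ Ideal.span {C (p : ℤ), X ^ m - 1} := by
  haveI := Fact.mk hp
  have hsur : Function.Surjective (mapRingHom (Int.castRingHom (ZMod p))) :=
    map_surjective _ (ZMod.ringHom_surjective _)
  set π := mapRingHom (Int.castRingHom (ZMod p)) with hπ
  have hback : ∀ f : ℤ[X], π f ∈ Ideal.map π P → f ∈ P := by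
    intro f hf
    obtain ⟨g, hg, hgf⟩ := (Ideal.mem_map_iff_of_surjective π hsur).1 hf
    have h3 : π (f - g) = 0 := by rw [map_sub, hgf, sub_self]
    obtain ⟨t, ht⟩ := red23 (f - g) h3
    have h4 : f = g + t * C (p : ℤ) := by linear_combination ht
    rw [h4]
    exact P.add_mem hg (P.mul_mem_left _ h1)
  obtain ⟨g, hg⟩ := (IsPrincipalIdealRing.principal (Ideal.map π P)).principal
  have hgs : Ideal.map π P = Ideal.span {g} := hg
  have hX : π (X ^ m - 1) ∈ Ideal.map π P := Ideal.mem_map_of_mem π h2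
  rw [hgs, Ideal.mem_span_singleton] at hX
  obtain ⟨h, hh⟩ := hX
  have hπX : π (X ^ m - 1) = X ^ m - 1 := by
    rw [map_sub, map_pow, map_one]
    simp [hπ]
  have hsep : (X ^ m - 1 : (ZMod p)[X]).Separable := by
    rw [X_pow_sub_one_separable_iff]
    rw [Ne, ZMod.natCast_eq_zero_iff]
    exact hm
  have hsq := hsep.squarefree
  have hhQ : h ∉ Ideal.map π P := by
    intro h3
    rw [hgs, Ideal.mem_span_singleton] at h3
    obtain ⟨e, he⟩ := h3
    have h4 : g * g ∣ X ^ m - 1 := ⟨e, by rw [← hπX, hh, he]; ring⟩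
    have h5 : IsUnit g := hsq g h4
    have h6 : Ideal.map π P = ⊤ := by
      rw [hgs, Ideal.span_singleton_eq_top]
      exact h5
    apply hP.ne_top
    rw [Ideal.eq_top_iff_one]
    apply hback
    rw [h6]
    trivial
  obtain ⟨Ψ, hΨ⟩ := hsur h
  refine ⟨Ψ, fun h3 => hhQ (hΨ ▸ Ideal.mem_map_of_mem π h3), fun f hf => ?_⟩
  have h3 : π f ∈ Ideal.map π P := Ideal.mem_map_of_mem π hf
  rw [hgs, Ideal.mem_span_singleton] at h3
  obtain ⟨f', hf'⟩ := h3
  obtain ⟨F, hF⟩ := hsur f'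
  have h4 : π (f * Ψ - F * (X ^ m - 1)) = 0 := by
    rw [map_sub, map_mul, map_mul, hf', hΨ, hF, hh]
    ring
  obtain ⟨t, ht⟩ := red23 _ h4
  rw [Ideal.mem_span_pair]
  exact ⟨t, F, by linear_combination -ht⟩

theorem ls_of [hP : P.IsMaximal] {p m : ℕ} (hp : p.Prime) (hm : ¬ p ∣ m) (h1 : C (p : ℤ) ∈ P) (h2 : X ^ m - 1 ∈ P) :
    LS p (algebraMap ℤ[X] (Localization.AtPrime P) (X ^ m - 1)) (algebraMap ℤ[X] (Localization.AtPrime P) (X - 1))
      (algebraMap ℤ[X] (Localization.AtPrime P) (geom m)) := by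
  have hm0 : m ≠ 0 := by
    rintro rfl
    exact hm (dvd_zero p)
  have hpu : ∀ s : ℤ[X], s ∉ P → IsUnit (algebraMap ℤ[X] (Localization.AtPrime P) s) :=
    fun s hs => IsLocalization.map_units (Localization.AtPrime P) (⟨s, hs⟩ : P.primeCompl)
  refine ⟨hp, pp23 hp h1, ?_, ?_, ?_, ?_⟩
  · apply le_antisymm
    · rw [← Localization.AtPrime.map_eq_maximalIdeal, Ideal.map_le_iff_le_comap]
      intro f hf
      rw [Ideal.mem_comap]
      obtain ⟨Ψ, hΨ, hΨf⟩ := psi23 hp hm h1 h2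
      have h3 := Ideal.mem_map_of_mem (algebraMap ℤ[X] (Localization.AtPrime P)) (hΨf f hf)
      rw [Ideal.map_span, Set.image_pair, map_mul, mul_comm, ← castp23] at h3
      exact (Ideal.unit_mul_mem_iff_mem _ (hpu Ψ hΨ)).1 h3
    · rw [Ideal.span_le, Set.insert_subset_iff, Set.singleton_subset_iff]
      rw [← Localization.AtPrime.map_eq_maximalIdeal]
      refine ⟨?_, Ideal.mem_map_of_mem _ h2⟩
      rw [castp23]
      exact Ideal.mem_map_of_mem _ h1
  · intro h3
    rw [castp23, ← Ideal.mem_span_singleton] at h3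
    have h4 : algebraMap ℤ[X] (Localization.AtPrime P) (X ^ m - 1) ∈
        Ideal.span {algebraMap ℤ[X] (Localization.AtPrime P) (C (p : ℤ)),
          algebraMap ℤ[X] (Localization.AtPrime P) (C (p : ℤ))} := by
      rwa [Set.pair_eq_singleton]
    obtain ⟨s, hs, hs'⟩ := out_of_mem h4
    rw [Set.pair_eq_singleton, Ideal.mem_span_singleton] at hs'
    rcases (primeC23 hp).dvd_or_dvd hs' with h5 | h5
    · exact hs (P.mem_of_dvd h5 h1)
    · rw [C_dvd_iff_dvd_coeff] at h5
      have h6 := h5 m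
      rw [coeff_sub, coeff_X_pow_self, coeff_one, if_neg hm0, sub_zero] at h6
      have h7 : (p : ℤ) ∣ 1 := h6
      exact hp.one_lt.ne' (by exact_mod_cast Int.eq_one_of_dvd_one (by positivity) h7)
  · rw [← map_mul, geom_mul]
  · by_cases h3 : (X - 1 : ℤ[X]) ∈ P
    · right
      apply hpu
      intro h4
      obtain ⟨t, ht⟩ := geom_mod m
      have h5 : C (m : ℤ) ∈ P := by
        have : C (m : ℤ) = geom m - (X - 1) * t := by rw [ht]; ring
        rw [this]
        exact P.sub_mem h4 (P.mul_mem_right _ h3)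
      exact hm (by exact_mod_cast int_mem hp h1 h5)
    · left
      exact hpu _ h3

end Pool.Agent.Helper14.IR
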