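import Pool.Agent.Helper14.IR.LocG1

/-!
Block IR-G2: a prime ideal `P` of `ℤ[X]` containing `G`, `H` and `p` contains `X^m - 1`.

Paper proof. Let `T ∈ {N, N - 1}`, `T = p^a m`, `p ∤ m`, `a ≥ 1`.
`X_not_mem` (`T = N - 1`): if `X ∈ P` then, as `G = C (G 0) + X (..)`, `C (G 0) ∈ P`, `C (H 0) ∈ P`, so `p ∣ G 0, H 0` (`int_mem`), so `p ∣ S'(0) = G'(0) H(0) + G(0) H'(0) = N - 2` (`SS_deriv_zero`), and
`p ∣ N - 1`: contradiction.
`Y_mem_P`: `(X-1)^2 S = X^N - N X + (N-1) ∈ P` (`SS_FF`). If `T = N`: `p ∣ N`, so `X^N - 1 ∈ P`. If `T = N - 1`: `X^N - X = X (X^(N-1) - 1) ∈ P`, `X ∉ P`, so `X^(N-1) - 1 ∈ P`. In both cases `X^T - 1 ∈ P`, and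
`(X^m - 1)^(p^a) ≡ X^(m p^a) - 1` modulo `p` (`sub_pow_char_pow` in `ℤ[X] ⧸ P` or in `(ZMod p)[X]`; e.g. `ℤ[X] ⧸ P` is a domain of characteristic `p`), so `X^m - 1 ∈ P`.
-/

open Polynomial Finset

namespace Pool.Agent.Helper14.IR

variable {P : Ideal ℤ[X]}

private theorem C_dvd_mem81 {p : ℕ} (h1 : C (p : ℤ) ∈ P) {c : ℤ} (hc : (p : ℤ) ∣ c) : C c ∈ P := by
  obtain ⟨k, rfl⟩ := hc
  rw [C_mul]
  exact P.mul_mem_right _ h1

private theorem C_coeff_mem81 {G : ℤ[X]} (hG : G ∈ P) (hX : X ∈ P) : C (G.coeff 0) ∈ P := by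
  have h1 : C (G.coeff 0) = G - divX G * X := by
    rw [eq_sub_iff_add_eq, add_comm]
    exact divX_mul_X_add G
  rw [h1]
  exact P.sub_mem hG (P.mul_mem_left _ hX)

theorem X_not_mem [hP : P.IsPrime] {N p : ℕ} {G H : ℤ[X]} (hf : Fac N G H) (hp : p.Prime) (h1 : C (p : ℤ) ∈ P)
    (hG : G ∈ P) (hH : H ∈ P) (hd : p ∣ N - 1) : X ∉ P := by
  intro hX
  have hN := hf.hN
  have h2 : (p : ℤ) ∣ G.eval 0 := by
    rw [← coeff_zero_eq_eval_zero]
    exact int_mem hp h1 (C_coeff_mem81 hG hX)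
  have h3 : (p : ℤ) ∣ H.eval 0 := by
    rw [← coeff_zero_eq_eval_zero]
    exact int_mem hp h1 (C_coeff_mem81 hH hX)
  have h4 := SS_deriv_zero (N := N) (by omega)
  rw [← hf.mul, derivative_mul, eval_add, eval_mul, eval_mul] at h4
  have h5 : (p : ℤ) ∣ (N : ℤ) - 2 := by
    rw [← h4]
    exact dvd_add (Dvd.dvd.mul_left h3 _) (Dvd.dvd.mul_right h2 _)
  have h6 : (p : ℤ) ∣ (N : ℤ) - 1 := by
    have h7 : (((N - 1 : ℕ)) : ℤ) = (N : ℤ) - 1 := by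
      rw [Nat.cast_sub (by omega)]
      simp
    rw [← h7]
    exact Int.natCast_dvd_natCast.2 hd
  have h8 : (p : ℤ) ∣ 1 := by
    have h9 := dvd_sub h6 h5
    have h10 : (N : ℤ) - 1 - ((N : ℤ) - 2) = 1 := by ring
    rwa [h10] at h9
  have h11 : (p : ℤ) ∣ ((1 : ℕ) : ℤ) := by simpa using h8
  exact hp.one_lt.ne' (Nat.dvd_one.1 (Int.natCast_dvd_natCast.1 h11))

private theorem frob_mem81 {p : ℕ} (hp : p.Prime) (h1 : C (p : ℤ) ∈ P) (m a : ℕ) :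
    (X ^ m - 1) ^ (p ^ a) - (X ^ (p ^ a * m) - 1) ∈ P := by
  haveI : Fact p.Prime := ⟨hp⟩
  have h2 : Polynomial.map (Int.castRingHom (ZMod p))
      ((X ^ m - 1) ^ (p ^ a) - (X ^ (p ^ a * m) - 1) : ℤ[X]) = 0 := by
    simp only [Polynomial.map_sub, Polynomial.map_pow, Polynomial.map_X, Polynomial.map_one]
    rw [sub_pow_char_pow, one_pow, ← pow_mul, mul_comm m, sub_self]
  have h3 : C (p : ℤ) ∣ ((X ^ m - 1) ^ (p ^ a) - (X ^ (p ^ a * m) - 1) : ℤ[X]) := by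
    rw [C_dvd_iff_dvd_coeff]
    intro i
    have h4 := congrArg (fun q => q.coeff i) h2
    simp only [coeff_map, coeff_zero] at h4
    exact (ZMod.intCast_zmod_eq_zero_iff_dvd _ _).1 h4
  obtain ⟨E, hE⟩ := h3
  rw [hE]
  exact P.mul_mem_right _ h1

theorem Y_mem_P [hP : P.IsPrime] {N p T a m : ℕ} {G H : ℤ[X]} (hf : Fac N G H) (hp : p.Prime) (h1 : C (p : ℤ) ∈ P)
    (hG : G ∈ P) (hH : H ∈ P) (hT : T = N ∨ T = N - 1) (hTa : T = p ^ a * m) (ha : 1 ≤ a) : X ^ m - 1 ∈ P := by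
  have hN := hf.hN
  have hpT : p ∣ T := by
    rw [hTa]
    exact Dvd.dvd.mul_right (dvd_pow_self p (by omega)) m
  have hF : X ^ N - C (N : ℤ) * X + C ((N : ℤ) - 1) ∈ P := by
    rw [← SS_FF (N := N) (by omega), ← hf.mul]
    exact P.mul_mem_left _ (P.mul_mem_right _ hG)
  have hXT : X ^ T - 1 ∈ P := by
    rcases hT with h2 | h2
    · have h3 : C (N : ℤ) ∈ P := C_dvd_mem81 h1 (by
        rw [← h2]
        exact Int.natCast_dvd_natCast.2 hpT)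
      have h4 : (X ^ T - 1 : ℤ[X]) =
          (X ^ N - C (N : ℤ) * X + C ((N : ℤ) - 1)) + C (N : ℤ) * (X - 1) := by
        rw [h2, C_sub, C_1]
        ring
      rw [h4]
      exact P.add_mem hF (P.mul_mem_right _ h3)
    · have h3 : C ((N : ℤ) - 1) ∈ P := C_dvd_mem81 h1 (by
        have h7 : (((N - 1 : ℕ)) : ℤ) = (N : ℤ) - 1 := by
          rw [Nat.cast_sub (by omega)]
          simp
        rw [← h7, ← h2]
        exact Int.natCast_dvd_natCast.2 hpT)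
      have h4 : (X * (X ^ T - 1) : ℤ[X]) =
          (X ^ N - C (N : ℤ) * X + C ((N : ℤ) - 1)) + C ((N : ℤ) - 1) * (X - 1) := by
        have h5 : (X ^ N : ℤ[X]) = X * X ^ T := by
          rw [← pow_succ', h2]
          congr 1
          omega
        rw [h5, C_sub, C_1]
        ring
      have h5 : (X * (X ^ T - 1) : ℤ[X]) ∈ P := by
        rw [h4]
        exact P.add_mem hF (P.mul_mem_right _ h3)
      rcases hP.mem_or_mem h5 with h6 | h6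
      · exact absurd h6 (X_not_mem hf hp h1 hG hH (h2 ▸ hpT))
      · exact h6
  have h7 : ((X ^ m - 1) ^ (p ^ a) : ℤ[X]) ∈ P := by
    have h8 := P.add_mem (frob_mem81 hp h1 m a) hXT
    rw [hTa] at h8
    simpa using h8
  exact hP.mem_of_pow_mem _ h7

end Pool.Agent.Helper14.IR
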