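import Pool.Agent.Helper14.IR.LocG2

/-!
Block IR-G2b: the equation for `y G H` in the localization.

Paper proof. Let `T ∈ {N, N - 1}`, `T = p^a m`, `p ∤ m`, `a ≥ 1`.
`loc_eq`: with `B = Localization.AtPrime P`, `ι = algebraMap`, `Y = ι (X^m - 1)`, `y = ι (X-1)`, `μ = ι (geom m)`: by `SS_geom` `(X-1) G H = geom N - N`. If `T = N`: `geom N = Db a` (`Db_geom`, `Db_map`), `N = p^a m`, so `u = 1`,
`κ = ι (C m)`, a unit as `C m ∉ P` (`int_mem`). If `T = N - 1`: `geom N = 1 + X geom (N-1)`, so `(X-1) G H = X geom (N-1) - (N-1)`, `u = ι X` (a unit, `X_not_mem`), `κ = ι (C m)`.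
-/

open Polynomial Finset

namespace Pool.Agent.Helper14.IR

variable {P : Ideal ℤ[X]}

private theorem unitC50 [hP : P.IsPrime] {p m : ℕ} (hp : p.Prime) (h1 : C (p : ℤ) ∈ P) (hm : ¬ p ∣ m) :
    IsUnit (algebraMap ℤ[X] (Localization.AtPrime P) (C (m : ℤ))) := by
  have h2 : C (m : ℤ) ∉ P := by
    intro h
    exact hm (Int.natCast_dvd_natCast.1 (int_mem hp h1 h))
  exact IsLocalization.map_units (Localization.AtPrime P) (⟨_, h2⟩ : P.primeCompl)

private theorem geom_succ50 (n : ℕ) : geom (n + 1) = 1 + X * geom n := by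
  unfold geom
  rw [sum_range_succ', mul_sum, pow_zero, add_comm]
  congr 1
  exact sum_congr rfl fun i _ => by rw [pow_succ']

private theorem C_nat50 (m : ℕ) : (C (m : ℤ) : ℤ[X]) = (m : ℤ[X]) := by simp

theorem loc_eq [hP : P.IsPrime] {N p T a m : ℕ} {G H : ℤ[X]} (hf : Fac N G H) (hp : p.Prime) (h1 : C (p : ℤ) ∈ P)
    (hG : G ∈ P) (hH : H ∈ P) (hT : T = N ∨ T = N - 1) (hTa : T = p ^ a * m) (hm : ¬ p ∣ m) (ha : 1 ≤ a) :
    ∃ u κ : Localization.AtPrime P, IsUnit u ∧ IsUnit κ ∧
      algebraMap ℤ[X] (Localization.AtPrime P) (X - 1) * algebraMap ℤ[X] (Localization.AtPrime P) G *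
        algebraMap ℤ[X] (Localization.AtPrime P) H =
      u * Db p (algebraMap ℤ[X] (Localization.AtPrime P) (X ^ m - 1)) (algebraMap ℤ[X] (Localization.AtPrime P) (geom m)) a -
        (p : Localization.AtPrime P) ^ a * κ := by
  have hN := hf.hN
  have hp0 : 0 < T := by
    rcases hT with h | h <;> omega
  have hu := unitC50 (P := P) hp h1 hm
  have e1 : (X - 1) * G * H = geom N - C (N : ℤ) := by
    rw [mul_assoc, hf.mul, SS_geom (by omega)]
  have e2 : algebraMap ℤ[X] (Localization.AtPrime P) (geom T) =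
      Db p (algebraMap ℤ[X] (Localization.AtPrime P) (X ^ m - 1)) (algebraMap ℤ[X] (Localization.AtPrime P) (geom m)) a := by
    rw [← Db_map, Db_geom, hTa, mul_comm]
  have e3 : algebraMap ℤ[X] (Localization.AtPrime P) (C (T : ℤ)) =
      (p : Localization.AtPrime P) ^ a * algebraMap ℤ[X] (Localization.AtPrime P) (C (m : ℤ)) := by
    rw [C_nat50, C_nat50, hTa, Nat.cast_mul, Nat.cast_pow, map_mul, map_pow, map_natCast]
  have e4 : algebraMap ℤ[X] (Localization.AtPrime P) (X - 1) * algebraMap ℤ[X] (Localization.AtPrime P) G *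
      algebraMap ℤ[X] (Localization.AtPrime P) H = algebraMap ℤ[X] (Localization.AtPrime P) (geom N - C (N : ℤ)) := by
    rw [← map_mul, ← map_mul, e1]
  rw [e4]
  rcases hT with h | h
  · refine ⟨1, _, isUnit_one, hu, ?_⟩
    rw [← h, map_sub, e2, e3, one_mul]
  · have hd : p ∣ N - 1 := by
      rw [← h, hTa]
      exact Dvd.dvd.mul_right (dvd_pow_self p (by omega)) m
    have hX : IsUnit (algebraMap ℤ[X] (Localization.AtPrime P) X) :=
      IsLocalization.map_units (Localization.AtPrime P) (⟨_, X_not_mem hf hp h1 hG hH hd⟩ : P.primeCompl)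
    refine ⟨_, _, hX, hu, ?_⟩
    have h5 : geom N - C (N : ℤ) = X * geom T - C (T : ℤ) := by
      have h6 : N = T + 1 := by omega
      rw [h6, geom_succ50]
      push_cast
      rw [C_add, C_1]
      ring
    rw [h5, map_sub, map_mul, e2, e3]

end Pool.Agent.Helper14.IR
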