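import Pool.Agent.Helper14.IR.LocG1b
import Pool.Agent.Helper14.IR.LocG2

/-!
Block IR-G2c: the additional hypothesis of the local lemma.

Paper proof. Let `T ∈ {N, N - 1}`, `T = p^a m`, `p ∤ m`, `a ≥ 1`.
`loc_X` (`p ≠ 2`, `y` not a unit): then `X - 1 ∈ P` and `μ` is a unit. `G H = S = C (S 1) + (X-1) t` (`Polynomial.X_sub_C_mul_divByMonic_eq_sub_modByMonic..`/`dvd_iff_isRoot`), `2 S(1) = N (N-1) = p^a m T'`, where `T' ∈ {N-1, N}` is the
other number, `p ∤ T'` (coprime), and `p` odd, so `S(1) = p^a g` with `2 g = m T'`, `p ∤ g`, so `ι (C g)` is a unit; `ι (X - 1) = Y μ⁻¹`.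
(`ls_of` with `Y_mem_P` gives the structure `LS`, whose field `un` says that `y` or `μ` is a unit.)
-/

open Polynomial Finset

namespace Pool.Agent.Helper14.IR

variable {P : Ideal ℤ[X]}

theorem loc_X [hP : P.IsMaximal] {N p T a m : ℕ} {G H : ℤ[X]} (hf : Fac N G H) (hp : p.Prime) (h1 : C (p : ℤ) ∈ P)
    (hG : G ∈ P) (hH : H ∈ P) (hT : T = N ∨ T = N - 1) (hTa : T = p ^ a * m) (hm : ¬ p ∣ m) (ha : 1 ≤ a)
    (hy : ¬ IsUnit (algebraMap ℤ[X] (Localization.AtPrime P) (X - 1))) (hp2 : p ≠ 2) :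
    ∃ g t : Localization.AtPrime P, IsUnit g ∧
      algebraMap ℤ[X] (Localization.AtPrime P) G * algebraMap ℤ[X] (Localization.AtPrime P) H =
        (p : Localization.AtPrime P) ^ a * g + algebraMap ℤ[X] (Localization.AtPrime P) (X ^ m - 1) * t := by
  have hPp : P.IsPrime := hP.isPrime
  have hY : X ^ m - 1 ∈ P := Y_mem_P hf hp h1 hG hH hT hTa ha
  have ls := ls_of hp hm h1 hY
  have hμ := ls.un.resolve_left hy
  obtain ⟨ν, hν⟩ := hμ.exists_right_inv
  have hfac := ls.fac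
  have hN := hf.hN
  -- the value at 1
  obtain ⟨t0, ht0⟩ : X - C (1 : ℤ) ∣ SS N - C ((SS N).eval 1) := X_sub_C_dvd_sub_C_eval
  have hone := SS_one (N := N) (by omega)
  have hNN : ((N : ℤ) - 1) = ((N - 1 : ℕ) : ℤ) := by
    push_cast [Nat.cast_sub (show 1 ≤ N by omega)]
    ring
  obtain ⟨T', hT', hprod⟩ : ∃ T' : ℕ, ¬ p ∣ T' ∧ (N : ℤ) * (N - 1) = (p : ℤ) ^ a * m * T' := by
    have hpT : p ∣ T := by
      rw [hTa]
      exact Dvd.dvd.mul_right (dvd_pow_self p (by omega)) m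
    rcases hT with rfl | rfl
    · refine ⟨T - 1, fun h => ?_, ?_⟩
      · have : p ∣ 1 := by
          have h3 := (Nat.dvd_sub hpT h)
          have h4 : T - (T - 1) = 1 := by omega
          rwa [h4] at h3
        exact hp.one_lt.ne' (Nat.dvd_one.1 this)
      · rw [hNN]
        have : (T : ℤ) = (p : ℤ) ^ a * m := by exact_mod_cast hTa
        rw [← this]
    · refine ⟨N, fun h => ?_, ?_⟩
      · have : p ∣ 1 := by
          have h3 := (Nat.dvd_sub h hpT)
          have h4 : N - (N - 1) = 1 := by omega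
          rwa [h4] at h3
        exact hp.one_lt.ne' (Nat.dvd_one.1 this)
      · rw [hNN]
        have : ((N - 1 : ℕ) : ℤ) = (p : ℤ) ^ a * m := by exact_mod_cast hTa
        rw [← this]
        ring
  have hpz : Prime (p : ℤ) := Nat.prime_iff_prime_int.1 hp
  have hcop : IsCoprime ((p : ℤ) ^ a) 2 := by
    refine IsCoprime.pow_left ?_
    rw [Int.isCoprime_iff_gcd_eq_one]
    have : Nat.Coprime p 2 := (Nat.coprime_primes hp Nat.prime_two).2 hp2
    exact this
  have hdvd : (p : ℤ) ^ a ∣ 2 * (SS N).eval 1 := by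
    rw [hone, hprod, mul_assoc]
    exact dvd_mul_right _ _
  obtain ⟨g0, hg0⟩ := hcop.dvd_of_dvd_mul_left hdvd
  have hpg : ¬ (p : ℤ) ∣ g0 := by
    intro h
    have h3 : (p : ℤ) ^ a * (2 * g0) = (p : ℤ) ^ a * (m * T') := by
      calc (p : ℤ) ^ a * (2 * g0) = 2 * ((p : ℤ) ^ a * g0) := by ring
        _ = 2 * (SS N).eval 1 := by rw [hg0]
        _ = (p : ℤ) ^ a * (m * T') := by rw [hone, hprod]; ring
    have h4 : 2 * g0 = (m : ℤ) * T' := mul_left_cancel₀ (pow_ne_zero _ hpz.ne_zero) h3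
    have h5 : (p : ℤ) ∣ (m : ℤ) * T' := by
      rw [← h4]
      exact Dvd.dvd.mul_left h 2
    rcases hpz.dvd_or_dvd h5 with h6 | h6
    · exact hm (by exact_mod_cast h6)
    · exact hT' (by exact_mod_cast h6)
  have hCg : C g0 ∉ P := fun h => hpg (int_mem hp h1 h)
  have hug : IsUnit (algebraMap ℤ[X] (Localization.AtPrime P) (C g0)) :=
    IsLocalization.map_units (Localization.AtPrime P) (⟨C g0, hCg⟩ : P.primeCompl)
  refine ⟨algebraMap ℤ[X] (Localization.AtPrime P) (C g0), ν * algebraMap ℤ[X] (Localization.AtPrime P) t0, hug, ?_⟩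
  have e1 : SS N = C ((p : ℤ)) ^ a * C g0 + (X - 1) * t0 := by
    have h3 : SS N = C ((SS N).eval 1) + (X - C 1) * t0 := by
      rw [← ht0]
      ring
    rw [hg0, C_mul, C_pow, C_1] at h3
    exact h3
  have e2 : algebraMap ℤ[X] (Localization.AtPrime P) (C (p : ℤ)) = (p : Localization.AtPrime P) := by
    simp
  rw [← map_mul, hf.mul, e1, map_add, map_mul, map_mul, map_pow, e2, ← hfac]
  congr 1
  calc algebraMap ℤ[X] (Localization.AtPrime P) (X - 1) * algebraMap ℤ[X] (Localization.AtPrime P) t0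
      = algebraMap ℤ[X] (Localization.AtPrime P) (X - 1) *
        (algebraMap ℤ[X] (Localization.AtPrime P) (geom m) * ν) * algebraMap ℤ[X] (Localization.AtPrime P) t0 := by
        rw [hν, mul_one]
    _ = _ := by ring

end Pool.Agent.Helper14.IR
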