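import Pool.Agent.Helper14.IR.LocQ

/-!
Block IR-LS: the reduction step.

Paper proofs. Let `l = p^(a-1) (p-1)`, `q = qq (a-1) = p ε + Y^l` (`qq_eq`), `Db a = q * Db (a-1)` (`Db_succ`).
`star_step`. Modulo `q`: `p ≡ - ε⁻¹ Y^l`. So `G = g Y^e + p G' ≡ Y^e g₁`, `g₁ = g - ε⁻¹ Y^(l-e) G'` a unit (`l - e ≥ 1`), and `y G H ≡ - p^a κ ≡ κ₁ Y^(a l)`, `κ₁` a unit.
Let `θ = 0` if `y` is a unit, `θ = 1` otherwise (then `μ` is a unit and `Y = y μ`; multiply by `μ`): `q ∣ Y^(e+θ) H - κ₂ Y^(a l)`, `κ₂` a unit. `e + θ ≤ l ≤ a l`, so by `q_cancel`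
`q ∣ H - κ₂ Y^(a l - e - θ)`. `Y^(a l - e - θ) = Y^((a-1) l) Y^(l - e - θ) ≡ (- ε p)^(a-1) Y^(l-e-θ)` modulo `q`. So `H = q H₁ + p^(a-1) W`, `W = κ₃ Y^(l-e-θ)`.
`e + θ < l`: by reduction modulo `p` (`a ≥ 2`): `k Y^f ≡ Y^l H₁`, so `f ≥ l` (otherwise `p ∣ Y^f (k - Y^(l-f) H₁)`, unit times `Y^f`). And `e + f = p^a - 2 θ` (hypothesis `hef`), so `e + θ ≤ p^a - l - θ = p^(a-1) - θ`;
for `p ≥ 3` this is `< l`; for `p = 2`, `l = p^(a-1)`: if `θ = 1` it is `< l`, if `θ = 0` use `e < l`. Hence `Y ∣ W`, `W ∈ 𝔪`.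
Then `q (y G H₁ - u Db (a-1)) = - p^(a-1) (y G W + p κ)`; `p ∤ q` (`q ≡ Y^l`), so `p^(a-1) ∣ y G H₁ - u Db (a-1)` (`Prime.pow_dvd_of_dvd_mul_left` or similar), `= - p^(a-1) Z`, and `q Z = y G W + p κ`
(cancel `p^(a-1)`). `Z` is a unit: else `q Z ∈ 𝔪^2`, `y G W ∈ 𝔪^2` (`G, W ∈ 𝔪`; `G ∈ 𝔪` as `e ≥ 1`), `p κ ∈ 𝔪^2`: contradiction (`not_mem_sq`).
`star_X`: `q ≡ p ε`, `W ≡ 0` modulo `Y` (`l ≥ 1`), so `H = p ε H₁ + Y (..)`, `p^a g + Y t = G H = p (ε G H₁) + Y (..)`, `Y ∣ p (p^(a-1) g - ε G H₁)`, `Y ∣ p^(a-1) g - ε G H₁` (`dvd_of_Y`), multiply by `ε⁻¹`.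
-/

open Finset IsLocalRing

namespace Pool.Agent.Helper14.IR

variable {B : Type*} [CommRing B] [IsDomain B] [IsLocalRing B] {p : ℕ} {Y y μ : B}

omit [IsDomain B] in
private theorem unitadd47 {v m : B} (hv : IsUnit v) (hm : m ∈ maximalIdeal B) : IsUnit (v + m) := by
  by_contra hc
  have h1 : v + m ∈ maximalIdeal B := (mem_maximalIdeal _).2 hc
  have h2 : v ∈ maximalIdeal B := by
    have := Ideal.sub_mem _ h1 hm
    rwa [add_sub_cancel_right] at this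
  exact (mem_maximalIdeal _).1 h2 hv

private theorem theta47 (h : LS p Y y μ) : ∃ (θ : ℕ) (c : B), IsUnit c ∧ c * y = Y ^ θ ∧
    ((θ = 0 ∧ IsUnit y) ∨ (θ = 1 ∧ ¬ IsUnit y)) := by
  by_cases hy : IsUnit y
  · obtain ⟨yi, hyi⟩ := hy.exists_left_inv
    exact ⟨0, yi, IsUnit.of_mul_eq_one y hyi, by rw [hyi, pow_zero], Or.inl ⟨rfl, hy⟩⟩
  · have hμ : IsUnit μ := h.un.resolve_left hy
    exact ⟨1, μ, hμ, by rw [pow_one, mul_comm, h.fac], Or.inr ⟨rfl, hy⟩⟩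

private theorem lpos47 (h : LS p Y y μ) (k : ℕ) : p ^ k ≤ p ^ k * (p - 1) ∧ 1 ≤ p ^ k * (p - 1) := by
  have hp := h.pr.two_le
  have h1 : 1 ≤ p ^ k := Nat.one_le_pow _ _ (by omega)
  have h2 : p ^ k * 1 ≤ p ^ k * (p - 1) := Nat.mul_le_mul_left _ (by omega)
  rw [mul_one] at h2
  exact ⟨h2, h1.trans h2⟩

theorem star_step (h : LS p Y y μ) {a : ℕ} (ha : 2 ≤ a) {G H u κ g k G' H' : B} {e f : ℕ}
    (hκ : IsUnit κ) (he : y * G * H = u * Db p Y μ a - p ^ a * κ) (hg : IsUnit g) (hk : IsUnit k)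
    (hG : G = g * Y ^ e + p * G') (hH : H = k * Y ^ f + p * H') (he1 : 1 ≤ e)
    (hel : e < p ^ (a - 1) * (p - 1))
    (hef : (IsUnit y ∧ e + f = p ^ a) ∨ (¬ IsUnit y ∧ e + f = p ^ a - 2)) :
    ∃ H₁ W Z : B, Y ∣ W ∧ IsUnit Z ∧ H = qq p Y (a - 1) * H₁ + p ^ (a - 1) * W ∧
      y * G * H₁ = u * Db p Y μ (a - 1) - p ^ (a - 1) * Z := by
  obtain ⟨n, rfl⟩ : ∃ n, a = n + 2 := ⟨a - 2, by omega⟩
  have ha1 : n + 2 - 1 = n + 1 := by omega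
  rw [ha1] at hel ⊢
  obtain ⟨ε, hε, hq⟩ := qq_eq h (n + 1)
  have hDb : Db p Y μ (n + 2) = qq p Y (n + 1) * Db p Y μ (n + 1) := Db_succ p Y μ (n + 1)
  rw [hDb] at he
  obtain ⟨hl1, hl2⟩ := lpos47 h (n + 1)
  have hlp : p ^ (n + 1) * (p - 1) + p ^ (n + 1) = p ^ (n + 2) := by
    have hp := h.pr.two_le
    obtain ⟨r, rfl⟩ : ∃ r, p = r + 2 := ⟨p - 2, by omega⟩
    have : r + 2 - 1 = r + 1 := by omega
    rw [this]
    ring
  set l : ℕ := p ^ (n + 1) * (p - 1) with hl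
  set q : B := qq p Y (n + 1) with hqdef
  obtain ⟨ei, hei⟩ := hε.exists_left_inv
  have heiu : IsUnit ei := IsUnit.of_mul_eq_one ε hei
  have hpq : (p : B) = q * ei - ei * Y ^ l := by
    rw [hq]
    linear_combination (-(p : B)) * hei
  have hYq : Y ^ l = q - p * ε := by rw [hq]; ring
  have hYm := h.Y_mem
  have hpm := h.p_mem
  have hqm : q ∈ maximalIdeal B := by
    rw [hq]
    exact Ideal.add_mem _ (Ideal.mul_mem_right _ _ hpm) (Ideal.pow_mem_of_mem _ hYm _ (by omega))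
  have hnq : ¬ (p : B) ∣ q := by
    intro hd
    have h1 : (p : B) ∣ Y ^ l := by
      rw [hYq]
      exact dvd_sub hd (dvd_mul_right _ _)
    exact h.nd (h.pp.dvd_of_dvd_pow h1)
  obtain ⟨θ, c, hc, hcy, hθ⟩ := theta47 h
  have hθ1 : θ ≤ 1 := by rcases hθ with h1 | h1 <;> omega
  -- the unit g₁
  set g₁ : B := g + -(ei * Y ^ (l - e) * G') with hg1
  have hg1u : IsUnit g₁ := by
    refine unitadd47 hg (Submodule.neg_mem _ (Ideal.mul_mem_right _ _ (Ideal.mul_mem_left _ _ ?_)))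
    exact Ideal.pow_mem_of_mem _ hYm _ (by omega)
  have hYe : Y ^ e * Y ^ (l - e) = Y ^ l := by rw [← pow_add]; congr 1; omega
  have hG1 : G = Y ^ e * g₁ + q * (ei * G') := by
    rw [hG, hg1]
    linear_combination G' * hpq + ei * G' * hYe
  obtain ⟨gi, hgi⟩ := hg1u.exists_left_inv
  have hgiu : IsUnit gi := IsUnit.of_mul_eq_one g₁ hgi
  -- p ^ (n+2) modulo q
  have hpa : q ∣ (p : B) ^ (n + 2) - (-ei * Y ^ l) ^ (n + 2) := by
    refine dvd_trans ?_ (sub_dvd_pow_sub_pow (p : B) (-ei * Y ^ l) (n + 2))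
    exact ⟨ei, by rw [hpq]; ring⟩
  obtain ⟨s, hs⟩ := hpa
  have hYa : q ∣ (Y ^ l) ^ (n + 1) - (-(p * ε)) ^ (n + 1) := by
    refine dvd_trans ?_ (sub_dvd_pow_sub_pow (Y ^ l) (-(p * ε)) (n + 1))
    exact ⟨1, by rw [hYq]; ring⟩
  obtain ⟨s', hs'⟩ := hYa
  -- first divisibility
  have hle : e + θ ≤ l := by omega
  have hsplit : Y ^ (e + θ) * (Y ^ (l - e - θ) * (Y ^ l) ^ (n + 1)) = (Y ^ l) ^ (n + 2) := by
    rw [← mul_assoc, ← pow_add, show e + θ + (l - e - θ) = l by omega]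
    ring
  have hdiv1 : q ∣ Y ^ (e + θ) * (g₁ * H + c * κ * (-ei) ^ (n + 2) * (Y ^ (l - e - θ) * (Y ^ l) ^ (n + 1))) := by
    refine ⟨c * (u * Db p Y μ (n + 1)) - c * κ * s - Y ^ θ * (ei * G') * H, ?_⟩
    have e1 : Y ^ (e + θ) = Y ^ e * Y ^ θ := pow_add _ _ _
    have e2 : (-ei * Y ^ l) ^ (n + 2) = (-ei) ^ (n + 2) * (Y ^ l) ^ (n + 2) := mul_pow _ _ _
    rw [e2] at hs
    have e3 : Y ^ (e + θ) * (g₁ * H) = Y ^ θ * (G * H) - q * (Y ^ θ * (ei * G') * H) := by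
      rw [e1]
      linear_combination (-(Y ^ θ * H)) * hG1
    have e4 : Y ^ θ * (G * H) = c * (u * (q * Db p Y μ (n + 1)) - p ^ (n + 2) * κ) := by
      rw [← hcy]
      linear_combination c * he
    have e5 : Y ^ (e + θ) * (g₁ * H + c * κ * (-ei) ^ (n + 2) * (Y ^ (l - e - θ) * (Y ^ l) ^ (n + 1))) =
        Y ^ (e + θ) * (g₁ * H) + c * κ * (-ei) ^ (n + 2) *
          (Y ^ (e + θ) * (Y ^ (l - e - θ) * (Y ^ l) ^ (n + 1))) := by ring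
    rw [e5, hsplit, e3, e4]
    linear_combination (-(c * κ)) * hs
  have hdiv2 := q_cancel h hε hl2 hq hdiv1
  obtain ⟨s₂, hs₂⟩ := hdiv2
  set κ₃ : B := -(gi * (c * κ * (-ei) ^ (n + 2)) * (-ε) ^ (n + 1)) with hκ₃
  have hHeq : H = q * (gi * s₂ - gi * (c * κ * (-ei) ^ (n + 2)) * Y ^ (l - e - θ) * s') +
      p ^ (n + 1) * (κ₃ * Y ^ (l - e - θ)) := by
    have e6 : (-(p * ε)) ^ (n + 1) = (p : B) ^ (n + 1) * (-ε) ^ (n + 1) := by
      rw [← mul_pow]; congr 1; ring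
    rw [e6] at hs'
    rw [hκ₃]
    linear_combination (-H) * hgi + gi * hs₂ - gi * (c * κ * (-ei) ^ (n + 2)) * Y ^ (l - e - θ) * hs'
  set H₁ : B := gi * s₂ - gi * (c * κ * (-ei) ^ (n + 2)) * Y ^ (l - e - θ) * s' with hH₁
  -- e + θ < l
  have hlt : e + θ < l := by
    rcases hθ with ⟨h0, hyu⟩ | ⟨h1, hyn⟩
    · omega
    · have hf : l ≤ f := by
        by_contra hfl
        push Not at hfl
        have hku : IsUnit (k + -(Y ^ (l - f) * H₁)) := by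
          refine unitadd47 hk (Submodule.neg_mem _ (Ideal.mul_mem_right _ _ ?_))
          exact Ideal.pow_mem_of_mem _ hYm _ (by omega)
        have hYf : Y ^ f * Y ^ (l - f) = Y ^ l := by rw [← pow_add]; congr 1; omega
        have hd : (p : B) ∣ Y ^ f * (k + -(Y ^ (l - f) * H₁)) := by
          refine ⟨ε * H₁ + p ^ n * (κ₃ * Y ^ (l - e - θ)) - H', ?_⟩
          rw [hH, hq] at hHeq
          rw [pow_succ] at hHeq
          linear_combination hHeq - H₁ * hYf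
        rcases h.pp.dvd_or_dvd hd with h2 | h2
        · exact h.nd (h.pp.dvd_of_dvd_pow h2)
        · exact h.pp.not_isUnit (isUnit_of_dvd_unit h2 hku)
      have hef' : e + f = p ^ (n + 2) - 2 := by
        rcases hef with h3 | h3
        · exact absurd h3.1 hyn
        · exact h3.2
      omega
  have hYW : Y ∣ κ₃ * Y ^ (l - e - θ) := Dvd.dvd.mul_left (dvd_pow_self Y (by omega)) _
  have hWm : κ₃ * Y ^ (l - e - θ) ∈ maximalIdeal B :=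
    Ideal.mul_mem_left _ _ (Ideal.pow_mem_of_mem _ hYm _ (by omega))
  have hGm : G ∈ maximalIdeal B := by
    rw [hG]
    exact Ideal.add_mem _ (Ideal.mul_mem_left _ _ (Ideal.pow_mem_of_mem _ hYm _ (by omega)))
      (Ideal.mul_mem_right _ _ hpm)
  set W : B := κ₃ * Y ^ (l - e - θ) with hW
  have hkey : q * (y * G * H₁ - u * Db p Y μ (n + 1)) = p ^ (n + 1) * (-(y * G * W + p * κ)) := by
    rw [hHeq] at he
    linear_combination he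
  have hpd : (p : B) ^ (n + 1) ∣ y * G * H₁ - u * Db p Y μ (n + 1) :=
    h.pp.pow_dvd_of_dvd_mul_left (n + 1) hnq ⟨_, hkey⟩
  obtain ⟨D', hD'⟩ := hpd
  have hqZ : q * (-D') = y * G * W + p * κ := by
    have hp0 : (p : B) ^ (n + 1) ≠ 0 := pow_ne_zero _ h.pp.ne_zero
    apply mul_left_cancel₀ hp0
    rw [hD'] at hkey
    linear_combination (-1 : B) * hkey
  refine ⟨H₁, W, -D', hYW, ?_, hHeq, ?_⟩
  · by_contra hZ
    have hZm : -D' ∈ maximalIdeal B := (mem_maximalIdeal _).2 hZ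
    apply not_mem_sq h hκ
    have e7 : (p : B) * κ = q * (-D') - y * (G * W) := by
      rw [hqZ]; ring
    rw [e7, pow_two]
    exact Ideal.sub_mem _ (Ideal.mul_mem_mul hqm hZm) (Ideal.mul_mem_left _ _ (Ideal.mul_mem_mul hGm hWm))
  · linear_combination hD'

theorem star_X (h : LS p Y y μ) {a : ℕ} (ha : 2 ≤ a) {G H H₁ W g t : B} (hW : Y ∣ W) (hg : IsUnit g)
    (hH : H = qq p Y (a - 1) * H₁ + p ^ (a - 1) * W) (hX : G * H = p ^ a * g + Y * t) :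
    ∃ g' t' : B, IsUnit g' ∧ G * H₁ = p ^ (a - 1) * g' + Y * t' := by
  obtain ⟨n, rfl⟩ : ∃ n, a = n + 2 := ⟨a - 2, by omega⟩
  have ha1 : n + 2 - 1 = n + 1 := by omega
  rw [ha1] at hH ⊢
  obtain ⟨ε, hε, hq⟩ := qq_eq h (n + 1)
  obtain ⟨hl1, hl2⟩ := lpos47 h (n + 1)
  obtain ⟨m, hm⟩ : ∃ m, p ^ (n + 1) * (p - 1) = m + 1 := ⟨p ^ (n + 1) * (p - 1) - 1, by omega⟩
  rw [hm] at hq
  obtain ⟨ei, hei⟩ := hε.exists_left_inv
  have heiu : IsUnit ei := IsUnit.of_mul_eq_one ε hei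
  obtain ⟨W', rfl⟩ := hW
  have hd : Y ∣ p * (p ^ (n + 1) * g - ε * (G * H₁)) := by
    refine ⟨G * Y ^ m * H₁ + G * p ^ (n + 1) * W' - t, ?_⟩
    rw [hH, hq] at hX
    rw [pow_succ Y m] at hX
    rw [pow_succ (p : B) (n + 1)] at hX
    linear_combination (-1 : B) * hX
  obtain ⟨s, hs⟩ := dvd_of_Y h hd
  refine ⟨ei * g, -(ei * s), heiu.mul hg, ?_⟩
  linear_combination (-(G * H₁)) * hei - ei * hs

end Pool.Agent.Helper14.IR
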