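import Pool.Agent.Helper14.IR.LocQ

/-!
Block IR-LU: the induction step for the conclusion `KK`.

Paper proof. `star_up` (`a ≥ 2`). Work modulo `G`. `u Db (a-1) = y G H₁ + p^(a-1) Z`, so `Db (a-1) ∈ (G) + (p^(a-1))` and `(1+Y)^(p^(a-1)) - 1 = y Db (a-1) ≡ p^(a-1) z`, `z = y Z / u`. With `qq_kap`:
`q = qq (a-1) = p + (..) κ' ≡ p (1 + p^(a-2) z κ') = p ε'`; `ε'` is a unit: for `a ≥ 3` clear; for `a = 2`: `z κ' ∈ 𝔪` if `p ≠ 2` (`κ' ∈ 𝔪`) or if `y` is not a unit (`z ∈ 𝔪`); the case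
`p = 2`, `a = 2`, `y` a unit is excluded by `hnot`. So `H ≡ p ε' H₁ + p^(a-1) W` modulo `G`. From `hK`: `p^(a-2) = α G + β H₁`, so `β H ≡ p ε' p^(a-2) + p^(a-1) β W = p^(a-1) (ε' + β W)`
modulo `G`, `W ∈ 𝔪` (`Y ∣ W`), so `ε' + β W` is a unit and `p^(a-1) ∈ (G, H)`. Then `Db (a-1) ∈ (G) + (p^(a-1)) ⊆ (G, H)`: the case `k = a - 1`. For `1 ≤ k ≤ a - 2`:
`p^(a-2-k) Db k = α G + β H₁`, `β H ≡ ε' p^(a-1-k) Db k + p^(a-1) β W`, so `p^(a-1-k) Db k ∈ (G, H)`.
-/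

open Finset IsLocalRing

namespace Pool.Agent.Helper14.IR

variable {B : Type*} [CommRing B] [IsDomain B] [IsLocalRing B] {p : ℕ} {Y y μ : B}

omit [IsDomain B] in
private lemma unit67 {v m : B} (hv : IsUnit v) (hm : m ∈ maximalIdeal B) : IsUnit (v + m) := by
  by_contra hc
  have h1 : v + m ∈ maximalIdeal B := (mem_maximalIdeal _).2 hc
  have h2 : v ∈ maximalIdeal B := by
    have := Ideal.sub_mem _ h1 hm
    rwa [add_sub_cancel_right] at this
  exact (mem_maximalIdeal _).1 h2 hv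

theorem star_up (h : LS p Y y μ) {a : ℕ} (ha : 2 ≤ a) {G H H₁ W Z u : B} (hu : IsUnit u) (hW : Y ∣ W)
    (hH : H = qq p Y (a - 1) * H₁ + p ^ (a - 1) * W)
    (he : y * G * H₁ = u * Db p Y μ (a - 1) - p ^ (a - 1) * Z)
    (hnot : ¬ (p = 2 ∧ a = 2 ∧ IsUnit y)) (hK : KK p Y μ (a - 1) G H₁) : KK p Y μ a G H := by
  obtain ⟨n, rfl⟩ : ∃ n, a = n + 2 := ⟨a - 2, by omega⟩
  have ha1 : n + 2 - 1 = n + 1 := by omega
  have ha2 : n + 1 - 1 = n := by omega
  unfold KK at hK ⊢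
  rw [ha1] at hH he hK ⊢
  rw [ha2] at hK
  obtain ⟨κ, hκ, hκ2⟩ := qq_kap h (n + 1)
  have hyD := y_Db h.fac (p := p) (n + 1)
  obtain ⟨u', hu'⟩ := hu.exists_left_inv
  have hpm : (p : B) ∈ maximalIdeal B := by
    rw [h.max]
    exact Ideal.subset_span (by simp)
  have hYm : Y ∈ maximalIdeal B := by
    rw [h.max]
    exact Ideal.subset_span (by simp)
  have hWm : W ∈ maximalIdeal B := by
    obtain ⟨c, rfl⟩ := hW
    exact Ideal.mul_mem_right _ _ hYm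
  have hDb : Db p Y μ (n + 1) = u' * (y * G * H₁ + (p : B) ^ (n + 1) * Z) := by
    linear_combination (-u') * he - Db p Y μ (n + 1) * hu'
  obtain ⟨z, hz⟩ : ∃ z, z = u' * y * Z := ⟨_, rfl⟩
  obtain ⟨s, hs⟩ : ∃ s, s = u' * y * y * H₁ * κ := ⟨_, rfl⟩
  obtain ⟨e, hee⟩ : ∃ e : B, e = 1 + (p : B) ^ n * (z * κ) := ⟨_, rfl⟩
  have hq : qq p Y (n + 1) = p * e + G * s := by
    rw [hee, hs, hz]
    linear_combination hκ - κ * hyD + y * κ * hDb
  have hmem : (p : B) ^ n * (z * κ) ∈ maximalIdeal B := by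
    rcases Nat.eq_zero_or_pos n with hn | hn
    · by_cases hp2 : p = 2
      · have hy : ¬ IsUnit y := fun hy => hnot ⟨hp2, by omega, hy⟩
        have hym : y ∈ maximalIdeal B := (mem_maximalIdeal _).2 hy
        have hzm : z ∈ maximalIdeal B := by
          rw [hz]
          exact Ideal.mul_mem_right _ _ (Ideal.mul_mem_left _ _ hym)
        exact Ideal.mul_mem_left _ _ (Ideal.mul_mem_right _ _ hzm)
      · exact Ideal.mul_mem_left _ _ (Ideal.mul_mem_left _ _ (hκ2 hp2))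
    · exact Ideal.mul_mem_right _ _ (Ideal.pow_mem_of_mem _ hpm n hn)
  have heU : IsUnit e := by
    rw [hee]
    exact unit67 isUnit_one hmem
  obtain ⟨e', he'⟩ := heU.exists_left_inv
  have h1 : (p : B) ^ (n + 1) ∈ Ideal.span {G, H} := by
    obtain ⟨α, β, hαβ⟩ := Ideal.mem_span_pair.1 hK.1
    have h2 : (p : B) ^ (n + 1) * (e + β * W) = β * H + G * (p * e * α - s * β * H₁) := by
      linear_combination (-β) * hH - β * H₁ * hq - p * e * hαβ
    obtain ⟨v', hv'⟩ := (unit67 heU (Ideal.mul_mem_left _ β hWm)).exists_left_inv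
    refine Ideal.mem_span_pair.2 ⟨v' * (p * e * α - s * β * H₁), v' * β, ?_⟩
    linear_combination (-v') * h2 + (p : B) ^ (n + 1) * hv'
  have hGm : G ∈ Ideal.span {G, H} := Ideal.subset_span (by simp)
  have hHm : H ∈ Ideal.span {G, H} := Ideal.subset_span (by simp)
  have h3 : Db p Y μ (n + 1) ∈ Ideal.span {G, H} := by
    rw [hDb]
    refine Ideal.mul_mem_left _ _ (Ideal.add_mem _ ?_ (Ideal.mul_mem_right _ _ h1))
    exact Ideal.mul_mem_right _ _ (Ideal.mul_mem_left _ _ hGm)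
  refine ⟨h1, fun k hk1 hk2 => ?_⟩
  rcases Nat.lt_or_ge n k with hk | hk
  · have hk3 : k = n + 1 := by omega
    rw [hk3]
    exact Ideal.mul_mem_left _ _ h3
  · obtain ⟨m, hm⟩ : ∃ m, n = k + m := ⟨n - k, by omega⟩
    obtain ⟨α, β, hαβ⟩ := Ideal.mem_span_pair.1 (hK.2 k hk1 (by omega))
    have e1 : n - k = m := by omega
    have e2 : n + 1 - k = m + 1 := by omega
    rw [e1] at hαβ
    rw [e2]
    have h4 : (p : B) ^ (m + 1) * Db p Y μ k =
        e' * (β * H + G * (p * e * α - s * β * H₁) - (p : B) ^ (n + 1) * (β * W)) := by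
      linear_combination (-(e' * β)) * hH - (e' * β * H₁) * hq - (e' * p * e) * hαβ -
        (p : B) ^ (m + 1) * Db p Y μ k * he'
    rw [h4]
    refine Ideal.mul_mem_left _ _ (Ideal.sub_mem _ (Ideal.add_mem _ ?_ ?_) ?_)
    · exact Ideal.mul_mem_left _ _ hHm
    · exact Ideal.mul_mem_right _ _ hGm
    · exact Ideal.mul_mem_right _ _ h1

end Pool.Agent.Helper14.IR
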