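import Pool.Agent.Helper14.IR.LocB
import Pool.Agent.Helper14.IR.LocBb
import Pool.Agent.Helper14.IR.LocBc
import Pool.Agent.Helper14.IR.LocS
import Pool.Agent.Helper14.IR.LocU

/-!
Block IR-LM: the local lemma.

Paper proof. `star`, induction on `a`. `a = 1`: `star_base` and `KK_unit_left/right`. `a ≥ 2`: if `G` or `H` is a unit, done. Otherwise by `star_mod0` (`y` a unit) or `star_mod1` (`y` not a unit, `μ` a unit) and `ord_ex`
`G = g Y^e + p G'`, `H = k Y^f + p H'`, `e + f = p^a` resp. `p^a - 2`; `e, f ≥ 1` (else unit). If `e < l = p^(a-1)(p-1)`: `star_step`, `star_X`, induction hypothesis for `(G, H₁, u, Z)`, and `star_up`. The exclusion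
`hnot`: if `p = 2`, `a = 2`, `y` a unit: `star_base` for `(G, H₁)` shows `H₁` is a unit (`G` is not), `star_mod0` (`a = 1`): `G H₁ = ν Y^2 + 2 t`, and `G H₁ = g H₁ Y^e + 2 (..)`, so `e = 2 = l` (`ord_uniq`): contradiction.
If `f < l`: the same with `G`, `H` exchanged (`KK_symm`; `y * H * G`). Else `2 l ≤ e + f ≤ p^a` forces `p = 2` and `e = f = 2^(a-1)`, `y` a unit: `star_B`; `2 ∈ (G,H)` and `Db (a-1) ∈ (G, H)` give `KK`.
-/

open Finset IsLocalRing

namespace Pool.Agent.Helper14.IR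

variable {B : Type*} [CommRing B] [IsDomain B] [IsLocalRing B] {p : ℕ} {Y y μ : B}

omit [IsDomain B] in
private lemma unit86 {u x : B} (hu : IsUnit u) (hx : x ∈ maximalIdeal B) : IsUnit (u + x) := by
  by_contra hn
  have h1 : u + x ∈ maximalIdeal B := (mem_maximalIdeal _).2 hn
  have h2 : u ∈ maximalIdeal B := by
    have := Ideal.sub_mem _ h1 hx
    rwa [add_sub_cancel_right] at this
  exact (mem_maximalIdeal _).1 h2 hu

private lemma pos86 (h : LS p Y y μ) {G g G' : B} {e : ℕ} (hg : IsUnit g) (hGn : ¬ IsUnit G)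
    (hG : G = g * Y ^ e + p * G') : 1 ≤ e := by
  by_contra hlt
  have h0 : e = 0 := by omega
  apply hGn
  rw [hG, h0, pow_zero, mul_one]
  exact unit86 hg (Ideal.mul_mem_right _ _ h.p_mem)

private lemma half86 (h : LS p Y y μ) {a : ℕ} (ha : 1 ≤ a)
    (ih : ∀ {G H u κ : B}, IsUnit u → IsUnit κ → y * G * H = u * Db p Y μ a - p ^ a * κ →
      (¬ IsUnit y → p ≠ 2 → ∃ g t : B, IsUnit g ∧ G * H = p ^ a * g + Y * t) → KK p Y μ a G H)
    {G H u κ g k G' H' : B} {e f : ℕ} (hu : IsUnit u) (hκ : IsUnit κ)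
    (he : y * G * H = u * Db p Y μ (a + 1) - p ^ (a + 1) * κ)
    (hX : ¬ IsUnit y → p ≠ 2 → ∃ g t : B, IsUnit g ∧ G * H = p ^ (a + 1) * g + Y * t)
    (hg : IsUnit g) (hk : IsUnit k) (hG : G = g * Y ^ e + p * G') (hH : H = k * Y ^ f + p * H')
    (he1 : 1 ≤ e) (hel : e < p ^ a * (p - 1))
    (hef : (IsUnit y ∧ e + f = p ^ (a + 1)) ∨ (¬ IsUnit y ∧ e + f = p ^ (a + 1) - 2))
    (hGn : ¬ IsUnit G) : KK p Y μ (a + 1) G H := by
  obtain ⟨H₁, W, Z, hW, hZ, hH1, he'⟩ := star_step h (by omega : 2 ≤ a + 1) hκ he hg hk hG hH he1 hel hef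
  have hX1 : ¬ IsUnit y → p ≠ 2 → ∃ g t : B, IsUnit g ∧ G * H₁ = p ^ a * g + Y * t := by
    intro hy hp
    obtain ⟨g0, t0, hg0, hX0⟩ := hX hy hp
    exact star_X h (by omega : 2 ≤ a + 1) hW hg0 hH1 hX0
  refine star_up h (by omega : 2 ≤ a + 1) hu hW hH1 he' ?_ (ih hu hZ he' hX1)
  rintro ⟨hp2, ha2, hy⟩
  have ha1 : a = 1 := by omega
  subst ha1
  subst hp2
  have he'' : y * G * H₁ = u * Db 2 Y μ 1 - ((2 : ℕ) : B) * Z := by
    rw [he', Nat.add_sub_cancel, pow_one]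
  rcases star_base h hu hZ he'' (fun hy' => absurd hy hy') with h1 | h1
  · exact hGn h1
  · obtain ⟨ν, t, hν, hGH⟩ := star_mod0 h (le_refl 1) hy hu he'
    have h2 : (g * H₁) * Y ^ e + ((2 : ℕ) : B) * (G' * H₁) = ν * Y ^ (2 ^ 1) + ((2 : ℕ) : B) * t := by
      rw [← hGH, hG]
      ring
    have h3 := ord_uniq h (hg.mul h1) hν h2
    omega

theorem star (h : LS p Y y μ) {a : ℕ} (ha : 1 ≤ a) {G H u κ : B} (hu : IsUnit u) (hκ : IsUnit κ)
    (he : y * G * H = u * Db p Y μ a - p ^ a * κ)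
    (hX : ¬ IsUnit y → p ≠ 2 → ∃ g t : B, IsUnit g ∧ G * H = p ^ a * g + Y * t) : KK p Y μ a G H := by
  induction a, ha using Nat.le_induction generalizing G H u κ with
  | base =>
    have he' : y * G * H = u * Db p Y μ 1 - p * κ := by rw [he, pow_one]
    rcases star_base h hu hκ he' (fun hy hp => by
      obtain ⟨g, t, hg, hGH⟩ := hX hy hp
      exact ⟨g, t, hg, by rw [hGH, pow_one]⟩) with h1 | h1
    · exact KK_unit_left h1
    · exact KK_unit_right h1
  | succ a ha ih =>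
    by_cases hGn : IsUnit G
    · exact KK_unit_left hGn
    by_cases hHn : IsUnit H
    · exact KK_unit_right hHn
    obtain ⟨e, f, g, k, G', H', hef, hg, hk, hG, hH⟩ : ∃ (e f : ℕ) (g k G' H' : B),
        ((IsUnit y ∧ e + f = p ^ (a + 1)) ∨ (¬ IsUnit y ∧ e + f = p ^ (a + 1) - 2)) ∧ IsUnit g ∧
        IsUnit k ∧ G = g * Y ^ e + p * G' ∧ H = k * Y ^ f + p * H' := by
      by_cases hy : IsUnit y
      · obtain ⟨ν, t, hν, hGH⟩ := star_mod0 h (by omega : 1 ≤ a + 1) hy hu he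
        obtain ⟨e, f, g, k, G', H', hef, h1, h2, h3, h4⟩ := ord_ex h hν hGH
        exact ⟨e, f, g, k, G', H', Or.inl ⟨hy, hef⟩, h1, h2, h3, h4⟩
      · have hμ : IsUnit μ := h.un.resolve_left hy
        obtain ⟨ν, t, hν, hGH⟩ := star_mod1 h (by omega : 1 ≤ a + 1) hμ hu he
        obtain ⟨e, f, g, k, G', H', hef, h1, h2, h3, h4⟩ := ord_ex h hν hGH
        exact ⟨e, f, g, k, G', H', Or.inr ⟨hy, hef⟩, h1, h2, h3, h4⟩
    have he1 := pos86 h hg hGn hG
    have hf1 := pos86 h hk hHn hH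
    by_cases hel : e < p ^ a * (p - 1)
    · exact half86 h ha (fun h1 h2 h3 h4 => ih h1 h2 h3 h4) hu hκ he hX hg hk hG hH he1 hel hef hGn
    by_cases hfl : f < p ^ a * (p - 1)
    · apply KK_symm
      refine half86 h ha (fun h1 h2 h3 h4 => ih h1 h2 h3 h4) hu hκ ?_ ?_ hk hg hH hG hf1 hfl ?_ hHn
      · rw [← he]
        ring
      · intro hy hp
        obtain ⟨g0, t0, hg0, hX0⟩ := hX hy hp
        exact ⟨g0, t0, hg0, by rw [← hX0]; ring⟩
      · rw [add_comm f e]
        exact hef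
    -- both orders are at least `l`
    have hp2 : p = 2 := by
      have h1 : 2 ≤ p := h.pr.two_le
      have h2 : e + f ≤ p ^ (a + 1) := by
        rcases hef with hh | hh
        · exact hh.2.le
        · rw [hh.2]
          exact Nat.sub_le _ _
      have h3 : p ^ (a + 1) = p ^ a * p := pow_succ p a
      have h4 : 0 < p ^ a := Nat.pow_pos (by omega)
      push Not at hel hfl
      have h5 : p ^ a * (2 * (p - 1)) ≤ p ^ a * p := by
        rw [← h3]
        calc p ^ a * (2 * (p - 1)) = p ^ a * (p - 1) + p ^ a * (p - 1) := by ring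
          _ ≤ e + f := Nat.add_le_add hel hfl
          _ ≤ p ^ (a + 1) := h2
      have h6 := Nat.le_of_mul_le_mul_left h5 h4
      omega
    subst hp2
    have h7 : 2 ^ (a + 1) = 2 * 2 ^ a := by ring
    have h8 : 1 ≤ 2 ^ a := Nat.one_le_two_pow
    have hy : IsUnit y ∧ e = 2 ^ a ∧ f = 2 ^ a := by
      rcases hef with hh | hh
      · refine ⟨hh.1, ?_, ?_⟩
        · have := hh.2
          omega
        · have := hh.2
          omega
      · have := hh.2
        omega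
    obtain ⟨hy, rfl, rfl⟩ := hy
    have hB := star_B h (by omega : 2 ≤ a + 1) hy hu hκ (by rw [he, Nat.cast_ofNat]) hg hk
      (by rw [hG, Nat.cast_ofNat, Nat.add_sub_cancel]) (by rw [hH, Nat.cast_ofNat, Nat.add_sub_cancel])
    rw [Nat.add_sub_cancel] at hB
    unfold KK
    rw [Nat.add_sub_cancel, Nat.cast_ofNat]
    refine ⟨Ideal.pow_mem_of_mem _ hB.1 a (by omega), fun j hj1 hj2 => ?_⟩
    rcases Nat.lt_or_ge j a with hja | hja
    · exact Ideal.mul_mem_right _ _ (Ideal.pow_mem_of_mem _ hB.1 _ (by omega))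
    · have hj3 : j = a := by omega
      rw [hj3]
      exact Ideal.mul_mem_left _ _ hB.2

end Pool.Agent.Helper14.IR
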