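import Pool.Agent.Helper14.IR.LocG2b
import Pool.Agent.Helper14.IR.LocG2c
import Pool.Agent.Helper14.IR.LocM

/-!
Block IR-G2d: the local lemma applied to a factorization at a maximal ideal `P` of `ℤ[X]` containing `G`, `H` and `p`.

Paper proof. Let `T ∈ {N, N - 1}`, `T = p^a m`, `p ∤ m`, `a ≥ 1`.
`loc_main`: `star` applied in `B`, then `out_of_mem`; for `n = m p^k`: `ι (geom n) = Db k`; `KK` with `k = a - h`: `p^(h-1) Db (a-h)`.
-/

open Polynomial Finset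

namespace Pool.Agent.Helper14.IR

variable {P : Ideal ℤ[X]}

theorem loc_main [hP : P.IsMaximal] {N p T a m : ℕ} {G H : ℤ[X]} (hf : Fac N G H) (hp : p.Prime) (h1 : C (p : ℤ) ∈ P)
    (hG : G ∈ P) (hH : H ∈ P) (hT : T = N ∨ T = N - 1) (hTa : T = p ^ a * m) (hm : ¬ p ∣ m) (ha : 1 ≤ a) :
    (∃ s : ℤ[X], s ∉ P ∧ s * C ((p : ℤ) ^ (a - 1)) ∈ Ideal.span {G, H}) ∧
      ∀ h, 1 ≤ h → h + 1 ≤ a → ∃ s : ℤ[X], s ∉ P ∧
        s * (C ((p : ℤ) ^ (h - 1)) * geom (m * p ^ (a - h))) ∈ Ideal.span {G, H} := by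
  have hPp : P.IsPrime := hP.isPrime
  have hY : X ^ m - 1 ∈ P := Y_mem_P hf hp h1 hG hH hT hTa ha
  have ls := ls_of hp hm h1 hY
  obtain ⟨u, κ, hu, hκ, he⟩ := loc_eq hf hp h1 hG hH hT hTa hm ha
  have hK := star ls ha hu hκ he (fun hy hp2 => loc_X hf hp h1 hG hH hT hTa hm ha hy hp2)
  refine ⟨out_of_mem ?_, fun h hh1 hh2 => out_of_mem ?_⟩
  · have e1 : algebraMap ℤ[X] (Localization.AtPrime P) (C ((p : ℤ) ^ (a - 1))) =
        (p : Localization.AtPrime P) ^ (a - 1) := by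
      rw [C_pow, map_pow]
      congr 1
      simp
    rw [e1]
    exact hK.1
  · have h3 := hK.2 (a - h) (by omega) (by omega)
    have e2 : a - 1 - (a - h) = h - 1 := by omega
    rw [e2, ← Db_map, Db_geom] at h3
    have e1 : algebraMap ℤ[X] (Localization.AtPrime P) (C ((p : ℤ) ^ (h - 1))) =
        (p : Localization.AtPrime P) ^ (h - 1) := by
      rw [C_pow, map_pow]
      congr 1
      simp
    rw [map_mul, e1]
    exact h3

end Pool.Agent.Helper14.IR
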