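import Pool.Agent.Helper14.IR.LocG2d

/-!
Block IR-G3: from the local statements to a global one.

Paper proof. Let `I = Ideal.span {G, H}`, and for `c ∈ ℤ[X]` let `J c = {s | s * c ∈ I}` (an ideal, `Submodule.comap` of multiplication by `c`, contains `I`). Let `c_0 = C (p^(a-1))`, `c_h = C (p^(h-1)) * geom (m p^(a-h))` for
`1 ≤ h ≤ a - 1`, and `J = ⨅_{h ∈ range a} J c_h`. Claim `J ⊔ (C p) = ⊤`. Otherwise there is a maximal ideal `P ⊇ J ⊔ (C p)` (`Ideal.exists_le_maximal`). `P ⊇ I ∋ G, H`, `C p ∈ P`. `J ≤ P` and `P` prime give some `h` with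
`J c_h ≤ P` (`Ideal.IsPrime.inf_le'`), but `loc_main` gives `s ∈ J c_h`, `s ∉ P`: contradiction. So `1 = s + C p * t'` with `s ∈ J`; `t = - t'`.
-/

open Polynomial Finset

namespace Pool.Agent.Helper14.IR

/-- the colon ideal of `c` -/
private noncomputable def Jc6 (I : Ideal ℤ[X]) (c : ℤ[X]) : Ideal ℤ[X] := Submodule.comap (LinearMap.mulRight ℤ[X] c) I

private theorem mem_Jc6 {I : Ideal ℤ[X]} {c s : ℤ[X]} : s ∈ Jc6 I c ↔ s * c ∈ I := Iff.rfl

theorem local_main {N p T a m : ℕ} {G H : ℤ[X]} (hf : Fac N G H) (hp : p.Prime)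
    (hT : T = N ∨ T = N - 1) (hTa : T = p ^ a * m) (hm : ¬ p ∣ m) (ha : 1 ≤ a) :
    ∃ s t : ℤ[X], s = 1 + C (p : ℤ) * t ∧ s * C ((p : ℤ) ^ (a - 1)) ∈ Ideal.span {G, H} ∧
      ∀ h, 1 ≤ h → h + 1 ≤ a → s * (C ((p : ℤ) ^ (h - 1)) * geom (m * p ^ (a - h))) ∈ Ideal.span {G, H} := by
  classical
  obtain ⟨c, hc0, hc⟩ : ∃ c : ℕ → ℤ[X], c 0 = C ((p : ℤ) ^ (a - 1)) ∧
      ∀ h, 1 ≤ h → c h = C ((p : ℤ) ^ (h - 1)) * geom (m * p ^ (a - h)) :=
    ⟨fun h => if h = 0 then C ((p : ℤ) ^ (a - 1)) else C ((p : ℤ) ^ (h - 1)) * geom (m * p ^ (a - h)),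
      by simp, fun h hh => if_neg (by omega)⟩
  have key : (range a).inf (fun h => Jc6 (Ideal.span {G, H}) (c h)) ⊔ Ideal.span {C (p : ℤ)} = ⊤ := by
    by_contra hne
    obtain ⟨P, hP, hle⟩ := Ideal.exists_le_maximal _ hne
    have hpP : C (p : ℤ) ∈ P := hle (Ideal.mem_sup_right (Ideal.mem_span_singleton_self _))
    have hJ : (range a).inf (fun h => Jc6 (Ideal.span {G, H}) (c h)) ≤ P := le_sup_left.trans hle
    have hI : Ideal.span {G, H} ≤ P := by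
      refine le_trans (Finset.le_inf fun h _ => fun s hs => ?_) hJ
      rw [mem_Jc6]
      exact Ideal.mul_mem_right _ _ hs
    have hG : G ∈ P := hI (Ideal.subset_span (by simp))
    have hH : H ∈ P := hI (Ideal.subset_span (by simp))
    obtain ⟨l1, l2⟩ := loc_main hf hp hpP hG hH hT hTa hm ha
    obtain ⟨h, hh, hhP⟩ := (Ideal.IsPrime.inf_le' hP.isPrime).1 hJ
    rw [mem_range] at hh
    rcases Nat.eq_zero_or_pos h with h0 | h0
    · subst h0
      obtain ⟨s, hs1, hs2⟩ := l1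
      exact hs1 (hhP (by rw [mem_Jc6, hc0]; exact hs2))
    · obtain ⟨s, hs1, hs2⟩ := l2 h h0 (by omega)
      exact hs1 (hhP (by rw [mem_Jc6, hc h h0]; exact hs2))
  have h1 : (1 : ℤ[X]) ∈ (range a).inf (fun h => Jc6 (Ideal.span {G, H}) (c h)) ⊔ Ideal.span {C (p : ℤ)} := by
    rw [key]
    trivial
  obtain ⟨s, hs, y, hy, hsy⟩ := Submodule.mem_sup.1 h1
  obtain ⟨t, rfl⟩ := Ideal.mem_span_singleton'.1 hy
  have hs' : ∀ h, h < a → s * c h ∈ Ideal.span {G, H} := by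
    intro h hh
    exact (Finset.inf_le (f := fun h => Jc6 (Ideal.span {G, H}) (c h)) (mem_range.2 hh)) hs
  refine ⟨s, -t, ?_, ?_, ?_⟩
  · rw [← hsy]
    ring
  · rw [← hc0]
    exact hs' 0 (by omega)
  · intro h h1 h2
    rw [← hc h h1]
    exact hs' h (by omega)

end Pool.Agent.Helper14.IR
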