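import Pool.Agent.Helper14.IR.Num1K

/-!
Project IR: kernel computation for `1000 ≤ N < 1500`.
-/

namespace Pool.Agent.Helper14.IR

theorem k2 : allc 1000 500 = true := by decide +kernel

end Pool.Agent.Helper14.IR
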