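import Pool.Agent.Helper14.IR.Num1K

/-!
Project IR: kernel computation for `2000 ≤ N < 2400`.
-/

namespace Pool.Agent.Helper14.IR

theorem k4 : allc 2000 400 = true := by decide +kernel

end Pool.Agent.Helper14.IR
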