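import Pool.Agent.Helper14.IR.Num1

/-!
Block IR-N1Y: soundness of the check in cells.

Paper proof. Let `M = N - 1`, `T ∈ {N, M}`, `p` a prime dividing `T`, `a` its exponent. If `p ≥ 64` then `p^2 > N`, so `a = 1` and `v p = 0` by `vC`. Otherwise `p ∈ PS` and `v p ≤ uf T p a r` (`vC`, `m p^(a-h) = T/p^h`), `a = exf 12 p T`
(`T < 2^12`), and if `p ∤ T`, `exf 12 p T = 0` and `uf T p 0 r = 0`. The field `en` with `b ≤ lam^r`, `lam^M = 2N-1`, raised to the power `M`:
`(*)  (N M)^(r M) * 2^M ≤ (N M)^M r^(r M) (2N-1)^(r r) ∏_p p^(M v_p)`, an inequality between natural numbers (cast), the product over the primes dividing `N M`.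
`ce_sound`: let `r ∈ [r1, r2]`, `r1 ≥ 1`. From the `M/r`-th power of `en` (real exponents; with `b ≤ lam^r`): `(N M)^M ≤ (N M/2)^(M/r) r^M (2N-1)^r ∏_p p^(M v_p / r)`. Now `M/r ≤ ⌈M/r1⌉`, `N M/2 ≥ 1`, `r ≤ r2`,
`v_p / r ≤ (∑_h min(r, c_h))/r ≤ (∑_h min(r1, c_h))/r1` (as `min(1, c/r)` decreases in `r`), so `M v_p/r ≤ ⌈M u/r1⌉`, `u = uf T p a r1`. So `tst N r1 r2` (the strict reverse inequality) is a contradiction.
`cells`: induction on the fuel: `cells N fuel r1 r2 = true` and `r1 ≤ r ≤ r2` gives `False`. Start: `r ≥ ⌈M / size(2N-1)⌉` as `2^M ≤ (2N-1)^r < 2^(size r)` (`Nat.size`, `Nat.lt_size_self`; here `13 ≥ size (2N-1)` is replaced by the computed `sz`),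
`r ≤ (N-2)/2`.
-/

open Finset

namespace Pool.Agent.Helper14.IR

variable {N r b : ℕ} {lam : ℝ} {v : ℕ → ℕ}

private theorem le_cdv_h54 {x y : ℕ} (hy : 0 < y) : x ≤ y * cdv x y := by
  unfold cdv
  have h1 := Nat.div_add_mod (x + y - 1) y
  have h2 := Nat.mod_lt (x + y - 1) hy
  omega

private theorem uf_eq_h54 (T p r a : ℕ) :
    uf T p r a = ∑ k ∈ Icc 1 (a - 1), min r (T / p ^ k - 1) := by
  induction a with
  | zero => simp [uf]
  | succ a ih =>
    by_cases ha : a = 0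
    · subst ha
      simp [uf]
    · rw [uf, if_neg ha, ih]
      obtain ⟨b, rfl⟩ := Nat.exists_eq_succ_of_ne_zero ha
      simp only [Nat.succ_eq_add_one, Nat.add_sub_cancel]
      rw [Finset.sum_Icc_succ_top (by omega)]

private theorem exf_eq_h54 {p : ℕ} (hp : 0 < p) {m : ℕ} (hm : ¬ p ∣ m) :
    ∀ k a : ℕ, a ≤ k → exf k p (p ^ a * m) = a := by
  intro k
  induction k with
  | zero =>
    intro a ha
    have : a = 0 := by omega
    subst this
    rfl
  | succ k ih =>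
    intro a ha
    rcases Nat.eq_zero_or_pos a with h0 | h0
    · subst h0
      rw [exf, pow_zero, one_mul, if_neg]
      intro h
      exact hm (Nat.dvd_of_mod_eq_zero h)
    · obtain ⟨a, rfl⟩ := Nat.exists_eq_succ_of_ne_zero h0.ne'
      have h1 : p ^ (a + 1) * m = p * (p ^ a * m) := by ring
      rw [exf, Nat.succ_eq_add_one, h1, if_pos (Nat.mul_mod_right _ _), Nat.mul_div_cancel_left _ hp,
        ih a (by omega)]

private theorem min_h54 {r1 r c : ℕ} (h : r1 ≤ r) : r1 * min r c ≤ r * min r1 c := by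
  rcases le_total r c with h1 | h1
  · rw [min_eq_left h1, min_eq_left (h.trans h1), mul_comm]
  · rw [min_eq_right h1]
    rcases le_total r1 c with h2 | h2
    · rw [min_eq_left h2, mul_comm r r1]
      exact Nat.mul_le_mul_left _ h1
    · rw [min_eq_right h2]
      exact Nat.mul_le_mul_right _ h

private theorem uf_le_h54 {T p r1 r a : ℕ} (h : r1 ≤ r) : r1 * uf T p r a ≤ r * uf T p r1 a := by
  rw [uf_eq_h54, uf_eq_h54, Finset.mul_sum, Finset.mul_sum]
  exact Finset.sum_le_sum fun k _ => min_h54 h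

/-- The exponent bound at one prime. -/
private theorem v_uf_h54 (h : Num N r b lam v) (hN : N < 4096) {p : ℕ}
    (hp : p ∈ (N * (N - 1)).primeFactors) :
    (∃ T, (T = N ∨ T = N - 1) ∧ v p ≤ uf T p r (exf 12 p T)) ∧ (64 ≤ p → v p = 0) := by
  obtain ⟨T, m, hT, hTm, hpm, ha⟩ := h.T_ex hp
  have hpp : p.Prime := Nat.prime_of_mem_primeFactors hp
  have h4 := h.hN
  have hT0 : 0 < T := by omega
  have hTN : T < 4096 := by omega
  have hm0 : 0 < m := by
    rcases Nat.eq_zero_or_pos m with h0 | h0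
    · subst h0
      simp at hTm
      omega
    · exact h0
  have hpa : p ^ aa N p ≤ T := by
    rw [hTm]
    exact Nat.le_mul_of_pos_right _ hm0
  have h1 := h.vC p T (aa N p) m hpp hT hTm hpm ha
  have ha12 : aa N p ≤ 12 := by
    by_contra hc
    have h2 : (2 : ℕ) ^ 13 ≤ p ^ aa N p :=
      (Nat.pow_le_pow_left hpp.two_le 13).trans (Nat.pow_le_pow_right hpp.pos (by omega))
    norm_num at h2
    omega
  refine ⟨⟨T, hT, ?_⟩, ?_⟩
  · have h3 : exf 12 p T = aa N p := by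
      conv_lhs => rw [hTm]
      exact exf_eq_h54 hpp.pos hpm 12 _ ha12
    rw [h3, uf_eq_h54]
    refine h1.trans (Finset.sum_le_sum fun k hk => ?_)
    rw [Finset.mem_Icc] at hk
    have h5 : T / p ^ k = m * p ^ (aa N p - k) := by
      rw [hTm]
      apply Nat.div_eq_of_eq_mul_right (pow_pos hpp.pos k)
      have h6 : p ^ aa N p = p ^ k * p ^ (aa N p - k) := by
        rw [← pow_add]
        congr 1
        omega
      rw [h6]
      ring
    rw [h5]
  · intro h64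
    have ha1 : aa N p = 1 := by
      by_contra hc
      have h2 : (64 : ℕ) ^ 2 ≤ p ^ aa N p :=
        (Nat.pow_le_pow_left h64 2).trans (Nat.pow_le_pow_right hpp.pos (by omega))
      norm_num at h2
      omega
    rw [ha1] at h1
    simpa using h1

private theorem mem_PS_h54 : ∀ p < 64, p.Prime → p ∈ PS := by
  intro p hp hpp
  interval_cases p <;> first | decide | (exfalso; revert hpp; norm_num)

/-- The exponent at `p` in the test. -/
private def cc_h54 (N r1 p : ℕ) : ℕ :=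
  cdv ((N - 1) * uf N p r1 (exf 12 p N)) r1 + cdv ((N - 1) * uf (N - 1) p r1 (exf 12 p (N - 1))) r1

private theorem v_cc_h54 (h : Num N r b lam v) (hN : N < 4096) {p : ℕ}
    (hp : p ∈ (N * (N - 1)).primeFactors) {r1 : ℕ} (hr1 : 1 ≤ r1) (hr : r1 ≤ r) :
    v p * (N - 1) ≤ cc_h54 N r1 p * r := by
  obtain ⟨⟨T, hT, hv⟩, -⟩ := v_uf_h54 h hN hp
  have h1 : r1 * v p ≤ r * uf T p r1 (exf 12 p T) :=
    (Nat.mul_le_mul_left _ hv).trans (uf_le_h54 hr)
  have h2 : (N - 1) * uf T p r1 (exf 12 p T) ≤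
      r1 * cdv ((N - 1) * uf T p r1 (exf 12 p T)) r1 := le_cdv_h54 hr1
  have h3 : cdv ((N - 1) * uf T p r1 (exf 12 p T)) r1 ≤ cc_h54 N r1 p := by
    unfold cc_h54
    rcases hT with rfl | rfl
    · exact Nat.le_add_right _ _
    · exact Nat.le_add_left _ _
  have h4 : r1 * (v p * (N - 1)) ≤ r1 * (cc_h54 N r1 p * r) := by
    calc r1 * (v p * (N - 1)) = (N - 1) * (r1 * v p) := by ring
      _ ≤ (N - 1) * (r * uf T p r1 (exf 12 p T)) := Nat.mul_le_mul_left _ h1
      _ = r * ((N - 1) * uf T p r1 (exf 12 p T)) := by ring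
      _ ≤ r * (r1 * cdv ((N - 1) * uf T p r1 (exf 12 p T)) r1) := Nat.mul_le_mul_left _ h2
      _ ≤ r * (r1 * cc_h54 N r1 p) := Nat.mul_le_mul_left _ (Nat.mul_le_mul_left _ h3)
      _ = r1 * (cc_h54 N r1 p * r) := by ring
  exact Nat.le_of_mul_le_mul_left h4 hr1

private theorem prod_h54 (h : Num N r b lam v) (hN : N < 4096) {r1 : ℕ} (hr1 : 1 ≤ r1)
    (hr : r1 ≤ r) : (∏ p ∈ (N * (N - 1)).primeFactors, p ^ v p) ^ (N - 1) ≤
      ((PS.map fun p => p ^ cc_h54 N r1 p).prod) ^ r := by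
  have hnd : PS.Nodup := by decide
  rw [← List.prod_toFinset _ hnd, ← Finset.prod_pow, ← Finset.prod_pow]
  have h1 : ∏ p ∈ (N * (N - 1)).primeFactors, (p ^ v p) ^ (N - 1) =
      ∏ p ∈ (N * (N - 1)).primeFactors.filter (· < 64), (p ^ v p) ^ (N - 1) := by
    symm
    apply Finset.prod_subset (Finset.filter_subset _ _)
    intro p hp hp2
    have h64 : 64 ≤ p := by
      by_contra hc
      exact hp2 (Finset.mem_filter.2 ⟨hp, by omega⟩)
    rw [(v_uf_h54 h hN hp).2 h64]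
    simp
  rw [h1]
  have h2 : ∏ p ∈ (N * (N - 1)).primeFactors.filter (· < 64), (p ^ v p) ^ (N - 1) ≤
      ∏ p ∈ (N * (N - 1)).primeFactors.filter (· < 64), (p ^ cc_h54 N r1 p) ^ r := by
    apply Finset.prod_le_prod'
    intro p hp
    rw [Finset.mem_filter] at hp
    rw [← pow_mul, ← pow_mul]
    exact Nat.pow_le_pow_right (Nat.prime_of_mem_primeFactors hp.1).pos (v_cc_h54 h hN hp.1 hr1 hr)
  refine h2.trans (Nat.le_of_dvd ?_ ?_)
  · apply Finset.prod_pos
    intro p hp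
    have : p ∈ PS := List.mem_toFinset.1 hp
    have hp0 : 0 < p := by
      have : ∀ p ∈ PS, 0 < p := by decide
      exact this p ‹_›
    positivity
  · apply Finset.prod_dvd_prod_of_subset
    intro p hp
    rw [Finset.mem_filter] at hp
    exact List.mem_toFinset.2 (mem_PS_h54 p hp.2 (Nat.prime_of_mem_primeFactors hp.1))

private theorem en_nat_h54 (h : Num N r b lam v) :
    (N * (N - 1)) ^ (r * (N - 1)) ≤ (N * (N - 1) / 2) ^ (N - 1) * r ^ (r * (N - 1)) *
      (2 * N - 1) ^ (r * r) * (∏ p ∈ (N * (N - 1)).primeFactors, p ^ v p) ^ (N - 1) := by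
  have h4 := h.hN
  have hr := h.r1
  have hl0 : 0 ≤ lam := zero_le_one.trans h.lam1
  set P : ℕ := ∏ p ∈ (N * (N - 1)).primeFactors, p ^ v p with hP
  have e1 : ((N : ℝ) * (N - 1)) = ((N * (N - 1) : ℕ) : ℝ) := by
    rw [Nat.cast_mul, Nat.cast_sub (by omega), Nat.cast_one]
  have e2 : ((N : ℝ) * (N - 1) / 2) = ((N * (N - 1) / 2 : ℕ) : ℝ) := by
    rw [Nat.cast_div (Nat.even_mul_pred_self N).two_dvd (by norm_num), ← e1]
    norm_num
  have e3 : (∏ p ∈ (N * (N - 1)).primeFactors, (p : ℝ) ^ v p) = (P : ℝ) := by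
    rw [hP]
    push_cast
    rfl
  have e4 : (2 * (N : ℝ) - 1) = ((2 * N - 1 : ℕ) : ℝ) := by
    rw [Nat.cast_sub (by omega)]
    push_cast
    ring
  have hen := h.en
  rw [e2, e1, e3] at hen
  have h1 : ((N * (N - 1) : ℕ) : ℝ) ^ r ≤
      ((N * (N - 1) / 2 : ℕ) : ℝ) * (r : ℝ) ^ r * lam ^ (r * r) * (P : ℝ) := by
    refine hen.trans ?_
    have h2 : (b : ℝ) * lam ^ (r * (r - 1)) ≤ lam ^ (r * r) := by
      calc (b : ℝ) * lam ^ (r * (r - 1)) ≤ lam ^ r * lam ^ (r * (r - 1)) :=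
            mul_le_mul_of_nonneg_right h.bl (pow_nonneg hl0 _)
        _ = lam ^ (r * r) := by
            rw [← pow_add]
            congr 1
            obtain ⟨s, rfl⟩ := Nat.exists_eq_succ_of_ne_zero (show r ≠ 0 by omega)
            simp only [Nat.succ_eq_add_one, Nat.add_sub_cancel]
            ring
    calc (b : ℝ) * ((N * (N - 1) / 2 : ℕ) : ℝ) * (r : ℝ) ^ r * lam ^ (r * (r - 1)) * (P : ℝ)
        = ((N * (N - 1) / 2 : ℕ) : ℝ) * (r : ℝ) ^ r * ((b : ℝ) * lam ^ (r * (r - 1))) * (P : ℝ) := by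
          ring
      _ ≤ _ := by gcongr
  have h3 := pow_le_pow_left₀ (by positivity) h1 (N - 1)
  rw [mul_pow, mul_pow, mul_pow, ← pow_mul, ← pow_mul, ← pow_mul lam, mul_comm (r * r) (N - 1),
    pow_mul lam, h.lamN, e4] at h3
  exact_mod_cast h3

private theorem tst_h54 (h : Num N r b lam v) (hN : N < 4096) {r1 r2 : ℕ} (hr1 : 1 ≤ r1)
    (h1 : r1 ≤ r) (h2 : r ≤ r2) (ht : tst N r1 r2 = true) : False := by
  have h4 := h.hN
  have hr := h.r1
  have ht' := of_decide_eq_true ht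
  have hH : 0 < N * (N - 1) / 2 := by
    have : 4 * 3 ≤ N * (N - 1) := Nat.mul_le_mul h4 (by omega)
    omega
  set B : ℕ := (2 * N - 1) ^ r2 * (N * (N - 1) / 2) ^ cdv (N - 1) r1 * r2 ^ (N - 1) *
    (PS.map fun p => p ^ cc_h54 N r1 p).prod with hB
  have ht2 : B < (N * (N - 1)) ^ (N - 1) := ht'
  have h3 : B ^ r < ((N * (N - 1)) ^ (N - 1)) ^ r := Nat.pow_lt_pow_left ht2 (by omega)
  have h5 : ((N * (N - 1)) ^ (N - 1)) ^ r ≤ B ^ r := by
    rw [← pow_mul, mul_comm (N - 1) r]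
    refine (en_nat_h54 h).trans ?_
    have g1 : (N * (N - 1) / 2) ^ (N - 1) ≤ ((N * (N - 1) / 2) ^ cdv (N - 1) r1) ^ r := by
      rw [← pow_mul]
      apply Nat.pow_le_pow_right hH
      calc N - 1 ≤ r1 * cdv (N - 1) r1 := le_cdv_h54 hr1
        _ ≤ r * cdv (N - 1) r1 := Nat.mul_le_mul_right _ h1
        _ = cdv (N - 1) r1 * r := mul_comm _ _
    have g2 : r ^ (r * (N - 1)) ≤ (r2 ^ (N - 1)) ^ r := by
      rw [← pow_mul, mul_comm (N - 1) r]
      exact Nat.pow_le_pow_left h2 _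
    have g3 : (2 * N - 1) ^ (r * r) ≤ ((2 * N - 1) ^ r2) ^ r := by
      rw [← pow_mul]
      exact Nat.pow_le_pow_right (by omega) (Nat.mul_le_mul_right _ h2)
    have g4 := prod_h54 h hN hr1 h1
    calc _ ≤ ((N * (N - 1) / 2) ^ cdv (N - 1) r1) ^ r * (r2 ^ (N - 1)) ^ r *
        ((2 * N - 1) ^ r2) ^ r * ((PS.map fun p => p ^ cc_h54 N r1 p).prod) ^ r := by gcongr
      _ = B ^ r := by
        rw [hB]
        ring
  omega

private theorem cells_h54 (h : Num N r b lam v) (hN : N < 4096) :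
    ∀ k r1 r2 : ℕ, 1 ≤ r1 → r1 ≤ r → r ≤ r2 → cells N k r1 r2 = true → False := by
  intro k
  induction k with
  | zero =>
    intro r1 r2 _ _ _ hc
    simp [cells] at hc
  | succ k ih =>
    intro r1 r2 h1 h2 h3 hc
    rw [cells, Bool.or_eq_true, Bool.or_eq_true, Bool.and_eq_true] at hc
    rcases hc with (hc | hc) | ⟨hc1, hc2⟩
    · have := of_decide_eq_true hc
      omega
    · exact tst_h54 h hN h1 h2 h3 hc
    · rcases Nat.lt_or_ge ((r1 + r2) / 2) r with h5 | h5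
      · exact ih _ _ (by omega) h5 h3 hc2
      · exact ih _ _ h1 h2 h5 hc1

theorem ce_sound (h : Num N r b lam v) (hN : N < 4096) {sz : ℕ} (hc : chk1 N sz = true) : False := by
  have h4 := h.hN
  have hr := h.r1
  have hrN := h.rN
  rw [chk1, Bool.and_eq_true, Bool.and_eq_true] at hc
  obtain ⟨⟨hc1, hc2⟩, hc3⟩ := hc
  have hs1 := of_decide_eq_true hc1
  have hs2 := of_decide_eq_true hc2
  have h1 : 1 ≤ cdv (N - 1) sz := by
    unfold cdv
    rw [Nat.one_le_div_iff (by omega)]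
    omega
  have h2 : N - 1 < sz * r := by
    have g1 : (2 : ℝ) ^ (N - 1) ≤ (2 * N - 1 : ℝ) ^ r := by
      rw [← h.lamN, ← pow_mul, mul_comm (N - 1) r, pow_mul]
      apply pow_le_pow_left₀ (by norm_num)
      refine le_trans ?_ h.bl
      exact_mod_cast h.b2
    have e4 : (2 * (N : ℝ) - 1) = ((2 * N - 1 : ℕ) : ℝ) := by
      rw [Nat.cast_sub (by omega)]
      push_cast
      ring
    rw [e4] at g1
    have g2 : 2 ^ (N - 1) ≤ (2 * N - 1) ^ r := by exact_mod_cast g1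
    have g3 : (2 * N - 1) ^ r < (2 ^ sz) ^ r := Nat.pow_lt_pow_left hs1 (by omega)
    rw [← pow_mul] at g3
    exact (Nat.pow_lt_pow_iff_right (by norm_num)).1 (g2.trans_lt g3)
  have h3 : cdv (N - 1) sz ≤ r := by
    unfold cdv
    rw [← Nat.lt_succ_iff, Nat.div_lt_iff_lt_mul (by omega)]
    rw [Nat.succ_mul, mul_comm r sz]
    omega
  exact cells_h54 h hN 12 _ _ h1 h3 (by omega) hc3

end Pool.Agent.Helper14.IR
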