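import Pool.Agent.Helper14.IR.Num1x
import Pool.Agent.Helper14.IR.Num1y
import Pool.Agent.Helper14.IR.Num1K1
import Pool.Agent.Helper14.IR.Num1K2
import Pool.Agent.Helper14.IR.Num1K3
import Pool.Agent.Helper14.IR.Num1K4
import Pool.Agent.Helper14.IR.Num1K5
import Pool.Agent.Helper14.IR.Num1K6
import Pool.Agent.Helper14.IR.Num1K7
import Pool.Agent.Helper14.IR.Num1K8
import Pool.Agent.Helper14.IR.Num1K9

/-!
Block IR-N1C (helper14): the range `4 ≤ N < 4096`.
-/

namespace Pool.Agent.Helper14.IR

variable {N r b : ℕ} {lam : ℝ} {v : ℕ → ℕ}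

theorem num_small (h : Num N r b lam v) (hN : N < 4096) : False := by
  have h4 := h.hN
  rcases lt_or_ge N 64 with h1 | h1
  · by_cases h8 : N = 8
    · exact n89 h (Or.inl h8)
    by_cases h9 : N = 9
    · exact n89 h (Or.inr h9)
    rcases lt_or_ge N 8 with h2 | h2
    · exact ex_sound h hN h8 h9 (of_alle e4 (by omega) (by omega))
    · exact ex_sound h hN h8 h9 (of_alle e10 (by omega) (by omega))
  rcases lt_or_ge N 1000 with a1 | a1
  · exact ce_sound h hN (of_allc k1 (by omega) (by omega))
  rcases lt_or_ge N 1500 with a2 | a2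
  · exact ce_sound h hN (of_allc k2 (by omega) (by omega))
  rcases lt_or_ge N 2000 with a3 | a3
  · exact ce_sound h hN (of_allc k3 (by omega) (by omega))
  rcases lt_or_ge N 2400 with a4 | a4
  · exact ce_sound h hN (of_allc k4 (by omega) (by omega))
  rcases lt_or_ge N 2800 with a5 | a5
  · exact ce_sound h hN (of_allc k5 (by omega) (by omega))
  rcases lt_or_ge N 3150 with a6 | a6
  · exact ce_sound h hN (of_allc k6 (by omega) (by omega))
  rcases lt_or_ge N 3500 with a7 | a7
  · exact ce_sound h hN (of_allc k7 (by omega) (by omega))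
  rcases lt_or_ge N 3800 with a8 | a8
  · exact ce_sound h hN (of_allc k8 (by omega) (by omega))
  exact ce_sound h hN (of_allc k9 (by omega) (by omega))

end Pool.Agent.Helper14.IR
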