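import Mathlib

/-!
Block IR-N2H: sums of `min(1, R1/p^h)` (only Mathlib).

Paper proofs. Let `S_a = ∑_{h=1}^{a-1} min(1, R1/p^h)`. `he_gen`: for `a ≥ A` the increment `S_{a+1} - S_a = min(1, R1/p^a) ≤ R1/p^A ≤ μ`; induction from `a = A`. `he_big`: `S_1 = 0`; for `a ≥ 2` `S_a ≤ ∑_{h≥1} R1/p^h = R1/(p-1) ≤ R1/12 ≤ 2 μ ≤ a μ`.
-/

open Finset

namespace Pool.Agent.Helper14.IR

theorem he_gen {R1 μ E : ℝ} {p A : ℕ} (hp : 2 ≤ p) (hR : 0 ≤ R1) (hinc : R1 / (p : ℝ) ^ A ≤ μ)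
    (hfin : ∀ a : ℕ, 1 ≤ a → a ≤ A → ∑ h ∈ Icc 1 (a - 1), min 1 (R1 / (p : ℝ) ^ h) ≤ μ * a + E) (hA : 1 ≤ A) :
    ∀ a : ℕ, 1 ≤ a → ∑ h ∈ Icc 1 (a - 1), min 1 (R1 / (p : ℝ) ^ h) ≤ μ * a + E := by
  intro a ha
  rcases le_total a A with h | h
  · exact hfin a ha h
  · induction a, h using Nat.le_induction with
    | base => exact hfin A hA le_rfl
    | succ n hn ih =>
      have hn1 : 1 ≤ n := hA.trans hn
      have h1 := ih hn1
      have hs : ∑ h ∈ Icc 1 (n + 1 - 1), min 1 (R1 / (p : ℝ) ^ h) =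
          ∑ h ∈ Icc 1 (n - 1), min 1 (R1 / (p : ℝ) ^ h) + min 1 (R1 / (p : ℝ) ^ n) := by
        obtain ⟨k, rfl⟩ : ∃ k, n = k + 1 := ⟨n - 1, by omega⟩
        rw [Nat.add_sub_cancel, Nat.add_sub_cancel, Finset.sum_Icc_succ_top (by omega)]
      have hp' : (1 : ℝ) ≤ p := by exact_mod_cast (by omega : 1 ≤ p)
      have h2 : min 1 (R1 / (p : ℝ) ^ n) ≤ μ :=
        (min_le_right _ _).trans ((div_le_div_of_nonneg_left hR (by positivity) (pow_le_pow_right₀ hp' hn)).trans hinc)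
      rw [hs]
      push_cast
      linarith

theorem he_big {R1 μ : ℝ} {p : ℕ} (hp : 13 ≤ p) (hR : 0 ≤ R1) (hμ : R1 / 12 ≤ 2 * μ) :
    ∀ a : ℕ, 1 ≤ a → ∑ h ∈ Icc 1 (a - 1), min 1 (R1 / (p : ℝ) ^ h) ≤ μ * a + 0 := by
  intro a ha
  have hp' : (13 : ℝ) ≤ p := by exact_mod_cast hp
  have hp0 : (0 : ℝ) < p := by linarith
  have key : ∀ n : ℕ, ∑ h ∈ Icc 1 n, R1 / (p : ℝ) ^ h + R1 / (12 * (p : ℝ) ^ n) ≤ R1 / 12 := by
    intro n
    induction n with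
    | zero => simp
    | succ n ih =>
      rw [Finset.sum_Icc_succ_top (by omega)]
      have h1 : R1 / (p : ℝ) ^ (n + 1) + R1 / (12 * (p : ℝ) ^ (n + 1)) ≤ R1 / (12 * (p : ℝ) ^ n) := by
        have e : R1 / (p : ℝ) ^ (n + 1) + R1 / (12 * (p : ℝ) ^ (n + 1)) = R1 / (12 * (p : ℝ) ^ n) * (13 / p) := by
          rw [pow_succ]
          field_simp
          norm_num
        rw [e]
        exact mul_le_of_le_one_right (by positivity) ((div_le_one hp0).2 hp')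
      linarith
  have hμ0 : 0 ≤ μ := by linarith
  rcases Nat.lt_or_ge a 2 with h | h
  · have : a = 1 := by omega
    subst this
    simpa using hμ0
  · have h1 : ∑ h ∈ Icc 1 (a - 1), min 1 (R1 / (p : ℝ) ^ h) ≤ ∑ h ∈ Icc 1 (a - 1), R1 / (p : ℝ) ^ h :=
      Finset.sum_le_sum fun _ _ => min_le_right _ _
    have h2 := key (a - 1)
    have h3 : 0 ≤ R1 / (12 * (p : ℝ) ^ (a - 1)) := by positivity
    have h4 : (2 : ℝ) ≤ a := by exact_mod_cast h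
    have h5 : 2 * μ ≤ a * μ := by gcongr
    linarith

end Pool.Agent.Helper14.IR
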