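import Pool.Agent.Helper14.IR.Num2
import Pool.Agent.Helper14.IR.Num2h

/-!
Block IR-N2B: the ten cells.

Paper proof. `2 r ≤ N - 2 < N ≤ 8 r`, so `R = N/r ∈ [2, 8]` lies in one of the cells `[R0, R1]` below. For each cell apply `cell` with `μ` and `e` as in the table (`e p = 0` for all other `p`) and `he_gen` (`p = 2, 3, 5, 7, 11` with `A = 5, 3, 2, 2, 2`; indeed `R1/μ ≤ 23` in all cells)
and `he_big` (`p ≥ 13`; note `R1/12 ≤ 2 μ`); the resulting inequality is false by at least `0.03`:
  R0    R1    μ      e_2      e_3      e_5    e_7     e_11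
  2     19/8  9/80   189/128  517/720  1/4    4/35    0
  19/8  23/8  1/8    209/128  65/72    13/40  9/56    1/88
  23/8  29/8  13/80  227/128  659/720  2/5    27/140  1/220
  29/8  37/8  17/80  231/128  631/720  1/2    33/140  0
  37/8  45/8  1/4    231/128  7/8      1/2    17/56   1/88
  45/8  51/8  23/80  225/128  203/240  17/40  47/140  1/220
  51/8  55/8  5/16   221/128  119/144  3/8    5/14    0
  55/8  59/8  27/80  217/128  581/720  13/40  13/40   0
  59/8  31/4  7/20   109/64   73/90    3/10   3/10    1/220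
  31/4  8     29/80  27/16    577/720  11/40  11/40   1/440
(margins 0.128, 0.254, 0.203, 0.039, 0.039, 0.096, 0.087, 0.035, 0.054, 0.071.) Logarithms: `Real.log_two_gt_d9`, `Real.log_two_lt_d9`; for the others the lemmas `log_lo`, `log_up` (from `Real.exp_one_gt_d9`, `Real.exp_one_lt_d9`) and `norm_num`, e.g.
`log 3 ≤ 1.0987`, `log 5 ≤ 1.6095`, `log 7 ≤ 1.9460`, `log 11 ≤ 2.3980`, `log (19/8) ≥ 0.864`, .. (use small denominators `d`, `e.g.` `n/d` a convergent).
-/

open Finset

namespace Pool.Agent.Helper14.IR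

variable {N r b : ℕ} {lam : ℝ} {v : ℕ → ℕ}

theorem log_lo {x : ℝ} {n d : ℕ} (hd : 0 < d) (hx : 0 < x) (h : (2.7182818286 : ℝ) ^ n ≤ x ^ d) :
    (n : ℝ) / d ≤ Real.log x := by
  have hd' : (0 : ℝ) < d := by exact_mod_cast hd
  rw [div_le_iff₀ hd']
  have h1 : (n : ℝ) ≤ Real.log (x ^ d) := by
    rw [Real.le_log_iff_exp_le (pow_pos hx d)]
    calc Real.exp n = Real.exp 1 ^ n := by rw [← Real.exp_nat_mul, mul_one]
      _ ≤ (2.7182818286 : ℝ) ^ n :=
          pow_le_pow_left₀ (Real.exp_pos 1).le Real.exp_one_lt_d9.le n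
      _ ≤ x ^ d := h
  rw [Real.log_pow] at h1
  linarith

theorem log_up {x : ℝ} {n d : ℕ} (hd : 0 < d) (hx : 0 < x) (h : x ^ d ≤ (2.7182818283 : ℝ) ^ n) :
    Real.log x ≤ (n : ℝ) / d := by
  have hd' : (0 : ℝ) < d := by exact_mod_cast hd
  rw [le_div_iff₀ hd']
  have h1 : Real.log (x ^ d) ≤ (n : ℝ) := by
    rw [Real.log_le_iff_le_exp (pow_pos hx d)]
    calc x ^ d ≤ (2.7182818283 : ℝ) ^ n := h
      _ ≤ Real.exp 1 ^ n := pow_le_pow_left₀ (by norm_num) Real.exp_one_gt_d9.le n
      _ = Real.exp n := by rw [← Real.exp_nat_mul, mul_one]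
  rw [Real.log_pow] at h1
  linarith

/-- The function `e` of a cell. -/
noncomputable def ee (E2 E3 E5 E7 E11 : ℝ) (p : ℕ) : ℝ :=
  if p = 2 then E2 else if p = 3 then E3 else if p = 5 then E5 else if p = 7 then E7 else
    if p = 11 then E11 else 0

/-- A cell with explicit finite hypotheses. -/
theorem cell' (h : Num N r b lam v) (hN : 4096 ≤ N) {R0 R1 μ : ℝ} (E2 E3 E5 E7 E11 : ℝ) (h0 : 0 < R0)
    (hR0 : R0 * r ≤ N) (hR1 : N ≤ R1 * r) (hRp : 0 ≤ R1) (hμ : 0 ≤ μ) (hc : 0 ≤ 1 - 2 * μ - 1 / R0)
    (hE2 : 0 ≤ E2) (hE3 : 0 ≤ E3) (hE5 : 0 ≤ E5) (hE7 : 0 ≤ E7) (hE11 : 0 ≤ E11)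
    (i2 : R1 / 32 ≤ μ) (i3 : R1 / 27 ≤ μ) (i13 : R1 / 12 ≤ 2 * μ)
    (a2 : min 1 (R1 / 2) ≤ 2 * μ + E2)
    (a3 : min 1 (R1 / 2) + min 1 (R1 / 4) ≤ 3 * μ + E2)
    (a4 : min 1 (R1 / 2) + min 1 (R1 / 4) + min 1 (R1 / 8) ≤ 4 * μ + E2)
    (a5 : min 1 (R1 / 2) + min 1 (R1 / 4) + min 1 (R1 / 8) + min 1 (R1 / 16) ≤ 5 * μ + E2)
    (b2 : min 1 (R1 / 3) ≤ 2 * μ + E3)
    (b3 : min 1 (R1 / 3) + min 1 (R1 / 9) ≤ 3 * μ + E3)
    (c2 : min 1 (R1 / 5) ≤ 2 * μ + E5)
    (d2 : min 1 (R1 / 7) ≤ 2 * μ + E7)
    (f2 : min 1 (R1 / 11) ≤ 2 * μ + E11) :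
    (1 - 2 * μ - 1 / R0) * Real.log 4096 + Real.log R0 - 0.6957 / R0 - 0.068 ≤
      E2 * Real.log 2 + E3 * Real.log 3 + E5 * Real.log 5 + E7 * Real.log 7 + E11 * Real.log 11 := by
  have key := cell h hN (e := ee E2 E3 E5 E7 E11) h0 hR0 hR1 hμ hc ?_ ?_ ?_
  · simpa [ee] using key
  · intro p a hp ha
    have i2' : R1 / ((2 : ℕ) : ℝ) ^ 5 ≤ μ := by norm_num; linarith
    have i3' : R1 / ((3 : ℕ) : ℝ) ^ 3 ≤ μ := by norm_num; linarith
    have i5' : R1 / ((5 : ℕ) : ℝ) ^ 2 ≤ μ := by norm_num; linarith
    have i7' : R1 / ((7 : ℕ) : ℝ) ^ 2 ≤ μ := by norm_num; linarith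
    have i11' : R1 / ((11 : ℕ) : ℝ) ^ 2 ≤ μ := by norm_num; linarith
    by_cases p2 : p = 2
    · subst p2
      have : ee E2 E3 E5 E7 E11 2 = E2 := by simp [ee]
      rw [this]
      refine he_gen (A := 5) (by norm_num) hRp i2' ?_ (by norm_num) a ha
      intro a ha1 ha2
      interval_cases a
      · simp; linarith
      · have hs : ∑ h ∈ Icc 1 (2 - 1), min 1 (R1 / ((2 : ℕ) : ℝ) ^ h) = min 1 (R1 / 2) := by simp
        rw [hs]; push_cast; linarith
      · norm_num [Finset.sum_Icc_succ_top]; linarith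
      · norm_num [Finset.sum_Icc_succ_top]; linarith
      · norm_num [Finset.sum_Icc_succ_top]; linarith
    by_cases p3 : p = 3
    · subst p3
      have : ee E2 E3 E5 E7 E11 3 = E3 := by simp [ee]
      rw [this]
      refine he_gen (A := 3) (by norm_num) hRp i3' ?_ (by norm_num) a ha
      intro a ha1 ha2
      interval_cases a
      · simp; linarith
      · have hs : ∑ h ∈ Icc 1 (2 - 1), min 1 (R1 / ((3 : ℕ) : ℝ) ^ h) = min 1 (R1 / 3) := by simp
        rw [hs]; push_cast; linarith
      · norm_num [Finset.sum_Icc_succ_top]; linarith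
    by_cases p5 : p = 5
    · subst p5
      have : ee E2 E3 E5 E7 E11 5 = E5 := by simp [ee]
      rw [this]
      refine he_gen (A := 2) (by norm_num) hRp i5' ?_ (by norm_num) a ha
      intro a ha1 ha2
      interval_cases a
      · simp; linarith
      · have hs : ∑ h ∈ Icc 1 (2 - 1), min 1 (R1 / ((5 : ℕ) : ℝ) ^ h) = min 1 (R1 / 5) := by simp
        rw [hs]; push_cast; linarith
    by_cases p7 : p = 7
    · subst p7
      have : ee E2 E3 E5 E7 E11 7 = E7 := by simp [ee]
      rw [this]
      refine he_gen (A := 2) (by norm_num) hRp i7' ?_ (by norm_num) a ha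
      intro a ha1 ha2
      interval_cases a
      · simp; linarith
      · have hs : ∑ h ∈ Icc 1 (2 - 1), min 1 (R1 / ((7 : ℕ) : ℝ) ^ h) = min 1 (R1 / 7) := by simp
        rw [hs]; push_cast; linarith
    by_cases p11 : p = 11
    · subst p11
      have : ee E2 E3 E5 E7 E11 11 = E11 := by simp [ee]
      rw [this]
      refine he_gen (A := 2) (by norm_num) hRp i11' ?_ (by norm_num) a ha
      intro a ha1 ha2
      interval_cases a
      · simp; linarith
      · have hs : ∑ h ∈ Icc 1 (2 - 1), min 1 (R1 / ((11 : ℕ) : ℝ) ^ h) = min 1 (R1 / 11) := by simp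
        rw [hs]; push_cast; linarith
    have hz : ee E2 E3 E5 E7 E11 p = 0 := by simp [ee, p2, p3, p5, p7, p11]
    rw [hz]
    refine he_big ?_ hRp i13 a ha
    by_contra hlt
    push Not at hlt
    interval_cases p <;> first | omega | (revert hp; norm_num)
  · intro p
    unfold ee
    split_ifs <;> first | assumption | exact le_rfl
  · intro p hp
    unfold ee
    rw [if_neg (by omega), if_neg (by omega), if_neg (by omega), if_neg (by omega), if_neg (by omega)]

theorem log_4096 : Real.log 4096 = 12 * Real.log 2 := by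
  rw [show (4096 : ℝ) = 2 ^ 12 by norm_num, Real.log_pow]
  norm_num

theorem log3_up : Real.log 3 ≤ 1.1 := by
  have := log_up (x := 3) (n := 11) (d := 10) (by norm_num) (by norm_num) (by norm_num)
  norm_num at this ⊢
  linarith

theorem log5_up : Real.log 5 ≤ 29 / 18 := by
  have := log_up (x := 5) (n := 29) (d := 18) (by norm_num) (by norm_num) (by norm_num)
  norm_num at this ⊢
  linarith

theorem log7_up : Real.log 7 ≤ 37 / 19 := by
  have := log_up (x := 7) (n := 37) (d := 19) (by norm_num) (by norm_num) (by norm_num)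
  norm_num at this ⊢
  linarith

theorem log11_up : Real.log 11 ≤ 12 / 5 := by
  have := log_up (x := 11) (n := 12) (d := 5) (by norm_num) (by norm_num) (by norm_num)
  norm_num at this ⊢
  linarith

theorem cell_0 (h : Num N r b lam v) (hN : 4096 ≤ N) (hR0 : (2 : ℝ) * r ≤ N)
    (hR1 : (N : ℝ) ≤ (19/8) * r) : False := by
  have key := cell' h hN (R0 := 2) (R1 := 19/8) (μ := 9/80) (189/128) (517/720) (1/4) (4/35) (0)
    (by norm_num) hR0 hR1 (by norm_num) (by norm_num) (by norm_num) (by norm_num) (by norm_num)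
    (by norm_num) (by norm_num) (by norm_num) (by norm_num) (by norm_num) (by norm_num)
    (by norm_num [min_def]) (by norm_num [min_def]) (by norm_num [min_def]) (by norm_num [min_def])
    (by norm_num [min_def]) (by norm_num [min_def]) (by norm_num [min_def]) (by norm_num [min_def])
    (by norm_num [min_def])
  have hl : (9 / 13 : ℝ) ≤ Real.log (2) := by
    have := log_lo (x := 2) (n := 9) (d := 13) (by norm_num) (by norm_num) (by norm_num)
    exact_mod_cast this
  rw [log_4096] at key
  have l2 := Real.log_two_gt_d9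
  have l2' := Real.log_two_lt_d9
  have l3 := log3_up
  have l5 := log5_up
  have l7 := log7_up
  have l11 := log11_up
  norm_num at key hl l2 l2' l3 l5 l7 l11
  linarith

theorem cell_1 (h : Num N r b lam v) (hN : 4096 ≤ N) (hR0 : (19/8 : ℝ) * r ≤ N)
    (hR1 : (N : ℝ) ≤ (23/8) * r) : False := by
  have key := cell' h hN (R0 := 19/8) (R1 := 23/8) (μ := 1/8) (209/128) (65/72) (13/40) (9/56) (1/88)
    (by norm_num) hR0 hR1 (by norm_num) (by norm_num) (by norm_num) (by norm_num) (by norm_num)
    (by norm_num) (by norm_num) (by norm_num) (by norm_num) (by norm_num) (by norm_num)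
    (by norm_num [min_def]) (by norm_num [min_def]) (by norm_num [min_def]) (by norm_num [min_def])
    (by norm_num [min_def]) (by norm_num [min_def]) (by norm_num [min_def]) (by norm_num [min_def])
    (by norm_num [min_def])
  have hl : (19 / 22 : ℝ) ≤ Real.log (19/8) := by
    have := log_lo (x := 19/8) (n := 19) (d := 22) (by norm_num) (by norm_num) (by norm_num)
    exact_mod_cast this
  rw [log_4096] at key
  have l2 := Real.log_two_gt_d9
  have l2' := Real.log_two_lt_d9
  have l3 := log3_up
  have l5 := log5_up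
  have l7 := log7_up
  have l11 := log11_up
  norm_num at key hl l2 l2' l3 l5 l7 l11
  linarith

theorem cell_2 (h : Num N r b lam v) (hN : 4096 ≤ N) (hR0 : (23/8 : ℝ) * r ≤ N)
    (hR1 : (N : ℝ) ≤ (29/8) * r) : False := by
  have key := cell' h hN (R0 := 23/8) (R1 := 29/8) (μ := 13/80) (227/128) (659/720) (2/5) (27/140) (1/220)
    (by norm_num) hR0 hR1 (by norm_num) (by norm_num) (by norm_num) (by norm_num) (by norm_num)
    (by norm_num) (by norm_num) (by norm_num) (by norm_num) (by norm_num) (by norm_num)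
    (by norm_num [min_def]) (by norm_num [min_def]) (by norm_num [min_def]) (by norm_num [min_def])
    (by norm_num [min_def]) (by norm_num [min_def]) (by norm_num [min_def]) (by norm_num [min_def])
    (by norm_num [min_def])
  have hl : (19 / 18 : ℝ) ≤ Real.log (23/8) := by
    have := log_lo (x := 23/8) (n := 19) (d := 18) (by norm_num) (by norm_num) (by norm_num)
    exact_mod_cast this
  rw [log_4096] at key
  have l2 := Real.log_two_gt_d9
  have l2' := Real.log_two_lt_d9
  have l3 := log3_up
  have l5 := log5_up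
  have l7 := log7_up
  have l11 := log11_up
  norm_num at key hl l2 l2' l3 l5 l7 l11
  linarith

theorem cell_3 (h : Num N r b lam v) (hN : 4096 ≤ N) (hR0 : (29/8 : ℝ) * r ≤ N)
    (hR1 : (N : ℝ) ≤ (37/8) * r) : False := by
  have key := cell' h hN (R0 := 29/8) (R1 := 37/8) (μ := 17/80) (231/128) (631/720) (1/2) (33/140) (0)
    (by norm_num) hR0 hR1 (by norm_num) (by norm_num) (by norm_num) (by norm_num) (by norm_num)
    (by norm_num) (by norm_num) (by norm_num) (by norm_num) (by norm_num) (by norm_num)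
    (by norm_num [min_def]) (by norm_num [min_def]) (by norm_num [min_def]) (by norm_num [min_def])
    (by norm_num [min_def]) (by norm_num [min_def]) (by norm_num [min_def]) (by norm_num [min_def])
    (by norm_num [min_def])
  have hl : (9 / 7 : ℝ) ≤ Real.log (29/8) := by
    have := log_lo (x := 29/8) (n := 9) (d := 7) (by norm_num) (by norm_num) (by norm_num)
    exact_mod_cast this
  rw [log_4096] at key
  have l2 := Real.log_two_gt_d9
  have l2' := Real.log_two_lt_d9
  have l3 := log3_up
  have l5 := log5_up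
  have l7 := log7_up
  have l11 := log11_up
  norm_num at key hl l2 l2' l3 l5 l7 l11
  linarith

theorem cell_4 (h : Num N r b lam v) (hN : 4096 ≤ N) (hR0 : (37/8 : ℝ) * r ≤ N)
    (hR1 : (N : ℝ) ≤ (45/8) * r) : False := by
  have key := cell' h hN (R0 := 37/8) (R1 := 45/8) (μ := 1/4) (231/128) (7/8) (1/2) (17/56) (1/88)
    (by norm_num) hR0 hR1 (by norm_num) (by norm_num) (by norm_num) (by norm_num) (by norm_num)
    (by norm_num) (by norm_num) (by norm_num) (by norm_num) (by norm_num) (by norm_num)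
    (by norm_num [min_def]) (by norm_num [min_def]) (by norm_num [min_def]) (by norm_num [min_def])
    (by norm_num [min_def]) (by norm_num [min_def]) (by norm_num [min_def]) (by norm_num [min_def])
    (by norm_num [min_def])
  have hl : (26 / 17 : ℝ) ≤ Real.log (37/8) := by
    have := log_lo (x := 37/8) (n := 26) (d := 17) (by norm_num) (by norm_num) (by norm_num)
    exact_mod_cast this
  rw [log_4096] at key
  have l2 := Real.log_two_gt_d9
  have l2' := Real.log_two_lt_d9
  have l3 := log3_up
  have l5 := log5_up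
  have l7 := log7_up
  have l11 := log11_up
  norm_num at key hl l2 l2' l3 l5 l7 l11
  linarith

theorem cell_5 (h : Num N r b lam v) (hN : 4096 ≤ N) (hR0 : (45/8 : ℝ) * r ≤ N)
    (hR1 : (N : ℝ) ≤ (51/8) * r) : False := by
  have key := cell' h hN (R0 := 45/8) (R1 := 51/8) (μ := 23/80) (225/128) (203/240) (17/40) (47/140) (1/220)
    (by norm_num) hR0 hR1 (by norm_num) (by norm_num) (by norm_num) (by norm_num) (by norm_num)
    (by norm_num) (by norm_num) (by norm_num) (by norm_num) (by norm_num) (by norm_num)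
    (by norm_num [min_def]) (by norm_num [min_def]) (by norm_num [min_def]) (by norm_num [min_def])
    (by norm_num [min_def]) (by norm_num [min_def]) (by norm_num [min_def]) (by norm_num [min_def])
    (by norm_num [min_def])
  have hl : (50 / 29 : ℝ) ≤ Real.log (45/8) := by
    have := log_lo (x := 45/8) (n := 50) (d := 29) (by norm_num) (by norm_num) (by norm_num)
    exact_mod_cast this
  rw [log_4096] at key
  have l2 := Real.log_two_gt_d9
  have l2' := Real.log_two_lt_d9
  have l3 := log3_up
  have l5 := log5_up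
  have l7 := log7_up
  have l11 := log11_up
  norm_num at key hl l2 l2' l3 l5 l7 l11
  linarith

theorem cell_6 (h : Num N r b lam v) (hN : 4096 ≤ N) (hR0 : (51/8 : ℝ) * r ≤ N)
    (hR1 : (N : ℝ) ≤ (55/8) * r) : False := by
  have key := cell' h hN (R0 := 51/8) (R1 := 55/8) (μ := 5/16) (221/128) (119/144) (3/8) (5/14) (0)
    (by norm_num) hR0 hR1 (by norm_num) (by norm_num) (by norm_num) (by norm_num) (by norm_num)
    (by norm_num) (by norm_num) (by norm_num) (by norm_num) (by norm_num) (by norm_num)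
    (by norm_num [min_def]) (by norm_num [min_def]) (by norm_num [min_def]) (by norm_num [min_def])
    (by norm_num [min_def]) (by norm_num [min_def]) (by norm_num [min_def]) (by norm_num [min_def])
    (by norm_num [min_def])
  have hl : (37 / 20 : ℝ) ≤ Real.log (51/8) := by
    have := log_lo (x := 51/8) (n := 37) (d := 20) (by norm_num) (by norm_num) (by norm_num)
    exact_mod_cast this
  rw [log_4096] at key
  have l2 := Real.log_two_gt_d9
  have l2' := Real.log_two_lt_d9
  have l3 := log3_up
  have l5 := log5_up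
  have l7 := log7_up
  have l11 := log11_up
  norm_num at key hl l2 l2' l3 l5 l7 l11
  linarith

theorem cell_7 (h : Num N r b lam v) (hN : 4096 ≤ N) (hR0 : (55/8 : ℝ) * r ≤ N)
    (hR1 : (N : ℝ) ≤ (59/8) * r) : False := by
  have key := cell' h hN (R0 := 55/8) (R1 := 59/8) (μ := 27/80) (217/128) (581/720) (13/40) (13/40) (0)
    (by norm_num) hR0 hR1 (by norm_num) (by norm_num) (by norm_num) (by norm_num) (by norm_num)
    (by norm_num) (by norm_num) (by norm_num) (by norm_num) (by norm_num) (by norm_num)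
    (by norm_num [min_def]) (by norm_num [min_def]) (by norm_num [min_def]) (by norm_num [min_def])
    (by norm_num [min_def]) (by norm_num [min_def]) (by norm_num [min_def]) (by norm_num [min_def])
    (by norm_num [min_def])
  have hl : (52 / 27 : ℝ) ≤ Real.log (55/8) := by
    have := log_lo (x := 55/8) (n := 52) (d := 27) (by norm_num) (by norm_num) (by norm_num)
    exact_mod_cast this
  rw [log_4096] at key
  have l2 := Real.log_two_gt_d9
  have l2' := Real.log_two_lt_d9
  have l3 := log3_up
  have l5 := log5_up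
  have l7 := log7_up
  have l11 := log11_up
  norm_num at key hl l2 l2' l3 l5 l7 l11
  linarith

theorem cell_8 (h : Num N r b lam v) (hN : 4096 ≤ N) (hR0 : (59/8 : ℝ) * r ≤ N)
    (hR1 : (N : ℝ) ≤ (31/4) * r) : False := by
  have key := cell' h hN (R0 := 59/8) (R1 := 31/4) (μ := 7/20) (109/64) (73/90) (3/10) (3/10) (1/220)
    (by norm_num) hR0 hR1 (by norm_num) (by norm_num) (by norm_num) (by norm_num) (by norm_num)
    (by norm_num) (by norm_num) (by norm_num) (by norm_num) (by norm_num) (by norm_num)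
    (by norm_num [min_def]) (by norm_num [min_def]) (by norm_num [min_def]) (by norm_num [min_def])
    (by norm_num [min_def]) (by norm_num [min_def]) (by norm_num [min_def]) (by norm_num [min_def])
    (by norm_num [min_def])
  have hl : (99 / 50 : ℝ) ≤ Real.log (59/8) := by
    have := log_lo (x := 59/8) (n := 99) (d := 50) (by norm_num) (by norm_num) (by norm_num)
    exact_mod_cast this
  rw [log_4096] at key
  have l2 := Real.log_two_gt_d9
  have l2' := Real.log_two_lt_d9
  have l3 := log3_up
  have l5 := log5_up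
  have l7 := log7_up
  have l11 := log11_up
  norm_num at key hl l2 l2' l3 l5 l7 l11
  linarith

theorem cell_9 (h : Num N r b lam v) (hN : 4096 ≤ N) (hR0 : (31/4 : ℝ) * r ≤ N)
    (hR1 : (N : ℝ) ≤ (8) * r) : False := by
  have key := cell' h hN (R0 := 31/4) (R1 := 8) (μ := 29/80) (27/16) (577/720) (11/40) (11/40) (1/440)
    (by norm_num) hR0 hR1 (by norm_num) (by norm_num) (by norm_num) (by norm_num) (by norm_num)
    (by norm_num) (by norm_num) (by norm_num) (by norm_num) (by norm_num) (by norm_num)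
    (by norm_num [min_def]) (by norm_num [min_def]) (by norm_num [min_def]) (by norm_num [min_def])
    (by norm_num [min_def]) (by norm_num [min_def]) (by norm_num [min_def]) (by norm_num [min_def])
    (by norm_num [min_def])
  have hl : (43 / 21 : ℝ) ≤ Real.log (31/4) := by
    have := log_lo (x := 31/4) (n := 43) (d := 21) (by norm_num) (by norm_num) (by norm_num)
    exact_mod_cast this
  rw [log_4096] at key
  have l2 := Real.log_two_gt_d9
  have l2' := Real.log_two_lt_d9
  have l3 := log3_up
  have l5 := log5_up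
  have l7 := log7_up
  have l11 := log11_up
  norm_num at key hl l2 l2' l3 l5 l7 l11
  linarith

theorem num_mid (h : Num N r b lam v) (hN : 4096 ≤ N) (h8 : N ≤ 8 * r) : False := by
  have h2 : 2 * r ≤ N := by have := h.rN; omega
  have k0 : (2 : ℝ) * r ≤ N := by exact_mod_cast h2
  have k8 : (N : ℝ) ≤ 8 * r := by exact_mod_cast h8
  rcases le_total (N : ℝ) ((19/8) * r) with m0 | m0
  · exact cell_0 h hN k0 m0
  rcases le_total (N : ℝ) ((23/8) * r) with m1 | m1
  · exact cell_1 h hN m0 m1
  rcases le_total (N : ℝ) ((29/8) * r) with m2 | m2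
  · exact cell_2 h hN m1 m2
  rcases le_total (N : ℝ) ((37/8) * r) with m3 | m3
  · exact cell_3 h hN m2 m3
  rcases le_total (N : ℝ) ((45/8) * r) with m4 | m4
  · exact cell_4 h hN m3 m4
  rcases le_total (N : ℝ) ((51/8) * r) with m5 | m5
  · exact cell_5 h hN m4 m5
  rcases le_total (N : ℝ) ((55/8) * r) with m6 | m6
  · exact cell_6 h hN m5 m6
  rcases le_total (N : ℝ) ((59/8) * r) with m7 | m7
  · exact cell_7 h hN m6 m7
  rcases le_total (N : ℝ) ((31/4) * r) with m8 | m8
  · exact cell_8 h hN m7 m8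
  exact cell_9 h hN m8 k8

end Pool.Agent.Helper14.IR
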