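import Pool.Agent.Helper14.IR.NumB

/-!
Block IR-NM: the master inequality for `N ≥ 4096`, `8 r ≤ N`.

Paper proof. `master`: let `Π = ∏ x_p`. By `en107` and `r ≤ N/8`: `N (N-1) ≤ 1.07 (N/8) lam^r Π`, `(lam^r)^8 ≤ lam^N ≤ 2.005 N`, `Π^4 ≤ ∏ (p^(a_p) E_p) = N (N-1) ∏ E_p` (`Nat.factorization_prod_pow_eq_self`). So
`(N(N-1))^8 ≤ (1.07 N/8)^8 * 2.005 N * (N(N-1))^2 (∏ E_p)^2`, `(N (N-1))^6 ≤ (1.07/8)^8 * 2.005 * N^9 (∏ E_p)^2`, and `N - 1 ≥ N * 4095/4096`: `N^3 (4095/4096)^6 (8/1.07)^8 / 2.005 ≤ (∏ E_p)^2`; the constant is `4862949..`.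
-/

open Finset

namespace Pool.Agent.Helper14.IR

variable {N r b : ℕ} {lam : ℝ} {v : ℕ → ℕ}

private theorem final_h40 (n M E : ℝ) (hn : 4096 ≤ n) (hM : n * (n - 1) = M)
    (h : M ^ 8 ≤ (1.07 * (n / 8)) ^ 8 * (2.005 * n) * (M * E) ^ 2) :
    4862000 * n ^ 3 ≤ E ^ 2 := by
  have hn0 : 0 < n := by linarith
  have hM1 : n ^ 2 * (4095 / 4096) ≤ M := by
    rw [← hM]
    nlinarith
  have hM0 : 0 < M := lt_of_lt_of_le (by positivity) hM1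
  have h1 : M ^ 6 * M ^ 2 ≤ (((1.07 / 8) ^ 8 * 2.005) * n ^ 9 * E ^ 2) * M ^ 2 := by
    calc M ^ 6 * M ^ 2 = M ^ 8 := by ring
      _ ≤ (1.07 * (n / 8)) ^ 8 * (2.005 * n) * (M * E) ^ 2 := h
      _ = (((1.07 / 8) ^ 8 * 2.005) * n ^ 9 * E ^ 2) * M ^ 2 := by ring
  have h2 : M ^ 6 ≤ ((1.07 / 8) ^ 8 * 2.005) * n ^ 9 * E ^ 2 :=
    le_of_mul_le_mul_right h1 (by positivity)
  have h3 : (n ^ 2 * (4095 / 4096)) ^ 6 ≤ M ^ 6 := pow_le_pow_left₀ (by positivity) hM1 6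
  have h4 : ((4095 / 4096) ^ 6 * n ^ 3) * n ^ 9 ≤ (((1.07 / 8) ^ 8 * 2.005) * E ^ 2) * n ^ 9 := by
    calc ((4095 / 4096) ^ 6 * n ^ 3) * n ^ 9 = (n ^ 2 * (4095 / 4096)) ^ 6 := by ring
      _ ≤ M ^ 6 := h3
      _ ≤ ((1.07 / 8) ^ 8 * 2.005) * n ^ 9 * E ^ 2 := h2
      _ = (((1.07 / 8) ^ 8 * 2.005) * E ^ 2) * n ^ 9 := by ring
  have h5 : (4095 / 4096) ^ 6 * n ^ 3 ≤ ((1.07 / 8) ^ 8 * 2.005) * E ^ 2 :=
    le_of_mul_le_mul_right h4 (by positivity)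
  have h6 : ((1.07 / 8 : ℝ) ^ 8 * 2.005) * (4862000 * n ^ 3) ≤ (4095 / 4096) ^ 6 * n ^ 3 := by
    have h7 : ((1.07 / 8 : ℝ) ^ 8 * 2.005) * 4862000 ≤ (4095 / 4096) ^ 6 := by norm_num
    calc ((1.07 / 8 : ℝ) ^ 8 * 2.005) * (4862000 * n ^ 3)
        = (((1.07 / 8 : ℝ) ^ 8 * 2.005) * 4862000) * n ^ 3 := by ring
      _ ≤ (4095 / 4096) ^ 6 * n ^ 3 := mul_le_mul_of_nonneg_right h7 (by positivity)
  exact le_of_mul_le_mul_left (h6.trans h5) (by positivity)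

theorem Num.master (h : Num N r b lam v) (hN : 4096 ≤ N) (h8 : 8 * r ≤ N) (E : ℕ → ℝ)
    (hE : ∀ p ∈ (N * (N - 1)).primeFactors, (xx r v p) ^ 4 ≤ (p : ℝ) ^ aa N p * E p) :
    4862000 * (N : ℝ) ^ 3 ≤ (∏ p ∈ (N * (N - 1)).primeFactors, E p) ^ 2 := by
  have hNR : (4096 : ℝ) ≤ N := by exact_mod_cast hN
  have hlam : (0 : ℝ) ≤ lam := le_trans zero_le_one h.lam1
  have hP0 : (0 : ℝ) ≤ ∏ p ∈ (N * (N - 1)).primeFactors, xx r v p :=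
    Finset.prod_nonneg fun p hp => le_trans zero_le_one (h.one_le_xx hp)
  -- the product of the prime powers
  have hfac : ∏ p ∈ (N * (N - 1)).primeFactors, (p : ℝ) ^ aa N p = (N : ℝ) * (N - 1) := by
    have hne : N * (N - 1) ≠ 0 := Nat.mul_ne_zero (by omega) (by omega)
    have h1 := Nat.factorization_prod_pow_eq_self hne
    have h2 : ∏ p ∈ (N * (N - 1)).primeFactors, p ^ aa N p = N * (N - 1) := by
      conv_rhs => rw [← h1]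
      rfl
    have h3 := congrArg (fun n : ℕ => (n : ℝ)) h2
    simp only [Nat.cast_prod, Nat.cast_pow, Nat.cast_mul] at h3
    rw [h3, Nat.cast_sub (by omega), Nat.cast_one]
  have h4 : (∏ p ∈ (N * (N - 1)).primeFactors, xx r v p) ^ 4 ≤
      ((N : ℝ) * (N - 1)) * ∏ p ∈ (N * (N - 1)).primeFactors, E p := by
    rw [← hfac, ← Finset.prod_mul_distrib, ← Finset.prod_pow]
    refine Finset.prod_le_prod (fun p hp => ?_) hE
    exact pow_nonneg (le_trans zero_le_one (h.one_le_xx hp)) 4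
  have hr8 : (r : ℝ) ≤ N / 8 := by
    rw [le_div_iff₀ (by norm_num)]
    have : ((8 * r : ℕ) : ℝ) ≤ N := by exact_mod_cast h8
    push_cast at this
    linarith
  have h5 : (lam ^ r) ^ 8 ≤ 2.005 * N := by
    rw [← pow_mul]
    exact (pow_le_pow_right₀ h.lam1 (by omega)).trans (h.lamN_le hN)
  have h6 : (N : ℝ) * (N - 1) ≤
      1.07 * (N / 8) * lam ^ r * ∏ p ∈ (N * (N - 1)).primeFactors, xx r v p := by
    refine (h.en107 hN).trans ?_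
    have h7 : (1.07 : ℝ) * r ≤ 1.07 * (N / 8) := by linarith
    exact mul_le_mul_of_nonneg_right (mul_le_mul_of_nonneg_right h7 (pow_nonneg hlam r)) hP0
  have hM0 : (0 : ℝ) ≤ (N : ℝ) * (N - 1) := mul_nonneg (by linarith) (by linarith)
  refine final_h40 N ((N : ℝ) * (N - 1)) _ hNR rfl ?_
  calc ((N : ℝ) * (N - 1)) ^ 8
      ≤ (1.07 * (N / 8) * lam ^ r * ∏ p ∈ (N * (N - 1)).primeFactors, xx r v p) ^ 8 :=
        pow_le_pow_left₀ hM0 h6 8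
    _ = (1.07 * ((N : ℝ) / 8)) ^ 8 * (lam ^ r) ^ 8 *
        ((∏ p ∈ (N * (N - 1)).primeFactors, xx r v p) ^ 4) ^ 2 := by ring
    _ ≤ (1.07 * ((N : ℝ) / 8)) ^ 8 * (2.005 * N) *
        (((N : ℝ) * (N - 1)) * ∏ p ∈ (N * (N - 1)).primeFactors, E p) ^ 2 := by
        refine mul_le_mul (mul_le_mul_of_nonneg_left h5 (by positivity))
          (pow_le_pow_left₀ (pow_nonneg hP0 4) h4 2) (by positivity) (by positivity)

end Pool.Agent.Helper14.IR
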