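import Pool.Agent.Helper14.IR.Num3
import Pool.Agent.Helper14.IR.NumM

/-!
Block IR-N3A: soundness of the check for the range `2^i ≤ N < 2^i1`, `8 r ≤ N`.

A data entry is a triple `(p, h, S)`; `S / 4096` is an upper bound for `(2.005 * 2^i1)^(1/p^h)` (`okE`), `U = uE / 4096 = p^(h-1) (1 + S/4096)`, and `nE / dE` is `U^3/p` if `U ≥ p` and `max(1, U^4/p^2)` otherwise.

Paper proof of `low_core`. For a prime `p` put `E p = ∏_{t ∈ L, t.1 = p} nE t / dE t` (e.g. the product over the list `L` of `if t.1 = p then nE t / dE t else 1`). All `nE t / dE t ≥ 1` (if `p * 4096 ≤ uE` then `uE^3 ≥ p^3 4096^3`), so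
`∏_{p ∈ S} E p ≤ prn L / prd L` for every finite set `S` of primes (exchange the products).
Claim: `x_p^4 ≤ p^(a_p) E p` for all `p ∈ primeFactors (N (N-1))`.
(i) `p < P0`: there is `t = (p, h, S) ∈ L` (`hPL` and `chk3`), and `s = S/4096 ≥ 1` has `s^(p^h) ≥ 2.005 * 2^i1 ≥ 2.005 N ≥ lam^N` (`lamN_le`), so `x_p ≤ U` (`xx_le_h`), and `x_p ≤ p^(a-1)` (`xx_le_pow`), `a ≥ 1` (`T_ex`).
 If `U ≥ p` (case one of `nE`): `x^4 = x^3 x ≤ U^3 p^(a-1) = p^a (U^3/p)`. Otherwise: if `a = 1`, `x ≤ 1` and `E p ≥ 1`; if `a ≥ 2`, `x^4 ≤ U^4 = p^2 (U^4/p^2) ≤ p^a (U^4/p^2)`.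
(ii) `p ≥ P0`: `s = S0/4096` has `s^p ≥ s^P0 ≥ 2.005 * 2^i1`, so `x_p ≤ 1 + s` (`xx_le_h` with `h = 1`), `x_p^2 ≤ (1+s)^2 ≤ P0 ≤ p`; if `a = 1` then `x_p ≤ 1`; if `a ≥ 2`, `x_p^4 ≤ p^2 ≤ p^a`; and `E p ≥ 1`.
Case `bm = false`: `master` gives `4862000 N^3 ≤ (∏ E p)^2 ≤ (prn L/prd L)^2 < 4862000 * 2^(3i) ≤ 4862000 N^3`: contradiction.
Case `bm = true`: `b ≥ 2` has a prime factor `p`, `a = v_p(b)`; as `b ∣ N - 1` and `b`, `(N-1)/b` are coprime, `a = v_p(N-1) = a_p` (`aa`), `q = p^a ≤ b ≤ lam^r`, `q^8 ≤ lam^(8r) ≤ lam^N ≤ 2.005 N < 2.005 * 2^i1`, so `1000 q^8 ≤ 2005 * 2^i1`; as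
`i1 ≤ 60`, `a ≤ 7`; and `p < P0` because `1000 P0^8 > 2005 * 2^i1`. Let `t ∈ L` with `t.1 = p`. Replace `E p` by `p^(3a)/p^4`: `x_p^4 ≤ p^(4(a-1)) = p^a p^(3a)/p^4`. The product over `primeFactors` of the new `E` is at most
`(prn L / prd L) * (dE t / nE t) * p^(3a)/p^4` (the other primes use the entries `t'` with `t'.1 ≠ p`), and the check says that its square is less than `4862000 * 2^(3i)`.
-/

open Finset

namespace Pool.Agent.Helper14.IR

variable {N r b : ℕ} {lam : ℝ} {v : ℕ → ℕ}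

private noncomputable def rho (t : ℕ × ℕ × ℕ) : ℝ := (nE t : ℝ) / dE t

private theorem dE_pos {t : ℕ × ℕ × ℕ} (h : 1 ≤ t.1) : 0 < dE t := by
  unfold dE
  split_ifs <;> positivity

private theorem dE_le_nE {t : ℕ × ℕ × ℕ} (h : 1 ≤ t.1) : dE t ≤ nE t := by
  unfold dE nE
  split_ifs with hc
  · calc t.1 * 4096 ^ 3 ≤ t.1 ^ 3 * 4096 ^ 3 := Nat.mul_le_mul_right _ (Nat.le_self_pow (by norm_num) _)
      _ = (t.1 * 4096) ^ 3 := by rw [mul_pow]
      _ ≤ uE t ^ 3 := Nat.pow_le_pow_left hc 3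
  · exact le_max_right _ _

private theorem one_le_rho {t : ℕ × ℕ × ℕ} (h : 1 ≤ t.1) : 1 ≤ rho t := by
  have hd : (0 : ℝ) < dE t := by exact_mod_cast dE_pos h
  rw [rho, le_div_iff₀ hd, one_mul]
  exact_mod_cast dE_le_nE h

private noncomputable def EE (L : List (ℕ × ℕ × ℕ)) (p : ℕ) : ℝ :=
  (L.map fun t => if t.1 = p then rho t else 1).prod

private theorem EE_cons (t : ℕ × ℕ × ℕ) (L : List (ℕ × ℕ × ℕ)) (p : ℕ) :
    EE (t :: L) p = (if t.1 = p then rho t else 1) * EE L p := by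
  simp [EE]

private theorem one_le_ite {t : ℕ × ℕ × ℕ} (h : 1 ≤ t.1) (p : ℕ) : 1 ≤ (if t.1 = p then rho t else 1) := by
  split_ifs
  · exact one_le_rho h
  · exact le_rfl

private theorem one_le_EE : ∀ (L : List (ℕ × ℕ × ℕ)), (∀ t ∈ L, 1 ≤ t.1) → ∀ p, 1 ≤ EE L p
  | [], _, p => by simp [EE]
  | t :: L, hL, p => by
    rw [EE_cons]
    exact one_le_mul_of_one_le_of_one_le (one_le_ite (hL t List.mem_cons_self) p)
      (one_le_EE L (fun s hs => hL s (List.mem_cons_of_mem _ hs)) p)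

private theorem rho_le_EE : ∀ (L : List (ℕ × ℕ × ℕ)), (∀ t ∈ L, 1 ≤ t.1) → ∀ t ∈ L, rho t ≤ EE L t.1
  | [], _, t, ht => by simp at ht
  | s :: L, hL, t, ht => by
    rw [EE_cons]
    have hL' : ∀ t ∈ L, 1 ≤ t.1 := fun u hu => hL u (List.mem_cons_of_mem _ hu)
    have h1 := one_le_EE L hL' t.1
    have h2 := one_le_ite (hL s List.mem_cons_self) t.1
    rcases List.mem_cons.mp ht with rfl | ht'
    · rw [if_pos rfl]
      exact le_mul_of_one_le_right (le_trans zero_le_one (one_le_rho (hL _ List.mem_cons_self))) h1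
    · exact (rho_le_EE L hL' t ht').trans (le_mul_of_one_le_left (by linarith) h2)

private theorem prod_EE_le (S : Finset ℕ) : ∀ (L : List (ℕ × ℕ × ℕ)), (∀ t ∈ L, 1 ≤ t.1) →
    ∏ p ∈ S, EE L p ≤ (L.map rho).prod
  | [], _ => by simp [EE]
  | t :: L, hL => by
    have hL' : ∀ t ∈ L, 1 ≤ t.1 := fun u hu => hL u (List.mem_cons_of_mem _ hu)
    have ih := prod_EE_le S L hL'
    have h1 : ∏ p ∈ S, EE (t :: L) p = (∏ p ∈ S, if t.1 = p then rho t else 1) * ∏ p ∈ S, EE L p := by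
      rw [← Finset.prod_mul_distrib]
      exact Finset.prod_congr rfl fun p _ => EE_cons t L p
    rw [h1, List.map_cons, List.prod_cons, Finset.prod_ite_eq]
    have hr := one_le_rho (hL t List.mem_cons_self)
    have hnn : 0 ≤ ∏ p ∈ S, EE L p := Finset.prod_nonneg fun p _ => by
      have := one_le_EE L hL' p
      linarith
    refine mul_le_mul ?_ ih hnn (by linarith)
    split_ifs <;> linarith

private theorem prod_rho : ∀ (L : List (ℕ × ℕ × ℕ)), (L.map rho).prod = (prn L : ℝ) / prd L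
  | [] => by simp [prn, prd]
  | t :: L => by
    have ih := prod_rho L
    rw [List.map_cons, List.prod_cons, ih, rho]
    simp only [prn, prd, List.map_cons, List.prod_cons]
    push_cast
    rw [div_mul_div_comm]

private theorem prd_pos (L : List (ℕ × ℕ × ℕ)) (hL : ∀ t ∈ L, 1 ≤ t.1) : 0 < prd L := by
  rw [prd]
  refine List.prod_pos fun a ha => ?_
  obtain ⟨t, ht, rfl⟩ := List.mem_map.mp ha
  exact dE_pos (hL t ht)

private theorem okE_iff {i1 : ℕ} {t : ℕ × ℕ × ℕ} (h : okE i1 t = true) : 1 ≤ t.1 ∧ 1 ≤ t.2.1 ∧ 4096 ≤ t.2.2 ∧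
    2005 * 2 ^ i1 * 4096 ^ (t.1 ^ t.2.1) ≤ 1000 * t.2.2 ^ (t.1 ^ t.2.1) := by
  simp only [okE, Bool.and_eq_true, decide_eq_true_eq] at h
  exact ⟨h.1.1.1, h.1.1.2, h.1.2, h.2⟩

private theorem s_bound (h : Num N r b lam v) (hN : 4096 ≤ N) {i1 : ℕ} (hi1 : N < 2 ^ i1) {t : ℕ × ℕ × ℕ}
    (ht : okE i1 t = true) : lam ^ N ≤ ((t.2.2 : ℝ) / 4096) ^ (t.1 ^ t.2.1) := by
  obtain ⟨-, -, -, h4⟩ := okE_iff ht
  have h5 : ((2005 * 2 ^ i1 * 4096 ^ (t.1 ^ t.2.1) : ℕ) : ℝ) ≤ ((1000 * t.2.2 ^ (t.1 ^ t.2.1) : ℕ) : ℝ) :=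
    Nat.cast_le.mpr h4
  push_cast at h5
  have h6 : (0 : ℝ) < 4096 ^ (t.1 ^ t.2.1) := by positivity
  have h7 : (N : ℝ) ≤ 2 ^ i1 := by exact_mod_cast hi1.le
  have h8 := h.lamN_le hN
  rw [div_pow, le_div_iff₀ h6]
  have h9 : lam ^ N ≤ 2.005 * 2 ^ i1 := by linarith
  have h10 := mul_le_mul_of_nonneg_right h9 h6.le
  nlinarith

private theorem key (h : Num N r b lam v) (hN : 4096 ≤ N) {PL : List ℕ} {i1 P0 S0 : ℕ} {L : List (ℕ × ℕ × ℕ)}
    (hPL : ∀ q : ℕ, q.Prime → q < P0 → q ∈ PL) (hi1 : N < 2 ^ i1) (c1 : ∀ t ∈ L, okE i1 t = true)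
    (c3 : okE i1 (P0, 1, S0) = true) (c4 : (4096 + S0) ^ 2 ≤ P0 * 4096 ^ 2)
    (c5 : ∀ q ∈ PL, P0 ≤ q ∨ ∃ t ∈ L, t.1 = q) {p : ℕ} (hp : p ∈ (N * (N - 1)).primeFactors) :
    (xx r v p) ^ 4 ≤ (p : ℝ) ^ aa N p * EE L p := by
  have hL1 : ∀ t ∈ L, 1 ≤ t.1 := fun t ht => (okE_iff (c1 t ht)).1
  have hpp : p.Prime := Nat.prime_of_mem_primeFactors hp
  have hp1 : (1 : ℝ) ≤ p := by exact_mod_cast hpp.one_lt.le
  have hp0 : (0 : ℝ) < p := by linarith
  obtain ⟨T, m, -, -, -, ha1⟩ := h.T_ex hp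
  have hx1 := h.one_le_xx hp
  have hx0 : 0 ≤ xx r v p := by linarith
  have hxa := h.xx_le_pow hp
  have hE1 := one_le_EE L hL1 p
  rcases Nat.lt_or_ge p P0 with hlt | hge
  · rcases c5 p (hPL p hpp hlt) with h' | ⟨t, ht, htp⟩
    · omega
    obtain ⟨o1, o2, o3, -⟩ := okE_iff (c1 t ht)
    have hs : (1 : ℝ) ≤ (t.2.2 : ℝ) / 4096 := by
      rw [le_div_iff₀ (by norm_num), one_mul]
      exact_mod_cast o3
    have hxU := h.xx_le_h hp o2 hs (by
      have := s_bound h hN hi1 (c1 t ht)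
      rwa [htp] at this)
    have hrE : rho t ≤ EE L p := by
      have := rho_le_EE L hL1 t ht
      rwa [htp] at this
    have hpa : (0 : ℝ) < (p : ℝ) ^ aa N p := by positivity
    refine le_trans ?_ (mul_le_mul_of_nonneg_left hrE hpa.le)
    obtain ⟨U, hU⟩ : ∃ U : ℝ, U = (p : ℝ) ^ (t.2.1 - 1) * (1 + (t.2.2 : ℝ) / 4096) := ⟨_, rfl⟩
    rw [← hU] at hxU
    have huE : (uE t : ℝ) = 4096 * U := by
      rw [hU, uE, htp]
      push_cast
      ring
    have hU1 : 1 ≤ U := hx1.trans hxU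
    by_cases hcase : t.1 * 4096 ≤ uE t
    · have hrho : rho t = U ^ 3 / p := by
        rw [rho, nE, dE, if_pos hcase, if_pos hcase]
        push_cast
        rw [huE, htp]
        field_simp
        norm_num
      rw [hrho]
      have e1 : (p : ℝ) ^ aa N p * (U ^ 3 / p) = U ^ 3 * (p : ℝ) ^ (aa N p - 1) := by
        obtain ⟨a, ha⟩ : ∃ a, aa N p = a + 1 := ⟨aa N p - 1, by omega⟩
        rw [ha, Nat.add_sub_cancel, pow_succ]
        field_simp
      rw [e1]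
      calc xx r v p ^ 4 = xx r v p ^ 3 * xx r v p := by ring
        _ ≤ U ^ 3 * (p : ℝ) ^ (aa N p - 1) :=
          mul_le_mul (pow_le_pow_left₀ hx0 hxU 3) hxa hx0 (by positivity)
    · have hrho : rho t = max (U ^ 4 / p ^ 2) 1 := by
        rw [rho, nE, dE, if_neg hcase, if_neg hcase]
        have hd : (0 : ℝ) < (p : ℝ) ^ 2 * 281474976710656 := by positivity
        push_cast
        rw [huE, htp, ← max_div_div_right hd.le]
        congr 1
        · field_simp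
          norm_num
        · rw [div_self hd.ne']
      rw [hrho]
      rcases Nat.lt_or_ge (aa N p) 2 with ha | ha
      · have ha' : aa N p = 1 := by omega
        rw [ha'] at hxa ⊢
        have hx1' : xx r v p ≤ 1 := by simpa using hxa
        have h4 : xx r v p ^ 4 ≤ 1 := pow_le_one₀ hx0 hx1'
        have hm : (1 : ℝ) ≤ max (U ^ 4 / p ^ 2) 1 := le_max_right _ _
        rw [pow_one]
        nlinarith
      · have h4 : xx r v p ^ 4 ≤ U ^ 4 := pow_le_pow_left₀ hx0 hxU 4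
        have hm : U ^ 4 / p ^ 2 ≤ max (U ^ 4 / p ^ 2) 1 := le_max_left _ _
        have hpow : (p : ℝ) ^ 2 ≤ (p : ℝ) ^ aa N p := pow_le_pow_right₀ hp1 ha
        calc xx r v p ^ 4 ≤ U ^ 4 := h4
          _ = (p : ℝ) ^ 2 * (U ^ 4 / p ^ 2) := by field_simp
          _ ≤ (p : ℝ) ^ aa N p * max (U ^ 4 / p ^ 2) 1 := mul_le_mul hpow hm (by positivity) (by positivity)
  · obtain ⟨o1, o2, o3, -⟩ := okE_iff c3
    have hs : (1 : ℝ) ≤ (S0 : ℝ) / 4096 := by
      rw [le_div_iff₀ (by norm_num), one_mul]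
      exact_mod_cast o3
    have hsb := s_bound h hN hi1 c3
    have hxU := h.xx_le_h hp (le_refl 1) hs (by
      refine hsb.trans ?_
      simp only [pow_one]
      exact pow_le_pow_right₀ hs hge)
    rw [Nat.sub_self, pow_zero, one_mul] at hxU
    have hsq : (1 + (S0 : ℝ) / 4096) ^ 2 ≤ p := by
      have h1 : (((4096 + S0) ^ 2 : ℕ) : ℝ) ≤ ((P0 * 4096 ^ 2 : ℕ) : ℝ) := Nat.cast_le.mpr c4
      push_cast at h1
      have h2 : (P0 : ℝ) ≤ p := by exact_mod_cast hge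
      have h3 : (1 + (S0 : ℝ) / 4096) ^ 2 = (4096 + (S0 : ℝ)) ^ 2 / 4096 ^ 2 := by
        rw [← div_pow]
        congr 1
        field_simp
      rw [h3, div_le_iff₀ (by norm_num)]
      nlinarith
    have hle : xx r v p ^ 4 ≤ (p : ℝ) ^ aa N p := by
      rcases Nat.lt_or_ge (aa N p) 2 with ha | ha
      · have ha' : aa N p = 1 := by omega
        rw [ha'] at hxa ⊢
        have hx1' : xx r v p ≤ 1 := by simpa using hxa
        have h4 : xx r v p ^ 4 ≤ 1 := pow_le_one₀ hx0 hx1'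
        rw [pow_one]
        linarith
      · have hpow : (p : ℝ) ^ 2 ≤ (p : ℝ) ^ aa N p := pow_le_pow_right₀ hp1 ha
        have h2 : xx r v p ^ 2 ≤ (1 + (S0 : ℝ) / 4096) ^ 2 := pow_le_pow_left₀ hx0 hxU 2
        calc xx r v p ^ 4 = (xx r v p ^ 2) ^ 2 := by ring
          _ ≤ (p : ℝ) ^ 2 := pow_le_pow_left₀ (by positivity) (h2.trans hsq) 2
          _ ≤ (p : ℝ) ^ aa N p := hpow
    exact hle.trans (le_mul_of_one_le_right (by positivity) hE1)

theorem low_core (h : Num N r b lam v) (hN : 4096 ≤ N) (h8 : 8 * r ≤ N) {PL : List ℕ} {i i1 P0 S0 : ℕ}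
    {L : List (ℕ × ℕ × ℕ)} {bm : Bool} (hPL : ∀ q : ℕ, q.Prime → q < P0 → q ∈ PL)
    (hc : chk3 PL i i1 P0 S0 L bm = true) (hi : 2 ^ i ≤ N) (hi1 : N < 2 ^ i1) : False := by
  simp only [chk3, Bool.and_eq_true, decide_eq_true_eq, List.all_eq_true, Bool.or_eq_true, List.any_eq_true] at hc
  obtain ⟨⟨⟨⟨⟨c1, c2⟩, c3⟩, c4⟩, c5⟩, c6⟩ := hc
  have hL1 : ∀ t ∈ L, 1 ≤ t.1 := fun t ht => (okE_iff (c1 t ht)).1
  have hkey : ∀ p ∈ (N * (N - 1)).primeFactors, (xx r v p) ^ 4 ≤ (p : ℝ) ^ aa N p * EE L p := fun p hp =>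
    key h hN hPL hi1 c1 c3 c4 c5 hp
  have hprd : (0 : ℝ) < prd L := by exact_mod_cast prd_pos L hL1
  have hNi : (2 : ℝ) ^ (3 * i) ≤ (N : ℝ) ^ 3 := by
    have h1 : (2 : ℝ) ^ i ≤ N := by exact_mod_cast hi
    calc (2 : ℝ) ^ (3 * i) = (2 ^ i) ^ 3 := by rw [mul_comm, pow_mul]
      _ ≤ (N : ℝ) ^ 3 := pow_le_pow_left₀ (by positivity) h1 3
  cases bm with
  | false =>
    simp only [Bool.false_eq_true, if_false, decide_eq_true_eq] at c6
    have hm := h.master hN h8 (EE L) hkey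
    have h1 := prod_EE_le (N * (N - 1)).primeFactors L hL1
    rw [prod_rho] at h1
    have h0 : 0 ≤ ∏ p ∈ (N * (N - 1)).primeFactors, EE L p := Finset.prod_nonneg fun p _ => by
      have := one_le_EE L hL1 p
      linarith
    have h2 := pow_le_pow_left₀ h0 h1 2
    have h3 : ((prn L ^ 2 : ℕ) : ℝ) < ((4862000 * 2 ^ (3 * i) * prd L ^ 2 : ℕ) : ℝ) := Nat.cast_lt.mpr c6
    push_cast at h3
    have h4 : ((prn L : ℝ) / prd L) ^ 2 < 4862000 * 2 ^ (3 * i) := by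
      rw [div_pow, div_lt_iff₀ (by positivity)]
      exact h3
    linarith
  | true =>
    simp only [if_true, Bool.and_eq_true, decide_eq_true_eq, chkB, List.all_eq_true, Bool.or_eq_true,
      List.mem_range] at c6
    obtain ⟨⟨d1, d2⟩, d3⟩ := c6
    obtain ⟨p, hpp, hpb⟩ := Nat.exists_prime_and_dvd (show b ≠ 1 by have := h.b2; omega)
    have hN1 : N - 1 ≠ 0 := by omega
    have hne : N * (N - 1) ≠ 0 := mul_ne_zero (by omega) hN1
    have hpN1 : p ∣ N - 1 := hpb.trans h.bM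
    have hpPF : p ∈ (N * (N - 1)).primeFactors :=
      Nat.mem_primeFactors.mpr ⟨hpp, hpN1.trans (Dvd.intro_left N rfl), hne⟩
    obtain ⟨T, m, -, -, -, ha1⟩ := h.T_ex hpPF
    have hb0 : b ≠ 0 := by have := h.b2; omega
    have hpab : p ^ aa N p ≤ b := by
      have hbc : b * ((N - 1) / b) = N - 1 := Nat.mul_div_cancel' h.bM
      have hc0 : (N - 1) / b ≠ 0 := by have := h.c2; omega
      have hpc : ¬ p ∣ (N - 1) / b := fun hd => by
        have := Nat.Coprime.eq_one_of_dvd (Nat.Coprime.coprime_dvd_left hpb (Nat.Coprime.coprime_dvd_right hd h.cop)) dvd_rfl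
        exact hpp.one_lt.ne' this
      have hpN : ¬ p ∣ N := fun hd => by
        have h1 : p ∣ N - (N - 1) := Nat.dvd_sub hd hpN1
        have h2 : N - (N - 1) = 1 := by omega
        rw [h2] at h1
        exact hpp.one_lt.ne' (Nat.dvd_one.mp h1)
      have haab : aa N p = b.factorization p := by
        rw [aa]
        conv_lhs => rw [← hbc]
        rw [Nat.factorization_mul (by omega) (mul_ne_zero hb0 hc0), Nat.factorization_mul hb0 hc0]
        simp only [Finsupp.add_apply]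
        rw [Nat.factorization_eq_zero_of_not_dvd hpN, Nat.factorization_eq_zero_of_not_dvd hpc]
        ring
      rw [haab]
      exact Nat.le_of_dvd (Nat.pos_of_ne_zero hb0) (Nat.ordProj_dvd b p)
    have hq : 1000 * (p ^ aa N p) ^ 8 < 2005 * 2 ^ i1 := by
      have h1 : ((p ^ aa N p : ℕ) : ℝ) ≤ lam ^ r := (Nat.cast_le.mpr hpab).trans h.bl
      have h2 : ((p ^ aa N p : ℕ) : ℝ) ^ 8 ≤ lam ^ N := by
        calc ((p ^ aa N p : ℕ) : ℝ) ^ 8 ≤ (lam ^ r) ^ 8 := pow_le_pow_left₀ (by positivity) h1 8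
          _ = lam ^ (8 * r) := by rw [mul_comm, pow_mul]
          _ ≤ lam ^ N := pow_le_pow_right₀ h.lam1 h8
      have h3 := h.lamN_le hN
      have h4 : (N : ℝ) < 2 ^ i1 := by exact_mod_cast hi1
      have h5 : (1000 : ℝ) * ((p ^ aa N p : ℕ) : ℝ) ^ 8 < 2005 * 2 ^ i1 := by
        have h6 : ((p ^ aa N p : ℕ) : ℝ) ^ 8 < 2.005 * 2 ^ i1 := by linarith
        linarith
      exact_mod_cast h5
    have hpP : p < P0 := by
      by_contra hcon
      have hle : P0 ^ 8 ≤ (p ^ aa N p) ^ 8 :=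
        Nat.pow_le_pow_left ((not_lt.mp hcon).trans (Nat.le_self_pow (by omega) p)) 8
      omega
    have ha8 : aa N p < 8 := by
      by_contra hcon
      have h1 : 2 ^ 64 ≤ (p ^ aa N p) ^ 8 := by
        calc 2 ^ 64 = (2 ^ 8) ^ 8 := by norm_num
          _ ≤ (p ^ 8) ^ 8 := Nat.pow_le_pow_left (Nat.pow_le_pow_left hpp.two_le 8) 8
          _ ≤ (p ^ aa N p) ^ 8 := Nat.pow_le_pow_left (Nat.pow_le_pow_right hpp.pos (not_lt.mp hcon)) 8
      have h2 : 2 ^ i1 ≤ 2 ^ 60 := Nat.pow_le_pow_right (by norm_num) d1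
      have h3 : (1000 : ℕ) * 2 ^ 64 < 2005 * 2 ^ 60 := by omega
      norm_num at h3
    rcases c5 p (hPL p hpp hpP) with h' | ⟨t, ht, htp⟩
    · omega
    have hd := d3 t ht (aa N p) ha8
    rw [htp] at hd
    have hd' : (prn L * dE t * p ^ (3 * aa N p)) ^ 2 < 4862000 * 2 ^ (3 * i) * (prd L * nE t * p ^ 4) ^ 2 := by
      rcases hd with (hd | hd) | hd
      · have e1 : p ^ (8 * aa N p) = (p ^ aa N p) ^ 8 := by rw [mul_comm, pow_mul]
        rw [e1] at hd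
        omega
      · omega
      · exact hd
    have hp0 : (0 : ℝ) < p := by exact_mod_cast hpp.pos
    have hp1 : (1 : ℝ) ≤ p := by exact_mod_cast hpp.one_lt.le
    obtain ⟨Q, hQ⟩ : ∃ Q : ℝ, Q = (p : ℝ) ^ (3 * aa N p) / p ^ 4 := ⟨_, rfl⟩
    have hQ0 : 0 < Q := by rw [hQ]; positivity
    have hkey' : ∀ p' ∈ (N * (N - 1)).primeFactors,
        (xx r v p') ^ 4 ≤ (p' : ℝ) ^ aa N p' * (if p' = p then Q else EE L p') := by
      intro p' hp'
      split_ifs with heq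
      · subst heq
        have hx0 : 0 ≤ xx r v p' := le_trans zero_le_one (h.one_le_xx hp')
        have h1 := pow_le_pow_left₀ hx0 (h.xx_le_pow hp') 4
        refine h1.trans (le_of_eq ?_)
        rw [hQ]
        obtain ⟨a, ha⟩ : ∃ a, aa N p' = a + 1 := ⟨aa N p' - 1, by omega⟩
        rw [ha, Nat.add_sub_cancel]
        field_simp
        ring
      · exact hkey p' hp'
    have hm := h.master hN h8 (fun p' => if p' = p then Q else EE L p') hkey'
    have hpos : ∀ p', 0 ≤ EE L p' := fun p' => le_trans zero_le_one (one_le_EE L hL1 p')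
    have hprodE : ∏ p' ∈ (N * (N - 1)).primeFactors, (if p' = p then Q else EE L p') =
        Q * ∏ p' ∈ (N * (N - 1)).primeFactors.erase p, EE L p' := by
      rw [← Finset.mul_prod_erase _ _ hpPF, if_pos rfl]
      congr 1
      refine Finset.prod_congr rfl fun p' hp' => ?_
      rw [if_neg (Finset.ne_of_mem_erase hp')]
    have hrt : 0 < rho t := lt_of_lt_of_le one_pos (one_le_rho (hL1 t ht))
    have hle1 : (∏ p' ∈ (N * (N - 1)).primeFactors.erase p, EE L p') * rho t ≤ (prn L : ℝ) / prd L := by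
      have h1 := prod_EE_le (N * (N - 1)).primeFactors L hL1
      rw [prod_rho, ← Finset.mul_prod_erase _ _ hpPF] at h1
      have h2 : rho t ≤ EE L p := by
        have := rho_le_EE L hL1 t ht
        rwa [htp] at this
      have h3 := mul_le_mul_of_nonneg_right h2 (Finset.prod_nonneg fun p' (_ : p' ∈ (N * (N - 1)).primeFactors.erase p) => hpos p')
      rw [mul_comm]
      exact h3.trans h1
    have hnE : (0 : ℝ) < nE t := by
      have h1 := dE_le_nE (hL1 t ht)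
      have h2 := dE_pos (hL1 t ht)
      exact_mod_cast lt_of_lt_of_le h2 h1
    have hdE : (0 : ℝ) < dE t := by exact_mod_cast dE_pos (hL1 t ht)
    have hle2 : Q * ∏ p' ∈ (N * (N - 1)).primeFactors.erase p, EE L p' ≤
        (prn L * dE t * p ^ (3 * aa N p) : ℝ) / (prd L * nE t * p ^ 4) := by
      have h1 : ∏ p' ∈ (N * (N - 1)).primeFactors.erase p, EE L p' ≤ (prn L : ℝ) / prd L / rho t := by
        rw [le_div_iff₀ hrt]
        exact hle1
      refine (mul_le_mul_of_nonneg_left h1 hQ0.le).trans (le_of_eq ?_)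
      rw [hQ, rho]
      field_simp
    have h0 : 0 ≤ Q * ∏ p' ∈ (N * (N - 1)).primeFactors.erase p, EE L p' :=
      mul_nonneg hQ0.le (Finset.prod_nonneg fun p' _ => hpos p')
    have h2 := pow_le_pow_left₀ h0 hle2 2
    have h3 : (((prn L * dE t * p ^ (3 * aa N p)) ^ 2 : ℕ) : ℝ) <
        ((4862000 * 2 ^ (3 * i) * (prd L * nE t * p ^ 4) ^ 2 : ℕ) : ℝ) := Nat.cast_lt.mpr hd'
    push_cast at h3
    have h4 : ((prn L * dE t * p ^ (3 * aa N p) : ℝ) / (prd L * nE t * p ^ 4)) ^ 2 < 4862000 * 2 ^ (3 * i) := by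
      rw [div_pow, div_lt_iff₀ (by positivity)]
      exact h3
    rw [hprodE] at hm
    linarith

end Pool.Agent.Helper14.IR
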