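import Pool.Agent.Helper14.IR.Num3D
import Pool.Agent.Helper14.IR.Num3s

/-!
Block IR-N3C (helper14): the range `4096 ≤ N < 2^5129`, `8 r ≤ N`.
-/

namespace Pool.Agent.Helper14.IR

variable {N r b : ℕ} {lam : ℝ} {v : ℕ → ℕ}

theorem PL_chk : ∀ q < 1100, 2 ≤ q →
    q ∈ PL ∨ ∃ d ∈ [2, 3, 5, 7, 11, 13, 17, 19, 23, 29, 31], d ≠ q ∧ q % d = 0 := by
  decide +kernel

theorem PL_mem : ∀ q : ℕ, q.Prime → q < 1100 → q ∈ PL := by
  intro q hq h
  rcases PL_chk q h hq.two_le with h1 | ⟨d, hd, h2, h3⟩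
  · exact h1
  · exfalso
    have h4 : d ∣ q := Nat.dvd_of_mod_eq_zero h3
    rcases (Nat.dvd_prime hq).1 h4 with h5 | h5
    · subst h5
      simp at hd
    · exact h2 h5

theorem num_low (h : Num N r b lam v) (hN : 4096 ≤ N) (hN2 : N < 2 ^ 5129) (h8 : 8 * r ≤ N) : False := by
  have hP : ∀ P0 : ℕ, P0 ≤ 1100 → ∀ q : ℕ, q.Prime → q < P0 → q ∈ PL := fun P0 h0 q hq h1 =>
    PL_mem q hq (lt_of_lt_of_le h1 h0)
  have e1 : (2 : ℕ) ^ 12 ≤ N := by
    have : (2 : ℕ) ^ 12 = 4096 := by norm_num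
    omega
  rcases lt_or_ge N (2 ^ 17) with a1 | a1
  · exact low_core h hN h8 (hP _ (by norm_num)) c12 e1 a1
  rcases lt_or_ge N (2 ^ 22) with a2 | a2
  · exact low_core h hN h8 (hP _ (by norm_num)) c17 a1 a2
  rcases lt_or_ge N (2 ^ 26) with a3 | a3
  · exact low_core h hN h8 (hP _ (by norm_num)) c22 a2 a3
  rcases lt_or_ge N (2 ^ 30) with a4 | a4
  · exact low_core h hN h8 (hP _ (by norm_num)) c26 a3 a4
  rcases lt_or_ge N (2 ^ 33) with a5 | a5
  · exact low_core h hN h8 (hP _ (by norm_num)) c30 a4 a5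
  rcases lt_or_ge N (2 ^ 37) with a6 | a6
  · exact low_core h hN h8 (hP _ (by norm_num)) c33 a5 a6
  rcases lt_or_ge N (2 ^ 38) with a7 | a7
  · exact low_core h hN h8 (hP _ (by norm_num)) c37 a6 a7
  rcases lt_or_ge N (2 ^ 39) with a8 | a8
  · exact low_core h hN h8 (hP _ (by norm_num)) c38 a7 a8
  rcases lt_or_ge N (2 ^ 40) with a9 | a9
  · exact low_core h hN h8 (hP _ (by norm_num)) c39 a8 a9
  rcases lt_or_ge N (2 ^ 42) with a10 | a10
  · exact low_core h hN h8 (hP _ (by norm_num)) c40 a9 a10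
  rcases lt_or_ge N (2 ^ 44) with a11 | a11
  · exact low_core h hN h8 (hP _ (by norm_num)) c42 a10 a11
  rcases lt_or_ge N (2 ^ 46) with a12 | a12
  · exact low_core h hN h8 (hP _ (by norm_num)) c44 a11 a12
  rcases lt_or_ge N (2 ^ 48) with a13 | a13
  · exact low_core h hN h8 (hP _ (by norm_num)) c46 a12 a13
  rcases lt_or_ge N (2 ^ 51) with a14 | a14
  · exact low_core h hN h8 (hP _ (by norm_num)) c48 a13 a14
  rcases lt_or_ge N (2 ^ 55) with a15 | a15
  · exact low_core h hN h8 (hP _ (by norm_num)) c51 a14 a15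
  rcases lt_or_ge N (2 ^ 61) with a16 | a16
  · exact low_core h hN h8 (hP _ (by norm_num)) c55 a15 a16
  rcases lt_or_ge N (2 ^ 69) with a17 | a17
  · exact low_core h hN h8 (hP _ (by norm_num)) c61 a16 a17
  rcases lt_or_ge N (2 ^ 80) with a18 | a18
  · exact low_core h hN h8 (hP _ (by norm_num)) c69 a17 a18
  rcases lt_or_ge N (2 ^ 99) with a19 | a19
  · exact low_core h hN h8 (hP _ (by norm_num)) c80 a18 a19
  rcases lt_or_ge N (2 ^ 134) with a20 | a20
  · exact low_core h hN h8 (hP _ (by norm_num)) c99 a19 a20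
  rcases lt_or_ge N (2 ^ 199) with a21 | a21
  · exact low_core h hN h8 (hP _ (by norm_num)) c134 a20 a21
  rcases lt_or_ge N (2 ^ 299) with a22 | a22
  · exact low_core h hN h8 (hP _ (by norm_num)) c199 a21 a22
  rcases lt_or_ge N (2 ^ 449) with a23 | a23
  · exact low_core h hN h8 (hP _ (by norm_num)) c299 a22 a23
  rcases lt_or_ge N (2 ^ 674) with a24 | a24
  · exact low_core h hN h8 (hP _ (by norm_num)) c449 a23 a24
  rcases lt_or_ge N (2 ^ 1012) with a25 | a25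
  · exact low_core h hN h8 (hP _ (by norm_num)) c674 a24 a25
  rcases lt_or_ge N (2 ^ 1519) with a26 | a26
  · exact low_core h hN h8 (hP _ (by norm_num)) c1012 a25 a26
  rcases lt_or_ge N (2 ^ 2279) with a27 | a27
  · exact low_core h hN h8 (hP _ (by norm_num)) c1519 a26 a27
  rcases lt_or_ge N (2 ^ 3419) with a28 | a28
  · exact low_core h hN h8 (hP _ (by norm_num)) c2279 a27 a28
  · exact low_core h hN h8 (hP _ (by norm_num)) c3419 a28 hN2

end Pool.Agent.Helper14.IR
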