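import Pool.Agent.Helper14.IR.Num4s

/-!
Block IR-N4C: the range `N ≥ 2^5129`: conclusion.

Paper proof. Let `L = log (2.005 N)`; `L ≥ 5129 log 2 + log 2.005 ≥ 3555` (`Real.log_two_gt_d9`).
By `high_f` and `master` (`E p = exp (4 f p)`) `4862000 N^3 ≤ (∏ E p)^2 = exp (8 ∑ f p)`, and `high_sum`: `15.39 + 3 log N ≤ 8 * 0.35 L = 2.8 L`; but `log N = L - log 2.005 ≥ L - 0.7`: contradiction.
-/

open Finset

namespace Pool.Agent.Helper14.IR

variable {N r b : ℕ} {lam : ℝ} {v : ℕ → ℕ}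

theorem num_high (h : Num N r b lam v) (hN : 2 ^ 5129 ≤ N) (h8 : 8 * r ≤ N) : False := by
  have hN1 : 4096 ≤ N := by
    have h1 : (2 : ℕ) ^ 12 ≤ 2 ^ 5129 := Nat.pow_le_pow_right (by norm_num) (by norm_num)
    have h2 : (4096 : ℕ) = 2 ^ 12 := by norm_num
    rw [h2]
    exact h1.trans hN
  have hN0 : (0 : ℝ) < N := by
    have : 0 < N := by omega
    exact_mod_cast this
  have hlog : 3555 ≤ Real.log N := by
    have h1 : ((2 : ℝ)) ^ 5129 ≤ N := by exact_mod_cast hN
    have h2 : Real.log ((2 : ℝ) ^ 5129) ≤ Real.log N := Real.log_le_log (by positivity) h1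
    rw [Real.log_pow] at h2
    have h3 := Real.log_two_gt_d9
    have h4 : (3555 : ℝ) ≤ ((5129 : ℕ) : ℝ) * Real.log 2 := by
      push_cast
      linarith
    exact h4.trans h2
  obtain ⟨L, hL⟩ : ∃ L : ℝ, L = Real.log (2.005 * N) := ⟨_, rfl⟩
  have hL1 : L = Real.log 2.005 + Real.log N := by
    rw [hL, Real.log_mul (by norm_num) hN0.ne']
  have hc0 : 0 ≤ Real.log (2.005 : ℝ) := Real.log_nonneg (by norm_num)
  have hc1 : Real.log (2.005 : ℝ) ≤ 1.005 := by
    have := Real.log_le_sub_one_of_pos (show (0 : ℝ) < 2.005 by norm_num)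
    linarith
  have hL0 : 3555 ≤ L := by linarith
  have h1 := h.master hN1 h8 (fun p => Real.exp (4 * ff L p)) fun p hp => high_f h hN1 hL hL0 hp
  rw [← Real.exp_sum, ← Real.exp_nat_mul, ← Finset.mul_sum] at h1
  have h2 := high_sum hL0 (N * (N - 1)).primeFactors fun p hp => Nat.prime_of_mem_primeFactors hp
  have h3 : (N : ℝ) ^ 3 ≤ 4862000 * (N : ℝ) ^ 3 := by
    have : 0 < (N : ℝ) ^ 3 := by positivity
    linarith
  have h4 := Real.log_le_log (by positivity) (h3.trans h1)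
  rw [Real.log_pow, Real.log_exp] at h4
  push_cast at h4
  linarith

end Pool.Agent.Helper14.IR
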