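import Pool.Agent.Helper14.IR.Det
import Pool.Agent.Helper14.IR.En
import Pool.Agent.Helper14.IR.LocG3

/-!
Block IR-V1: bound for the exponent of `p` in the resultant by counting.

Paper proof. Let `r = deg G`, `s = 1 + C p * t` as in `local_main`. For `k < r` let `e_k = #{h ∈ [1, a-1] : k < m p^(a-h) - 1}` (`card` of a `Finset.filter`). The numbers `m p^(a-h)` decrease in `h`, so this set is `{1, .., e_k}`.
If `e_k = a - 1` put `v_k = C (p^(a-1)) * X^k`; if `e_k < a - 1` let `h = e_k + 1`, `n = m p^(a-h)`, so `n - 1 ≤ k`, `n ≥ 1`, and `v_k = X^(k - (n-1)) * (C (p^(h-1)) * geom n)`. In both cases `natDegree (v_k) ≤ k`,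
`coeff k = p^(e_k)` (`geom n` is monic of degree `n - 1`), and `s * v_k ∈ span {G, H}`. By `det_div` `rs G H ∣ (∏_{k<r} p^(e_k)) * rs G s`, and `rs G s ≡ 1 mod p` (`rs_one_add`), so it is coprime to `p` and
`v_p (rs G H) ≤ ∑_{k<r} e_k = ∑_h #{k < r : k < m p^(a-h) - 1} = ∑_h min r (m p^(a-h) - 1)` (`padicValNat` of a divisor of a nonzero number, `rs_ne_zero`; `Finset.sum_comm`).
(A choice of `v_k` that avoids the initial segment argument: for every `k` let `h` be the least element of `[1, a-1]` with `m p^(a-h) - 1 ≤ k` if there is one; then `h - 1 = e_k`.)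
-/

open Polynomial Finset

namespace Pool.Agent.Helper14.IR

private theorem geom_coeff1 {n : ℕ} (hn : 1 ≤ n) : (geom n).coeff (n - 1) = 1 := by
  unfold geom
  rw [finsetSum_coeff, Finset.sum_eq_single (n - 1)]
  · simp
  · intro i _ hi
    rw [coeff_X_pow, if_neg (fun h => hi h.symm)]
  · intro h
    exact absurd (mem_range.2 (by omega)) h

private theorem geom_deg1 (n : ℕ) : (geom n).natDegree ≤ n - 1 := by
  unfold geom
  refine natDegree_sum_le_of_forall_le _ _ fun i hi => ?_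
  rw [natDegree_X_pow]
  have := mem_range.1 hi
  omega

private theorem exists_v1 {p a m : ℕ} (hp : p.Prime) (hm : 1 ≤ m) {I : Ideal ℤ[X]} {s : ℤ[X]}
    (h0 : s * C ((p : ℤ) ^ (a - 1)) ∈ I)
    (h1 : ∀ h, 1 ≤ h → h + 1 ≤ a → s * (C ((p : ℤ) ^ (h - 1)) * geom (m * p ^ (a - h))) ∈ I)
    (k : ℕ) : ∃ v : ℤ[X], v.natDegree ≤ k ∧
      v.coeff k = (p : ℤ) ^ ((Icc 1 (a - 1)).filter fun h => k < m * p ^ (a - h) - 1).card ∧
      s * v ∈ I := by
  classical
  set B := (Icc 1 (a - 1)).filter fun h => m * p ^ (a - h) - 1 ≤ k with hB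
  by_cases hBe : B.Nonempty
  · set h := B.min' hBe with hh
    have hhB : h ∈ B := B.min'_mem hBe
    have hh1 : 1 ≤ h ∧ h ≤ a - 1 := mem_Icc.1 (mem_filter.1 hhB).1
    have hh2 : m * p ^ (a - h) - 1 ≤ k := (mem_filter.1 hhB).2
    have hE : ((Icc 1 (a - 1)).filter fun h => k < m * p ^ (a - h) - 1) = Icc 1 (h - 1) := by
      ext j
      rw [mem_filter, mem_Icc, mem_Icc]
      constructor
      · rintro ⟨⟨h3, h4⟩, h5⟩
        refine ⟨h3, ?_⟩
        by_contra h6
        have h7 : m * p ^ (a - j) ≤ m * p ^ (a - h) :=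
          Nat.mul_le_mul_left _ (Nat.pow_le_pow_right hp.pos (by omega))
        omega
      · rintro ⟨h3, h4⟩
        refine ⟨⟨h3, by omega⟩, ?_⟩
        by_contra h5
        have h6 : j ∈ B := mem_filter.2 ⟨mem_Icc.2 ⟨h3, by omega⟩, by omega⟩
        have h7 := B.min'_le j h6
        rw [← hh] at h7
        omega
    have hn : 1 ≤ m * p ^ (a - h) := Nat.mul_pos hm (pow_pos hp.pos _)
    set n := m * p ^ (a - h) with hn'
    refine ⟨X ^ (k - (n - 1)) * (C ((p : ℤ) ^ (h - 1)) * geom n), ?_, ?_, ?_⟩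
    · refine natDegree_mul_le.trans ?_
      rw [natDegree_X_pow]
      have h3 : (C ((p : ℤ) ^ (h - 1)) * geom n).natDegree ≤ n - 1 :=
        (natDegree_C_mul_le _ _).trans (geom_deg1 n)
      omega
    · rw [hE, Nat.card_Icc, coeff_X_pow_mul', if_pos (Nat.sub_le _ _),
        show k - (k - (n - 1)) = n - 1 by omega, coeff_C_mul, geom_coeff1 hn, mul_one,
        show h - 1 + 1 - 1 = h - 1 by omega]
    · have h3 := I.mul_mem_left (X ^ (k - (n - 1))) (h1 h hh1.1 (by omega))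
      have h4 : s * (X ^ (k - (n - 1)) * (C ((p : ℤ) ^ (h - 1)) * geom n)) =
          X ^ (k - (n - 1)) * (s * (C ((p : ℤ) ^ (h - 1)) * geom n)) := by ring
      rw [h4]
      exact h3
  · have hE : ((Icc 1 (a - 1)).filter fun h => k < m * p ^ (a - h) - 1) = Icc 1 (a - 1) := by
      rw [filter_eq_self]
      intro j hj
      by_contra h5
      exact hBe ⟨j, mem_filter.2 ⟨hj, by omega⟩⟩
    refine ⟨C ((p : ℤ) ^ (a - 1)) * X ^ k, natDegree_C_mul_X_pow_le _ _, ?_, ?_⟩
    · rw [hE, Nat.card_Icc, coeff_C_mul, coeff_X_pow_self, mul_one,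
        show a - 1 + 1 - 1 = a - 1 by omega]
    · have h4 : s * (C ((p : ℤ) ^ (a - 1)) * X ^ k) = X ^ k * (s * C ((p : ℤ) ^ (a - 1))) := by ring
      rw [h4]
      exact I.mul_mem_left _ h0

private theorem sum_min1 (r a : ℕ) (f : ℕ → ℕ) :
    ∑ k ∈ range r, ((Icc 1 (a - 1)).filter fun h => k < f h).card =
      ∑ h ∈ Icc 1 (a - 1), min r (f h) := by
  simp only [card_filter]
  rw [Finset.sum_comm]
  refine Finset.sum_congr rfl fun h _ => ?_
  rw [← card_filter]
  have h1 : (range r).filter (fun k => k < f h) = range (min r (f h)) := by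
    ext k
    simp
  rw [h1, card_range]

theorem v_count {N p T a m : ℕ} {G H : ℤ[X]} (hf : Fac N G H) (hp : p.Prime)
    (hT : T = N ∨ T = N - 1) (hTa : T = p ^ a * m) (hm : ¬ p ∣ m) (ha : 1 ≤ a) :
    padicValNat p (rs G H).natAbs ≤ ∑ h ∈ Icc 1 (a - 1), min G.natDegree (m * p ^ (a - h) - 1) := by
  have hm1 : 1 ≤ m := by
    rcases Nat.eq_zero_or_pos m with h | h
    · exact absurd (h ▸ dvd_zero p) hm
    · exact h
  obtain ⟨s, t, hs, h0, h1⟩ := local_main hf hp hT hTa hm ha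
  choose v hv1 hv2 hv3 using exists_v1 hp hm1 h0 h1
  set e : ℕ → ℕ := fun k => ((Icc 1 (a - 1)).filter fun h => k < m * p ^ (a - h) - 1).card with he
  have hdvd := det_div hf s v (fun k => (p : ℤ) ^ e k) (fun k _ => ⟨hv1 k, hv2 k⟩) fun k _ => hv3 k
  obtain ⟨c, hc⟩ := rs_one_add hf.mG p t
  rw [Finset.prod_pow_eq_pow_sum, hs, hc] at hdvd
  have h2 : (rs G H).natAbs ∣ p ^ (∑ k ∈ range G.natDegree, e k) * (1 + (p : ℤ) * c).natAbs := by
    have h3 := Int.natAbs_dvd_natAbs.2 hdvd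
    rwa [Int.natAbs_mul, Int.natAbs_pow, Int.natAbs_natCast] at h3
  have h3 : Nat.Coprime (p ^ padicValNat p (rs G H).natAbs) (1 + (p : ℤ) * c).natAbs := by
    refine Nat.Coprime.pow_left _ ((Nat.Prime.coprime_iff_not_dvd hp).2 fun h4 => ?_)
    have h5 : (p : ℤ) ∣ 1 + (p : ℤ) * c := Int.natCast_dvd.2 h4
    have h6 : (p : ℤ) ∣ 1 := (Int.dvd_add_left (dvd_mul_right _ _)).1 h5
    have h7 : p ∣ 1 := by exact_mod_cast h6
    exact hp.one_lt.ne' (Nat.dvd_one.1 h7)
  have h4 : p ^ padicValNat p (rs G H).natAbs ∣ p ^ (∑ k ∈ range G.natDegree, e k) :=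
    h3.dvd_of_dvd_mul_right (pow_padicValNat_dvd.trans h2)
  have h5 := (Nat.pow_dvd_pow_iff_le_right hp.one_lt).1 h4
  rw [← sum_min1 G.natDegree a fun h => m * p ^ (a - h) - 1]
  exact h5

end Pool.Agent.Helper14.IR
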