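import Pool.Agent.Helper14.IR.En
import Pool.Agent.Helper14.IR.LocG3

/-!
Block IR-V2: bound for the exponent of `p` in the resultant by one element.

Paper proof. Let `n = m p^(a-h)` (`n ≥ 1`), `r = deg G`. By `local_main` `s * (C (p^(h-1)) * geom n) = A G + B H`, `s = 1 + C p * t`. Apply `rs G` (`rs_mul`, `rs_C`, `rs_congr`; the enumeration from `exists_enum`):
`rs G s * (p^(h-1))^r * rs G (geom n) = rs G B * rs G H`. As `rs G s ≡ 1 mod p` (`rs_one_add`) is coprime to `p`, `p^v ∣ (p^(h-1))^r * rs G (geom n)`, `v = v_p(rs G H)` (`pow_padicValNat_dvd`, `Int.natAbs`).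
By `rs_prod` `|rs G (geom n)| = ∏ |geom n (β_i)|`, and `(β_i - 1) geom n (β_i) = β_i^n - 1` (`geom_mul`), `|β_i| > 1` (`root_gt`), so `rs G (geom n) ≠ 0`, `∏ |β_i - 1| = |G(1)| ≥ 1` (a nonzero integer), so
`|rs G (geom n)| ≤ ∏ |β_i^n - 1| ≤ (1 + lam^n)^r` (`|β_i| ≤ lam` from `root_le`). A divisor of a nonzero integer is at most its absolute value: `p^v ≤ (p^(h-1))^r (1 + lam^n)^r`.
-/

open Polynomial Finset

namespace Pool.Agent.Helper14.IR

/-- the value of the geometric sum at a root is not zero -/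
private theorem geom_aeval46 (n : ℕ) (z : ℂ) : (z - 1) * aeval z (geom n) = z ^ n - 1 := by
  have h := congrArg (aeval z) (geom_mul n)
  simpa using h

private theorem root_lam46 {N : ℕ} (hN : 4 ≤ N) {β : ℂ} (h : aeval β (SS N) = 0) {lam : ℝ} (hl1 : 1 ≤ lam)
    (hl : lam ^ (N - 1) = 2 * N - 1) : ‖β‖ ≤ lam := by
  have h1 := root_le hN h
  rw [← hl] at h1
  exact (pow_le_pow_iff_left₀ (norm_nonneg _) (by linarith) (by omega)).1 h1

private theorem res_le46 {N n : ℕ} {G H : ℤ[X]} (hf : Fac N G H) (hn : 1 ≤ n) {lam : ℝ} (hl1 : 1 ≤ lam)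
    (hl : lam ^ (N - 1) = 2 * N - 1) :
    rs G (geom n) ≠ 0 ∧ |((rs G (geom n) : ℤ) : ℝ)| ≤ (1 + lam ^ n) ^ G.natDegree := by
  obtain ⟨β, hβ⟩ := exists_enum hf
  have hgt : ∀ i, 1 < ‖β i‖ := fun i => root_gt hf.hN (hβ.root i)
  have hle : ∀ i, ‖β i‖ ≤ lam := fun i => root_lam46 hf.hN (hβ.root i) hl1 hl
  have hR := rs_prod hf.mG hβ (geom n)
  have hG1 : ((G.eval 1 : ℤ) : ℂ) = ∏ i, (1 - β i) := by
    have e1 : (G.map (Int.castRingHom ℂ)).eval 1 = ((G.eval 1 : ℤ) : ℂ) := by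
      simp
    rw [← e1, hβ.eq, Polynomial.eval_prod]
    refine Finset.prod_congr rfl fun i _ => ?_
    simp
  have hne1 : ∀ i, β i - 1 ≠ 0 := fun i h => by
    have := hgt i
    rw [sub_eq_zero.1 h, norm_one] at this
    exact lt_irrefl _ this
  have hpow : ∀ i, β i ^ n - 1 ≠ 0 := fun i h => by
    have h1 : ‖β i‖ ^ n = 1 := by rw [← norm_pow, sub_eq_zero.1 h, norm_one]
    have h2 : 1 < ‖β i‖ ^ n := one_lt_pow₀ (hgt i) (by omega)
    linarith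
  have hgne : ∀ i, aeval (β i) (geom n) ≠ 0 := fun i h => by
    apply hpow i
    rw [← geom_aeval46, h, mul_zero]
  have hR0 : rs G (geom n) ≠ 0 := by
    intro h
    rw [h, Int.cast_zero] at hR
    exact (Finset.prod_ne_zero_iff.2 fun i _ => hgne i) hR.symm
  have hG0 : G.eval 1 ≠ 0 := by
    intro h
    rw [h, Int.cast_zero] at hG1
    refine (Finset.prod_ne_zero_iff.2 fun i _ => ?_) hG1.symm
    intro h2
    exact hne1 i (by linear_combination -h2)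
  refine ⟨hR0, ?_⟩
  have key : ‖((rs G (geom n) : ℤ) : ℂ)‖ * ‖((G.eval 1 : ℤ) : ℂ)‖ ≤ (1 + lam ^ n) ^ G.natDegree := by
    rw [hR, hG1, norm_prod, norm_prod, ← Finset.prod_mul_distrib]
    have hc : (1 + lam ^ n) ^ G.natDegree = ∏ _i : Fin G.natDegree, (1 + lam ^ n) := by
      rw [Finset.prod_const, Finset.card_univ, Fintype.card_fin]
    rw [hc]
    refine Finset.prod_le_prod (fun i _ => by positivity) fun i _ => ?_
    rw [← norm_mul]
    have e : aeval (β i) (geom n) * (1 - β i) = 1 - β i ^ n := by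
      linear_combination -geom_aeval46 n (β i)
    rw [e]
    calc ‖1 - β i ^ n‖ ≤ ‖(1 : ℂ)‖ + ‖β i ^ n‖ := norm_sub_le _ _
      _ ≤ 1 + lam ^ n := by
        rw [norm_one, norm_pow]
        have := pow_le_pow_left₀ (norm_nonneg (β i)) (hle i) n
        linarith
  have hG1' : (1 : ℝ) ≤ ‖((G.eval 1 : ℤ) : ℂ)‖ := by
    rw [Complex.norm_intCast]
    have : (1 : ℤ) ≤ |G.eval 1| := Int.one_le_abs hG0
    exact_mod_cast this
  calc |((rs G (geom n) : ℤ) : ℝ)| = ‖((rs G (geom n) : ℤ) : ℂ)‖ := (Complex.norm_intCast _).symm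
    _ ≤ ‖((rs G (geom n) : ℤ) : ℂ)‖ * ‖((G.eval 1 : ℤ) : ℂ)‖ := le_mul_of_one_le_right (norm_nonneg _) hG1'
    _ ≤ _ := key

theorem v_one {N p T a m : ℕ} {G H : ℤ[X]} (hf : Fac N G H) (hp : p.Prime)
    (hT : T = N ∨ T = N - 1) (hTa : T = p ^ a * m) (hm : ¬ p ∣ m) {h : ℕ} (h1 : 1 ≤ h) (h2 : h + 1 ≤ a)
    {lam : ℝ} (hl1 : 1 ≤ lam) (hl : lam ^ (N - 1) = 2 * N - 1) :
    (p : ℝ) ^ padicValNat p (rs G H).natAbs ≤ ((p : ℝ) ^ (h - 1) * (1 + lam ^ (m * p ^ (a - h)))) ^ G.natDegree := by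
  obtain ⟨β, hβ⟩ := exists_enum hf
  obtain ⟨s, t, hs, -, hmem⟩ := local_main hf hp hT hTa hm (by omega : 1 ≤ a)
  obtain ⟨A, B, hAB⟩ := Ideal.mem_span_pair.1 (hmem h h1 h2)
  set n := m * p ^ (a - h) with hn
  have hm0 : m ≠ 0 := by
    rintro rfl
    exact hm (dvd_zero p)
  have hn1 : 1 ≤ n := Nat.one_le_iff_ne_zero.2 (mul_ne_zero hm0 (pow_ne_zero _ hp.ne_zero))
  obtain ⟨hR0, hRle⟩ := res_le46 hf hn1 hl1 hl
  have hG := hf.mG
  have e1 : rs G s * (((p : ℤ) ^ (h - 1)) ^ G.natDegree * rs G (geom n)) = rs G B * rs G H := by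
    rw [← rs_C hG hβ, ← rs_mul hG hβ, ← rs_mul hG hβ, ← rs_mul hG hβ, ← rs_congr hG hβ (B * H) A, ← hAB]
    congr 1
    ring
  obtain ⟨k, hk⟩ := rs_one_add hG p t
  rw [← hs] at hk
  set v := padicValNat p (rs G H).natAbs with hv
  have hdvd : ((p : ℤ) ^ v) ∣ rs G H := by
    have h3 : p ^ v ∣ (rs G H).natAbs := pow_padicValNat_dvd
    have h4 : ((p ^ v : ℕ) : ℤ) ∣ rs G H := Int.natCast_dvd.2 h3
    exact_mod_cast h4
  have hcop : IsCoprime ((p : ℤ) ^ v) (rs G s) := by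
    refine IsCoprime.pow_left ⟨-k, 1, ?_⟩
    rw [hk]
    ring
  have hdvd2 : ((p : ℤ) ^ v) ∣ ((p : ℤ) ^ (h - 1)) ^ G.natDegree * rs G (geom n) := by
    refine hcop.dvd_of_dvd_mul_left ?_
    rw [e1]
    exact Dvd.dvd.mul_left hdvd _
  have hne : ((p : ℤ) ^ (h - 1)) ^ G.natDegree * rs G (geom n) ≠ 0 :=
    mul_ne_zero (pow_ne_zero _ (pow_ne_zero _ (by exact_mod_cast hp.ne_zero))) hR0
  have hle : (p : ℤ) ^ v ≤ |((p : ℤ) ^ (h - 1)) ^ G.natDegree * rs G (geom n)| :=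
    Int.le_of_dvd (abs_pos.2 hne) ((dvd_abs _ _).2 hdvd2)
  have hle' : (p : ℝ) ^ v ≤ |((p : ℝ) ^ (h - 1)) ^ G.natDegree * ((rs G (geom n) : ℤ) : ℝ)| := by
    exact_mod_cast hle
  rw [abs_mul, abs_of_nonneg (by positivity : (0 : ℝ) ≤ ((p : ℝ) ^ (h - 1)) ^ G.natDegree)] at hle'
  rw [mul_pow]
  exact hle'.trans (mul_le_mul_of_nonneg_left hRle (by positivity))

end Pool.Agent.Helper14.IR
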