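import Pool.Agent.Helper14.IR.Const
import Pool.Agent.Helper14.IR.ValC
import Pool.Agent.Helper14.IR.ValO

/-!
Block IR-V3: a factorization gives the numerical data `Num`.

Paper proof. `lam = (2N-1)^(1/(N-1))` (`Real.rpow`), `lam ≥ 1`. `b = |G(0)|`, `c = |H(0)|`, `b c = N - 1` (`const_mul`), so `(N-1)/b = c`; `b, c ≥ 2` (`const_ge` for `hf` and `hf.symm`), coprime (`const_cop`), `b ≤ lam^r` (`const_le`).
`rN`: `deg G + deg H = N - 2` (`SS_natDegree`, `Monic.natDegree_mul`). `vC` is `v_count`, `v1` is `v_one`. `en`: `energy_le` and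
`|rs G H| = ∏_{p ∈ primeFactors (N (N-1))} p^(v_p)`: `rs G H ≠ 0`, `rs G H ∣ (N(N-1))^r` (`rs_dvd`), so its prime factors are among those of `N (N-1)`
(`Nat.factorization_prod_pow_eq_self`, `Nat.primeFactors_mono`, `Nat.primeFactors_pow`, `Finset.prod_subset`; `Nat.factorization` at a prime is `padicValNat`).
-/

open Polynomial Finset

namespace Pool.Agent.Helper14.IR

private theorem abs_prod52 {R N r : ℕ} (h0 : R ≠ 0) (hr : r ≠ 0) (hN : N ≠ 0) (hd : R ∣ N ^ r) :
    (R : ℝ) = ∏ p ∈ N.primeFactors, (p : ℝ) ^ padicValNat p R := by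
  have hsub : R.primeFactors ⊆ N.primeFactors := by
    refine (Nat.primeFactors_mono hd (pow_ne_zero _ hN)).trans ?_
    rw [Nat.primeFactors_pow _ hr]
  have h3 : R = ∏ p ∈ N.primeFactors, p ^ padicValNat p R := by
    conv_lhs => rw [← Nat.prod_factorization_pow_eq_self h0]
    rw [Finsupp.prod, Nat.support_factorization]
    rw [Finset.prod_congr rfl (fun p hp => by
      rw [Nat.factorization_def _ (Nat.prime_of_mem_primeFactors hp)])]
    refine Finset.prod_subset hsub fun p hp hp' => ?_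
    have hpp := Nat.prime_of_mem_primeFactors hp
    have h4 : ¬ p ∣ R := fun h => hp' (Nat.mem_primeFactors.2 ⟨hpp, h, h0⟩)
    rw [padicValNat.eq_zero_of_not_dvd h4, pow_zero]
  calc (R : ℝ) = ((∏ p ∈ N.primeFactors, p ^ padicValNat p R : ℕ) : ℝ) := by rw [← h3]
    _ = _ := by push_cast; rfl

theorem num_of_fac {N : ℕ} {G H : ℤ[X]} (hf : Fac N G H) (hle : G.natDegree ≤ H.natDegree) :
    ∃ lam : ℝ, Num N G.natDegree (G.eval 0).natAbs lam (fun p => padicValNat p (rs G H).natAbs) := by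
  have hN := hf.hN
  have hNr : (4 : ℝ) ≤ N := by exact_mod_cast hN
  have hm0 : N - 1 ≠ 0 := by omega
  obtain ⟨lam, hlam⟩ : ∃ lam : ℝ, lam = (2 * (N : ℝ) - 1) ^ (((N - 1 : ℕ) : ℝ)⁻¹) := ⟨_, rfl⟩
  have hl1 : 1 ≤ lam := by
    rw [hlam]
    exact Real.one_le_rpow (by linarith) (by positivity)
  have hl : lam ^ (N - 1) = 2 * N - 1 := by
    rw [hlam]
    exact Real.rpow_inv_natCast_pow (by linarith) hm0
  have hbc := const_mul hf
  have hb2 := const_ge hf
  have hc2 := const_ge hf.symm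
  have hdeg : G.natDegree + H.natDegree = N - 2 := by
    rw [← hf.mG.natDegree_mul hf.mH, hf.mul, SS_natDegree (by omega)]
  have hc : (N - 1) / (G.eval 0).natAbs = (H.eval 0).natAbs := by
    rw [← hbc, Nat.mul_div_cancel_left _ (by omega)]
  refine ⟨lam, ?_⟩
  refine { hN := hN, r1 := hf.dG, rN := by omega, lam1 := hl1, lamN := hl, b2 := hb2, bM := ⟨_, hbc.symm⟩,
           c2 := by rw [hc]; exact hc2, cop := by rw [hc]; exact const_cop hf, bl := const_le hf hl1 hl,
           vC := ?_, v1 := ?_, en := ?_ }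
  · intro p T a m hp hT hTa hm ha
    exact v_count hf hp hT hTa hm ha
  · intro p T a m h hp hT hTa hm h1 h2
    exact v_one hf hp hT hTa hm h1 h2 hl1 hl
  · have h1 := energy_le hf hl1 hl
    have hd : (rs G H).natAbs ∣ (N * (N - 1)) ^ G.natDegree := by
      have h3 := Int.natAbs_dvd_natAbs.2 (rs_dvd hf)
      have h4 : (((N : ℤ) * (N - 1)) ^ G.natDegree).natAbs = (N * (N - 1)) ^ G.natDegree := by
        rw [Int.natAbs_pow, Int.natAbs_mul, Int.natAbs_natCast]
        congr 2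
        omega
      rwa [h4] at h3
    have h2 : |((rs G H : ℤ) : ℝ)| = ∏ p ∈ (N * (N - 1)).primeFactors, (p : ℝ) ^ padicValNat p (rs G H).natAbs := by
      rw [← abs_prod52 (Int.natAbs_ne_zero.2 (rs_ne_zero hf)) (by have := hf.dG; omega)
        (Nat.mul_ne_zero (by omega) hm0) hd]
      exact (Nat.cast_natAbs (α := ℝ) (rs G H)).symm ▸ (by push_cast; rfl)
    have h3 : |((G.eval 0 : ℤ) : ℝ)| = (((G.eval 0).natAbs : ℕ) : ℝ) := by
      rw [Nat.cast_natAbs, Int.cast_abs]
    rw [h2, h3] at h1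
    exact h1

end Pool.Agent.Helper14.IR
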