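import Pool.Agent.Helper14.IR.Irr
import Pool.Agent.Helper14.IR.ValN
import Pool.Agent.Helper14.IR.Num1C
import Pool.Agent.Helper14.IR.Num2C
import Pool.Agent.Helper14.IR.Num3C
import Pool.Agent.Helper14.IR.Num4f

/-!
Project IR: assembly.
-/

open Polynomial Finset

namespace Pool.Agent.Helper14.IR

theorem num_false {N r b : ℕ} {lam : ℝ} {v : ℕ → ℕ} (h : Num N r b lam v) : False := by
  rcases lt_or_ge N 4096 with h1 | h1
  · exact num_small h h1
  · rcases le_total N (8 * r) with h2 | h2
    · exact num_mid h h1 h2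
    · rcases lt_or_ge N (2 ^ 5129) with h3 | h3
      · exact num_low h h1 h3 h2
      · exact num_high h h3 h2

theorem no_fac (N : ℕ) (G H : ℤ[X]) : ¬ Fac N G H := by
  intro hf
  rcases le_total G.natDegree H.natDegree with h | h
  · obtain ⟨lam, hn⟩ := num_of_fac hf h
    exact num_false hn
  · obtain ⟨lam, hn⟩ := num_of_fac hf.symm h
    exact num_false hn

theorem irreducible_all (n : ℕ) (hn : 1 ≤ n) :
    Irreducible (∑ k ∈ range (n + 1), C ((k : ℚ) + 1) * X ^ k : ℚ[X]) :=
  irr_of no_fac n hn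

end Pool.Agent.Helper14.IR
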