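import Pool.Agent.Helper14.IR.NumA

/-!
Project IR: the checks for `N < 4096`.

`exf k p n` is the exponent of `p` in `n` for `0 < n < 2^k` (`p ≥ 2`), `uf T p a r = ∑_{h=1}^{a-1} min r (T/p^h - 1)`; `PS` are the primes `< 64`.
-/

open Finset

namespace Pool.Agent.Helper14.IR

def PS : List ℕ := [2, 3, 5, 7, 11, 13, 17, 19, 23, 29, 31, 37, 41, 43, 47, 53, 59, 61]

def exf : ℕ → ℕ → ℕ → ℕ
  | 0, _, _ => 0
  | k + 1, p, n => if n % p = 0 then exf k p (n / p) + 1 else 0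

/-- `∑_{h=1}^{a-1} min r (T/p^h - 1)` -/
def uf (T p r : ℕ) : ℕ → ℕ
  | 0 => 0
  | a + 1 => if a = 0 then 0 else uf T p r a + min r (T / p ^ a - 1)

/-- Exact test: the strict reverse of `(*)`. -/
def ex1 (N r : ℕ) : Bool :=
  decide ((N * (N - 1)) ^ (N - 1) * r ^ (r * (N - 1)) * (2 * N - 1) ^ (r * r) *
    (PS.map fun p => p ^ ((N - 1) * (uf N p r (exf 12 p N) + uf (N - 1) p r (exf 12 p (N - 1))))).prod <
      (N * (N - 1)) ^ (r * (N - 1)) * 2 ^ (N - 1))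

def exAll (N : ℕ) : Bool :=
  (List.range ((N - 2) / 2 + 1)).all fun r => decide (r = 0) || decide ((2 * N - 1) ^ r < 2 ^ (N - 1)) || ex1 N r

/-- `⌈x / y⌉` -/
def cdv (x y : ℕ) : ℕ := (x + y - 1) / y

def tst (N r1 r2 : ℕ) : Bool :=
  decide ((2 * N - 1) ^ r2 * (N * (N - 1) / 2) ^ cdv (N - 1) r1 * r2 ^ (N - 1) *
    (PS.map fun p => p ^ (cdv ((N - 1) * uf N p r1 (exf 12 p N)) r1 +
      cdv ((N - 1) * uf (N - 1) p r1 (exf 12 p (N - 1))) r1)).prod < (N * (N - 1)) ^ (N - 1))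

def cells (N : ℕ) : ℕ → ℕ → ℕ → Bool
  | 0, _, _ => false
  | k + 1, r1, r2 => decide (r2 < r1) || tst N r1 r2 ||
      (cells N k r1 ((r1 + r2) / 2) && cells N k ((r1 + r2) / 2 + 1) r2)

/-- `sz` is a number with `2N - 1 < 2^sz`. -/
def chk1 (N sz : ℕ) : Bool :=
  decide (2 * N - 1 < 2 ^ sz) && decide (1 ≤ sz) && cells N 12 (cdv (N - 1) sz) ((N - 2) / 2)

end Pool.Agent.Helper14.IR
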