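import Pool.Agent.Helper14.IR.Num1

/-!
Project IR: `allc lo n` checks `chk1` for `lo ≤ N < lo + n`, `alle lo n` checks `exAll`.
-/

namespace Pool.Agent.Helper14.IR

def allc (lo n : ℕ) : Bool := (List.range' lo n).all fun N => chk1 N (Nat.log2 (2 * N - 1) + 1)

def alle (lo n : ℕ) : Bool := (List.range' lo n).all fun N => exAll N

theorem of_allc {lo n : ℕ} (h : allc lo n = true) {N : ℕ} (h1 : lo ≤ N) (h2 : N < lo + n) :
    chk1 N (Nat.log2 (2 * N - 1) + 1) = true := by
  unfold allc at h
  rw [List.all_eq_true] at h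
  exact h N (by rw [List.mem_range'_1]; exact ⟨h1, h2⟩)

theorem of_alle {lo n : ℕ} (h : alle lo n = true) {N : ℕ} (h1 : lo ≤ N) (h2 : N < lo + n) : exAll N = true := by
  unfold alle at h
  rw [List.all_eq_true] at h
  exact h N (by rw [List.mem_range'_1]; exact ⟨h1, h2⟩)

theorem e4 : alle 4 4 = true := by decide +kernel

theorem e10 : alle 10 54 = true := by decide +kernel

end Pool.Agent.Helper14.IR
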