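import Pool.Agent.Helper14.IR.Num1

/-!
Block IR-N1X: soundness of the exact check.

Paper proof. Let `M = N - 1`, `T ∈ {N, M}`, `p` a prime dividing `T`, `a` its exponent. If `p ≥ 64` then `p^2 > N`, so `a = 1` and `v p = 0` by `vC`. Otherwise `p ∈ PS` and `v p ≤ uf T p a r` (`vC`, `m p^(a-h) = T/p^h`), `a = exf 12 p T`
(`T < 2^12`), and if `p ∤ T`, `exf 12 p T = 0` and `uf T p 0 r = 0`. The field `en` with `b ≤ lam^r`, `lam^M = 2N-1`, raised to the power `M`:
`(*)  (N M)^(r M) * 2^M ≤ (N M)^M r^(r M) (2N-1)^(r r) ∏_p p^(M v_p)`, an inequality between natural numbers (cast), the product over the primes dividing `N M`.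
`ex_sound`: `∏_p p^(M v_p) ≤ ∏_{p ∈ PS} p^(M (uf N p .. r + uf M p .. r))`. Also `2 ≤ b ≤ lam^r` gives `2^M ≤ (2N-1)^r`, and `2 r ≤ N - 2`. So `ex1 N r` fails for `N ≠ 8, 9`: contradiction. `N = 8`: `b ∣ 7`, `2 ≤ b`, `2 ≤ 7/b`: impossible;
`N = 9`: `b ∣ 8`, `b ∈ {2, 4}` and `8/b ∈ {4, 2}` not coprime.
-/

open Finset

namespace Pool.Agent.Helper14.IR

variable {N r b : ℕ} {lam : ℝ} {v : ℕ → ℕ}

private theorem exf_eq36 {p m : ℕ} (hp : p.Prime) (hm : ¬ p ∣ m) :
    ∀ k a : ℕ, p ^ a * m < 2 ^ k → exf k p (p ^ a * m) = a := by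
  have hm0 : 0 < m := Nat.pos_of_ne_zero fun h0 => hm (h0 ▸ dvd_zero p)
  intro k
  induction k with
  | zero =>
    intro a h
    exfalso
    have h1 : 0 < p ^ a * m := Nat.mul_pos (pow_pos hp.pos _) hm0
    rw [pow_zero] at h
    omega
  | succ k ih =>
    intro a h
    cases a with
    | zero =>
      rw [pow_zero, one_mul]
      unfold exf
      rw [if_neg]
      intro h0
      exact hm (Nat.dvd_of_mod_eq_zero h0)
    | succ a =>
      unfold exf
      have h1 : p ^ (a + 1) * m = p * (p ^ a * m) := by ring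
      have h2 := hp.two_le
      rw [h1] at h
      have h3 : p ^ a * m < 2 ^ k := by
        by_contra hc
        push Not at hc
        have h4 : 2 * 2 ^ k ≤ p * (p ^ a * m) := Nat.mul_le_mul h2 hc
        rw [pow_succ] at h
        omega
      rw [h1, Nat.mul_mod_right, if_pos rfl, Nat.mul_div_cancel_left _ hp.pos, ih a h3]

private theorem uf_eq36 (T p r : ℕ) : ∀ a, uf T p r a = ∑ h ∈ Icc 1 (a - 1), min r (T / p ^ h - 1) := by
  intro a
  induction a with
  | zero => simp [uf]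
  | succ a ih =>
    unfold uf
    by_cases h : a = 0
    · subst h
      simp
    · rw [if_neg h, ih]
      obtain ⟨c, rfl⟩ := Nat.exists_eq_succ_of_ne_zero h
      simp only [Nat.succ_eq_add_one, Nat.add_sub_cancel]
      rw [Finset.sum_Icc_succ_top (by omega)]

private theorem ps_mem36 {p : ℕ} (hp : p < 64) (hpp : p.Prime) : p ∈ PS.toFinset := by
  rw [List.mem_toFinset]
  unfold PS
  interval_cases p <;> first
    | (simp; done)
    | (exfalso; revert hpp; norm_num)

private theorem vle36 (h : Num N r b lam v) (hN : N < 4096) {p : ℕ} (hp : p ∈ (N * (N - 1)).primeFactors) :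
    v p = 0 ∨ (p ∈ PS.toFinset ∧ v p ≤ uf N p r (exf 12 p N) + uf (N - 1) p r (exf 12 p (N - 1))) := by
  have hpp := Nat.prime_of_mem_primeFactors hp
  have hdvd := Nat.dvd_of_mem_primeFactors hp
  have h4 := h.hN
  have key : ∀ T, (T = N ∨ T = N - 1) → p ∣ T →
      v p = 0 ∨ (p ∈ PS.toFinset ∧ v p ≤ uf T p r (exf 12 p T)) := by
    intro T hT hpT
    have hT0 : T ≠ 0 := by
      rcases hT with h0 | h0 <;> omega
    have hT1 : T < 4096 := by
      rcases hT with h0 | h0 <;> omega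
    obtain ⟨a, m, hm, hTe⟩ := Nat.exists_eq_pow_mul_and_not_dvd hT0 p hpp.ne_one
    have ha : 1 ≤ a := by
      by_contra h0
      have h1 : a = 0 := by omega
      rw [h1, pow_zero, one_mul] at hTe
      exact hm (hTe ▸ hpT)
    have hv := h.vC p T a m hpp hT hTe hm ha
    by_cases h64 : 64 ≤ p
    · left
      have ha1 : a = 1 := by
        by_contra h1
        have h2 : 2 ≤ a := by omega
        have h3 : p ^ 2 ∣ T := by
          rw [hTe]
          exact Dvd.dvd.mul_right (pow_dvd_pow p h2) m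
        have h5 := Nat.le_of_dvd (Nat.pos_of_ne_zero hT0) h3
        nlinarith
      subst ha1
      simpa using hv
    · right
      refine ⟨ps_mem36 (by omega) hpp, ?_⟩
      have he : exf 12 p T = a := by
        have h1 : p ^ a * m < 2 ^ 12 := by
          rw [← hTe]
          norm_num
          exact hT1
        have h2 := exf_eq36 hpp hm 12 a h1
        rwa [← hTe] at h2
      rw [he, uf_eq36]
      refine hv.trans (le_of_eq (Finset.sum_congr rfl fun k hk => ?_))
      have hk' := Finset.mem_Icc.1 hk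
      have h5 : T / p ^ k = m * p ^ (a - k) := by
        have h6 : p ^ a * m = p ^ k * (m * p ^ (a - k)) := by
          have h7 : p ^ a = p ^ k * p ^ (a - k) := by
            rw [← pow_add]
            congr 1
            omega
          rw [h7]
          ring
        rw [hTe, h6, Nat.mul_div_cancel_left _ (pow_pos hpp.pos k)]
      rw [h5]
  rcases (Nat.Prime.dvd_mul hpp).1 hdvd with h1 | h1
  · rcases key N (Or.inl rfl) h1 with h2 | ⟨h2, h3⟩
    · exact Or.inl h2
    · exact Or.inr ⟨h2, h3.trans (Nat.le_add_right _ _)⟩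
  · rcases key (N - 1) (Or.inr rfl) h1 with h2 | ⟨h2, h3⟩
    · exact Or.inl h2
    · exact Or.inr ⟨h2, h3.trans (Nat.le_add_left _ _)⟩

private theorem prod36 (h : Num N r b lam v) (hN : N < 4096) :
    ∏ p ∈ (N * (N - 1)).primeFactors, p ^ ((N - 1) * v p) ≤
      (PS.map fun p => p ^ ((N - 1) * (uf N p r (exf 12 p N) + uf (N - 1) p r (exf 12 p (N - 1))))).prod := by
  classical
  have hnd : PS.Nodup := by
    unfold PS
    decide
  rw [← List.prod_toFinset _ hnd]
  set u : ℕ → ℕ := fun p => uf N p r (exf 12 p N) + uf (N - 1) p r (exf 12 p (N - 1)) with hu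
  have h1 : ∏ p ∈ (N * (N - 1)).primeFactors, p ^ ((N - 1) * v p) =
      ∏ p ∈ (N * (N - 1)).primeFactors.filter (fun p => v p ≠ 0), p ^ ((N - 1) * v p) := by
    symm
    refine Finset.prod_subset (Finset.filter_subset _ _) ?_
    intro p hp hp2
    have h2 : v p = 0 := by
      by_contra h3
      exact hp2 (Finset.mem_filter.2 ⟨hp, h3⟩)
    rw [h2]
    simp
  rw [h1]
  have h2 : ∏ p ∈ (N * (N - 1)).primeFactors.filter (fun p => v p ≠ 0), p ^ ((N - 1) * v p) ≤
      ∏ p ∈ (N * (N - 1)).primeFactors.filter (fun p => v p ≠ 0), p ^ ((N - 1) * u p) := by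
    refine Finset.prod_le_prod' ?_
    intro p hp
    rw [Finset.mem_filter] at hp
    rcases vle36 h hN hp.1 with h3 | ⟨_, h3⟩
    · exact absurd h3 hp.2
    · exact Nat.pow_le_pow_right (Nat.prime_of_mem_primeFactors hp.1).pos (Nat.mul_le_mul_left _ h3)
  refine h2.trans ?_
  refine Finset.prod_le_prod_of_subset_of_one_le' ?_ ?_
  · intro p hp
    rw [Finset.mem_filter] at hp
    rcases vle36 h hN hp.1 with h3 | ⟨h3, _⟩
    · exact absurd h3 hp.2
    · exact h3
  · intro p hp _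
    have h3 : 0 < p := by
      rw [List.mem_toFinset] at hp
      revert hp
      unfold PS
      intro hp
      simp only [List.mem_cons, List.not_mem_nil, or_false] at hp
      omega
    exact Nat.one_le_pow _ _ h3

private theorem star36 (h : Num N r b lam v) :
    (N * (N - 1)) ^ (r * (N - 1)) * 2 ^ (N - 1) ≤
      (N * (N - 1)) ^ (N - 1) * r ^ (r * (N - 1)) * (2 * N - 1) ^ (r * r) *
        ∏ p ∈ (N * (N - 1)).primeFactors, p ^ ((N - 1) * v p) := by
  have h4 := h.hN
  have hr1 := h.r1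
  have hlam0 : (0 : ℝ) ≤ lam := le_trans zero_le_one h.lam1
  have hc1 : ((N - 1 : ℕ) : ℝ) = (N : ℝ) - 1 := by
    rw [Nat.cast_sub (by omega)]
    simp
  have hc2 : ((2 * N - 1 : ℕ) : ℝ) = 2 * (N : ℝ) - 1 := by
    rw [Nat.cast_sub (by omega)]
    push_cast
    ring
  have hN4 : (4 : ℝ) ≤ N := by exact_mod_cast h4
  set A : ℝ := (N : ℝ) * (N - 1) with hA
  have hA0 : 0 ≤ A := mul_nonneg (by linarith) (by linarith)
  set P : ℝ := ∏ p ∈ (N * (N - 1)).primeFactors, (p : ℝ) ^ v p with hP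
  have hP0 : 0 ≤ P := Finset.prod_nonneg fun p _ => by positivity
  have hen : A ^ r ≤ (A / 2) * (r : ℝ) ^ r * lam ^ (r * r) * P := by
    refine h.en.trans ?_
    have e1 : lam ^ (r * r) = lam ^ r * lam ^ (r * (r - 1)) := by
      rw [← pow_add]
      congr 1
      obtain ⟨c, rfl⟩ : ∃ c, r = c + 1 := ⟨r - 1, by omega⟩
      simp only [Nat.add_sub_cancel]
      ring
    rw [e1]
    have e2 : (b : ℝ) * (N * (N - 1) / 2) * (r : ℝ) ^ r * lam ^ (r * (r - 1)) *
        ∏ p ∈ (N * (N - 1)).primeFactors, (p : ℝ) ^ v p =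
        b * ((A / 2) * (r : ℝ) ^ r * lam ^ (r * (r - 1)) * P) := by
      rw [hA, hP]
      ring
    have e3 : A / 2 * (r : ℝ) ^ r * (lam ^ r * lam ^ (r * (r - 1))) * P =
        lam ^ r * ((A / 2) * (r : ℝ) ^ r * lam ^ (r * (r - 1)) * P) := by ring
    rw [e2, e3]
    refine mul_le_mul_of_nonneg_right h.bl ?_
    positivity
  have hpow : (A ^ r) ^ (N - 1) ≤ ((A / 2) * (r : ℝ) ^ r * lam ^ (r * r) * P) ^ (N - 1) :=
    pow_le_pow_left₀ (pow_nonneg hA0 _) hen _
  have hreal : A ^ (r * (N - 1)) * 2 ^ (N - 1) ≤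
      A ^ (N - 1) * (r : ℝ) ^ (r * (N - 1)) * (2 * (N : ℝ) - 1) ^ (r * r) *
        ∏ p ∈ (N * (N - 1)).primeFactors, (p : ℝ) ^ ((N - 1) * v p) := by
    have e1 : ∏ p ∈ (N * (N - 1)).primeFactors, (p : ℝ) ^ ((N - 1) * v p) = P ^ (N - 1) := by
      rw [hP, ← Finset.prod_pow]
      refine Finset.prod_congr rfl fun p _ => ?_
      rw [← pow_mul, mul_comm]
    have e2 : (2 * (N : ℝ) - 1) ^ (r * r) = (lam ^ (r * r)) ^ (N - 1) := by
      rw [← h.lamN, ← pow_mul, ← pow_mul, mul_comm]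
    have e3 : A ^ (N - 1) = (A / 2) ^ (N - 1) * 2 ^ (N - 1) := by
      rw [← mul_pow]
      congr 1
      ring
    rw [e1, e2, e3, pow_mul, pow_mul]
    have e4 : (A / 2) ^ (N - 1) * 2 ^ (N - 1) * ((r : ℝ) ^ r) ^ (N - 1) * (lam ^ (r * r)) ^ (N - 1) * P ^ (N - 1) =
        ((A / 2) * (r : ℝ) ^ r * lam ^ (r * r) * P) ^ (N - 1) * 2 ^ (N - 1) := by
      rw [mul_pow, mul_pow, mul_pow]
      ring
    rw [e4]
    exact mul_le_mul_of_nonneg_right hpow (by positivity)
  have hcast : (((N * (N - 1)) ^ (r * (N - 1)) * 2 ^ (N - 1) : ℕ) : ℝ) ≤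
      (((N * (N - 1)) ^ (N - 1) * r ^ (r * (N - 1)) * (2 * N - 1) ^ (r * r) *
        ∏ p ∈ (N * (N - 1)).primeFactors, p ^ ((N - 1) * v p) : ℕ) : ℝ) := by
    rw [Nat.cast_mul, Nat.cast_mul, Nat.cast_mul, Nat.cast_mul, Nat.cast_prod]
    simp only [Nat.cast_pow, Nat.cast_mul, Nat.cast_ofNat]
    rw [hc1, hc2]
    exact hreal
  exact_mod_cast hcast

theorem ex_sound (h : Num N r b lam v) (hN : N < 4096) (h8 : N ≠ 8) (h9 : N ≠ 9) (hc : exAll N = true) : False := by
  have h4 := h.hN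
  have hr1 := h.r1
  have hrN := h.rN
  unfold exAll at hc
  rw [List.all_eq_true] at hc
  have h1 := hc r (List.mem_range.2 (by omega))
  simp only [Bool.or_eq_true, decide_eq_true_eq] at h1
  rcases h1 with (h1 | h1) | h1
  · omega
  · -- `2 ^ (N - 1) ≤ (2 N - 1) ^ r`
    have hlam0 : (0 : ℝ) ≤ lam := le_trans zero_le_one h.lam1
    have h2 : (2 : ℝ) ≤ lam ^ r := by
      refine le_trans ?_ h.bl
      exact_mod_cast h.b2
    have h3 : (2 : ℝ) ^ (N - 1) ≤ (lam ^ r) ^ (N - 1) := pow_le_pow_left₀ (by norm_num) h2 _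
    have h5 : (lam ^ r) ^ (N - 1) = (((2 * N - 1) ^ r : ℕ) : ℝ) := by
      rw [← pow_mul, mul_comm, pow_mul, h.lamN, Nat.cast_pow, Nat.cast_sub (by omega)]
      push_cast
      rfl
    rw [h5] at h3
    have h6 : 2 ^ (N - 1) ≤ (2 * N - 1) ^ r := by exact_mod_cast h3
    omega
  · unfold ex1 at h1
    rw [decide_eq_true_eq] at h1
    have h2 := star36 h
    have h3 := prod36 h hN
    have h5 := h2.trans (Nat.mul_le_mul_left _ h3)
    exact absurd h1 (not_lt.2 h5)

theorem n89 (h : Num N r b lam v) (hN : N = 8 ∨ N = 9) : False := by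
  have hb2 := h.b2
  have hc2 := h.c2
  have hbM := h.bM
  have hcop := h.cop
  rcases hN with hN | hN
  · subst hN
    have h1 : b ≤ 7 := Nat.le_of_dvd (by norm_num) hbM
    interval_cases b <;> revert hc2 hbM hcop <;> decide
  · subst hN
    have h1 : b ≤ 8 := Nat.le_of_dvd (by norm_num) hbM
    interval_cases b <;> revert hc2 hbM hcop <;> decide

end Pool.Agent.Helper14.IR
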