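import Pool.Agent.Helper14.IR.NumB

/-!
Block IR-N2A: the middle range `N ≤ 8 r` (`R = N / r ∈ [2, 8]`), one cell `R0 ≤ R ≤ R1`.

Paper proof. `cell`: take logarithms in `en107`. With `L = log N`, `L' = log (N-1) ≥ L - 0.00025`, `c_p = v p / r`, `log x_p = c_p log p`:
`L + L' ≤ log 1.07 + log r + r log lam + ∑_p c_p log p`. Here `log r = L - log R` (`R = N/r`), `r log lam = (1/R) log (lam^N) ≤ (log 2.005 + L)/R`, and by `v_le`, `he` and `R ≤ R1`: `c_p ≤ μ a_p + e_p`, so
`∑ c_p log p ≤ μ (L + L') + ∑_{p ∣ N(N-1)} e_p log p ≤ μ (L + L') + (e_2 log 2 + .. + e_11 log 11)` (`∑ a_p log p = log (N (N-1))`, `e_p = 0` for primes `p ≥ 13`, `e_p ≥ 0`). Hence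
`(1-μ)(L + L') ≤ 0.0677 + L - log R + (0.6957 + L)/R + Σ`, i.e. `(1 - 2μ - 1/R) L ≤ 0.0677 + 0.00025 - log R + 0.6957/R + Σ`. The function `(1 - 2μ - 1/R) L + log R - 0.6957/R` increases in `R`, and its coefficient at `R0` is `≥ 0`, `L ≥ log 4096`.
-/

open Finset

namespace Pool.Agent.Helper14.IR

variable {N r b : ℕ} {lam : ℝ} {v : ℕ → ℕ}

theorem cell (h : Num N r b lam v) (hN : 4096 ≤ N) {R0 R1 μ : ℝ} {e : ℕ → ℝ} (h0 : 0 < R0) (hR0 : R0 * r ≤ N)
    (hR1 : N ≤ R1 * r) (hμ : 0 ≤ μ) (hc : 0 ≤ 1 - 2 * μ - 1 / R0)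
    (he : ∀ p a : ℕ, p.Prime → 1 ≤ a → ∑ h ∈ Icc 1 (a - 1), min 1 (R1 / (p : ℝ) ^ h) ≤ μ * a + e p)
    (hep : ∀ p, 0 ≤ e p) (he13 : ∀ p, 13 ≤ p → e p = 0) :
    (1 - 2 * μ - 1 / R0) * Real.log 4096 + Real.log R0 - 0.6957 / R0 - 0.068 ≤
      e 2 * Real.log 2 + e 3 * Real.log 3 + e 5 * Real.log 5 + e 7 * Real.log 7 + e 11 * Real.log 11 := by
  have hr : (1 : ℝ) ≤ r := by exact_mod_cast h.r1
  have hr0 : (0 : ℝ) < r := by linarith
  have hNr : (4096 : ℝ) ≤ N := by exact_mod_cast hN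
  have hN0 : (0 : ℝ) < N := by linarith
  obtain ⟨R, hR⟩ : ∃ R : ℝ, R = (N : ℝ) / r := ⟨_, rfl⟩
  have hR0' : R0 ≤ R := by rw [hR, le_div_iff₀ hr0]; exact hR0
  have hRR1 : R ≤ R1 := by rw [hR, div_le_iff₀ hr0]; exact hR1
  have hRpos : 0 < R := lt_of_lt_of_le h0 hR0'
  have hxpos : ∀ p ∈ (N * (N - 1)).primeFactors, xx r v p ≠ 0 := fun p hp =>
    (lt_of_lt_of_le one_pos (h.one_le_xx hp)).ne'
  have hlam : 0 < lam := lt_of_lt_of_le one_pos h.lam1
  have hN1 : (0 : ℝ) < (N : ℝ) - 1 := by linarith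
  have hprod : (∏ p ∈ (N * (N - 1)).primeFactors, xx r v p) ≠ 0 := Finset.prod_ne_zero_iff.mpr hxpos
  have hlog := Real.log_le_log (mul_pos hN0 hN1) (h.en107 hN)
  have hlam' : lam ^ r ≠ 0 := (pow_pos hlam r).ne'
  rw [Real.log_mul hN0.ne' hN1.ne', Real.log_mul (mul_ne_zero (mul_ne_zero (by norm_num) hr0.ne') hlam') hprod,
    Real.log_mul (mul_ne_zero (by norm_num) hr0.ne') hlam', Real.log_mul (by norm_num) hr0.ne', Real.log_pow,
    Real.log_prod hxpos] at hlog
  -- the sum over the primes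
  have haa : ∀ p ∈ (N * (N - 1)).primeFactors, Real.log (xx r v p) ≤ μ * (aa N p * Real.log p) + e p * Real.log p := by
    intro p hp
    have hpp : p.Prime := Nat.prime_of_mem_primeFactors hp
    have hp1 : (1 : ℝ) ≤ p := by exact_mod_cast hpp.one_lt.le
    have hlp : 0 ≤ Real.log p := Real.log_nonneg hp1
    obtain ⟨T, m, -, -, -, ha1⟩ := h.T_ex hp
    have h1 := h.v_le hp
    have h2 : ∑ k ∈ Icc 1 (aa N p - 1), min 1 (((N : ℝ) / r) / (p : ℝ) ^ k) ≤
        ∑ k ∈ Icc 1 (aa N p - 1), min 1 (R1 / (p : ℝ) ^ k) := by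
      refine Finset.sum_le_sum fun k _ => min_le_min le_rfl ?_
      rw [← hR]
      exact div_le_div_of_nonneg_right hRR1 (by positivity)
    have h3 := he p (aa N p) hpp ha1
    have h4 : (v p : ℝ) / r ≤ μ * aa N p + e p := h1.trans (h2.trans h3)
    have h5 : Real.log (xx r v p) = (v p : ℝ) / r * Real.log p := by
      rw [xx, Real.log_rpow (by linarith)]
    rw [h5]
    nlinarith [mul_le_mul_of_nonneg_right h4 hlp]
  have hsum := Finset.sum_le_sum haa
  rw [Finset.sum_add_distrib, ← Finset.mul_sum] at hsum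
  have hfac : ∑ p ∈ (N * (N - 1)).primeFactors, (aa N p : ℝ) * Real.log p = Real.log N + Real.log ((N : ℝ) - 1) := by
    have hne : N * (N - 1) ≠ 0 := by
      have : N - 1 ≠ 0 := by omega
      exact mul_ne_zero (by omega) this
    have h1 : (N : ℝ) * ((N : ℝ) - 1) = ((N * (N - 1) : ℕ) : ℝ) := by
      push_cast [Nat.cast_sub (show 1 ≤ N by omega)]
      ring
    rw [← Real.log_mul hN0.ne' hN1.ne', h1]
    conv_rhs => rw [← Nat.factorization_prod_pow_eq_self hne]
    rw [Finsupp.prod, Nat.support_factorization]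
    push_cast
    rw [Real.log_prod]
    · refine Finset.sum_congr rfl fun p _ => ?_
      rw [Real.log_pow]
      rfl
    · intro p hp
      have : (p : ℝ) ≠ 0 := by exact_mod_cast (Nat.prime_of_mem_primeFactors hp).ne_zero
      exact pow_ne_zero _ this
  rw [hfac] at hsum
  have hesum : ∑ p ∈ (N * (N - 1)).primeFactors, e p * Real.log p ≤
      e 2 * Real.log 2 + e 3 * Real.log 3 + e 5 * Real.log 5 + e 7 * Real.log 7 + e 11 * Real.log 11 := by
    have hnn : ∀ p : ℕ, 0 ≤ e p * Real.log p := fun p => mul_nonneg (hep p) (Real.log_natCast_nonneg p)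
    have h1 : ∑ p ∈ (N * (N - 1)).primeFactors, e p * Real.log p ≤ ∑ p ∈ ({2, 3, 5, 7, 11} : Finset ℕ), e p * Real.log p := by
      have h2 : ∑ p ∈ (N * (N - 1)).primeFactors, e p * Real.log p =
          ∑ p ∈ (N * (N - 1)).primeFactors.filter (fun p => p < 13), e p * Real.log p := by
        rw [Finset.sum_filter]
        refine Finset.sum_congr rfl fun p _ => ?_
        split_ifs with hp
        · rfl
        · rw [he13 p (by omega), zero_mul]
      rw [h2]
      refine Finset.sum_le_sum_of_subset_of_nonneg ?_ fun p _ _ => hnn p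
      intro p hp
      rw [Finset.mem_filter] at hp
      have hpp := Nat.prime_of_mem_primeFactors hp.1
      have hlt := hp.2
      interval_cases p <;> first | (simp; done) | (exfalso; revert hpp; decide)
    refine h1.trans (le_of_eq ?_)
    rw [Finset.sum_insert (by decide), Finset.sum_insert (by decide), Finset.sum_insert (by decide),
      Finset.sum_insert (by decide), Finset.sum_singleton]
    push_cast
    ring
  -- the numbers
  have hL107 : Real.log 1.07 ≤ 0.0677 := by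
    rw [Real.log_le_iff_le_exp (by norm_num)]
    have := Real.sum_le_exp_of_nonneg (show (0 : ℝ) ≤ 0.0677 by norm_num) 4
    refine le_trans ?_ this
    norm_num [Finset.sum_range_succ, Nat.factorial]
  have hlogr : Real.log r = Real.log N - Real.log R := by
    rw [hR, Real.log_div hN0.ne' hr0.ne']
    ring
  have hlamN : (r : ℝ) * Real.log lam ≤ (0.6957 + Real.log N) / R := by
    have h1 := Real.log_le_log (pow_pos hlam N) (h.lamN_le hN)
    rw [Real.log_pow, Real.log_mul (by norm_num) hN0.ne'] at h1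
    have h2 : Real.log 2.005 ≤ 0.6957 := by
      have h3 : Real.log 2.005 = Real.log 2 + Real.log 1.0025 := by
        rw [← Real.log_mul (by norm_num) (by norm_num)]
        norm_num
      have h4 : Real.log 1.0025 ≤ 1.0025 - 1 := Real.log_le_sub_one_of_pos (by norm_num)
      have h5 := Real.log_two_lt_d9
      rw [h3]
      norm_num at h4 h5 ⊢
      linarith
    rw [le_div_iff₀ hRpos, hR]
    have : (r : ℝ) * Real.log lam * ((N : ℝ) / r) = N * Real.log lam := by
      field_simp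
    rw [this]
    linarith
  have hL' : Real.log N - 0.00025 ≤ Real.log ((N : ℝ) - 1) := by
    have h1 : Real.log ((N : ℝ) / ((N : ℝ) - 1)) ≤ (N : ℝ) / ((N : ℝ) - 1) - 1 :=
      Real.log_le_sub_one_of_pos (div_pos hN0 hN1)
    rw [Real.log_div hN0.ne' hN1.ne'] at h1
    have h2 : (N : ℝ) / ((N : ℝ) - 1) - 1 ≤ 0.00025 := by
      rw [sub_le_iff_le_add, div_le_iff₀ hN1]
      linarith
    linarith
  have hμ1 : 2 * μ ≤ 1 := by
    have : 0 ≤ 1 / R0 := by positivity
    linarith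
  have hlogR : Real.log R0 ≤ Real.log R := Real.log_le_log h0 hR0'
  have hinv : 1 / R ≤ 1 / R0 := one_div_le_one_div_of_le h0 hR0'
  have hL4096 : Real.log 4096 ≤ Real.log N := Real.log_le_log (by norm_num) hNr
  have hL0 : 0 ≤ Real.log 4096 := Real.log_nonneg (by norm_num)
  have e1 : (0.6957 + Real.log N) / R = 0.6957 * (1 / R) + Real.log N * (1 / R) := by ring
  have e2 : 0.6957 / R0 = 0.6957 * (1 / R0) := by ring
  rw [e1] at hlamN
  rw [e2]
  have k1 : (1 - 2 * μ - 1 / R0) * Real.log 4096 ≤ (1 - 2 * μ - 1 / R0) * Real.log N :=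
    mul_le_mul_of_nonneg_left hL4096 hc
  have k2 : (1 / R) * Real.log N ≤ (1 / R0) * Real.log N := mul_le_mul_of_nonneg_right hinv (by linarith)
  have k3 : (1 - μ) * (Real.log N - 0.00025) ≤ (1 - μ) * Real.log ((N : ℝ) - 1) :=
    mul_le_mul_of_nonneg_left hL' (by linarith)
  rw [hlogr] at hlog
  nlinarith

end Pool.Agent.Helper14.IR
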