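import Mathlib

/-!
Project IR: the check for the range `2^i ≤ N < 2^i1`, `8 r ≤ N`.

A data entry is a triple `(p, h, S)`; `S / 4096` is an upper bound for `(2.005 * 2^i1)^(1/p^h)` (`okE`), `U = uE / 4096 = p^(h-1) (1 + S/4096)`, and `nE / dE` is `U^3/p` if `U ≥ p` and `max(1, U^4/p^2)` otherwise.
-/

open Finset

namespace Pool.Agent.Helper14.IR

def okE (i1 : ℕ) (t : ℕ × ℕ × ℕ) : Bool :=
  decide (1 ≤ t.1) && decide (1 ≤ t.2.1) && decide (4096 ≤ t.2.2) &&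
    decide (2005 * 2 ^ i1 * 4096 ^ (t.1 ^ t.2.1) ≤ 1000 * t.2.2 ^ (t.1 ^ t.2.1))

def uE (t : ℕ × ℕ × ℕ) : ℕ := t.1 ^ (t.2.1 - 1) * (4096 + t.2.2)

def nE (t : ℕ × ℕ × ℕ) : ℕ :=
  if t.1 * 4096 ≤ uE t then uE t ^ 3 else max (uE t ^ 4) (t.1 ^ 2 * 4096 ^ 4)

def dE (t : ℕ × ℕ × ℕ) : ℕ := if t.1 * 4096 ≤ uE t then t.1 * 4096 ^ 3 else t.1 ^ 2 * 4096 ^ 4

def prn (L : List (ℕ × ℕ × ℕ)) : ℕ := (L.map nE).prod

def prd (L : List (ℕ × ℕ × ℕ)) : ℕ := (L.map dE).prod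

def chkB (i i1 : ℕ) (L : List (ℕ × ℕ × ℕ)) : Bool :=
  L.all fun t => (List.range 8).all fun a => decide (2005 * 2 ^ i1 < 1000 * t.1 ^ (8 * a)) || decide (a = 0) ||
    decide ((prn L * dE t * t.1 ^ (3 * a)) ^ 2 < 4862000 * 2 ^ (3 * i) * (prd L * nE t * t.1 ^ 4) ^ 2)

/-- The check; `PL` is a list containing all primes `< P0`. -/
def chk3 (PL : List ℕ) (i i1 P0 S0 : ℕ) (L : List (ℕ × ℕ × ℕ)) (bm : Bool) : Bool :=
  L.all (okE i1) && decide (2 ≤ P0) && okE i1 (P0, 1, S0) && decide ((4096 + S0) ^ 2 ≤ P0 * 4096 ^ 2) &&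
    PL.all (fun q => decide (P0 ≤ q) || L.any (fun t => decide (t.1 = q))) &&
    (if bm then decide (i1 ≤ 60) && decide (2005 * 2 ^ i1 < 1000 * P0 ^ 8) && chkB i i1 L
      else decide (prn L ^ 2 < 4862000 * 2 ^ (3 * i) * prd L ^ 2))

end Pool.Agent.Helper14.IR
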