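import Pool.Agent.Helper14.IR.NumM

/-!
Block IR-N4A: the range `N ≥ 2^5129`, `8 r ≤ N`: bound for one prime.

Paper proof. Let `L = log (2.005 N)`; `L ≥ 5129 log 2 + log 2.005 ≥ 3555`. By `lamN_le`, `lam^N ≤ exp L`. `e = exp 1`, `log (1 + e) ≤ 1.3133`, so `(3/4) log (1+e) ≤ 0.985`. For primes `p` define `f p`:
`f p = 0.75 log L + 0.985` if `p < √L`; `f p = 0.5 log p + 0.985` if `√L ≤ p < 0.3 L`; `f p = 0` if `p ≥ 0.3 L`. Put `E p = exp (4 f p)`.
`high_f`: `x_p^4 ≤ p^a E p` (`a = a_p ≥ 1`). Write `y = log x_p ≥ 0`, `y ≤ (a-1) log p` (`xx_le_pow`), so `a log p ≥ y + log p`; the claim is `y ≤ (a/4) log p + f p`.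
(i) `p < √L`: let `h ≥ 1` be minimal with `L ≤ p^h`; so `p^(h-1) ≤ L` (also if `h = 1`). `xx_le_h` with `s = exp (L/p^h) ≤ e` (`s^(p^h) = exp L`): `x_p ≤ p^(h-1) (1 + e) ≤ L (1 + e)`; so
 `y ≤ y/4 + (3/4) (log L + 1.3133) ≤ (a/4) log p + 0.75 log L + 0.985`.
(ii) `√L ≤ p < 0.3 L`: `h = 2`, `s = exp (L/p^2) ≤ e`: `x_p ≤ p (1+e)`, `y ≤ y/4 + (3/4)(log p + 1.3133) ≤ (a/4) log p - (1/4) log p + (3/4) log p + 0.985`.
(iii) `p ≥ 0.3 L`: if `a = 1`, `y ≤ 0`. If `a ≥ 2`: `h = 1`, `s = exp (L/p) ≤ exp (10/3) ≤ 28.1`, `(1 + s)^2 ≤ 847 ≤ 0.3 * 3555 ≤ p`, so `2 y ≤ log p`, `y ≤ (1/2) log p ≤ (a/4) log p`.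
-/

open Finset

namespace Pool.Agent.Helper14.IR

variable {N r b : ℕ} {lam : ℝ} {v : ℕ → ℕ}

noncomputable def ff (L : ℝ) (p : ℕ) : ℝ :=
  if (p : ℝ) < √L then 0.75 * Real.log L + 0.985 else
    if (p : ℝ) < 0.3 * L then 0.5 * Real.log p + 0.985 else 0

private theorem cube_n4 : (1 + Real.exp 1) ^ 3 ≤ Real.exp 3.94 := by
  have h1 : Real.exp 3.94 = Real.exp 1 ^ 4 * Real.exp (-0.06) := by
    rw [← Real.exp_nat_mul, ← Real.exp_add]
    norm_num
  have h2 : (0.94176 : ℝ) ≤ Real.exp (-0.06) := by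
    have h3 := Real.exp_bound (x := -0.06) (by norm_num [abs_le]) (n := 4) (by norm_num)
    have h4 := (abs_le.1 h3).1
    norm_num [Finset.sum_range_succ, Nat.factorial] at h4 ⊢
    linarith
  have h5 : (2.71828 : ℝ) ≤ Real.exp 1 := by
    have := Real.exp_one_gt_d9
    norm_num at this ⊢
    linarith
  have h6 : Real.exp 1 ≤ (2.718282 : ℝ) := by
    have := Real.exp_one_lt_d9
    norm_num at this ⊢
    linarith
  rw [h1]
  have h7 : (1 + Real.exp 1) ^ 3 ≤ (1 + 2.718282) ^ 3 := pow_le_pow_left₀ (by positivity) (by linarith) 3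
  have h8 : (2.71828 : ℝ) ^ 4 ≤ Real.exp 1 ^ 4 := pow_le_pow_left₀ (by norm_num) h5 4
  have h9 : (2.71828 : ℝ) ^ 4 * 0.94176 ≤ Real.exp 1 ^ 4 * Real.exp (-0.06) :=
    mul_le_mul h8 h2 (by norm_num) (by positivity)
  refine h7.trans (le_trans ?_ h9)
  norm_num

private theorem s3_n4 : Real.exp (10 / 3) ≤ 28.1 := by
  have h6 : Real.exp 1 ≤ (2.7183 : ℝ) := by
    have := Real.exp_one_lt_d9
    norm_num at this ⊢
    linarith
  have h1 : Real.exp (10 / 3) ^ 3 = Real.exp 1 ^ 10 := by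
    rw [← Real.exp_nat_mul, ← Real.exp_nat_mul]
    norm_num
  have h2 : Real.exp 1 ^ 10 ≤ (2.7183 : ℝ) ^ 10 := pow_le_pow_left₀ (by positivity) h6 10
  have h3 : (2.7183 : ℝ) ^ 10 ≤ 28.1 ^ 3 := by norm_num
  exact le_of_pow_le_pow_left₀ (n := 3) (by norm_num) (by norm_num) (by rw [h1]; linarith)

theorem high_f (h : Num N r b lam v) (hN : 4096 ≤ N) {L : ℝ} (hL : L = Real.log (2.005 * N)) (hL0 : 3555 ≤ L)
    {p : ℕ} (hp : p ∈ (N * (N - 1)).primeFactors) :
    (xx r v p) ^ 4 ≤ (p : ℝ) ^ aa N p * Real.exp (4 * ff L p) := by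
  obtain ⟨T, m, -, -, -, ha⟩ := h.T_ex hp
  have hpp : p.Prime := Nat.prime_of_mem_primeFactors hp
  have hp1 : (1 : ℝ) < p := by exact_mod_cast hpp.one_lt
  have hp0 : (0 : ℝ) < p := by linarith
  have hx1 := h.one_le_xx hp
  have hx0 : 0 ≤ xx r v p := by linarith
  have hxp := h.xx_le_pow hp
  have hLp : 0 < L := by linarith
  have hNR : (0 : ℝ) < N := by
    have : 0 < N := by omega
    exact_mod_cast this
  have hlam : lam ^ N ≤ Real.exp L := by
    rw [hL, Real.exp_log (by positivity)]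
    exact h.lamN_le hN
  -- the key step
  have key : ∀ k : ℕ, 1 ≤ k → xx r v p ≤ (p : ℝ) ^ (k - 1) * (1 + Real.exp (L / (p : ℝ) ^ k)) := by
    intro k hk
    refine h.xx_le_h hp hk (Real.one_le_exp (by positivity)) (hlam.trans (le_of_eq ?_))
    rw [← Real.exp_nat_mul]
    congr 1
    push_cast
    field_simp
  have comb : ∀ B : ℝ, 0 ≤ B → xx r v p ≤ B → (xx r v p) ^ 4 ≤ (p : ℝ) ^ (aa N p - 1) * B ^ 3 := by
    intro B hB0 hB
    have h1 : (xx r v p) ^ 4 = xx r v p * xx r v p ^ 3 := by ring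
    rw [h1]
    exact mul_le_mul hxp (pow_le_pow_left₀ hx0 hB 3) (by positivity) (by positivity)
  have hpa : (p : ℝ) ^ (aa N p - 1) * p = (p : ℝ) ^ aa N p := by
    rw [← pow_succ]
    congr 1
    omega
  have hpa' : (p : ℝ) ^ (aa N p - 1) ≤ (p : ℝ) ^ aa N p := pow_le_pow_right₀ hp1.le (by omega)
  unfold ff
  split_ifs with h1 h2
  · -- p < √L
    have hex : ∃ k : ℕ, L ≤ (p : ℝ) ^ k := pow_unbounded_of_one_lt L hp1 |>.imp (fun _ h => h.le)
    classical
    set k := Nat.find hex with hk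
    have hk1 : L ≤ (p : ℝ) ^ k := Nat.find_spec hex
    have hk0 : 1 ≤ k := by
      rcases Nat.eq_zero_or_pos k with h0 | h0
      · rw [h0] at hk1
        norm_num at hk1
        linarith
      · exact h0
    have hk2 : (p : ℝ) ^ (k - 1) ≤ L := by
      have := Nat.find_min hex (m := k - 1) (by omega)
      exact (not_le.1 this).le
    have h3 : Real.exp (L / (p : ℝ) ^ k) ≤ Real.exp 1 := by
      apply Real.exp_le_exp.2
      rw [div_le_one (by positivity)]
      exact hk1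
    have h4 : xx r v p ≤ L * (1 + Real.exp 1) := by
      refine (key k hk0).trans ?_
      exact mul_le_mul hk2 (by linarith) (by positivity) hLp.le
    have h5 := comb _ (by positivity) h4
    refine h5.trans ?_
    have h6 : Real.exp (4 * (0.75 * Real.log L + 0.985)) = L ^ 3 * Real.exp 3.94 := by
      have h7 : 4 * (0.75 * Real.log L + 0.985) = ((3 : ℕ) : ℝ) * Real.log L + 3.94 := by
        push_cast; ring
      rw [h7, Real.exp_add, Real.exp_nat_mul, Real.exp_log hLp]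
    rw [h6, mul_pow]
    have h8 : L ^ 3 * (1 + Real.exp 1) ^ 3 ≤ L ^ 3 * Real.exp 3.94 :=
      mul_le_mul_of_nonneg_left cube_n4 (by positivity)
    exact mul_le_mul hpa' h8 (by positivity) (by positivity)
  · -- √L ≤ p < 0.3 L
    have hLs : L ≤ (p : ℝ) ^ 2 := by
      have h3 := not_lt.1 h1
      have h4 : √L ^ 2 = L := Real.sq_sqrt hLp.le
      rw [← h4]
      exact pow_le_pow_left₀ (Real.sqrt_nonneg L) h3 2
    have h3 : Real.exp (L / (p : ℝ) ^ 2) ≤ Real.exp 1 := by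
      apply Real.exp_le_exp.2
      rw [div_le_one (by positivity)]
      exact hLs
    have h4 : xx r v p ≤ p * (1 + Real.exp 1) := by
      refine (key 2 (by norm_num)).trans ?_
      have h5 : (p : ℝ) ^ (2 - 1) = p := by norm_num
      rw [h5]
      exact mul_le_mul_of_nonneg_left (by linarith) hp0.le
    have h5 := comb _ (by positivity) h4
    refine h5.trans ?_
    have h6 : Real.exp (4 * (0.5 * Real.log p + 0.985)) = (p : ℝ) ^ 2 * Real.exp 3.94 := by
      have h7 : 4 * (0.5 * Real.log p + 0.985) = ((2 : ℕ) : ℝ) * Real.log p + 3.94 := by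
        push_cast; ring
      rw [h7, Real.exp_add, Real.exp_nat_mul, Real.exp_log hp0]
    rw [h6, mul_pow]
    have h8 : (p : ℝ) ^ (aa N p - 1) * ((p : ℝ) ^ 3 * (1 + Real.exp 1) ^ 3) =
        (p : ℝ) ^ aa N p * ((p : ℝ) ^ 2 * (1 + Real.exp 1) ^ 3) := by
      rw [← hpa]; ring
    rw [h8]
    exact mul_le_mul_of_nonneg_left (mul_le_mul_of_nonneg_left cube_n4 (by positivity)) (by positivity)
  · -- p ≥ 0.3 L
    have h3 : 0.3 * L ≤ p := not_lt.1 h2
    rw [mul_zero, Real.exp_zero, mul_one]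
    rcases Nat.lt_or_ge (aa N p) 2 with h4 | h4
    · have h5 : aa N p - 1 = 0 := by omega
      rw [h5, pow_zero] at hxp
      calc (xx r v p) ^ 4 ≤ 1 ^ 4 := pow_le_pow_left₀ hx0 hxp 4
        _ = 1 := by norm_num
        _ ≤ (p : ℝ) ^ aa N p := one_le_pow₀ hp1.le
    · have h5 := key 1 le_rfl
      have h6 : Real.exp (L / (p : ℝ) ^ 1) ≤ 28.1 := by
        refine le_trans (Real.exp_le_exp.2 ?_) s3_n4
        rw [pow_one, div_le_div_iff₀ hp0 (by norm_num)]
        linarith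
      have h7 : xx r v p ≤ 29.1 := by
        norm_num at h5 h6 ⊢
        linarith
      have h8 : (xx r v p) ^ 4 ≤ (p : ℝ) ^ 2 := by
        have h9 : (xx r v p) ^ 2 ≤ p := by
          have h10 : (xx r v p) ^ 2 ≤ 29.1 ^ 2 := pow_le_pow_left₀ hx0 h7 2
          norm_num at h10 h3 ⊢
          linarith
        have h11 : (xx r v p) ^ 4 = ((xx r v p) ^ 2) ^ 2 := by ring
        rw [h11]
        exact pow_le_pow_left₀ (by positivity) h9 2
      exact h8.trans (pow_le_pow_right₀ hp1.le h4)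

end Pool.Agent.Helper14.IR
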