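import Pool.Agent.Helper14.IR.Num4
import Mathlib.NumberTheory.Chebyshev

/-!
Block IR-N4B: the range `N ≥ 2^5129`: the sum over the primes.

Paper proof. `high_sum`: `∑_{p ∣ N(N-1)} f p ≤ ∑_{p prime, p < √L} (0.75 log L + 0.985) + ∑_{p prime < 0.3 L} (0.5 log p + 0.985) ≤ π(√L) (0.75 log L + 0.985) + 0.5 θ(0.3 L) + 0.985 π(0.3 L)`, with `θ(x) ≤ log 4 * x` (`Chebyshev.theta_le_log4_mul_x`) and
`π(x) ≤ (4/15) x + 10` (`prime_le`, from `Nat.primeCounting'_add_le` or `Nat.primeCounting_add_le` with `a = 30`, `k = 31`; `φ(30) = 8`; small `x` directly). So `0.5 θ(0.3 L) ≤ 0.208 L`, `0.985 (number of primes < 0.3 L) ≤ 0.985 ((4/15)(0.3 L + 1) + 10) ≤ 0.0788 L + 10.12 ≤ 0.0817 L`; with `u = √L ≥ 59.6`: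
`log L = 2 log u ≤ 2 (log 60 + (u - 60)/60) ≤ 6.189 + 0.0334 u`, `(0.2667 u + 10.27)(5.627 + 0.0251 u) ≤ 0.0067 u^2 + 1.76 u + 57.8 ≤ 0.0067 L + 0.0296 L + 0.0163 L = 0.0526 L`. The total is at most `0.343 L`.
-/

open Finset

namespace Pool.Agent.Helper14.IR

theorem prime_le (n : ℕ) : (((Finset.range n).filter Nat.Prime).card : ℝ) ≤ 4 / 15 * n + 10 := by
  have h31 : ((Finset.range 31).filter Nat.Prime).card = 10 := by decide +kernel
  rcases Nat.lt_or_ge n 31 with h | h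
  · have h1 : ((Finset.range n).filter Nat.Prime).card ≤ ((Finset.range 31).filter Nat.Prime).card :=
      Finset.card_le_card (Finset.filter_subset_filter _ (Finset.range_subset_range.2 h.le))
    rw [h31] at h1
    have h2 : (((Finset.range n).filter Nat.Prime).card : ℝ) ≤ 10 := by exact_mod_cast h1
    have h3 : (0 : ℝ) ≤ n := Nat.cast_nonneg n
    linarith
  · obtain ⟨m, rfl⟩ : ∃ m, n = 31 + m := ⟨n - 31, by omega⟩
    have h1 := Nat.primeCounting'_add_le (a := 30) (k := 31) (by norm_num) (by norm_num) m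
    have ht : Nat.totient 30 = 8 := by decide +kernel
    rw [Nat.primeCounting', Nat.count_eq_card_filter_range, Nat.count_eq_card_filter_range, h31,
      ht] at h1
    have h2 : (((Finset.range (31 + m)).filter Nat.Prime).card : ℝ) ≤ 10 + 8 * ((m / 30 : ℕ) + 1) := by
      exact_mod_cast h1
    have h3 : ((m / 30 : ℕ) : ℝ) ≤ (m : ℝ) / 30 := by
      have := Nat.cast_div_le (α := ℝ) (m := m) (n := 30)
      simpa using this
    push_cast
    linarith

private theorem log_aux {L u : ℝ} (hu : 0 < u) (hL : L = u ^ 2) : Real.log L ≤ 6.193 + u / 30 := by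
  have h60 : Real.log 60 ≤ 4.0964 := by
    have h1 : (60 : ℝ) = 2 ^ 6 * (15 / 16) := by norm_num
    rw [h1, Real.log_mul (by norm_num) (by norm_num), Real.log_pow]
    have h2 := Real.log_two_lt_d9
    have h3 := Real.log_le_sub_one_of_pos (x := 15 / 16) (by norm_num)
    push_cast
    linarith
  have h2 : Real.log u ≤ Real.log 60 + (u / 60 - 1) := by
    have h3 : u = 60 * (u / 60) := by ring
    have h4 := Real.log_le_sub_one_of_pos (x := u / 60) (by positivity)
    calc Real.log u = Real.log (60 * (u / 60)) := by rw [← h3]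
      _ = Real.log 60 + Real.log (u / 60) := Real.log_mul (by norm_num) (by positivity)
      _ ≤ _ := by linarith
  rw [hL, Real.log_pow]
  push_cast
  linarith

private theorem card_aux {x : ℝ} (hx : 0 ≤ x) (S : Finset ℕ) (hS : ∀ p ∈ S, p.Prime ∧ (p : ℝ) < x) :
    (S.card : ℝ) ≤ 4 / 15 * (x + 1) + 10 := by
  have h1 : S ⊆ (Finset.range ⌈x⌉₊).filter Nat.Prime := by
    intro p hp
    obtain ⟨h1, h2⟩ := hS p hp
    exact Finset.mem_filter.2 ⟨Finset.mem_range.2 (Nat.lt_ceil.2 h2), h1⟩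
  have h2 : (S.card : ℝ) ≤ (((Finset.range ⌈x⌉₊).filter Nat.Prime).card : ℝ) := by
    exact_mod_cast Finset.card_le_card h1
  have h3 := prime_le ⌈x⌉₊
  have h4 := (Nat.ceil_lt_add_one hx).le
  linarith

theorem high_sum {L : ℝ} (hL0 : 3555 ≤ L) (S : Finset ℕ) (hS : ∀ p ∈ S, p.Prime) : ∑ p ∈ S, ff L p ≤ 0.35 * L := by
  have hLpos : 0 < L := by linarith
  set u := √L with hu
  have hu2 : L = u ^ 2 := (Real.sq_sqrt hLpos.le).symm
  have hu596 : 59.6 ≤ u := by
    rw [hu]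
    apply Real.le_sqrt_of_sq_le
    norm_num
    linarith
  have hupos : 0 < u := by linarith
  have hlog := log_aux hupos hu2
  -- the pieces
  set S1 : Finset ℕ := S.filter (fun p : ℕ => (p : ℝ) < u) with hS1
  set S2 : Finset ℕ :=
    (S.filter (fun p : ℕ => ¬ (p : ℝ) < u)).filter (fun p : ℕ => (p : ℝ) < 0.3 * L) with hS2
  have hsum : ∑ p ∈ S, ff L p =
      ∑ p ∈ S1, (0.75 * Real.log L + 0.985) + ∑ p ∈ S2, (0.5 * Real.log (p : ℝ) + 0.985) := by
    rw [← Finset.sum_filter_add_sum_filter_not S (fun p : ℕ => (p : ℝ) < u)]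
    congr 1
    · refine Finset.sum_congr rfl fun p hp => ?_
      rw [ff, if_pos (Finset.mem_filter.1 hp).2]
    · rw [← Finset.sum_filter_add_sum_filter_not _ (fun p : ℕ => (p : ℝ) < 0.3 * L)]
      rw [Finset.sum_eq_zero (s := Finset.filter (fun p : ℕ => ¬ (p : ℝ) < 0.3 * L) _), add_zero]
      · refine Finset.sum_congr rfl fun p hp => ?_
        obtain ⟨h1, h2⟩ := Finset.mem_filter.1 hp
        rw [ff, if_neg (Finset.mem_filter.1 h1).2, if_pos h2]
      · intro p hp
        obtain ⟨h1, h2⟩ := Finset.mem_filter.1 hp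
        rw [ff, if_neg (Finset.mem_filter.1 h1).2, if_neg h2]
  have hc1 : (S1.card : ℝ) ≤ 4 / 15 * (u + 1) + 10 := by
    refine card_aux hupos.le S1 fun p hp => ?_
    obtain ⟨h1, h2⟩ := Finset.mem_filter.1 hp
    exact ⟨hS p h1, h2⟩
  have hc2 : (S2.card : ℝ) ≤ 4 / 15 * (0.3 * L + 1) + 10 := by
    refine card_aux (by positivity) S2 fun p hp => ?_
    obtain ⟨h1, h2⟩ := Finset.mem_filter.1 hp
    exact ⟨hS p (Finset.mem_filter.1 h1).1, h2⟩
  have hth : ∑ p ∈ S2, Real.log p ≤ Real.log 4 * (0.3 * L) := by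
    refine le_trans ?_ (Chebyshev.theta_le_log4_mul_x (x := 0.3 * L) (by positivity))
    rw [Chebyshev.theta]
    refine Finset.sum_le_sum_of_subset_of_nonneg ?_ ?_
    · intro p hp
      obtain ⟨h1, h2⟩ := Finset.mem_filter.1 hp
      have h3 := hS p (Finset.mem_filter.1 h1).1
      exact Finset.mem_filter.2 ⟨Finset.mem_Ioc.2 ⟨h3.pos, Nat.le_floor h2.le⟩, h3⟩
    · intro p hp _
      have h3 := (Finset.mem_filter.1 hp).2
      exact Real.log_nonneg (by exact_mod_cast h3.one_lt.le)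
  have hlog4 : Real.log 4 ≤ 1.3863 := by
    have h1 : (4 : ℝ) = 2 ^ 2 := by norm_num
    rw [h1, Real.log_pow]
    have h2 := Real.log_two_lt_d9
    push_cast
    linarith
  have hA : ∑ _p ∈ S1, (0.75 * Real.log L + 0.985) ≤
      (4 / 15 * (u + 1) + 10) * (0.75 * (6.193 + u / 30) + 0.985) := by
    rw [Finset.sum_const, nsmul_eq_mul]
    have hl0 : 0 ≤ Real.log L := Real.log_nonneg (by linarith)
    apply mul_le_mul hc1 _ (by linarith) (by positivity)
    linarith
  have hB : ∑ p ∈ S2, (0.5 * Real.log p + 0.985) ≤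
      0.5 * (1.3863 * (0.3 * L)) + 0.985 * (4 / 15 * (0.3 * L + 1) + 10) := by
    rw [Finset.sum_add_distrib, ← Finset.mul_sum, Finset.sum_const, nsmul_eq_mul]
    have h1 : Real.log 4 * (0.3 * L) ≤ 1.3863 * (0.3 * L) :=
      mul_le_mul_of_nonneg_right hlog4 (by positivity)
    nlinarith [hth, hc2]
  rw [hsum]
  have hfin : (4 / 15 * (u + 1) + 10) * (0.75 * (6.193 + u / 30) + 0.985) +
      (0.5 * (1.3863 * (0.3 * L)) + 0.985 * (4 / 15 * (0.3 * L + 1) + 10)) ≤ 0.35 * L := by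
    rw [hu2]
    nlinarith [mul_nonneg (sub_nonneg.2 hu596) hupos.le, mul_nonneg (sub_nonneg.2 hu596) (sub_nonneg.2 hu596)]
  linarith

end Pool.Agent.Helper14.IR
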