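import Pool.Agent.Helper14.IR.Defs

/-!
Block IR-NA: the numerical data in terms of `x_p = p^(v p / r)`; `a_p` is the exponent of `p` in `N (N-1)`.

Paper proofs. `T_ex`: `N`, `N - 1` are coprime (`Nat.coprime_self_sub_..`), so `p` divides exactly one of them, `T`, and `a_p` is its exponent in `T` (`Nat.factorization_mul`, `Nat.exists_eq_pow_mul_and_not_dvd`,
`Nat.ordProj_mul_ordCompl_eq_self`).
`xx_le_pow`: by `vC` `v p ≤ ∑_{h ∈ [1,a-1]} r = (a-1) r`. `v_le`: `v p / r ≤ ∑_h min(1, (m p^(a-h))/r)` and `m p^(a-h) = T / p^h ≤ N / p^h`.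
`xx_le_h`: if `h + 1 ≤ a`: by `v1` `p^(v p) ≤ (p^(h-1) (1 + lam^n))^r` with `n p^h = T ≤ N`, so `x_p ≤ p^(h-1) (1 + lam^n)` (`r`-th root: `Real.rpow_natCast_mul`, `Real.rpow_le_rpow`), and `(lam^n)^(p^h) = lam^T ≤ lam^N ≤ s^(p^h)`
gives `lam^n ≤ s` (`pow_le_pow_left_iff`, `le_of_pow_le_pow_left`). If `a ≤ h`: `x_p ≤ p^(a-1) ≤ p^(h-1)`.
`en'`: `b ≤ lam^r`, so the field `en` gives `(N(N-1))^r ≤ (N (N-1)/2) r^r lam^(r r) ∏ p^(v p)`; take `r`-th roots (everything is positive; `Real.finset_prod_rpow` or `Real.finset_prod_rpow`, `Real.mul_rpow`).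
-/

open Finset

namespace Pool.Agent.Helper14.IR

/-- `x_p = p ^ (v p / r)`. -/
noncomputable def xx (r : ℕ) (v : ℕ → ℕ) (p : ℕ) : ℝ := (p : ℝ) ^ ((v p : ℝ) / r)

/-- The exponent of `p` in `N (N - 1)`. -/
noncomputable def aa (N p : ℕ) : ℕ := (N * (N - 1)).factorization p

variable {N r b : ℕ} {lam : ℝ} {v : ℕ → ℕ}

private theorem xx_pow {p : ℕ} (hr : 1 ≤ r) : xx r v p ^ r = (p : ℝ) ^ v p := by
  unfold xx
  have hr0 : (r : ℝ) ≠ 0 := by
    have : r ≠ 0 := by omega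
    exact_mod_cast this
  rw [← Real.rpow_natCast ((p : ℝ) ^ ((v p : ℝ) / r)) r, ← Real.rpow_mul (Nat.cast_nonneg p),
    div_mul_cancel₀ _ hr0, Real.rpow_natCast]

theorem Num.T_ex (h : Num N r b lam v) {p : ℕ} (hp : p ∈ (N * (N - 1)).primeFactors) :
    ∃ T m : ℕ, (T = N ∨ T = N - 1) ∧ T = p ^ aa N p * m ∧ ¬ p ∣ m ∧ 1 ≤ aa N p := by
  have hN := h.hN
  have hpp : p.Prime := Nat.prime_of_mem_primeFactors hp
  have hpd : p ∣ N * (N - 1) := Nat.dvd_of_mem_primeFactors hp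
  have hN0 : N ≠ 0 := by omega
  have hM0 : N - 1 ≠ 0 := by omega
  have ha : aa N p = N.factorization p + (N - 1).factorization p := by
    unfold aa
    rw [Nat.factorization_mul hN0 hM0, Finsupp.add_apply]
  have hnb : ¬ (p ∣ N ∧ p ∣ N - 1) := by
    rintro ⟨h1, h2⟩
    have h3 : p ∣ 1 := by
      have := (Nat.dvd_sub h1 h2)
      rwa [show N - (N - 1) = 1 by omega] at this
    exact hpp.one_lt.ne' (Nat.dvd_one.1 h3)
  rcases (Nat.Prime.dvd_mul hpp).1 hpd with h1 | h1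
  · have h2 : ¬ p ∣ N - 1 := fun h3 => hnb ⟨h1, h3⟩
    have h3 : (N - 1).factorization p = 0 := Nat.factorization_eq_zero_of_not_dvd h2
    have h4 : aa N p = N.factorization p := by rw [ha, h3, add_zero]
    refine ⟨N, N / p ^ N.factorization p, Or.inl rfl, ?_, Nat.not_dvd_ordCompl hpp hN0, ?_⟩
    · rw [h4]
      exact (Nat.ordProj_mul_ordCompl_eq_self N p).symm
    · rw [h4]
      exact (Nat.Prime.dvd_iff_one_le_factorization hpp hN0).1 h1
  · have h2 : ¬ p ∣ N := fun h3 => hnb ⟨h3, h1⟩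
    have h3 : N.factorization p = 0 := Nat.factorization_eq_zero_of_not_dvd h2
    have h4 : aa N p = (N - 1).factorization p := by rw [ha, h3, zero_add]
    refine ⟨N - 1, (N - 1) / p ^ (N - 1).factorization p, Or.inr rfl, ?_,
      Nat.not_dvd_ordCompl hpp hM0, ?_⟩
    · rw [h4]
      exact (Nat.ordProj_mul_ordCompl_eq_self (N - 1) p).symm
    · rw [h4]
      exact (Nat.Prime.dvd_iff_one_le_factorization hpp hM0).1 h1

theorem Num.one_le_xx (h : Num N r b lam v) {p : ℕ} (hp : p ∈ (N * (N - 1)).primeFactors) : 1 ≤ xx r v p := by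
  have hpp : p.Prime := Nat.prime_of_mem_primeFactors hp
  exact Real.one_le_rpow (by exact_mod_cast hpp.one_lt.le) (by positivity)

theorem Num.xx_le_pow (h : Num N r b lam v) {p : ℕ} (hp : p ∈ (N * (N - 1)).primeFactors) :
    xx r v p ≤ (p : ℝ) ^ (aa N p - 1) := by
  obtain ⟨T, m, hT, hTm, hm, ha⟩ := h.T_ex hp
  have hpp : p.Prime := Nat.prime_of_mem_primeFactors hp
  have hr : (0 : ℝ) < r := by exact_mod_cast h.r1
  have h1 := h.vC p T (aa N p) m hpp hT hTm hm ha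
  have h2 : v p ≤ (aa N p - 1) * r := by
    refine h1.trans ((Finset.sum_le_sum fun k _ => min_le_left _ _).trans ?_)
    simp
  have h3 : (v p : ℝ) / r ≤ ((aa N p - 1 : ℕ) : ℝ) := by
    rw [div_le_iff₀ hr]
    exact_mod_cast h2
  unfold xx
  rw [← Real.rpow_natCast (p : ℝ) (aa N p - 1)]
  exact Real.rpow_le_rpow_of_exponent_le (by exact_mod_cast hpp.one_lt.le) h3

theorem Num.xx_le_h (hn : Num N r b lam v) {p : ℕ} (hp : p ∈ (N * (N - 1)).primeFactors) {h : ℕ} {s : ℝ}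
    (h1 : 1 ≤ h) (hs : 1 ≤ s) (hsp : lam ^ N ≤ s ^ (p ^ h)) : xx r v p ≤ (p : ℝ) ^ (h - 1) * (1 + s) := by
  obtain ⟨T, m, hT, hTm, hm, ha⟩ := hn.T_ex hp
  have hpp : p.Prime := Nat.prime_of_mem_primeFactors hp
  have hp1 : (1 : ℝ) ≤ p := by exact_mod_cast hpp.one_lt.le
  have hlam0 : (0 : ℝ) ≤ lam := le_trans zero_le_one hn.lam1
  have hp0 : (0 : ℝ) ≤ (p : ℝ) ^ (h - 1) := by positivity
  by_cases hha : h + 1 ≤ aa N p
  · have h2 := hn.v1 p T (aa N p) m h hpp hT hTm hm h1 hha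
    rw [← xx_pow hn.r1] at h2
    have h3 : xx r v p ≤ (p : ℝ) ^ (h - 1) * (1 + lam ^ (m * p ^ (aa N p - h))) := by
      refine le_of_pow_le_pow_left₀ (by have := hn.r1; omega) ?_ h2
      positivity
    refine h3.trans (mul_le_mul_of_nonneg_left ?_ hp0)
    refine add_le_add le_rfl ?_
    have h4 : (lam ^ (m * p ^ (aa N p - h))) ^ (p ^ h) ≤ s ^ (p ^ h) := by
      rw [← pow_mul]
      have h5 : m * p ^ (aa N p - h) * p ^ h = T := by
        rw [mul_assoc, ← pow_add, Nat.sub_add_cancel (by omega), hTm, mul_comm]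
      rw [h5]
      refine le_trans (pow_le_pow_right₀ hn.lam1 ?_) hsp
      rcases hT with rfl | rfl
      · exact le_rfl
      · omega
    exact le_of_pow_le_pow_left₀ (pow_ne_zero _ hpp.ne_zero) (by linarith) h4
  · have h2 := hn.xx_le_pow hp
    have h3 : (p : ℝ) ^ (aa N p - 1) ≤ (p : ℝ) ^ (h - 1) := pow_le_pow_right₀ hp1 (by omega)
    nlinarith [mul_nonneg hp0 (by linarith : (0 : ℝ) ≤ s)]

theorem Num.v_le (h : Num N r b lam v) {p : ℕ} (hp : p ∈ (N * (N - 1)).primeFactors) :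
    (v p : ℝ) / r ≤ ∑ k ∈ Icc 1 (aa N p - 1), min 1 (((N : ℝ) / r) / (p : ℝ) ^ k) := by
  obtain ⟨T, m, hT, hTm, hm, ha⟩ := h.T_ex hp
  have hpp : p.Prime := Nat.prime_of_mem_primeFactors hp
  have hr : (0 : ℝ) < r := by exact_mod_cast h.r1
  have h1 := h.vC p T (aa N p) m hpp hT hTm hm ha
  have h2 : (v p : ℝ) ≤ ∑ k ∈ Icc 1 (aa N p - 1),
      ((min r (m * p ^ (aa N p - k) - 1) : ℕ) : ℝ) := by
    exact_mod_cast h1
  rw [div_le_iff₀ hr, Finset.sum_mul]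
  refine h2.trans (Finset.sum_le_sum fun k hk => ?_)
  rw [Finset.mem_Icc] at hk
  have hpk : (0 : ℝ) < (p : ℝ) ^ k := by
    have : (0 : ℝ) < p := by exact_mod_cast hpp.pos
    positivity
  rw [min_mul_of_nonneg _ _ hr.le, one_mul]
  refine le_min ?_ ?_
  · exact_mod_cast min_le_left _ _
  · have h3 : ((min r (m * p ^ (aa N p - k) - 1) : ℕ) : ℝ) ≤ ((m * p ^ (aa N p - k) : ℕ) : ℝ) := by
      exact_mod_cast (min_le_right _ _).trans (Nat.sub_le _ _)
    refine h3.trans ?_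
    have h4 : ((m * p ^ (aa N p - k) : ℕ) : ℝ) * (p : ℝ) ^ k ≤ N := by
      have h5 : m * p ^ (aa N p - k) * p ^ k = T := by
        rw [mul_assoc, ← pow_add, Nat.sub_add_cancel (by omega), hTm, mul_comm]
      have h6 : m * p ^ (aa N p - k) * p ^ k ≤ N := by
        rw [h5]
        rcases hT with rfl | rfl
        · exact le_rfl
        · omega
      exact_mod_cast h6
    have h7 : (N : ℝ) / r / (p : ℝ) ^ k * r = N / (p : ℝ) ^ k := by
      field_simp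
    rw [h7, le_div_iff₀ hpk]
    exact h4

theorem Num.en' (h : Num N r b lam v) : (N : ℝ) * (N - 1) ≤
    ((N : ℝ) * (N - 1) / 2) ^ ((1 : ℝ) / r) * r * lam ^ r * ∏ p ∈ (N * (N - 1)).primeFactors, xx r v p := by
  have hN : (4 : ℝ) ≤ N := by exact_mod_cast h.hN
  have hr1 := h.r1
  have hr0 : r ≠ 0 := by omega
  have hlam0 : (0 : ℝ) ≤ lam := le_trans zero_le_one h.lam1
  have hA : (0 : ℝ) ≤ (N : ℝ) * (N - 1) / 2 := by nlinarith
  have hP : (0 : ℝ) ≤ ∏ p ∈ (N * (N - 1)).primeFactors, xx r v p :=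
    Finset.prod_nonneg fun p hp => le_trans zero_le_one (h.one_le_xx hp)
  have hb : (0 : ℝ) ≤ ((N : ℝ) * (N - 1) / 2) ^ ((1 : ℝ) / r) := Real.rpow_nonneg hA _
  have hrr : (0 : ℝ) ≤ r := Nat.cast_nonneg _
  refine le_of_pow_le_pow_left₀ hr0 (by positivity) (h.en.trans ?_)
  have h1 : (((N : ℝ) * (N - 1) / 2) ^ ((1 : ℝ) / r)) ^ r = (N : ℝ) * (N - 1) / 2 := by
    rw [← Real.rpow_natCast, ← Real.rpow_mul hA]
    rw [one_div_mul_cancel (by exact_mod_cast hr0), Real.rpow_one]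
  have h2 : (∏ p ∈ (N * (N - 1)).primeFactors, xx r v p) ^ r
      = ∏ p ∈ (N * (N - 1)).primeFactors, (p : ℝ) ^ v p := by
    rw [← Finset.prod_pow]
    exact Finset.prod_congr rfl fun p _ => xx_pow hr1
  rw [mul_pow, mul_pow, mul_pow, h1, h2]
  have hQ : (0 : ℝ) ≤ ∏ p ∈ (N * (N - 1)).primeFactors, (p : ℝ) ^ v p :=
    Finset.prod_nonneg fun p _ => by positivity
  refine mul_le_mul_of_nonneg_right ?_ hQ
  have h3 : (lam ^ r) ^ r = lam ^ r * lam ^ (r * (r - 1)) := by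
    rw [← pow_mul, ← pow_add]
    congr 1
    obtain ⟨q, rfl⟩ := Nat.exists_eq_succ_of_ne_zero hr0
    simp only [Nat.succ_eq_add_one, Nat.add_sub_cancel]
    ring
  rw [h3]
  have h4 := h.bl
  have h5 : (0 : ℝ) ≤ (N : ℝ) * (N - 1) / 2 * (r : ℝ) ^ r * lam ^ (r * (r - 1)) := by positivity
  calc (b : ℝ) * (N * (N - 1) / 2) * (r : ℝ) ^ r * lam ^ (r * (r - 1))
      = b * ((N : ℝ) * (N - 1) / 2 * (r : ℝ) ^ r * lam ^ (r * (r - 1))) := by ring
    _ ≤ lam ^ r * ((N : ℝ) * (N - 1) / 2 * (r : ℝ) ^ r * lam ^ (r * (r - 1))) :=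
        mul_le_mul_of_nonneg_right h4 h5
    _ = _ := by ring

end Pool.Agent.Helper14.IR
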