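import Pool.Agent.Helper14.IR.NumA

/-!
Block IR-NB: consequences for `N ≥ 4096`.

Paper proofs. `r_ge`: `2 ≤ b ≤ lam^r`, `log lam = log (2N-1) / (N-1)`.
`root_le`: `log (N(N-1)/2) / r ≤ log (N(N-1)/2) log (2N-1) / ((N-1) log 2)` by `r_ge`. Let `t = N^(1/4) ≥ 8`: `log N = 4 log t ≤ 4 (log 8 + (t-8)/8) ≤ t/2 + 4.32`, `log (N(N-1)/2) ≤ 2 log N ≤ t + 8.64`,
`log (2N-1) ≤ log 2 + log N ≤ t/2 + 5.02`, and `(t + 8.64)(t/2 + 5.02) ≤ 0.0676 * 0.6931 * (t^4 - 1)` for `t ≥ 8` (`150.1 ≤ 191.8` at `t = 8`; `t^4 ≥ 64 t^2`), so the root is `≤ exp 0.0676 ≤ 1.07`.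
`lam_le`: `1.0025^400 ≥ 2.7`, so `1.0025^4000 ≥ 2.7^10 ≥ 20000`; `2N - 1 ≤ 1.0025^(N-1)` for `N ≥ 4096` by induction; so `lam^(N-1) ≤ 1.0025^(N-1)`. `lamN_le`: `lam^N = lam (2N-1)`.
`en107`: `en'` and `root_le`.
-/

open Finset

namespace Pool.Agent.Helper14.IR

variable {N r b : ℕ} {lam : ℝ} {v : ℕ → ℕ}

theorem Num.r_ge (h : Num N r b lam v) : ((N : ℝ) - 1) * Real.log 2 ≤ r * Real.log (2 * N - 1) := by
  have hN := h.hN
  have hl : (1 : ℝ) ≤ lam := h.lam1
  have hlp : (0 : ℝ) < lam := lt_of_lt_of_le one_pos hl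
  have h1 : Real.log 2 ≤ r * Real.log lam := by
    have h2 : (2 : ℝ) ≤ lam ^ r := le_trans (by exact_mod_cast h.b2) h.bl
    have h3 := Real.log_le_log (by norm_num) h2
    rwa [Real.log_pow] at h3
  have h4 : ((N : ℝ) - 1) * Real.log lam = Real.log (2 * N - 1) := by
    have h5 := congrArg Real.log h.lamN
    rw [Real.log_pow, Nat.cast_sub (by omega), Nat.cast_one] at h5
    exact h5
  have hN1 : (0 : ℝ) ≤ (N : ℝ) - 1 := by
    have : (4 : ℝ) ≤ N := by exact_mod_cast hN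
    linarith
  calc ((N : ℝ) - 1) * Real.log 2 ≤ ((N : ℝ) - 1) * (r * Real.log lam) := mul_le_mul_of_nonneg_left h1 hN1
    _ = r * (((N : ℝ) - 1) * Real.log lam) := by ring
    _ = r * Real.log (2 * N - 1) := by rw [h4]

private theorem log107_nb : (0.0676 : ℝ) ≤ Real.log 1.07 := by
  rw [Real.le_log_iff_exp_le (by norm_num)]
  have h := Real.exp_bound' (x := 0.0676) (by norm_num) (by norm_num) (n := 4) (by norm_num)
  refine h.trans ?_
  norm_num [Finset.sum_range_succ, Nat.factorial]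

private theorem main_nb (N : ℕ) (hN : 4096 ≤ N) :
    Real.log ((N : ℝ) * (N - 1) / 2) * Real.log (2 * N - 1) ≤ 0.0676 * Real.log 2 * ((N : ℝ) - 1) := by
  have hNR : (4096 : ℝ) ≤ N := by exact_mod_cast hN
  obtain ⟨t, ht⟩ : ∃ t : ℝ, t = Real.sqrt (Real.sqrt N) := ⟨_, rfl⟩
  have ht0 : 0 ≤ t := by rw [ht]; exact Real.sqrt_nonneg _
  have ht2 : t ^ 2 = Real.sqrt N := by rw [ht]; exact Real.sq_sqrt (Real.sqrt_nonneg _)
  have ht4 : t ^ 4 = N := by
    have : t ^ 4 = (t ^ 2) ^ 2 := by ring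
    rw [this, ht2]
    exact Real.sq_sqrt (by linarith)
  have ht8 : 8 ≤ t := by
    by_contra hc
    push Not at hc
    have h1 : t ^ 4 < 8 ^ 4 := pow_lt_pow_left₀ hc ht0 (by norm_num)
    rw [ht4] at h1
    norm_num at h1
    linarith
  have htp : 0 < t := by linarith
  have hlogt : Real.log t ≤ 3 * Real.log 2 + (t / 8 - 1) := by
    have h1 := Real.log_le_sub_one_of_pos (show 0 < t / 8 by positivity)
    have h2 : Real.log (t / 8) = Real.log t - 3 * Real.log 2 := by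
      rw [Real.log_div htp.ne' (by norm_num)]
      have h3 : Real.log 8 = 3 * Real.log 2 := by
        have : (8 : ℝ) = 2 ^ 3 := by norm_num
        rw [this, Real.log_pow]
        norm_num
      rw [h3]
    linarith
  have hl2 := Real.log_two_lt_d9
  have hl2' := Real.log_two_gt_d9
  have hlogN : Real.log N ≤ t / 2 + 4.32 := by
    have h1 : Real.log N = 4 * Real.log t := by
      rw [← ht4, Real.log_pow]
      norm_num
    rw [h1]
    linarith
  have hlx : Real.log ((N : ℝ) * (N - 1) / 2) ≤ t + 8.64 := by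
    have h1 : Real.log ((N : ℝ) * (N - 1) / 2) ≤ Real.log ((N : ℝ) * N) := by
      apply Real.log_le_log
      · have : 0 < (N : ℝ) - 1 := by linarith
        positivity
      · nlinarith
    rw [Real.log_mul (by linarith) (by linarith)] at h1
    linarith
  have hl2N : Real.log (2 * N - 1) ≤ t / 2 + 5.02 := by
    have h1 : Real.log (2 * (N : ℝ) - 1) ≤ Real.log (2 * (N : ℝ)) := by
      apply Real.log_le_log <;> linarith
    rw [Real.log_mul (by norm_num) (by linarith)] at h1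
    linarith
  have hl2N0 : 0 ≤ Real.log (2 * (N : ℝ) - 1) := Real.log_nonneg (by linarith)
  have hA : Real.log ((N : ℝ) * (N - 1) / 2) * Real.log (2 * N - 1) ≤ (t + 8.64) * (t / 2 + 5.02) := by
    apply mul_le_mul hlx hl2N hl2N0
    linarith
  refine hA.trans ?_
  have hB : 0.0676 * 0.6931 * ((N : ℝ) - 1) ≤ 0.0676 * Real.log 2 * ((N : ℝ) - 1) := by
    apply mul_le_mul_of_nonneg_right _ (by linarith)
    linarith
  refine le_trans ?_ hB
  rw [← ht4]
  have ht2' : 64 ≤ t ^ 2 := by nlinarith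
  have h5 : 64 * t ^ 2 ≤ t ^ 4 := by
    have : t ^ 4 = t ^ 2 * t ^ 2 := by ring
    rw [this]
    exact mul_le_mul_of_nonneg_right ht2' (by positivity)
  have h6 : 8 * t ≤ t ^ 2 := by nlinarith
  have h7 : (t + 8.64) * (t / 2 + 5.02) = t ^ 2 / 2 + 9.34 * t + 43.3728 := by ring
  rw [h7]
  linarith

theorem Num.root_le (h : Num N r b lam v) (hN : 4096 ≤ N) : ((N : ℝ) * (N - 1) / 2) ^ ((1 : ℝ) / r) ≤ 1.07 := by
  have hNR : (4096 : ℝ) ≤ N := by exact_mod_cast hN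
  have hr : (0 : ℝ) < r := by exact_mod_cast h.r1
  have hx : 0 < (N : ℝ) * (N - 1) / 2 := by
    have : 0 < (N : ℝ) - 1 := by linarith
    positivity
  have hx1 : 0 ≤ Real.log ((N : ℝ) * (N - 1) / 2) := by
    apply Real.log_nonneg
    nlinarith
  rw [← Real.log_le_log_iff (Real.rpow_pos_of_pos hx _) (by norm_num), Real.log_rpow hx]
  refine le_trans ?_ log107_nb
  have h1 := main_nb N hN
  have h2 := h.r_ge
  have hl2 : 0 < Real.log 2 := Real.log_pos (by norm_num)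
  rw [one_div, inv_mul_le_iff₀ hr]
  have h3 : 0 < ((N : ℝ) - 1) * Real.log 2 := by
    apply mul_pos _ hl2
    linarith
  have h4 : Real.log ((N : ℝ) * (N - 1) / 2) * (((N : ℝ) - 1) * Real.log 2) ≤
      Real.log ((N : ℝ) * (N - 1) / 2) * (r * Real.log (2 * N - 1)) := mul_le_mul_of_nonneg_left h2 hx1
  have h5 : Real.log ((N : ℝ) * (N - 1) / 2) * (((N : ℝ) - 1) * Real.log 2) ≤
      (r * 0.0676) * (((N : ℝ) - 1) * Real.log 2) := by
    calc Real.log ((N : ℝ) * (N - 1) / 2) * (((N : ℝ) - 1) * Real.log 2)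
        ≤ Real.log ((N : ℝ) * (N - 1) / 2) * (r * Real.log (2 * N - 1)) := h4
      _ = r * (Real.log ((N : ℝ) * (N - 1) / 2) * Real.log (2 * N - 1)) := by ring
      _ ≤ r * (0.0676 * Real.log 2 * ((N : ℝ) - 1)) := mul_le_mul_of_nonneg_left h1 hr.le
      _ = (r * 0.0676) * (((N : ℝ) - 1) * Real.log 2) := by ring
  exact le_of_mul_le_mul_right h5 h3

private theorem base_nb : (20000 : ℝ) ≤ 1.0025 ^ 4000 := by
  have h0 : (1.283 : ℝ) ≤ 1.0025 ^ 100 := by norm_num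
  have h1 : (2.7 : ℝ) ≤ 1.0025 ^ 400 := by
    have h4 : (1.283 : ℝ) ^ 4 ≤ (1.0025 ^ 100) ^ 4 := pow_le_pow_left₀ (by norm_num) h0 4
    rw [← pow_mul] at h4
    have h5 : (2.7 : ℝ) ≤ 1.283 ^ 4 := by norm_num
    exact h5.trans h4
  have h2 : (2.7 : ℝ) ^ 10 ≤ (1.0025 ^ 400) ^ 10 := pow_le_pow_left₀ (by norm_num) h1 10
  rw [← pow_mul] at h2
  have h3 : (20000 : ℝ) ≤ 2.7 ^ 10 := by norm_num
  exact h3.trans h2

private theorem ind_nb (N : ℕ) (hN : 4096 ≤ N) : 2 * (N : ℝ) - 1 ≤ 1.0025 ^ (N - 1) := by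
  induction N, hN using Nat.le_induction with
  | base =>
      have h1 : (1.0025 : ℝ) ^ 4000 ≤ 1.0025 ^ (4096 - 1) := pow_le_pow_right₀ (by norm_num) (by norm_num)
      have h2 := base_nb.trans h1
      refine le_trans ?_ h2
      norm_num
  | succ N hN ih =>
      have hNR : (4096 : ℝ) ≤ N := by exact_mod_cast hN
      have h1 : N + 1 - 1 = (N - 1) + 1 := by omega
      rw [h1, pow_succ]
      have h2 : (2 * (N : ℝ) - 1) * 1.0025 ≤ 1.0025 ^ (N - 1) * 1.0025 :=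
        mul_le_mul_of_nonneg_right ih (by norm_num)
      refine le_trans ?_ h2
      push_cast
      linarith

theorem Num.lam_le (h : Num N r b lam v) (hN : 4096 ≤ N) : lam ≤ 1.0025 := by
  have h1 : lam ^ (N - 1) ≤ 1.0025 ^ (N - 1) := by
    rw [h.lamN]
    exact ind_nb N hN
  exact (pow_le_pow_iff_left₀ (le_trans zero_le_one h.lam1) (by norm_num) (by omega)).1 h1

theorem Num.lamN_le (h : Num N r b lam v) (hN : 4096 ≤ N) : lam ^ N ≤ 2.005 * N := by
  have h1 : lam ^ N = lam ^ (N - 1) * lam := by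
    rw [← pow_succ]
    congr 1
    omega
  have hNR : (4096 : ℝ) ≤ N := by exact_mod_cast hN
  rw [h1, h.lamN]
  have h2 : (2 * (N : ℝ) - 1) * lam ≤ (2 * (N : ℝ) - 1) * 1.0025 :=
    mul_le_mul_of_nonneg_left (h.lam_le hN) (by linarith)
  linarith

theorem Num.en107 (h : Num N r b lam v) (hN : 4096 ≤ N) : (N : ℝ) * (N - 1) ≤
    1.07 * r * lam ^ r * ∏ p ∈ (N * (N - 1)).primeFactors, xx r v p := by
  refine h.en'.trans ?_
  have h1 : (0 : ℝ) ≤ ∏ p ∈ (N * (N - 1)).primeFactors, xx r v p := by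
    apply Finset.prod_nonneg
    intro p _
    exact Real.rpow_nonneg (Nat.cast_nonneg p) _
  have h2 : (0 : ℝ) ≤ lam ^ r := pow_nonneg (le_trans zero_le_one h.lam1) r
  apply mul_le_mul_of_nonneg_right _ h1
  apply mul_le_mul_of_nonneg_right _ h2
  exact mul_le_mul_of_nonneg_right (h.root_le hN) (Nat.cast_nonneg r)

end Pool.Agent.Helper14.IR
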