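import Pool.Agent.Helper14.IR.Defs

/-!
Block IR-P1: elementary identities for `SS N`.

Paper proof. `(X - 1) * SS N = geom N - N`: telescoping (`(X-1) ∑_k (k+1) X^(N-2-k)`: the coefficient of `X^(N-1-k)` is
`(k+1) - k = 1` for `0 ≤ k ≤ N-2`, the constant coefficient is `-(N-1) = 1 - N`); e.g. induction on `N` for
`SS (N+1) = X * SS N + N` (`N ≥ 1`, reindex the sum: `Finset.sum_range_succ`), `geom (N+1) = X * geom N + 1`.
`(X - 1) * geom N = X^N - 1` (`mul_geom_sum` / `Polynomial`), so `(X-1)^2 * SS N = X^N - 1 - N (X - 1)`.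
`SS_monic`, `SS_natDegree`: from `SS (N+1) = X * SS N + C N` by induction, `SS 2 = 1`.
Values: `SS_zero`: constant coefficient `N - 1`; `SS_deriv_zero`: the coefficient of `X` is `N - 2` (`N ≥ 3`), again by the recursion
(`derivative`: `(X * P + c)' (0) = P 0`); `SS_one`: `∑_{k<N-1} (k+1) = N (N-1)/2`.
`SS_key`: differentiate `F = X^N - N X + (N-1) = (X-1)^2 S`: `X F' - N F = N (N-1) (X - 1)` and
`X F' - N F = (X-1) * (2 X S + X (X-1) S' - N (X-1) S)`; cancel `X - 1` (`mul_left_cancel₀`, `X_sub_C_ne_zero 1`).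
-/

open Polynomial Finset

namespace Pool.Agent.Helper14.IR

private theorem SS_two26 : SS 2 = 1 := by
  simp [SS]

private theorem SS_succ26 (n : ℕ) : SS (n + 3) = X * SS (n + 2) + C ((n : ℤ) + 2) := by
  have h1 : SS (n + 3) = ∑ k ∈ range (n + 2), C ((k : ℤ) + 1) * X ^ (n + 1 - k) := rfl
  have h2 : SS (n + 2) = ∑ k ∈ range (n + 1), C ((k : ℤ) + 1) * X ^ (n - k) := rfl
  rw [h1, h2, Finset.sum_range_succ, Finset.mul_sum]
  congr 1
  · refine Finset.sum_congr rfl fun k hk => ?_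
    have hk' : k ≤ n := Nat.lt_succ_iff.1 (Finset.mem_range.1 hk)
    rw [Nat.succ_sub hk', pow_succ]
    ring
  · rw [Nat.sub_self, pow_zero, mul_one]
    congr 1

private theorem geom_succ26 (n : ℕ) : geom (n + 1) = X * geom n + 1 := by
  unfold geom
  rw [Finset.sum_range_succ', pow_zero, Finset.mul_sum]
  congr 1
  exact Finset.sum_congr rfl fun k _ => by rw [pow_succ]; ring

private theorem ind26 {p : ℕ → Prop} (h0 : p 2) (h1 : ∀ n, p (n + 2) → p (n + 3)) {N : ℕ} (hN : 2 ≤ N) : p N := by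
  obtain ⟨n, rfl⟩ : ∃ n, N = n + 2 := ⟨N - 2, by omega⟩
  induction n with
  | zero => exact h0
  | succ n ih => exact h1 n (ih (by omega))

private theorem md26 {N : ℕ} (hN : 2 ≤ N) : (SS N).Monic ∧ (SS N).natDegree = N - 2 := by
  refine ind26 (p := fun N => (SS N).Monic ∧ (SS N).natDegree = N - 2) ?_ (fun n ih => ?_) hN
  · rw [SS_two26]
    exact ⟨monic_one, natDegree_one⟩
  · obtain ⟨h1, h2⟩ := ih
    have h3 : (X * SS (n + 2)).Monic := monic_X.mul h1
    have h4 : (X * SS (n + 2)).natDegree = n + 1 := by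
      rw [natDegree_X_mul h1.ne_zero, h2]
      omega
    have h5 : (C ((n : ℤ) + 2) : ℤ[X]).degree < (X * SS (n + 2)).degree := by
      refine lt_of_le_of_lt degree_C_le ?_
      rw [degree_eq_natDegree h3.ne_zero, h4]
      exact_mod_cast Nat.succ_pos n
    rw [SS_succ26]
    refine ⟨h3.add_of_left h5, ?_⟩
    rw [natDegree_add_C, h4]
    omega

theorem geom_mul (n : ℕ) : (X - 1) * geom n = X ^ n - 1 := by
  unfold geom
  exact mul_geom_sum X n

theorem SS_geom {N : ℕ} (hN : 2 ≤ N) : (X - 1) * SS N = geom N - C (N : ℤ) := by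
  refine ind26 (p := fun N => (X - 1) * SS N = geom N - C (N : ℤ)) ?_ (fun n ih => ?_) hN
  · rw [SS_two26]
    simp only [geom, Finset.sum_range_succ, Finset.sum_range_zero]
    rw [show (C ((2 : ℕ) : ℤ) : ℤ[X]) = 2 from rfl]
    ring
  · rw [SS_succ26, geom_succ26]
    have e1 : (C (((n + 2 : ℕ)) : ℤ) : ℤ[X]) = C ((n : ℤ) + 2) := by
      congr 1
    have e2 : (C (((n + 3 : ℕ)) : ℤ) : ℤ[X]) = C ((n : ℤ) + 2) + 1 := by
      rw [← C_1, ← C_add]
      congr 1
    rw [e1] at ih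
    rw [e2]
    linear_combination X * ih

theorem SS_FF {N : ℕ} (hN : 2 ≤ N) : (X - 1) ^ 2 * SS N = X ^ N - C (N : ℤ) * X + C ((N : ℤ) - 1) := by
  rw [sq, mul_assoc, SS_geom hN, mul_sub, geom_mul, C_sub, C_1]
  ring

theorem SS_monic {N : ℕ} (hN : 2 ≤ N) : (SS N).Monic := by
  exact (md26 hN).1

theorem SS_natDegree {N : ℕ} (hN : 2 ≤ N) : (SS N).natDegree = N - 2 := by
  exact (md26 hN).2

theorem SS_zero {N : ℕ} (hN : 2 ≤ N) : (SS N).eval 0 = (N : ℤ) - 1 := by
  refine ind26 (p := fun N => (SS N).eval 0 = (N : ℤ) - 1) ?_ (fun n _ => ?_) hN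
  · rw [SS_two26]
    norm_num
  · rw [SS_succ26, eval_add, eval_mul, eval_X, zero_mul, zero_add, eval_C]
    push_cast
    ring

theorem SS_deriv_zero {N : ℕ} (hN : 3 ≤ N) : (derivative (SS N)).eval 0 = (N : ℤ) - 2 := by
  obtain ⟨n, rfl⟩ : ∃ n, N = n + 3 := ⟨N - 3, by omega⟩
  rw [SS_succ26, derivative_add, derivative_mul, derivative_X, derivative_C, one_mul, add_zero, eval_add, eval_mul,
    eval_X, zero_mul, add_zero, SS_zero (by omega)]
  push_cast
  ring

theorem SS_one {N : ℕ} (hN : 2 ≤ N) : 2 * (SS N).eval 1 = (N : ℤ) * (N - 1) := by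
  refine ind26 (p := fun N => 2 * (SS N).eval 1 = (N : ℤ) * (N - 1)) ?_ (fun n ih => ?_) hN
  · rw [SS_two26]
    norm_num
  · rw [SS_succ26, eval_add, eval_mul, eval_X, one_mul, eval_C, mul_add, ih]
    push_cast
    ring

theorem SS_key {N : ℕ} (hN : 2 ≤ N) : C ((N : ℤ) * (N - 1)) =
    X * (X - 1) * derivative (SS N) + (2 * X - C (N : ℤ) * (X - 1)) * SS N := by
  have hF := SS_FF hN
  have h0 : (X - 1 : ℤ[X]) ≠ 0 := by
    have := X_sub_C_ne_zero (1 : ℤ)
    rwa [C_1] at this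
  have h1 := congrArg derivative hF
  have h2 : X * derivative (X ^ N : ℤ[X]) = C (N : ℤ) * X ^ N := by
    obtain ⟨n, rfl⟩ : ∃ n, N = n + 1 := ⟨N - 1, by omega⟩
    rw [derivative_X_pow, Nat.add_sub_cancel, pow_succ]
    push_cast
    ring
  have h3 : derivative ((X - 1) ^ 2 * SS N) = 2 * (X - 1) * SS N + (X - 1) ^ 2 * derivative (SS N) := by
    rw [derivative_mul, sq, derivative_mul, derivative_sub, derivative_X, derivative_one]
    ring
  have h4 : derivative (X ^ N - C (N : ℤ) * X + C ((N : ℤ) - 1)) = derivative (X ^ N : ℤ[X]) - C (N : ℤ) := by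
    rw [derivative_add, derivative_sub, derivative_mul, derivative_C, derivative_X, derivative_C]
    ring
  rw [h3, h4] at h1
  refine mul_left_cancel₀ h0 ?_
  have h5 : (C ((N : ℤ) * (N - 1)) : ℤ[X]) = C (N : ℤ) * (C (N : ℤ) - 1) := by
    rw [C_mul, C_sub, C_1]
  rw [C_sub, C_1] at hF
  rw [h5]
  linear_combination -h2 - X * h1 + C (N : ℤ) * hF

end Pool.Agent.Helper14.IR
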