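import Pool.Agent.Helper14.IR.Root

/-!
Block IR-R3: the resultant `rs G P = ∏_i P(β_i)` for `G` monic.

Paper proof. `rs_prod`: `rs G P` is `resultant G P` with the default degrees; map to `ℂ` (`Polynomial.resultant_map_map`), `G.map` is monic of the same
degree and splits (`Enum.eq`), so by `Polynomial.resultant_eq_prod_eval` it is `∏ P(β_i)` (the roots of `∏ (X - C β_i)` are the `β_i`,
`Polynomial.roots_prod_X_sub_C` or similar).
`rs_mul`, `rs_C`, `rs_congr`: from `rs_prod` and `Int.cast_injective`.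
`rs_one_add`: `rs G (1 + C p * t) ≡ 1 mod p`: map to `ZMod p.natAbs` (or `ℤ ⧸ (p)`): `Polynomial.resultant_map_map` and `resultant_one_right`:
the resultant of a monic polynomial with `1` (in any formal degree) is `1`.
-/

open Polynomial Finset

namespace Pool.Agent.Helper14.IR

theorem rs_prod {N : ℕ} {G : ℤ[X]} (hG : G.Monic) {β : Fin G.natDegree → ℂ} (hβ : Enum N G β) (P : ℤ[X]) :
    ((rs G P : ℤ) : ℂ) = ∏ i, aeval (β i) P := by
  have h1 : ((rs G P : ℤ) : ℂ) = resultant (G.map (Int.castRingHom ℂ)) (P.map (Int.castRingHom ℂ)) G.natDegree P.natDegree := by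
    rw [resultant_map_map]
    rfl
  have h2 : (G.map (Int.castRingHom ℂ)).natDegree = G.natDegree := hG.natDegree_map _
  have h3 : (G.map (Int.castRingHom ℂ)).Splits := IsAlgClosed.splits _
  have h4 := resultant_eq_prod_eval (G.map (Int.castRingHom ℂ)) (P.map (Int.castRingHom ℂ)) P.natDegree
    natDegree_map_le h3
  rw [h2] at h4
  have h5 : (∏ i, (X - C (β i))).roots = (Finset.univ : Finset (Fin G.natDegree)).val.map β := by
    rw [← roots_multiset_prod_X_sub_C (Multiset.map β (Finset.univ : Finset (Fin G.natDegree)).val), Multiset.map_map]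
    rfl
  rw [h1, h4, (hG.map _).leadingCoeff, one_pow, one_mul, hβ.eq, h5, Multiset.map_map]
  rw [Finset.prod_eq_multiset_prod]
  refine congrArg Multiset.prod (Multiset.map_congr rfl fun i _ => ?_)
  simp only [Function.comp]
  rw [eval_map, ← algebraMap_int_eq, ← aeval_def]

theorem rs_mul {N : ℕ} {G : ℤ[X]} (hG : G.Monic) {β : Fin G.natDegree → ℂ} (hβ : Enum N G β) (P Q : ℤ[X]) :
    rs G (P * Q) = rs G P * rs G Q := by
  have h : ((rs G (P * Q) : ℤ) : ℂ) = ((rs G P * rs G Q : ℤ) : ℂ) := by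
    rw [rs_prod hG hβ, Int.cast_mul, rs_prod hG hβ, rs_prod hG hβ, ← Finset.prod_mul_distrib]
    refine Finset.prod_congr rfl fun i _ => ?_
    rw [map_mul]
  exact_mod_cast h

theorem rs_C {N : ℕ} {G : ℤ[X]} (hG : G.Monic) {β : Fin G.natDegree → ℂ} (hβ : Enum N G β) (c : ℤ) :
    rs G (C c) = c ^ G.natDegree := by
  have h : ((rs G (C c) : ℤ) : ℂ) = ((c ^ G.natDegree : ℤ) : ℂ) := by
    rw [rs_prod hG hβ]
    simp
  exact_mod_cast h

theorem rs_congr {N : ℕ} {G : ℤ[X]} (hG : G.Monic) {β : Fin G.natDegree → ℂ} (hβ : Enum N G β) (P Q : ℤ[X]) :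
    rs G (P + G * Q) = rs G P := by
  have h : ((rs G (P + G * Q) : ℤ) : ℂ) = ((rs G P : ℤ) : ℂ) := by
    rw [rs_prod hG hβ, rs_prod hG hβ]
    refine Finset.prod_congr rfl fun i _ => ?_
    have h1 : aeval (β i) G = 0 := by
      rw [aeval_def, algebraMap_int_eq, ← eval_map, hβ.eq, eval_prod]
      exact Finset.prod_eq_zero (Finset.mem_univ i) (by simp)
    rw [map_add, map_mul, h1, zero_mul, add_zero]
  exact_mod_cast h

theorem rs_one_add {G : ℤ[X]} (hG : G.Monic) (p : ℕ) (t : ℤ[X]) :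
    ∃ k : ℤ, rs G (1 + C (p : ℤ) * t) = 1 + p * k := by
  have h1 : ((rs G (1 + C (p : ℤ) * t) : ℤ) : ZMod p) = 1 := by
    have h2 : ((rs G (1 + C (p : ℤ) * t) : ℤ) : ZMod p) =
        resultant (G.map (Int.castRingHom (ZMod p))) ((1 + C (p : ℤ) * t).map (Int.castRingHom (ZMod p)))
          G.natDegree (1 + C (p : ℤ) * t).natDegree := by
      rw [resultant_map_map]
      rfl
    have h3 : (1 + C (p : ℤ) * t).map (Int.castRingHom (ZMod p)) = 1 := by
      rw [Polynomial.map_add, Polynomial.map_mul, Polynomial.map_one, Polynomial.map_C]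
      simp
    have h4 : (G.map (Int.castRingHom (ZMod p))).coeff G.natDegree = 1 := by
      rw [coeff_map, hG.coeff_natDegree]
      simp
    rw [h2, h3, resultant_one_right, h4, one_pow]
  have h5 : ((rs G (1 + C (p : ℤ) * t) - 1 : ℤ) : ZMod p) = 0 := by
    rw [Int.cast_sub, h1]
    simp
  rw [ZMod.intCast_zmod_eq_zero_iff_dvd] at h5
  obtain ⟨k, hk⟩ := h5
  exact ⟨k, by linarith⟩

end Pool.Agent.Helper14.IR
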