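import Pool.Agent.Helper14.IR.Poly

/-!
Block IR-R1: the complex roots of `SS N` lie in the annulus `1 < |β| ≤ (2N-1)^(1/(N-1))`.

Paper proof. Let `S(β) = 0`. `root_gt`: suppose `|β| ≤ 1`. By `SS_geom` `0 = (β-1) S(β) = ∑_{i<N} β^i - N`, so `∑_{i<N} (1 - β^i) = 0`; the real parts
`1 - Re β^i ≥ 0` (as `|β^i| ≤ 1`), so all of them vanish, in particular `Re β = 1` (`N ≥ 4`), with `|β| ≤ 1` this gives `β = 1`. But `2 S(1) = N (N-1) ≠ 0`
(`SS_one`).
`root_le`: by `SS_FF` `β^N = N β - (N-1)`, so `|β|^N ≤ N |β| + (N-1) ≤ (2N-1) |β|` (`|β| > 1`); cancel `|β|`.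
`root_der`: from `SS_key` at `β`: `N (N-1) = β (β-1) S'(β)`.
`exists_enum`: `G.map` splits over `ℂ` (`IsAlgClosed.splits`), its roots are roots of `S` (`G * H = SS N`), all simple because `S'(β) ≠ 0` at each root
(`root_der`; so `SS N` mapped to `ℂ` is separable/squarefree, hence `G.map` too): the multiset of roots is `Nodup` of cardinality `natDegree`; enumerate it
by `Fin (natDegree)` (`Multiset.toFinset`, `Finset.equivFinOfCardEq`), `G.map = ∏ (X - C β_i)` (`Polynomial.Splits.eq_prod_roots_of_monic` or similar).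
-/

open Polynomial Finset

namespace Pool.Agent.Helper14.IR

theorem root_gt {N : ℕ} (hN : 4 ≤ N) {β : ℂ} (h : aeval β (SS N) = 0) : 1 < ‖β‖ := by
  by_contra hc
  push Not at hc
  have h1 := congrArg (aeval β) (SS_geom (N := N) (by omega))
  simp only [map_mul, map_sub, map_one, aeval_X, h, mul_zero, geom, map_sum, map_pow, aeval_C] at h1
  have h2 : ∑ i ∈ range N, β ^ i = (N : ℂ) := by
    have h0 : (algebraMap ℤ ℂ) (N : ℤ) = (N : ℂ) := by simp
    rw [h0] at h1
    exact sub_eq_zero.1 h1.symm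
  have h3 : ∑ i ∈ range N, (1 - (β ^ i).re) = 0 := by
    rw [Finset.sum_sub_distrib, ← Complex.re_sum, h2]
    simp
  have h4 : ∀ i ∈ range N, 0 ≤ 1 - (β ^ i).re := by
    intro i _
    have h0 : (β ^ i).re ≤ 1 :=
      (Complex.re_le_norm _).trans (by rw [norm_pow]; exact pow_le_one₀ (norm_nonneg _) hc)
    linarith
  have h5 := (Finset.sum_eq_zero_iff_of_nonneg h4).1 h3 1 (Finset.mem_range.2 (by omega))
  rw [pow_one] at h5
  have hre : β.re = 1 := by linarith
  have him : β.im = 0 := by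
    have h6 : Complex.normSq β ≤ 1 := by
      rw [Complex.normSq_eq_norm_sq]
      exact pow_le_one₀ (norm_nonneg _) hc
    rw [Complex.normSq_apply, hre] at h6
    nlinarith
  have hb : β = 1 := Complex.ext (by simp [hre]) (by simp [him])
  subst hb
  have h7 := SS_one (N := N) (by omega)
  have h8 := aeval_algebraMap_apply_eq_algebraMap_eval (A := ℂ) (1 : ℤ) (SS N)
  rw [map_one, h] at h8
  have h9 : (SS N).eval 1 = 0 := by
    have h10 : (((SS N).eval 1 : ℤ) : ℂ) = 0 := by
      rw [← eq_intCast (algebraMap ℤ ℂ), ← h8]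
    exact_mod_cast h10
  rw [h9, mul_zero] at h7
  have hN' : (4 : ℤ) ≤ N := by exact_mod_cast hN
  have h11 : 0 < (N : ℤ) * (N - 1) := mul_pos (by linarith) (by linarith)
  linarith

theorem root_le {N : ℕ} (hN : 4 ≤ N) {β : ℂ} (h : aeval β (SS N) = 0) : ‖β‖ ^ (N - 1) ≤ 2 * N - 1 := by
  have hgt := root_gt hN h
  have h1 := congrArg (aeval β) (SS_FF (N := N) (by omega))
  simp only [map_mul, map_sub, map_add, map_pow, aeval_X, h, mul_zero, aeval_C] at h1
  have h2 : β ^ N = N * β - (N - 1) := by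
    have h0 : (algebraMap ℤ ℂ) (N : ℤ) = (N : ℂ) := by simp
    have h0' : (algebraMap ℤ ℂ) 1 = (1 : ℂ) := by simp
    rw [h0, h0'] at h1
    linear_combination -h1
  have hN' : (4 : ℝ) ≤ N := by exact_mod_cast hN
  have h3 : ‖β‖ ^ N ≤ N * ‖β‖ + (N - 1) := by
    rw [← norm_pow, h2]
    refine (norm_sub_le _ _).trans ?_
    have h4 : ‖(N : ℂ) * β‖ = N * ‖β‖ := by
      rw [norm_mul, Complex.norm_natCast]
    have h5 : ‖((N : ℂ) - 1)‖ = N - 1 := by
      have h6 : ((N : ℂ) - 1) = (((N : ℝ) - 1 : ℝ) : ℂ) := by push_cast; rfl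
      rw [h6, Complex.norm_real, Real.norm_of_nonneg (by linarith)]
    rw [h4, h5]
  have h4 : ‖β‖ ^ N = ‖β‖ ^ (N - 1) * ‖β‖ := by
    rw [← pow_succ, Nat.sub_add_cancel (by omega)]
  have h5 : ‖β‖ ^ (N - 1) * ‖β‖ ≤ (2 * N - 1) * ‖β‖ := by
    rw [← h4]
    nlinarith
  exact le_of_mul_le_mul_right h5 (by linarith)

theorem root_der {N : ℕ} (hN : 4 ≤ N) {β : ℂ} (h : aeval β (SS N) = 0) :
    (N : ℂ) * (N - 1) = β * (β - 1) * aeval β (derivative (SS N)) := by
  have h1 := congrArg (aeval β) (SS_key (N := N) (by omega))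
  rw [map_add, map_mul (aeval β) (_ - _) (SS N), h, mul_zero, add_zero, aeval_C] at h1
  simp only [map_mul, map_sub, map_one, aeval_X] at h1
  rw [← h1]
  simp

theorem exists_enum {N : ℕ} {G H : ℤ[X]} (hf : Fac N G H) : ∃ β : Fin G.natDegree → ℂ, Enum N G β := by
  classical
  set P : ℂ[X] := G.map (Int.castRingHom ℂ) with hP
  have hPm : P.Monic := hf.mG.map _
  have hPd : P.natDegree = G.natDegree := hf.mG.natDegree_map _
  have hsp : P.Splits := IsAlgClosed.splits P
  have hroot : ∀ b ∈ P.roots, aeval b G = 0 := by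
    intro b hb
    have h1 := (mem_roots hPm.ne_zero).1 hb
    rw [IsRoot.def, hP, eval_map, ← algebraMap_int_eq, ← aeval_def] at h1
    exact h1
  have hrootS : ∀ b ∈ P.roots, aeval b (SS N) = 0 := by
    intro b hb
    rw [← hf.mul, map_mul, hroot b hb, zero_mul]
  have hnd : P.roots.Nodup := by
    rw [Multiset.nodup_iff_count_le_one]
    intro b
    by_cases hb : b ∈ P.roots
    · rw [count_roots]
      by_contra hc
      push Not at hc
      have h1 := ((one_lt_rootMultiplicity_iff_isRoot hPm.ne_zero).1 hc).2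
      rw [IsRoot.def, hP, derivative_map, eval_map, ← algebraMap_int_eq, ← aeval_def] at h1
      have h2 := root_der hf.hN (hrootS b hb)
      rw [← hf.mul, derivative_mul, map_add, map_mul, map_mul, h1, hroot b hb, zero_mul, zero_mul, add_zero,
        mul_zero] at h2
      have h3 : (4 : ℝ) ≤ N := by exact_mod_cast hf.hN
      have h4 : ((N : ℝ) * (N - 1) : ℝ) = 0 := by exact_mod_cast h2
      have h5 : 0 < (N : ℝ) * (N - 1) := mul_pos (by linarith) (by linarith)
      linarith
    · rw [Multiset.count_eq_zero_of_notMem hb]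
      exact zero_le_one
  have hcard : P.roots.toFinset.card = G.natDegree := by
    rw [Multiset.toFinset_card_of_nodup hnd, ← hsp.natDegree_eq_card_roots, hPd]
  let e : Fin G.natDegree ≃ P.roots.toFinset := (P.roots.toFinset.equivFinOfCardEq hcard).symm
  refine ⟨fun i => (e i : ℂ), ?_, ?_, ?_⟩
  · exact Subtype.val_injective.comp e.injective
  · have h1 : ∏ i, (X - C ((e i : ℂ))) = ∏ x : P.roots.toFinset, (X - C (x : ℂ)) :=
      Fintype.prod_equiv e _ _ fun _ => rfl
    rw [h1, Finset.prod_coe_sort P.roots.toFinset fun x => X - C x]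
    have h2 := hsp.eq_prod_roots_of_monic hPm
    conv_lhs => rw [← hP, h2]
    rw [Finset.prod, Multiset.toFinset_val, Multiset.dedup_eq_self.2 hnd]
  · intro i
    exact hrootS _ (Multiset.mem_toFinset.1 (e i).2)

end Pool.Agent.Helper14.IR
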